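import Mathlib

/-! Module Scalar: two scalar lemmas (E4 chord inequality, E6 harmonic lemma) and D3. -/

set_option autoImplicit false

open Set Filter Topology

namespace Pool.Agent.Helper50.HL

theorem log_chord {x θ : ℝ} (h0 : 0 < θ) (h1 : θ < 1) (hx : |x| ≤ θ) :
    (θ - x) / (2 * θ) * Real.log (1 - θ) + (θ + x) / (2 * θ) * Real.log (1 + θ) ≤
      Real.log (1 + x) := by
  have hx' := abs_le.1 hx
  have h := strictConcaveOn_log_Ioi.concaveOn.2
    (show (1 - θ) ∈ Ioi (0 : ℝ) from show (0 : ℝ) < 1 - θ by linarith)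
    (show (1 + θ) ∈ Ioi (0 : ℝ) from show (0 : ℝ) < 1 + θ by linarith)
    (show 0 ≤ (θ - x) / (2 * θ) from div_nonneg (by linarith [hx'.2]) (by linarith))
    (show 0 ≤ (θ + x) / (2 * θ) from div_nonneg (by linarith [hx'.1]) (by linarith))
    (by field_simp; ring)
  simp only [smul_eq_mul] at h
  have e : (θ - x) / (2 * θ) * (1 - θ) + (θ + x) / (2 * θ) * (1 + θ) = 1 + x := by
    field_simp
    ring
  rwa [e] at h

/-- E4: chord inequality. -/
theorem chord_ineq {ι : Type*} [Fintype ι] (l : ι → ℝ) (c : ι → ℂ) {θ : ℝ} (h0 : 0 ≤ θ)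
    (h1 : θ < 1) (hl : ∀ i, 0 ≤ l i) (hsum : ∑ i, l i = 1) (hc : ∀ i, ‖c i‖ ≤ θ)
    (hz : ∑ i, (l i : ℂ) * c i = 0) :
    Real.log (1 - θ ^ 2) / 2 ≤ ∑ i, l i * Real.log ‖1 + c i‖ := by
  rcases h0.eq_or_lt with rfl | h0
  · have hc0 : ∀ i, c i = 0 := fun i => norm_le_zero_iff.1 (hc i)
    simp [hc0]
  have hre : ∑ i, l i * (c i).re = 0 := by
    have := congrArg Complex.re hz
    simpa using this
  have habs : ∀ i, |(c i).re| ≤ θ := fun i => (Complex.abs_re_le_norm _).trans (hc i)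
  have hpt : ∀ i, (θ - (c i).re) / (2 * θ) * Real.log (1 - θ) +
      (θ + (c i).re) / (2 * θ) * Real.log (1 + θ) ≤ Real.log ‖1 + c i‖ := by
    intro i
    refine (log_chord h0 h1 (habs i)).trans (Real.log_le_log ?_ ?_)
    · have := (abs_le.1 (habs i)).1
      linarith
    · have h2 : (1 + c i).re = 1 + (c i).re := by simp
      rw [← h2]
      exact Complex.re_le_norm _
  have h3 : ∑ i, l i * ((θ - (c i).re) / (2 * θ) * Real.log (1 - θ) +
      (θ + (c i).re) / (2 * θ) * Real.log (1 + θ)) ≤ ∑ i, l i * Real.log ‖1 + c i‖ :=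
    Finset.sum_le_sum fun i _ => mul_le_mul_of_nonneg_left (hpt i) (hl i)
  have h4 : ∑ i, l i * ((θ - (c i).re) / (2 * θ) * Real.log (1 - θ) +
      (θ + (c i).re) / (2 * θ) * Real.log (1 + θ)) =
      (Real.log (1 - θ) + Real.log (1 + θ)) / 2 * ∑ i, l i +
      (Real.log (1 + θ) - Real.log (1 - θ)) / (2 * θ) * ∑ i, l i * (c i).re := by
    rw [Finset.mul_sum, Finset.mul_sum, ← Finset.sum_add_distrib]
    refine Finset.sum_congr rfl fun i _ => ?_
    field_simp
    ring
  have h5 : Real.log (1 - θ ^ 2) = Real.log (1 - θ) + Real.log (1 + θ) := by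
    rw [← Real.log_mul (by linarith) (by linarith)]
    congr 1
    ring
  rw [h4, hsum, hre] at h3
  rw [h5]
  linarith

/-- E6: harmonic lemma. -/
theorem harmonic_lemma {ι : Type*} [Fintype ι] (l : ι → ℝ) (a : ι → ℂ) (hl : ∀ i, 0 < l i)
    (ha : ∀ i, ‖a i‖ ≤ 1) {j : ι} (hj : a j = -1) :
    ¬ ∀ᶠ ζ in 𝓝 (0 : ℂ), 0 ≤ ∑ i, l i * Real.log ‖1 + ζ * a i‖ := by
  classical
  intro hev
  set F : ℂ → ℂ := fun ζ => Complex.exp (-∑ i, (l i : ℂ) * Complex.log (1 + ζ * a i)) with hF
  have hslit : ∀ ζ : ℂ, ‖ζ‖ < 1 → ∀ i, 1 + ζ * a i ∈ Complex.slitPlane := by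
    intro ζ hζ i
    apply Complex.mem_slitPlane_of_norm_lt_one
    rw [norm_mul]
    calc ‖ζ‖ * ‖a i‖ ≤ ‖ζ‖ * 1 := by
          exact mul_le_mul_of_nonneg_left (ha i) (norm_nonneg _)
      _ < 1 := by linarith
  have hdiff : DifferentiableOn ℂ F (Metric.ball 0 1) := by
    intro ζ hζ
    rw [Metric.mem_ball, dist_zero_right] at hζ
    apply DifferentiableAt.differentiableWithinAt
    apply DifferentiableAt.cexp
    apply DifferentiableAt.neg
    refine DifferentiableAt.fun_sum fun i _ => ?_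
    exact (DifferentiableAt.clog (f := fun ζ => 1 + ζ * a i) (by fun_prop)
      (hslit ζ hζ i)).const_mul _
  have hnorm : ∀ ζ, ‖F ζ‖ = Real.exp (-∑ i, l i * Real.log ‖1 + ζ * a i‖) := by
    intro ζ
    rw [hF]
    simp only [Complex.norm_exp, Complex.neg_re, Complex.re_sum]
    congr 2
    refine Finset.sum_congr rfl fun i _ => ?_
    rw [Complex.re_ofReal_mul, Complex.log_re]
  have hF0 : F 0 = 1 := by
    rw [hF]
    simp
  have hmax : IsLocalMax (norm ∘ F) 0 := by
    filter_upwards [hev] with ζ hζ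
    simp only [Function.comp_apply]
    rw [hF0, norm_one, hnorm]
    exact Real.exp_le_one_iff.2 (neg_nonpos.2 hζ)
  have hball : Metric.ball (0 : ℂ) 1 ∈ 𝓝 (0 : ℂ) := Metric.ball_mem_nhds _ one_pos
  have hda : ∀ᶠ ζ in 𝓝 (0 : ℂ), DifferentiableAt ℂ F ζ := by
    filter_upwards [Metric.isOpen_ball.mem_nhds (Metric.mem_ball_self one_pos)] with ζ hζ
    exact hdiff.differentiableAt (Metric.isOpen_ball.mem_nhds hζ)
  have heq := Complex.eventually_eq_of_isLocalMax_norm hda hmax
  have hone : EqOn F (fun _ => 1) (Metric.ball 0 1) := by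
    refine AnalyticOnNhd.eqOn_of_preconnected_of_eventuallyEq
      (hdiff.analyticOnNhd Metric.isOpen_ball) analyticOnNhd_const
      (convex_ball _ _).isPreconnected (Metric.mem_ball_self one_pos) ?_
    filter_upwards [heq] with ζ hζ
    rw [hζ, hF0]
  -- behaviour at 1
  set L : ℝ := ∑ i, l i with hL
  have hLpos : 0 ≤ L := Finset.sum_nonneg fun i _ => (hl i).le
  set m : ℝ := (L * Real.log 2 + 1) / l j with hm
  have hlog2 : 0 < Real.log 2 := Real.log_pos (by norm_num)
  have hmpos : 0 < m := div_pos (by positivity) (hl j)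
  set t : ℝ := 1 - Real.exp (-m) with ht
  have hexp : 0 < Real.exp (-m) := Real.exp_pos _
  have hexp1 : Real.exp (-m) < 1 := by
    rw [← Real.exp_zero]
    exact Real.exp_lt_exp.2 (by linarith)
  have ht0 : 0 < t := by linarith
  have ht1 : t < 1 := by linarith
  have h1 : F (t : ℂ) = 1 := hone (by
    rw [Metric.mem_ball, dist_zero_right, Complex.norm_real, Real.norm_eq_abs, abs_of_pos ht0]
    exact ht1)
  have h2 := hnorm (t : ℂ)
  rw [h1, norm_one] at h2
  have h3 : ∑ i, l i * Real.log ‖1 + (t : ℂ) * a i‖ = 0 := by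
    have := Real.exp_eq_one_iff _ |>.1 h2.symm
    linarith
  have h4 : ∀ i, l i * Real.log ‖1 + (t : ℂ) * a i‖ ≤ l i * Real.log 2 := by
    intro i
    apply mul_le_mul_of_nonneg_left _ (hl i).le
    apply Real.log_le_log
    · rw [norm_pos_iff]
      exact Complex.slitPlane_ne_zero (hslit _ (by
        rw [Complex.norm_real, Real.norm_eq_abs, abs_of_pos ht0]
        exact ht1) i)
    · calc ‖1 + (t : ℂ) * a i‖ ≤ ‖(1 : ℂ)‖ + ‖(t : ℂ) * a i‖ := norm_add_le _ _
        _ = 1 + t * ‖a i‖ := by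
            rw [norm_one, norm_mul, Complex.norm_real, Real.norm_eq_abs, abs_of_pos ht0]
        _ ≤ 1 + 1 * 1 := by
            have := mul_le_mul ht1.le (ha i) (norm_nonneg _) zero_le_one
            linarith
        _ = 2 := by norm_num
  have h5 : l j * Real.log ‖1 + (t : ℂ) * a j‖ = -(L * Real.log 2 + 1) := by
    rw [hj]
    have e : (1 : ℂ) + (t : ℂ) * (-1) = ((Real.exp (-m) : ℝ) : ℂ) := by
      rw [ht]
      push_cast
      ring
    rw [e, Complex.norm_real, Real.norm_eq_abs, abs_of_pos hexp, Real.log_exp, hm]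
    have := (hl j).ne'
    field_simp
  have h6 : ∑ i, l i * Real.log ‖1 + (t : ℂ) * a i‖ ≤
      -(L * Real.log 2 + 1) + L * Real.log 2 := by
    rw [← Finset.add_sum_erase _ _ (Finset.mem_univ j), h5]
    have h7 : ∑ i ∈ Finset.univ.erase j, l i * Real.log ‖1 + (t : ℂ) * a i‖ ≤
        ∑ i ∈ Finset.univ.erase j, l i * Real.log 2 := Finset.sum_le_sum fun i _ => h4 i
    have h8 : ∑ i ∈ Finset.univ.erase j, l i * Real.log 2 ≤ ∑ i, l i * Real.log 2 :=
      Finset.sum_le_sum_of_subset_of_nonneg (Finset.erase_subset _ _)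
        fun i _ _ => mul_nonneg (hl i).le hlog2.le
    have h9 : ∑ i, l i * Real.log 2 = L * Real.log 2 := by rw [hL, Finset.sum_mul]
    linarith
  linarith

/-- D3: a continuous function on an interval with local convex supports is convex. -/
theorem convexOn_of_local_support {f : ℝ → ℝ} {a b : ℝ} (hf : ContinuousOn f (Icc a b))
    (h : ∀ t ∈ Ioo a b, ∃ g : ℝ → ℝ, ConvexOn ℝ (Icc a b) g ∧ g t = f t ∧
      ∀ᶠ s in 𝓝 t, g s ≤ f s) : ConvexOn ℝ (Icc a b) f := by
  refine LinearOrder.convexOn_of_lt (convex_Icc a b) ?_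
  intro x hx y hy hxy α β hα hβ hαβ
  simp only [smul_eq_mul]
  by_contra hcon
  push Not at hcon
  set ℓ : ℝ → ℝ := fun s => f x + (f y - f x) / (y - x) * (s - x) with hℓ
  have hyx : y - x ≠ 0 := by linarith
  have hℓx : ℓ x = f x := by simp [hℓ]
  have hℓy : ℓ y = f y := by
    rw [hℓ]
    field_simp
    ring
  set φ : ℝ → ℝ := fun s => f s - ℓ s with hφ
  have hsub : Icc x y ⊆ Icc a b := Icc_subset_Icc hx.1 hy.2
  have hcont : ContinuousOn φ (Icc x y) :=
    (hf.mono hsub).sub (by rw [hℓ]; fun_prop)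
  have hne : (Icc x y).Nonempty := nonempty_Icc.2 hxy.le
  obtain ⟨t0, ht0, hmax⟩ := isCompact_Icc.exists_isMaxOn hne hcont
  set m := φ t0 with hm
  have hmax' : ∀ s ∈ Icc x y, φ s ≤ m := fun s hs => hmax hs
  have hz : α * x + β * y ∈ Icc x y := by
    have hβ1 : β * (y - x) ≤ 1 * (y - x) :=
      mul_le_mul_of_nonneg_right (by linarith) (by linarith)
    have hβ0 : 0 ≤ β * (y - x) := mul_nonneg hβ.le (by linarith)
    have e0 : α * x + β * y = x + β * (y - x) := by
      rw [show α = 1 - β by linarith]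
      ring
    rw [e0]
    constructor <;> linarith
  have hzpos : 0 < φ (α * x + β * y) := by
    have e : ℓ (α * x + β * y) = α * f x + β * f y := by
      rw [hℓ]
      simp only
      have hα' : α = 1 - β := by linarith
      rw [hα']
      field_simp
      ring
    rw [hφ]
    simp only
    rw [e]
    linarith
  have hmpos : 0 < m := hzpos.trans_le (hmax' _ hz)
  set S : Set ℝ := Icc x y ∩ φ ⁻¹' {m} with hS
  have hSc : IsCompact S := by
    have : IsClosed S := hcont.preimage_isClosed_of_isClosed isClosed_Icc isClosed_singleton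
    exact isCompact_Icc.of_isClosed_subset this inter_subset_left
  have hSne : S.Nonempty := ⟨t0, ht0, rfl⟩
  set t := sSup S with ht
  have htS : t ∈ S := hSc.sSup_mem hSne
  have htm : φ t = m := htS.2
  have htx : x < t := by
    refine lt_of_le_of_ne htS.1.1 ?_
    intro h'
    rw [← h'] at htm
    rw [hφ] at htm
    simp only at htm
    rw [hℓx] at htm
    linarith
  have hty : t < y := by
    refine lt_of_le_of_ne htS.1.2 ?_
    intro h'
    rw [h'] at htm
    rw [hφ] at htm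
    simp only at htm
    rw [hℓy] at htm
    linarith
  obtain ⟨g, hg, hgt, hgle⟩ := h t ⟨hx.1.trans_lt htx, hty.trans_le hy.2⟩
  obtain ⟨ε, hε, hball⟩ := Metric.eventually_nhds_iff.1
    (hgle.and (Ioo_mem_nhds htx hty))
  have hs1 : dist (t + ε / 2) t < ε := by
    rw [Real.dist_eq, add_sub_cancel_left, abs_of_pos (by linarith)]
    linarith
  have hs2 : dist (t - ε / 2) t < ε := by
    rw [Real.dist_eq, show t - ε / 2 - t = -(ε / 2) by ring, abs_neg, abs_of_pos (by linarith)]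
    linarith
  obtain ⟨h1, h1'⟩ := hball hs1
  obtain ⟨h2, h2'⟩ := hball hs2
  have h1I : t + ε / 2 ∈ Icc x y := Ioo_subset_Icc_self h1'
  have h2I : t - ε / 2 ∈ Icc x y := Ioo_subset_Icc_self h2'
  have hconv := hg.2 (hsub h1I) (hsub h2I) (show (0 : ℝ) ≤ 1 / 2 by norm_num)
    (show (0 : ℝ) ≤ 1 / 2 by norm_num) (by norm_num)
  simp only [smul_eq_mul] at hconv
  rw [show 1 / 2 * (t + ε / 2) + 1 / 2 * (t - ε / 2) = t by ring, hgt] at hconv
  have h3 := hmax' _ h1I
  have h4 := hmax' _ h2I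
  have e1 : ℓ (t + ε / 2) + ℓ (t - ε / 2) = 2 * ℓ t := by
    rw [hℓ]
    ring
  have h5 : f (t + ε / 2) = φ (t + ε / 2) + ℓ (t + ε / 2) := by rw [hφ]; ring
  have h6 : f (t - ε / 2) = φ (t - ε / 2) + ℓ (t - ε / 2) := by rw [hφ]; ring
  have h7 : f t = m + ℓ t := by rw [← htm, hφ]; ring
  have h8 : φ (t + ε / 2) = m := by
    apply le_antisymm h3
    linarith
  have h9 : t + ε / 2 ∈ S := ⟨h1I, h8⟩
  have h10 := le_csSup hSc.bddAbove h9
  rw [← ht] at h10
  linarith

/-- A real affine function below a convex function near one point where they agree is below it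
everywhere. -/
theorem affine_le_of_local {f : ℝ → ℝ} {I : Set ℝ} (hf : ConvexOn ℝ I f) {t p r : ℝ}
    (ht : t ∈ I) (heq : p * t + r = f t) (hloc : ∀ᶠ s in 𝓝 t, s ∈ I → p * s + r ≤ f s) :
    ∀ s ∈ I, p * s + r ≤ f s := by
  intro s hs
  have hc : Tendsto (fun lam : ℝ => t + lam * (s - t)) (𝓝[>] 0) (𝓝 t) := by
    have : Tendsto (fun lam : ℝ => t + lam * (s - t)) (𝓝 0) (𝓝 (t + 0 * (s - t))) := by
      apply Continuous.tendsto
      fun_prop
    rw [zero_mul, add_zero] at this
    exact this.mono_left nhdsWithin_le_nhds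
  have h1 : ∀ᶠ lam : ℝ in 𝓝[>] 0, lam < 1 :=
    mem_nhdsWithin_of_mem_nhds (Iio_mem_nhds one_pos)
  obtain ⟨lam, hlam, hlam1, hpos⟩ :=
    ((hc.eventually hloc).and (h1.and self_mem_nhdsWithin)).exists
  have hpos' : 0 < lam := hpos
  have hmem : t + lam * (s - t) ∈ I := by
    have := hf.1 ht hs (show (0 : ℝ) ≤ 1 - lam by linarith) hpos'.le (by ring)
    simp only [smul_eq_mul] at this
    rwa [show t + lam * (s - t) = (1 - lam) * t + lam * s by ring]
  have h2 := hlam hmem
  have h3 := hf.2 ht hs (show (0 : ℝ) ≤ 1 - lam by linarith) hpos'.le (by ring)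
  simp only [smul_eq_mul] at h3
  rw [show (1 - lam) * t + lam * s = t + lam * (s - t) by ring] at h3
  have h4 : lam * (p * s + r) ≤ lam * f s := by
    rw [← heq] at h3
    nlinarith
  exact le_of_mul_le_mul_left h4 hpos'

end Pool.Agent.Helper50.HL
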