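import Pool.Agent.Helper50.HL.Defs

/-! Module Charts: star domains and sections of a local homeomorphism (part A of the proof). -/

set_option autoImplicit false

open Set Filter Topology

namespace Pool.Agent.Helper50.HL

variable {V Y : Type*} [NormedAddCommGroup V] [NormedSpace ℝ V] [TopologicalSpace Y] {dev : Y → V}

/-- A1: sections over a preconnected set which agree at one point agree. -/
theorem IsSec.eqOn [T2Space Y] (hdev : IsLocalHomeomorph dev) {C : Set V} (hC : IsPreconnected C)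
    {s t : V → Y} (hs : IsSec dev C s) (ht : IsSec dev C t) {x : V} (hx : x ∈ C)
    (h : s x = t x) : EqOn s t C :=
  (T2Space.isSeparatedMap dev).eqOn_of_comp_eqOn hdev.isLocallyInjective hC hs.1 ht.1
    (fun a ha => by
      change dev (s a) = dev (t a)
      rw [hs.2 a ha, ht.2 a ha]) hx h

theorem IsSec.mono {C C' : Set V} {s : V → Y} (hs : IsSec dev C s) (h : C' ⊆ C) :
    IsSec dev C' s := ⟨hs.1.mono h, fun x hx => hs.2 x (h hx)⟩

/-- a local section over a ball, which is also a local inverse -/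
theorem exists_ball_sec (hdev : IsLocalHomeomorph dev) (y : Y) :
    ∃ ε : ℝ, 0 < ε ∧ ∃ s : V → Y, IsSec dev (Metric.ball (dev y) ε) s ∧ s (dev y) = y ∧
      ∀ᶠ y' in 𝓝 y, s (dev y') = y' := by
  obtain ⟨e, hy, he⟩ := hdev y
  have hy' : dev y ∈ e.target := by rw [he]; exact e.map_source hy
  obtain ⟨ε, hε, hball⟩ := Metric.isOpen_iff.mp e.open_target (dev y) hy'
  refine ⟨ε, hε, e.symm, ⟨e.symm.continuousOn.mono (by simpa using hball), ?_⟩, ?_, ?_⟩
  · intro x hx
    rw [he]
    exact e.right_inv (hball hx)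
  · rw [he]; exact e.left_inv hy
  · filter_upwards [e.open_source.mem_nhds hy] with y' h'
    rw [he]; exact e.left_inv h'

theorem mem_dom_self (hdev : IsLocalHomeomorph dev) (y : Y) : dev y ∈ dom dev y := by
  obtain ⟨ε, hε, s, hs, hsy, -⟩ := exists_ball_sec hdev y
  exact ⟨Metric.ball (dev y) ε, Metric.isOpen_ball, convex_ball _ _, Metric.mem_ball_self hε,
    Metric.mem_ball_self hε, s, hs, hsy⟩

theorem isOpen_dom (y : Y) : IsOpen (dom dev y) := by
  rw [isOpen_iff_mem_nhds]
  rintro x ⟨C, hC, hconv, hy, hx, s, hs, hsy⟩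
  exact Filter.mem_of_superset (hC.mem_nhds hx) fun x' hx' => ⟨C, hC, hconv, hy, hx', s, hs, hsy⟩

theorem starConvex_dom (y : Y) : StarConvex ℝ (dev y) (dom dev y) := by
  rw [starConvex_iff_segment_subset]
  rintro x ⟨C, hC, hconv, hy, hx, s, hs, hsy⟩ x' hx'
  exact ⟨C, hC, hconv, hy, hconv.segment_subset hy hx hx', s, hs, hsy⟩

/-- the key lemma -/
theorem chart_convex [T2Space Y] (hdev : IsLocalHomeomorph dev) {y : Y} {C : Set V}
    (hC : IsOpen C) (hconv : Convex ℝ C) (hy : dev y ∈ C) {s : V → Y} (hs : IsSec dev C s)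
    (h : s (dev y) = y) : C ⊆ dom dev y ∧ EqOn s (sec dev y) C := by
  have hsub : C ⊆ dom dev y := fun x hx => ⟨C, hC, hconv, hy, hx, s, hs, h⟩
  refine ⟨hsub, fun x hx => ?_⟩
  have hd : x ∈ dom dev y := hsub hx
  unfold sec
  rw [dif_pos hd]
  have h1 := hd.choose_spec.2.2.2.2.choose_spec
  have h2 := hd.choose_spec.2.1
  have h3 := hd.choose_spec.2.2.1
  have h4 := hd.choose_spec.2.2.2.1
  exact IsSec.eqOn hdev (hconv.inter h2).isPreconnected (hs.mono inter_subset_left)
    (h1.1.mono inter_subset_right) ⟨hy, h3⟩ (by rw [h, h1.2]) ⟨hx, h4⟩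

theorem sec_self [T2Space Y] (hdev : IsLocalHomeomorph dev) (y : Y) :
    sec dev y (dev y) = y := by
  obtain ⟨ε, hε, s, hs, hsy, -⟩ := exists_ball_sec hdev y
  have h := (chart_convex hdev Metric.isOpen_ball (convex_ball _ _) (Metric.mem_ball_self hε) hs
    hsy).2 (Metric.mem_ball_self hε)
  rw [← h, hsy]

/-- A2: `sec dev y` is a continuous section over `dom dev y`. -/
theorem isSec_sec [T2Space Y] (hdev : IsLocalHomeomorph dev) (y : Y) :
    IsSec dev (dom dev y) (sec dev y) := by
  constructor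
  · rintro x ⟨C, hC, hconv, hy, hx, s, hs, hsy⟩
    have h := (chart_convex hdev hC hconv hy hs hsy).2
    have h1 : ContinuousAt s x := hs.1.continuousAt (hC.mem_nhds hx)
    refine ContinuousAt.continuousWithinAt (h1.congr ?_)
    filter_upwards [hC.mem_nhds hx] with x' hx'
    exact h hx'
  · rintro x ⟨C, hC, hconv, hy, hx, s, hs, hsy⟩
    have h := (chart_convex hdev hC hconv hy hs hsy).2
    rw [← h hx]
    exact hs.2 x hx

theorem dev_sec [T2Space Y] (hdev : IsLocalHomeomorph dev) {y : Y} {x : V}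
    (hx : x ∈ dom dev y) : dev (sec dev y x) = x := (isSec_sec hdev y).2 x hx

theorem isCompact_seg (a b : V) : IsCompact (segment ℝ a b) := by
  rw [segment_eq_image_lineMap]
  exact isCompact_Icc.image AffineMap.lineMap_continuous

/-- a segment in an open set has a convex open neighbourhood in it -/
theorem exists_convex_nhd {a b : V} {U : Set V} (hU : IsOpen U) (h : segment ℝ a b ⊆ U) :
    ∃ D : Set V, IsOpen D ∧ Convex ℝ D ∧ segment ℝ a b ⊆ D ∧ D ⊆ U := by
  obtain ⟨δ, hδ, hsub⟩ := (isCompact_seg a b).exists_thickening_subset_open hU h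
  exact ⟨Metric.thickening δ (segment ℝ a b), Metric.isOpen_thickening,
    (convex_segment a b).thickening δ, Metric.self_subset_thickening hδ _, hsub⟩

/-- A3. -/
theorem chart [T2Space Y] (hdev : IsLocalHomeomorph dev) {y : Y} {C : Set V} (hC : IsOpen C)
    (hst : StarConvex ℝ (dev y) C) (hy : dev y ∈ C) {s : V → Y} (hs : IsSec dev C s)
    (h : s (dev y) = y) : C ⊆ dom dev y ∧ EqOn s (sec dev y) C := by
  have key : ∀ x ∈ C, x ∈ dom dev y ∧ s x = sec dev y x := by
    intro x hx
    obtain ⟨D, hD, hDc, hsD, hDC⟩ := exists_convex_nhd hC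
      ((starConvex_iff_segment_subset.mp hst) hx)
    have := chart_convex hdev hD hDc (hsD (left_mem_segment ℝ _ _)) (hs.mono hDC) h
    exact ⟨this.1 (hsD (right_mem_segment ℝ _ _)), this.2 (hsD (right_mem_segment ℝ _ _))⟩
  exact ⟨fun x hx => (key x hx).1, fun x hx => (key x hx).2⟩

/-- A4. -/
theorem rebase [T2Space Y] (hdev : IsLocalHomeomorph dev) {y : Y} {C : Set V} (hC : IsOpen C)
    (hconv : Convex ℝ C) (hy : dev y ∈ C) (hCd : C ⊆ dom dev y) {x : V} (hx : x ∈ C) :
    C ⊆ dom dev (sec dev y x) ∧ EqOn (sec dev (sec dev y x)) (sec dev y) C := by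
  have h1 : dev (sec dev y x) = x := dev_sec hdev (hCd hx)
  have h2 := chart_convex hdev (y := sec dev y x) hC hconv (by rw [h1]; exact hx)
    ((isSec_sec hdev y).mono hCd) (by rw [h1])
  exact ⟨h2.1, h2.2.symm⟩

/-- A5. -/
theorem glue [T2Space Y] (hdev : IsLocalHomeomorph dev) {y y' : Y} {C C' : Set V} (hC : IsOpen C)
    (hconv : Convex ℝ C) (hy : dev y ∈ C) (hCd : C ⊆ dom dev y) (hC' : IsOpen C')
    (hconv' : Convex ℝ C') (hy' : dev y' ∈ C') (hCd' : C' ⊆ dom dev y') {x : V} (hx : x ∈ C)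
    (hx' : x ∈ C') (h : sec dev y x = sec dev y' x) {b : V}
    (hb : segment ℝ (dev y) b ⊆ C ∪ C') :
    b ∈ dom dev y ∧ (b ∈ C' → sec dev y b = sec dev y' b) := by
  classical
  have hs := (isSec_sec hdev y).mono hCd
  have hs' := (isSec_sec hdev y').mono hCd'
  have hagree : EqOn (sec dev y) (sec dev y') (C ∩ C') :=
    IsSec.eqOn hdev (hconv.inter hconv').isPreconnected (hs.mono inter_subset_left)
      (hs'.mono inter_subset_right) ⟨hx, hx'⟩ h
  set t : V → Y := fun z => if z ∈ C then sec dev y z else sec dev y' z with ht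
  have htC : ∀ z ∈ C, t z = sec dev y z := fun z hz => if_pos hz
  have htC' : ∀ z ∈ C', t z = sec dev y' z := by
    intro z hz
    by_cases hzC : z ∈ C
    · rw [htC z hzC]; exact hagree ⟨hzC, hz⟩
    · exact if_neg hzC
  have hsec : IsSec dev (C ∪ C') t := by
    constructor
    · rintro z (hz | hz)
      · refine ContinuousAt.continuousWithinAt ((hs.1.continuousAt (hC.mem_nhds hz)).congr ?_)
        filter_upwards [hC.mem_nhds hz] with z' hz'
        exact (htC z' hz').symm
      · refine ContinuousAt.continuousWithinAt ((hs'.1.continuousAt (hC'.mem_nhds hz)).congr ?_)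
        filter_upwards [hC'.mem_nhds hz] with z' hz'
        exact (htC' z' hz').symm
    · rintro z (hz | hz)
      · rw [htC z hz]; exact hs.2 z hz
      · rw [htC' z hz]; exact hs'.2 z hz
  obtain ⟨D, hD, hDc, hsD, hDC⟩ := exists_convex_nhd (hC.union hC') hb
  have h1 := chart_convex hdev hD hDc (hsD (left_mem_segment ℝ _ _)) (hsec.mono hDC)
    (by rw [htC _ hy]; exact sec_self hdev y)
  have hbD := hsD (right_mem_segment ℝ (dev y) b)
  refine ⟨h1.1 hbD, fun hbC' => ?_⟩
  rw [← h1.2 hbD, htC' b hbC']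

/-- Sections of `y` and of `sec dev y x` agree at `x'` if the segment `[x, x']` lies in both
domains. -/
theorem sec_sec_of_segment [T2Space Y] (hdev : IsLocalHomeomorph dev) {y : Y} {x x' : V}
    (hx : x ∈ dom dev y) (h1 : segment ℝ x x' ⊆ dom dev y)
    (h2 : segment ℝ x x' ⊆ dom dev (sec dev y x)) :
    sec dev (sec dev y x) x' = sec dev y x' := by
  have h3 : sec dev (sec dev y x) x = sec dev y x := by
    have h4 := sec_self hdev (sec dev y x)
    rwa [dev_sec hdev hx] at h4
  exact IsSec.eqOn hdev (convex_segment x x').isPreconnected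
    ((isSec_sec hdev (sec dev y x)).mono h2) ((isSec_sec hdev y).mono h1)
    (left_mem_segment ℝ _ _) h3 (right_mem_segment ℝ _ _)

/-- If `b` is seen from `x = dev y'` inside an open convex set `C'` of `dom dev y'` and
`y' = sec dev y x`, and `b` lies behind `x` on the ray from `dev y`, then `b ∈ dom dev y`. -/
theorem mem_dom_of_ray [T2Space Y] (hdev : IsLocalHomeomorph dev) {y : Y} {x b : V}
    (hx : x ∈ dom dev y) (hxb : x ∈ segment ℝ (dev y) b) {C' : Set V} (hC' : IsOpen C')
    (hconv' : Convex ℝ C') (hxC : x ∈ C') (hCd' : C' ⊆ dom dev (sec dev y x)) (hbC : b ∈ C') :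
    b ∈ dom dev y := by
  obtain ⟨C, hC, hconv, hy, hxC0, s, hs, hsy⟩ := hx
  have hsub := (chart_convex hdev hC hconv hy hs hsy).1
  have hx : x ∈ dom dev y := hsub hxC0
  have hdx := dev_sec hdev hx
  have h3 : sec dev (sec dev y x) x = sec dev y x := by
    have h4 := sec_self hdev (sec dev y x)
    rwa [hdx] at h4
  refine (glue hdev hC hconv hy hsub hC' hconv' (by rw [hdx]; exact hxC) hCd' hxC0 hxC h3.symm
    ?_).1
  have h5 : segment ℝ (dev y) b ⊆ segment ℝ (dev y) x ∪ segment ℝ x b := by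
    rw [segment_eq_image_lineMap] at hxb ⊢
    obtain ⟨t0, ht0, rfl⟩ := hxb
    rintro _ ⟨t, ht, rfl⟩
    rcases le_total t t0 with h | h
    · left
      rw [segment_eq_image_lineMap]
      rcases eq_or_lt_of_le ht0.1 with h0 | h0
      · refine ⟨0, ⟨le_rfl, zero_le_one⟩, ?_⟩
        have : t = t0 := le_antisymm h (by rw [← h0]; exact ht.1)
        rw [this, ← h0]
        simp
      · refine ⟨t / t0, ⟨div_nonneg ht.1 h0.le, (div_le_one h0).mpr h⟩, ?_⟩
        simp only [AffineMap.lineMap_apply, vsub_eq_sub, vadd_eq_add, add_sub_cancel_right,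
          smul_smul, div_mul_cancel₀ t h0.ne']
    · right
      rw [segment_symm, segment_eq_image_lineMap]
      rcases eq_or_lt_of_le ht0.2 with h0 | h0
      · refine ⟨0, ⟨le_rfl, zero_le_one⟩, ?_⟩
        have : t = 1 := le_antisymm ht.2 (by rw [← h0]; exact h)
        rw [this]
        simp
      · have h1 : 0 < 1 - t0 := by linarith
        refine ⟨(1 - t) / (1 - t0), ⟨div_nonneg (by linarith [ht.2]) h1.le,
          (div_le_one h1).mpr (by linarith)⟩, ?_⟩
        simp only [AffineMap.lineMap_apply, vsub_eq_sub, vadd_eq_add]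
        have h2 : t0 • (b - dev y) + dev y - b = (1 - t0) • (dev y - b) := by
          module
        rw [h2, smul_smul, div_mul_cancel₀ _ h1.ne']
        module
  exact h5.trans (union_subset_union (hconv.segment_subset hy hxC0)
    (hconv'.segment_subset hxC hbC))

/-- A6. -/
theorem near [T2Space Y] (hdev : IsLocalHomeomorph dev) (y : Y) :
    ∀ᶠ y' in 𝓝 y, dev y' ∈ dom dev y ∧ sec dev y (dev y') = y' ∧ dev y ∈ dom dev y' ∧
      sec dev y' (dev y) = y := by
  obtain ⟨ε, hε, s, hs, hsy, hev⟩ := exists_ball_sec hdev y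
  have hself := Metric.mem_ball_self (x := dev y) hε
  have hch := chart_convex hdev Metric.isOpen_ball (convex_ball _ _) hself hs hsy
  have hcont : ∀ᶠ y' in 𝓝 y, dev y' ∈ Metric.ball (dev y) ε :=
    hdev.continuous.continuousAt.eventually_mem (Metric.isOpen_ball.mem_nhds hself)
  filter_upwards [hev, hcont] with y' h1 h2
  have h3 : sec dev y (dev y') = y' := by rw [← hch.2 h2, h1]
  have h4 := rebase hdev Metric.isOpen_ball (convex_ball _ _) hself hch.1 h2
  rw [h3] at h4
  exact ⟨hch.1 h2, h3, h4.1 hself, by rw [h4.2 hself, sec_self hdev]⟩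

/-- nearby base points see the same convex charts -/
theorem near_convex [T2Space Y] (hdev : IsLocalHomeomorph dev) {y : Y} {C : Set V}
    (hC : IsOpen C) (hconv : Convex ℝ C) (hy : dev y ∈ C) (hCd : C ⊆ dom dev y) :
    ∀ᶠ y' in 𝓝 y, C ⊆ dom dev y' ∧ EqOn (sec dev y') (sec dev y) C := by
  have hcont : ∀ᶠ y' in 𝓝 y, dev y' ∈ C :=
    hdev.continuous.continuousAt.eventually_mem (hC.mem_nhds hy)
  filter_upwards [near hdev y, hcont] with y' h1 h2
  have h4 := rebase hdev hC hconv hy hCd h2
  rwa [h1.2.1] at h4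

theorem isOpen_graph [T2Space Y] (hdev : IsLocalHomeomorph dev) :
    IsOpen {p : Y × V | p.2 ∈ dom dev p.1} := by
  rw [isOpen_iff_mem_nhds]
  rintro ⟨y, x⟩ ⟨C, hC, hconv, hy, hx, s, hs, hsy⟩
  have hsub := (chart_convex hdev hC hconv hy hs hsy).1
  rw [nhds_prod_eq]
  filter_upwards [prod_mem_prod (near_convex hdev hC hconv hy hsub) (hC.mem_nhds hx)] with p hp
  exact hp.1.1 hp.2

theorem continuousOn_graph [T2Space Y] (hdev : IsLocalHomeomorph dev) :
    ContinuousOn (fun p : Y × V => sec dev p.1 p.2) {p : Y × V | p.2 ∈ dom dev p.1} := by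
  rintro ⟨y, x⟩ ⟨C, hC, hconv, hy, hx, s, hs, hsy⟩
  have hsub := (chart_convex hdev hC hconv hy hs hsy).1
  have h1 : ContinuousAt (sec dev y) x :=
    ((isSec_sec hdev y).1.mono hsub).continuousAt (hC.mem_nhds hx)
  have h2 : ContinuousAt (fun p : Y × V => sec dev y p.2) (y, x) :=
    Filter.Tendsto.comp (g := sec dev y) (f := fun p : Y × V => p.2) (y := 𝓝 x) h1
      (continuous_snd.tendsto (y, x))
  refine ContinuousAt.continuousWithinAt (h2.congr ?_)
  have h3 : ∀ᶠ p in 𝓝 (y, x), (p : Y × V) ∈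
      {y' | C ⊆ dom dev y' ∧ EqOn (sec dev y') (sec dev y) C} ×ˢ C := by
    rw [nhds_prod_eq]
    exact prod_mem_prod (near_convex hdev hC hconv hy hsub) (hC.mem_nhds hx)
  filter_upwards [h3] with p hp
  exact (hp.1.2 hp.2).symm

/-- A9. -/
theorem complete_of_dom_univ [T2Space Y] [ConnectedSpace Y] (hdev : IsLocalHomeomorph dev) {y : Y}
    (h : dom dev y = univ) : ∃ e : Y ≃ₜ V, ⇑e = dev := by
  have hs := isSec_sec hdev y
  rw [h] at hs
  have hcont : Continuous (sec dev y) := continuousOn_univ.mp hs.1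
  have hclosed : IsClosed {y' : Y | sec dev y (dev y') = y'} :=
    isClosed_eq (hcont.comp hdev.continuous) continuous_id
  have hopen : IsOpen {y' : Y | sec dev y (dev y') = y'} := by
    rw [isOpen_iff_mem_nhds]
    intro y' hy'
    have h1 := rebase hdev isOpen_univ convex_univ (mem_univ (dev y)) (by rw [h])
      (mem_univ (dev y'))
    rw [show sec dev y (dev y') = y' from hy'] at h1
    filter_upwards [near hdev y'] with y'' h2
    rw [← h1.2 (mem_univ _)]
    exact h2.2.1
  have hne : {y' : Y | sec dev y (dev y') = y'}.Nonempty := ⟨y, sec_self hdev y⟩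
  have huniv := IsClopen.eq_univ ⟨hclosed, hopen⟩ hne
  have hleft : Function.LeftInverse (sec dev y) dev := fun y' => by
    have : y' ∈ {y' : Y | sec dev y (dev y') = y'} := by rw [huniv]; exact mem_univ _
    exact this
  have hright : Function.RightInverse (sec dev y) dev := fun x => hs.2 x (mem_univ x)
  exact ⟨{ toFun := dev, invFun := sec dev y, left_inv := hleft, right_inv := hright,
           continuous_toFun := hdev.continuous, continuous_invFun := hcont }, rfl⟩

/-- A uniform radius of charts over a compact set. -/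
theorem exists_radius [T2Space Y] (hdev : IsLocalHomeomorph dev) {K : Set Y} (hK : IsCompact K) :
    ∃ r : ℝ, 0 < r ∧ ∀ z ∈ K, Metric.ball (dev z) r ⊆ dom dev z := by
  refine hK.induction_on (p := fun S => ∃ r : ℝ, 0 < r ∧ ∀ z ∈ S,
    Metric.ball (dev z) r ⊆ dom dev z) ⟨1, one_pos, fun z hz => absurd hz (notMem_empty z)⟩ ?_ ?_ ?_
  · rintro S T hST ⟨r, hr, h⟩
    exact ⟨r, hr, fun z hz => h z (hST hz)⟩
  · rintro S T ⟨r, hr, h⟩ ⟨r', hr', h'⟩
    refine ⟨min r r', lt_min hr hr', ?_⟩
    rintro z (hz | hz)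
    · exact (Metric.ball_subset_ball (min_le_left _ _)).trans (h z hz)
    · exact (Metric.ball_subset_ball (min_le_right _ _)).trans (h' z hz)
  · intro y _
    obtain ⟨ε, hε, s, hs, hsy, -⟩ := exists_ball_sec hdev y
    have hself := Metric.mem_ball_self (x := dev y) hε
    have hch := chart_convex hdev Metric.isOpen_ball (convex_ball _ _) hself hs hsy
    have h1 := near_convex hdev Metric.isOpen_ball (convex_ball _ _) hself hch.1
    have h2 : ∀ᶠ y' in 𝓝 y, dev y' ∈ Metric.ball (dev y) (ε / 2) :=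
      hdev.continuous.continuousAt.eventually_mem
        (Metric.isOpen_ball.mem_nhds (Metric.mem_ball_self (half_pos hε)))
    refine ⟨_, mem_nhdsWithin_of_mem_nhds (h1.and h2), ε / 2, half_pos hε, ?_⟩
    rintro z ⟨hz1, hz2⟩
    refine Subset.trans ?_ hz1.1
    refine Metric.ball_subset_ball' ?_
    have := Metric.mem_ball.mp hz2
    linarith

/-- The image of the closed half-balls is compact. -/
theorem exists_compact_sec [T2Space Y] [ProperSpace V] (hdev : IsLocalHomeomorph dev) {K : Set Y}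
    (hK : IsCompact K) {r r' : ℝ} (hr : r' < r)
    (h : ∀ z ∈ K, Metric.ball (dev z) r ⊆ dom dev z) :
    ∃ K1 : Set Y, IsCompact K1 ∧ ∀ z ∈ K, ∀ x, ‖x - dev z‖ ≤ r' → sec dev z x ∈ K1 := by
  have hcomp : IsCompact (K ×ˢ Metric.closedBall (0 : V) r') :=
    hK.prod (isCompact_closedBall 0 r')
  have hf : Continuous (fun p : Y × V => (p.1, dev p.1 + p.2)) :=
    continuous_fst.prodMk ((hdev.continuous.comp continuous_fst).add continuous_snd)
  have hmem : ∀ z ∈ K, ∀ v : V, ‖v‖ ≤ r' → dev z + v ∈ dom dev z := by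
    intro z hz v hv
    apply h z hz
    rw [Metric.mem_ball, dist_eq_norm, add_sub_cancel_left]
    exact hv.trans_lt hr
  have hcomp2 := hcomp.image hf
  have hcomp3 := hcomp2.image_of_continuousOn ((continuousOn_graph hdev).mono (by
    rintro _ ⟨⟨z, v⟩, ⟨hz, hv⟩, rfl⟩
    exact hmem z hz v (by simpa using hv)))
  refine ⟨_, hcomp3, ?_⟩
  intro z hz x hx
  refine ⟨(z, x), ⟨(z, x - dev z), ⟨hz, by simpa using hx⟩, ?_⟩, rfl⟩
  simp

end Pool.Agent.Helper50.HL
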