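import Pool.Agent.Helper50.HL.Defs

/-! Module Alg1: algebra of the Hermitian form and of the `P`-norms (part B of the proof),
sections Basic and Pos. -/

set_option autoImplicit false

open Set Filter Topology

namespace Pool.Agent.Helper50.HL

variable {V : Type*} [NormedAddCommGroup V] [InnerProductSpace ℂ V] {e P P' x y z n w v : V}

section Basic

theorem herm_add_right (e x y z : V) : herm e x (y + z) = herm e x y + herm e x z := by
  simp only [herm, inner_add_right]; ring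

theorem herm_add_left (e x y z : V) : herm e (x + y) z = herm e x z + herm e y z := by
  simp only [herm, inner_add_left]; ring

theorem herm_smul_right (e x y : V) (a : ℂ) : herm e x (a • y) = a * herm e x y := by
  simp only [herm, inner_smul_right]; ring

theorem herm_smul_left (e x y : V) (a : ℂ) :
    herm e (a • x) y = (starRingEnd ℂ) a * herm e x y := by
  simp only [herm, inner_smul_left]; ring

theorem herm_real_smul_right (e x y : V) (a : ℝ) : herm e x (a • y) = a * herm e x y := by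
  rw [← Complex.coe_smul, herm_smul_right]

theorem herm_real_smul_left (e x y : V) (a : ℝ) : herm e (a • x) y = a * herm e x y := by
  rw [← Complex.coe_smul, herm_smul_left, Complex.conj_ofReal]

theorem herm_sub_right (e x y z : V) : herm e x (y - z) = herm e x y - herm e x z := by
  simp only [herm, inner_sub_right]; ring

theorem herm_sub_left (e x y z : V) : herm e (x - y) z = herm e x z - herm e y z := by
  simp only [herm, inner_sub_left]; ring

theorem herm_conj (e x y : V) : (starRingEnd ℂ) (herm e x y) = herm e y x := by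
  simp only [herm, map_sub, map_mul, inner_conj_symm]
  rw [show (starRingEnd ℂ) 2 = 2 from Complex.conj_ofNat 2]; ring

theorem norm_herm_comm (e x y : V) : ‖herm e x y‖ = ‖herm e y x‖ := by
  rw [← herm_conj e y x, Complex.norm_conj]

theorem herm_self (e x : V) : herm e x x = ((- q e x : ℝ) : ℂ) := by
  have h1 : inner ℂ x e * inner ℂ e x = ((‖(inner ℂ e x : ℂ)‖ ^ 2 : ℝ) : ℂ) := by
    rw [← inner_conj_symm x e, Complex.conj_mul']; norm_cast
  have h2 : (inner ℂ x x : ℂ) = ((‖x‖ ^ 2 : ℝ) : ℂ) := by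
    rw [inner_self_eq_norm_sq_to_K]; norm_cast
  simp only [herm, q, h1, h2]; push_cast; ring

theorem herm_continuous : Continuous fun p : V × V × V => herm p.1 p.2.1 p.2.2 := by
  unfold herm; fun_prop

theorem q_continuous : Continuous fun p : V × V => q p.1 p.2 := by
  unfold q; fun_prop

theorem q_smul (e P : V) (a : ℂ) : q e (a • P) = ‖a‖ ^ 2 * q e P := by
  simp only [q, inner_smul_right, norm_mul, norm_smul]; ring

/-- `herm e e x = - ⟪e, x⟫`. -/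
theorem herm_e (he : ‖e‖ = 1) (x : V) : herm e e x = - inner ℂ e x := by
  have : (inner ℂ e e : ℂ) = 1 := by rw [inner_self_eq_norm_sq_to_K, he]; norm_num
  simp only [herm, this]; ring

theorem q_e (he : ‖e‖ = 1) : q e e = 1 := by
  have : (inner ℂ e e : ℂ) = 1 := by rw [inner_self_eq_norm_sq_to_K, he]; norm_num
  simp only [q, this, he]; norm_num

end Basic

section Pos

/-- the component orthogonal to `e` -/
noncomputable def pe (e x : V) : V := x - (inner ℂ e x : ℂ) • e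

theorem inner_pe (he : ‖e‖ = 1) (x y : V) :
    (inner ℂ (pe e x) (pe e y) : ℂ) = inner ℂ x y - inner ℂ x e * inner ℂ e y := by
  have h1 : (inner ℂ e e : ℂ) = 1 := by rw [inner_self_eq_norm_sq_to_K, he]; norm_num
  simp only [pe, inner_sub_left, inner_sub_right, inner_smul_left, inner_smul_right,
    inner_conj_symm, h1]
  ring

theorem norm_pe_sq (he : ‖e‖ = 1) (x : V) :
    ‖pe e x‖ ^ 2 = ‖x‖ ^ 2 - ‖(inner ℂ e x : ℂ)‖ ^ 2 := by
  have h := inner_pe he x x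
  have h1 : inner ℂ x e * inner ℂ e x = ((‖(inner ℂ e x : ℂ)‖ ^ 2 : ℝ) : ℂ) := by
    rw [← inner_conj_symm x e, Complex.conj_mul']; norm_cast
  have h2 : ∀ z : V, (inner ℂ z z : ℂ) = ((‖z‖ ^ 2 : ℝ) : ℂ) := by
    intro z; rw [inner_self_eq_norm_sq_to_K]; norm_cast
  rw [h1, h2, h2] at h
  exact_mod_cast h

theorem herm_pe (he : ‖e‖ = 1) (x y : V) :
    herm e x y = inner ℂ (pe e x) (pe e y) - inner ℂ x e * inner ℂ e y := by
  rw [inner_pe he, herm]; ring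

theorem q_pe (he : ‖e‖ = 1) (x : V) :
    q e x = ‖(inner ℂ e x : ℂ)‖ ^ 2 - ‖pe e x‖ ^ 2 := by
  rw [norm_pe_sq he, q]; ring

/-- vectors orthogonal to a timelike vector are spacelike -/
theorem q_neg_of_perp (he : ‖e‖ = 1) (hP : 0 < q e P) (h : herm e P x = 0) (hx : x ≠ 0) :
    q e x < 0 := by
  rw [herm_pe he, sub_eq_zero] at h
  have h1 : ‖(inner ℂ e P : ℂ)‖ * ‖(inner ℂ e x : ℂ)‖ ≤ ‖pe e P‖ * ‖pe e x‖ := by
    calc ‖(inner ℂ e P : ℂ)‖ * ‖(inner ℂ e x : ℂ)‖ = ‖(inner ℂ P e : ℂ) * inner ℂ e x‖ := by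
          rw [norm_mul, norm_inner_symm e P]
      _ = ‖(inner ℂ (pe e P) (pe e x) : ℂ)‖ := by rw [h]
      _ ≤ _ := norm_inner_le_norm _ _
  rw [q_pe he] at hP ⊢
  set a := ‖(inner ℂ e P : ℂ)‖
  set b := ‖(inner ℂ e x : ℂ)‖ with hb
  set c := ‖pe e P‖
  set d := ‖pe e x‖ with hd
  have ha : 0 ≤ a := norm_nonneg _
  have hb0 : 0 ≤ b := norm_nonneg _
  have hc : 0 ≤ c := norm_nonneg _
  have hd0 : 0 ≤ d := norm_nonneg _
  have hca : c < a := by nlinarith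
  have hne : ¬ (b = 0 ∧ d = 0) := by
    rintro ⟨h1, h2⟩
    apply hx
    have h3 := norm_pe_sq he x
    rw [← hb, ← hd, h1, h2] at h3
    have : ‖x‖ ^ 2 = 0 := by nlinarith
    simpa using this
  have hbd : b < d := by
    by_contra hcon
    push Not at hcon
    rcases eq_or_lt_of_le hb0 with h0 | h0
    · exact hne ⟨h0.symm, le_antisymm (by rw [h0]; exact hcon) hd0⟩
    · have : c * d ≤ c * b := mul_le_mul_of_nonneg_left hcon hc
      have : c * b < a * b := mul_lt_mul_of_pos_right hca h0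
      linarith
  nlinarith

theorem q_nonpos_of_perp (he : ‖e‖ = 1) (hP : 0 < q e P) (h : herm e P x = 0) :
    q e x ≤ 0 := by
  by_cases hx : x = 0
  · subst hx; simp [q]
  · exact (q_neg_of_perp he hP h hx).le

theorem herm_ne_zero (he : ‖e‖ = 1) (hP : 0 < q e P) (hx : 0 ≤ q e x) (h0 : x ≠ 0) :
    herm e P x ≠ 0 := by
  intro h
  exact absurd (q_neg_of_perp he hP h h0) (not_lt.mpr hx)

theorem herm_P_self (e P : V) : herm e P P = -((q e P : ℝ) : ℂ) := by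
  rw [herm_self]; push_cast; ring

/-- the positive definite Hermitian form attached to the timelike vector `P` -/
noncomputable def bp (e P x y : V) : ℂ :=
  herm e x y + 2 * (herm e x P * herm e P y) / (q e P : ℂ)

theorem herm_mul_herm (e P x : V) :
    herm e x P * herm e P x = ((‖herm e P x‖ ^ 2 : ℝ) : ℂ) := by
  rw [← herm_conj e P x, Complex.conj_mul']; norm_cast

theorem bp_self (e P x : V) :
    bp e P x x = ((- q e x + 2 * ‖herm e P x‖ ^ 2 / q e P : ℝ) : ℂ) := by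
  rw [bp, herm_mul_herm, herm_self]; push_cast; ring

theorem bp_self_nonneg_aux (he : ‖e‖ = 1) (hP : 0 < q e P) (x : V) :
    0 ≤ - q e x + 2 * ‖herm e P x‖ ^ 2 / q e P ∧
    (x ≠ 0 → 0 < - q e x + 2 * ‖herm e P x‖ ^ 2 / q e P) := by
  set x₀ : V := x + (herm e P x / (q e P : ℂ)) • P with hx₀
  have hq : (q e P : ℂ) ≠ 0 := by exact_mod_cast hP.ne'
  have h0 : herm e P x₀ = 0 := by
    rw [hx₀, herm_add_right, herm_smul_right, herm_P_self]
    field_simp; ring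
  have h1 : herm e x₀ x₀ = herm e x x + herm e x P * herm e P x / (q e P : ℂ) := by
    have : herm e x₀ x₀ = herm e x x₀ := by
      conv_lhs => rw [hx₀, herm_add_left, herm_smul_left, ← hx₀, h0]
      ring
    rw [this, hx₀, herm_add_right, herm_smul_right]; ring
  have h2 : - q e x₀ = - q e x + ‖herm e P x‖ ^ 2 / q e P := by
    rw [herm_mul_herm, herm_self, herm_self] at h1
    exact_mod_cast h1
  have h3 : - q e x + 2 * ‖herm e P x‖ ^ 2 / q e P = - q e x₀ + ‖herm e P x‖ ^ 2 / q e P := by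
    rw [h2]; ring
  rw [h3]
  have h4 : 0 ≤ ‖herm e P x‖ ^ 2 / q e P := by positivity
  have h5 := q_nonpos_of_perp he hP h0
  refine ⟨by linarith, fun hx => ?_⟩
  by_cases h6 : herm e P x = 0
  · have : q e x₀ < 0 := by
      apply q_neg_of_perp he hP h0
      rw [hx₀, h6]; simpa using hx
    linarith
  · have : 0 < ‖herm e P x‖ ^ 2 / q e P := by
      have := norm_pos_iff.mpr h6
      positivity
    linarith

theorem pn_eq (e P x : V) : pn e P x = √(- q e x + 2 * ‖herm e P x‖ ^ 2 / q e P) := by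
  simp only [pn, q]; congr 1; ring

theorem pn_sq (he : ‖e‖ = 1) (hP : 0 < q e P) (x : V) :
    pn e P x ^ 2 = - q e x + 2 * ‖herm e P x‖ ^ 2 / q e P := by
  rw [pn_eq, Real.sq_sqrt (bp_self_nonneg_aux he hP x).1]

theorem pn_nonneg (e P x : V) : 0 ≤ pn e P x := Real.sqrt_nonneg _

theorem pn_pos (he : ‖e‖ = 1) (hP : 0 < q e P) (hx : x ≠ 0) : 0 < pn e P x := by
  rw [pn_eq]
  exact Real.sqrt_pos.mpr ((bp_self_nonneg_aux he hP x).2 hx)

theorem bp_self_eq (he : ‖e‖ = 1) (hP : 0 < q e P) (x : V) :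
    bp e P x x = ((pn e P x ^ 2 : ℝ) : ℂ) := by
  rw [pn_sq he hP, bp_self]

theorem bp_conj (e P x y : V) : (starRingEnd ℂ) (bp e P x y) = bp e P y x := by
  simp only [bp, map_add, map_div₀, map_mul, herm_conj, Complex.conj_ofReal]
  rw [show (starRingEnd ℂ) 2 = 2 from Complex.conj_ofNat 2]; ring

theorem bp_add_left (e P x y z : V) : bp e P (x + y) z = bp e P x z + bp e P y z := by
  simp only [bp, herm_add_left]; ring

theorem bp_add_right (e P x y z : V) : bp e P x (y + z) = bp e P x y + bp e P x z := by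
  simp only [bp, herm_add_right]; ring

theorem bp_smul_left (e P x y : V) (a : ℂ) :
    bp e P (a • x) y = (starRingEnd ℂ) a * bp e P x y := by
  simp only [bp, herm_smul_left]; ring

theorem bp_smul_right (e P x y : V) (a : ℂ) :
    bp e P x (a • y) = a * bp e P x y := by
  simp only [bp, herm_smul_right]; ring

/-- Cauchy-Schwarz for `bp` -/
theorem norm_bp_le (he : ‖e‖ = 1) (hP : 0 < q e P) (x y : V) :
    ‖bp e P x y‖ ≤ pn e P x * pn e P y := by
  by_cases hy : y = 0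
  · subst hy
    have : bp e P x 0 = 0 := by simpa using bp_smul_right e P x 0 0
    rw [this, norm_zero]
    exact mul_nonneg (pn_nonneg _ _ _) (pn_nonneg _ _ _)
  have hy' : 0 < pn e P y := pn_pos he hP hy
  have hyc : ((pn e P y ^ 2 : ℝ) : ℂ) ≠ 0 := by exact_mod_cast (pow_pos hy' 2).ne'
  set c : ℂ := bp e P y x / ((pn e P y ^ 2 : ℝ) : ℂ) with hc
  have h1 : bp e P (x + (-c) • y) (x + (-c) • y) =
      ((pn e P x ^ 2 - ‖bp e P x y‖ ^ 2 / pn e P y ^ 2 : ℝ) : ℂ) := by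
    have h2 : bp e P x y * bp e P y x = ((‖bp e P x y‖ ^ 2 : ℝ) : ℂ) := by
      rw [← bp_conj e P x y, Complex.mul_conj']; norm_cast
    have h3 : (starRingEnd ℂ) c = bp e P x y / ((pn e P y ^ 2 : ℝ) : ℂ) := by
      rw [hc, map_div₀, bp_conj, Complex.conj_ofReal]
    have h4 : bp e P (x + (-c) • y) (x + (-c) • y) =
        bp e P x x - c * bp e P x y - (starRingEnd ℂ) c * bp e P y x +
          (starRingEnd ℂ) c * c * bp e P y y := by
      rw [bp_add_left, bp_add_right, bp_add_right, bp_smul_left, bp_smul_left, bp_smul_right,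
        bp_smul_right, map_neg]; ring
    have h6 : ((‖bp e P x y‖ ^ 2 / pn e P y ^ 2 : ℝ) : ℂ) =
        bp e P x y * bp e P y x / ((pn e P y ^ 2 : ℝ) : ℂ) := by
      rw [h2]; push_cast; ring
    rw [h4, bp_self_eq he hP x, bp_self_eq he hP y, h3, hc, Complex.ofReal_sub, h6]
    field_simp
    ring
  have h5 : 0 ≤ pn e P x ^ 2 - ‖bp e P x y‖ ^ 2 / pn e P y ^ 2 := by
    have := bp_self_eq he hP (x + (-c) • y)
    rw [h1] at this
    have h7 : pn e P x ^ 2 - ‖bp e P x y‖ ^ 2 / pn e P y ^ 2 = pn e P (x + (-c) • y) ^ 2 := by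
      exact_mod_cast this
    rw [h7]; positivity
  have h8 : ‖bp e P x y‖ ^ 2 ≤ (pn e P x * pn e P y) ^ 2 := by
    rw [sub_nonneg, div_le_iff₀ (pow_pos hy' 2)] at h5
    rw [mul_pow]; exact h5
  exact abs_le_of_sq_le_sq' h8 (mul_nonneg (pn_nonneg _ _ _) (pn_nonneg _ _ _)) |>.2

/-- Cauchy-Schwarz on the orthogonal complement of a timelike vector -/
theorem herm_sq_le_of_perp (he : ‖e‖ = 1) (hP : 0 < q e P) (hx : herm e P x = 0)
    (hy : herm e P y = 0) : ‖herm e x y‖ ^ 2 ≤ (- q e x) * (- q e y) := by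
  have h1 : bp e P x y = herm e x y := by rw [bp, hy]; simp
  have h2 := norm_bp_le he hP x y
  rw [h1] at h2
  have h3 := pn_sq he hP x
  have h4 := pn_sq he hP y
  rw [hx] at h3
  rw [hy] at h4
  have h5 : ‖herm e x y‖ ^ 2 ≤ (pn e P x * pn e P y) ^ 2 :=
    pow_le_pow_left₀ (norm_nonneg _) h2 2
  rw [mul_pow, h3, h4] at h5
  simpa using h5

theorem pn_smul (he : ‖e‖ = 1) (hP : 0 < q e P) (a : ℂ) (x : V) :
    pn e P (a • x) = ‖a‖ * pn e P x := by
  have h1 : pn e P (a • x) ^ 2 = (‖a‖ * pn e P x) ^ 2 := by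
    rw [mul_pow, pn_sq he hP, pn_sq he hP, q_smul, herm_smul_right, norm_mul]; ring
  exact (pow_left_inj₀ (pn_nonneg _ _ _) (mul_nonneg (norm_nonneg _) (pn_nonneg _ _ _))
    two_ne_zero).mp h1

theorem pn_real_smul (he : ‖e‖ = 1) (hP : 0 < q e P) (a : ℝ) (x : V) :
    pn e P (a • x) = |a| * pn e P x := by
  rw [← Complex.coe_smul, pn_smul he hP]; simp

theorem pn_add_sq' (he : ‖e‖ = 1) (hP : 0 < q e P) (v w : V) :
    pn e P (v + w) ^ 2 = pn e P v ^ 2 + 2 * (bp e P v w).re + pn e P w ^ 2 := by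
  have h := bp_self_eq he hP (v + w)
  rw [bp_add_left, bp_add_right, bp_add_right, bp_self_eq he hP, bp_self_eq he hP,
    ← bp_conj e P v w] at h
  have h2 := congrArg Complex.re h
  simp only [Complex.add_re, Complex.ofReal_re, Complex.conj_re] at h2
  linarith

theorem pn_add_le (he : ‖e‖ = 1) (hP : 0 < q e P) (x y : V) :
    pn e P (x + y) ≤ pn e P x + pn e P y := by
  have h1 := pn_add_sq' he hP x y
  have h2 : (bp e P x y).re ≤ pn e P x * pn e P y :=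
    (Complex.re_le_norm _).trans (norm_bp_le he hP x y)
  have h3 := pn_nonneg e P x
  have h4 := pn_nonneg e P y
  have h5 := pn_nonneg e P (x + y)
  have h6 : pn e P (x + y) ^ 2 ≤ (pn e P x + pn e P y) ^ 2 := by nlinarith
  exact abs_le_of_sq_le_sq' h6 (by positivity) |>.2

theorem pn_e (he : ‖e‖ = 1) (x : V) : pn e e x = ‖x‖ := by
  rw [pn, q_e he, herm_e he, norm_neg]
  rw [show ‖x‖ ^ 2 - 2 * ‖(inner ℂ e x : ℂ)‖ ^ 2 + 2 * ‖(inner ℂ e x : ℂ)‖ ^ 2 / 1 = ‖x‖ ^ 2 by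
    ring]
  exact Real.sqrt_sq (norm_nonneg _)

theorem pn_smul_left (e P x : V) {a : ℂ} (ha : a ≠ 0) : pn e (a • P) x = pn e P x := by
  have ha' : ‖a‖ ^ 2 ≠ 0 := by positivity
  rw [pn, pn, q_smul, herm_smul_left, norm_mul, Complex.norm_conj, mul_pow,
    show 2 * (‖a‖ ^ 2 * ‖herm e P x‖ ^ 2) = ‖a‖ ^ 2 * (2 * ‖herm e P x‖ ^ 2) by ring,
    mul_div_mul_left _ _ ha']

theorem q_map (L : V ≃ₗ[ℂ] V) (hL : ∀ x y, herm e (L x) (L y) = herm e x y) (x : V) :
    q e (L x) = q e x := by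
  have h := hL x x
  rw [herm_self, herm_self] at h
  have h2 : - q e (L x) = - q e x := by exact_mod_cast h
  linarith

theorem pn_map (L : V ≃ₗ[ℂ] V) (hL : ∀ x y, herm e (L x) (L y) = herm e x y) (P x : V) :
    pn e (L P) (L x) = pn e P x := by
  rw [pn_eq, pn_eq, hL, q_map L hL, q_map L hL]

theorem jp_smul (e P x : V) (a : ℂ) : jp e P (a • x) = a • jp e P x := by
  rw [jp, jp, herm_smul_right, smul_add, smul_smul]
  congr 2; ring

theorem herm_P_jp (hP : 0 < q e P) (x : V) : herm e P (jp e P x) = - herm e P x := by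
  have hq : (q e P : ℂ) ≠ 0 := by exact_mod_cast hP.ne'
  rw [jp, herm_add_right, herm_smul_right, herm_P_self]
  field_simp; ring

theorem jp_jp (he : ‖e‖ = 1) (hP : 0 < q e P) (x : V) : jp e P (jp e P x) = x := by
  have h := herm_P_jp hP x
  rw [jp, h, jp, add_assoc, ← add_smul]
  rw [show 2 * herm e P x / (q e P : ℂ) + 2 * -herm e P x / (q e P : ℂ) = 0 by ring]
  simp

theorem bp_eq_herm_jp_right (e P x y : V) : bp e P x y = herm e x (jp e P y) := by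
  rw [jp, herm_add_right, herm_smul_right, bp]; ring

theorem bp_eq_herm_jp_left (e P x y : V) : bp e P x y = herm e (jp e P x) y := by
  rw [jp, herm_add_left, herm_smul_left, bp, map_div₀, map_mul, Complex.conj_ofReal, herm_conj,
    show (starRingEnd ℂ) 2 = 2 from Complex.conj_ofNat 2]; ring

theorem herm_jp (he : ‖e‖ = 1) (hP : 0 < q e P) (n : V) :
    herm e n (jp e P n) = ((pn e P n ^ 2 : ℝ) : ℂ) := by
  rw [← bp_eq_herm_jp_right, bp_self_eq he hP]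

theorem pn_jp (he : ‖e‖ = 1) (hP : 0 < q e P) (x : V) : pn e P (jp e P x) = pn e P x := by
  have h1 : bp e P (jp e P x) (jp e P x) = bp e P x x := by
    rw [bp_eq_herm_jp_left, jp_jp he hP, bp_eq_herm_jp_right]
  rw [bp_self_eq he hP, bp_self_eq he hP] at h1
  have h2 : pn e P (jp e P x) ^ 2 = pn e P x ^ 2 := by exact_mod_cast h1
  exact (pow_left_inj₀ (pn_nonneg _ _ _) (pn_nonneg _ _ _) two_ne_zero).mp h2

/-- `|h(x, y)| ≤ |x|_P |y|_P` -/
theorem herm_le (he : ‖e‖ = 1) (hP : 0 < q e P) (x y : V) :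
    ‖herm e x y‖ ≤ pn e P x * pn e P y := by
  have h1 : herm e x y = bp e P x (jp e P y) := by
    rw [bp_eq_herm_jp_right, jp_jp he hP]
  rw [h1, ← pn_jp he hP y]
  exact norm_bp_le he hP _ _

theorem pn_of_perp (he : ‖e‖ = 1) (hP : 0 < q e P) (h : herm e P x = 0) :
    pn e P x ≤ ‖x‖ := by
  have h1 := pn_sq he hP x
  rw [h] at h1
  have h2 : pn e P x ^ 2 ≤ ‖x‖ ^ 2 := by
    rw [h1, q, norm_zero]
    have : 0 ≤ ‖(inner ℂ e x : ℂ)‖ ^ 2 := by positivity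
    have h0 : 2 * (0 : ℝ) ^ 2 / q e P = 0 := by simp
    linarith
  exact abs_le_of_sq_le_sq' h2 (norm_nonneg _) |>.2

theorem pn_null (he : ‖e‖ = 1) (hP : 0 < q e P) (h : herm e n n = 0) :
    pn e P n = √2 * ‖herm e P n‖ / √(q e P) := by
  have h0 : q e n = 0 := by
    rw [herm_self] at h
    have : - q e n = 0 := by exact_mod_cast h
    linarith
  rw [pn_eq, h0, neg_zero, zero_add, Real.sqrt_div (by positivity),
    Real.sqrt_mul (by positivity), Real.sqrt_sq (norm_nonneg _)]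

/-- expansion of the square of the `P`-norm -/
theorem pn_add_sq (he : ‖e‖ = 1) (hP : 0 < q e P) (v w : V) :
    pn e P (v + w) ^ 2 = pn e P v ^ 2 + 2 * (herm e (jp e P v) w).re + pn e P w ^ 2 := by
  rw [← bp_eq_herm_jp_left, pn_add_sq' he hP]

/-- the tangent complex hyperplane of a `P`-ball is the `h`-orthogonal of `J_P v` -/
theorem tangent (he : ‖e‖ = 1) (hP : 0 < q e P) {n v : V} {ε : ℝ} (hε : 0 < ε)
    (h : ∀ w, herm e n w = 0 → ‖w‖ < ε → pn e P v ≤ pn e P (v + w)) :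
    ∀ w, herm e n w = 0 → herm e (jp e P v) w = 0 := by
  intro w hw
  by_contra hne
  set c := herm e (jp e P v) w with hc
  have hcpos : 0 < ‖c‖ ^ 2 := by
    have := norm_pos_iff.mpr hne
    positivity
  have hE : ∀ᶠ t : ℝ in 𝓝[>] 0, ‖((-(t : ℂ)) * (starRingEnd ℂ) c) • w‖ < ε ∧
      t * (pn e P w) ^ 2 < 2 := by
    have c1 : Continuous fun t : ℝ => ‖((-(t : ℂ)) * (starRingEnd ℂ) c) • w‖ := by fun_prop
    have c2 : Continuous fun t : ℝ => t * (pn e P w) ^ 2 := by fun_prop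
    have e1 : ∀ᶠ t : ℝ in 𝓝 0, ‖((-(t : ℂ)) * (starRingEnd ℂ) c) • w‖ < ε := by
      apply c1.continuousAt.eventually_lt continuousAt_const; simpa using hε
    have e2 : ∀ᶠ t : ℝ in 𝓝 0, t * (pn e P w) ^ 2 < 2 := by
      apply c2.continuousAt.eventually_lt continuousAt_const; simp
    exact (e1.and e2).filter_mono nhdsWithin_le_nhds
  obtain ⟨t, ⟨h1, h2⟩, ht⟩ := (hE.and self_mem_nhdsWithin).exists
  have ht : 0 < t := ht
  set w' := ((-(t : ℂ)) * (starRingEnd ℂ) c) • w with hw'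
  have h3 : herm e n w' = 0 := by rw [hw', herm_smul_right, hw, mul_zero]
  have h4 := h w' h3 h1
  have h5 : pn e P v ^ 2 ≤ pn e P (v + w') ^ 2 := pow_le_pow_left₀ (pn_nonneg _ _ _) h4 2
  rw [pn_add_sq he hP] at h5
  have h6 : herm e (jp e P v) w' = ((-(t * ‖c‖ ^ 2) : ℝ) : ℂ) := by
    rw [hw', herm_smul_right, ← hc, mul_assoc, Complex.conj_mul']; push_cast; ring
  have h7 : pn e P w' ^ 2 = t ^ 2 * ‖c‖ ^ 2 * pn e P w ^ 2 := by
    rw [hw', pn_smul he hP, norm_mul, norm_neg, Complex.norm_conj, Complex.norm_real,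
      mul_pow, mul_pow, Real.norm_eq_abs, sq_abs]
  rw [h6, h7, Complex.ofReal_re] at h5
  have h8 : 0 ≤ (t * ‖c‖ ^ 2) * (t * pn e P w ^ 2 - 2) := by nlinarith
  have h9 : 0 < t * ‖c‖ ^ 2 := by positivity
  have h10 : (t * ‖c‖ ^ 2) * (t * pn e P w ^ 2 - 2) < 0 :=
    mul_neg_of_pos_of_neg h9 (by linarith)
  linarith

/-- the reflection `J x = x - 2 ⟪e, x⟫ e` -/
noncomputable def jj (e x : V) : V := x - (2 * inner ℂ e x : ℂ) • e

theorem herm_eq_inner_jj (e x y : V) : herm e x y = inner ℂ (jj e x) y := by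
  rw [herm, jj, inner_sub_left, inner_smul_left, map_mul, inner_conj_symm,
    show (starRingEnd ℂ) 2 = 2 from Complex.conj_ofNat 2]; ring

theorem jj_jj (he : ‖e‖ = 1) (x : V) : jj e (jj e x) = x := by
  have h1 : (inner ℂ e e : ℂ) = 1 := by rw [inner_self_eq_norm_sq_to_K, he]; norm_num
  have h2 : (inner ℂ e (jj e x) : ℂ) = - inner ℂ e x := by
    rw [jj, inner_sub_right, inner_smul_right, h1]; ring
  rw [jj, h2, jj, sub_sub, ← add_smul]
  rw [show (2 * (inner ℂ e x : ℂ) + 2 * -inner ℂ e x) = 0 by ring]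
  simp

theorem jj_smul (e x : V) (a : ℂ) : jj e (a • x) = a • jj e x := by
  rw [jj, jj, inner_smul_right, smul_sub, smul_smul]
  congr 2; ring

/-- non-degeneracy -/
theorem smul_of_perp (he : ‖e‖ = 1) {n m : V} (hn : n ≠ 0)
    (h : ∀ w, herm e n w = 0 → herm e m w = 0) : ∃ a : ℂ, m = a • n := by
  have hJn : jj e n ≠ 0 := by
    intro h0
    apply hn
    rw [← jj_jj he n, h0]
    simp [jj]
  set a : ℂ := inner ℂ (jj e n) (jj e m) / inner ℂ (jj e n) (jj e n) with ha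
  have hnn : (inner ℂ (jj e n) (jj e n) : ℂ) ≠ 0 := inner_self_ne_zero.mpr hJn
  set w := jj e m - a • jj e n with hw
  have h1 : (inner ℂ (jj e n) w : ℂ) = 0 := by
    rw [hw, inner_sub_right, inner_smul_right, ha]
    field_simp; ring
  have h2 : (inner ℂ (jj e m) w : ℂ) = 0 := by
    rw [← herm_eq_inner_jj]; apply h; rw [herm_eq_inner_jj]; exact h1
  have h3 : (inner ℂ w w : ℂ) = 0 := by
    conv_lhs => rw [hw, inner_sub_left, inner_smul_left, ← hw, h1, h2]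
    ring
  have h4 : w = 0 := inner_self_eq_zero.mp h3
  refine ⟨a, ?_⟩
  rw [hw, sub_eq_zero] at h4
  rw [← jj_jj he m, h4, jj_smul, jj_jj he]

end Pos

section Unit

theorem herm_le_norm (he : ‖e‖ = 1) (x y : V) : ‖herm e x y‖ ≤ ‖x‖ * ‖y‖ := by
  have h := herm_le he (P := e) (by rw [q_e he]; norm_num) x y
  rwa [pn_e he, pn_e he] at h

theorem one_le_norm (he : ‖e‖ = 1) (hP : q e P = 1) : 1 ≤ ‖P‖ := by
  have h1 : ‖inner ℂ e P‖ ≤ ‖P‖ := by
    have := norm_inner_le_norm (𝕜 := ℂ) e P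
    rwa [he, one_mul] at this
  have h2 : ‖inner ℂ e P‖ ^ 2 ≤ ‖P‖ ^ 2 := pow_le_pow_left₀ (norm_nonneg _) h1 2
  unfold q at hP
  have h3 : 1 ≤ ‖P‖ ^ 2 := by linarith
  by_contra hc
  have h4 : ‖P‖ < 1 := not_le.1 hc
  have h5 : ‖P‖ ^ 2 < 1 := by
    have := norm_nonneg P
    nlinarith
  linarith

theorem pn_sq_le (he : ‖e‖ = 1) (hP : 0 < q e P) (x : V) :
    pn e P x ^ 2 ≤ (1 + 2 * ‖P‖ ^ 2 / q e P) * ‖x‖ ^ 2 := by
  rw [pn_sq he hP]
  have h1 : - q e x ≤ ‖x‖ ^ 2 := by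
    unfold q
    nlinarith [sq_nonneg ‖inner ℂ e x‖]
  have h2 : ‖herm e P x‖ ^ 2 ≤ (‖P‖ * ‖x‖) ^ 2 :=
    pow_le_pow_left₀ (norm_nonneg _) (herm_le_norm he P x) 2
  have h3 : 2 * ‖herm e P x‖ ^ 2 / q e P ≤ 2 * (‖P‖ * ‖x‖) ^ 2 / q e P :=
    div_le_div_of_nonneg_right (by linarith) hP.le
  have h4 : 2 * (‖P‖ * ‖x‖) ^ 2 / q e P = 2 * ‖P‖ ^ 2 / q e P * ‖x‖ ^ 2 := by ring
  rw [add_mul, one_mul, ← h4]
  linarith

theorem pn_le (he : ‖e‖ = 1) (hP : q e P = 1) (x : V) : pn e P x ≤ 2 * ‖P‖ * ‖x‖ := by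
  have h := pn_sq_le he (P := P) (by rw [hP]; norm_num) x
  rw [hP, div_one] at h
  have h1 := one_le_norm he hP
  have h2 : 1 ≤ ‖P‖ ^ 2 := by nlinarith
  apply le_of_sq_le_sq _ (by positivity)
  calc pn e P x ^ 2 ≤ (1 + 2 * ‖P‖ ^ 2) * ‖x‖ ^ 2 := h
    _ ≤ (4 * ‖P‖ ^ 2) * ‖x‖ ^ 2 :=
      mul_le_mul_of_nonneg_right (by linarith) (sq_nonneg _)
    _ = (2 * ‖P‖ * ‖x‖) ^ 2 := by ring

theorem norm_le_of_herm_le (he : ‖e‖ = 1) (hP : q e P = 1) (hP' : q e P' = 1) {A : ℝ}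
    (hA : 1 ≤ A) (h : ‖herm e P P'‖ ≤ A) : ‖P‖ ≤ 2 * A * ‖P'‖ := by
  have hq' : 0 < q e P' := by rw [hP']; norm_num
  have h1 := herm_le he hq' e P
  rw [herm_e he, norm_neg] at h1
  have h2 : pn e P' e ^ 2 = ‖P'‖ ^ 2 := by
    rw [pn_sq he hq', q_e he, norm_herm_comm, herm_e he, norm_neg, hP', div_one]
    unfold q at hP'
    linarith
  have h3 : pn e P' P ^ 2 ≤ 2 * A ^ 2 := by
    rw [pn_sq he hq', hP, hP', div_one, norm_herm_comm]
    have : ‖herm e P P'‖ ^ 2 ≤ A ^ 2 := pow_le_pow_left₀ (norm_nonneg _) h 2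
    linarith
  have h4 : ‖inner ℂ e P‖ ^ 2 ≤ ‖P'‖ ^ 2 * (2 * A ^ 2) := by
    calc ‖inner ℂ e P‖ ^ 2 ≤ (pn e P' e * pn e P' P) ^ 2 :=
          pow_le_pow_left₀ (norm_nonneg _) h1 2
      _ = pn e P' e ^ 2 * pn e P' P ^ 2 := by ring
      _ ≤ ‖P'‖ ^ 2 * (2 * A ^ 2) := by
        rw [h2]
        exact mul_le_mul_of_nonneg_left h3 (sq_nonneg _)
  have h5 : ‖P‖ ^ 2 ≤ (2 * A * ‖P'‖) ^ 2 := by
    unfold q at hP
    nlinarith
  exact le_of_sq_le_sq h5 (by positivity)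

/-- The orthogonal projection to the line of `p`. -/
noncomputable def ap (p x : V) : V := (inner ℂ p x / (‖p‖ ^ 2 : ℝ) : ℂ) • p

theorem ap_eq {p : V} (hp : p ≠ 0) {μ : ℂ} (hμ : ‖μ‖ = 1) (x : V) :
    ap p x = inner ℂ ((μ * (‖p‖⁻¹ : ℝ)) • p) x • ((μ * (‖p‖⁻¹ : ℝ)) • p) := by
  have hp' : (‖p‖ : ℂ) ≠ 0 := by exact_mod_cast (norm_ne_zero_iff.2 hp)
  have h1 : (starRingEnd ℂ) μ * μ = 1 := by
    rw [Complex.conj_mul', hμ]; norm_num
  unfold ap
  rw [inner_smul_left, smul_smul]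
  congr 1
  rw [map_mul, Complex.conj_ofReal]
  calc (inner ℂ p x / ((‖p‖ ^ 2 : ℝ) : ℂ)) = 1 * inner ℂ p x * ((‖p‖⁻¹ : ℝ) : ℂ) ^ 2 := by
        push_cast
        field_simp
    _ = ((starRingEnd ℂ) μ * μ) * inner ℂ p x * ((‖p‖⁻¹ : ℝ) : ℂ) ^ 2 := by rw [h1]
    _ = _ := by ring

theorem proj_sub_le {p p' : V} (hp : ‖p‖ = 1) (hp' : ‖p'‖ = 1) (x : V) :
    ‖inner ℂ p x • p - inner ℂ p' x • p'‖ ≤ 2 * ‖p - p'‖ * ‖x‖ := by
  have h1 : inner ℂ p x • p - inner ℂ p' x • p' =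
      inner ℂ p x • (p - p') + inner ℂ (p - p') x • p' := by
    rw [inner_sub_left, smul_sub, sub_smul]; abel
  rw [h1]
  calc ‖inner ℂ p x • (p - p') + inner ℂ (p - p') x • p'‖
      ≤ ‖inner ℂ p x • (p - p')‖ + ‖inner ℂ (p - p') x • p'‖ := norm_add_le _ _
    _ = ‖inner ℂ p x‖ * ‖p - p'‖ + ‖inner ℂ (p - p') x‖ * 1 := by
      rw [norm_smul, norm_smul, hp']
    _ ≤ (‖p‖ * ‖x‖) * ‖p - p'‖ + (‖p - p'‖ * ‖x‖) * 1 := by
      gcongr
      · exact norm_inner_le_norm p x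
      · exact norm_inner_le_norm (p - p') x
    _ = 2 * ‖p - p'‖ * ‖x‖ := by rw [hp]; ring

/-- B3: two unit timelike vectors at bounded hyperbolic distance and far away from `e` have almost
the same direction -/
theorem ap_sub_le (he : ‖e‖ = 1) (hP : q e P = 1) (hP' : q e P' = 1) {A : ℝ}
    (h : ‖herm e P P'‖ ≤ A) (x : V) :
    ‖ap P x - ap P' x‖ ≤ 8 * √(A / (‖P‖ * ‖P'‖)) * ‖x‖ := by
  have hN := one_le_norm he hP
  have hN' := one_le_norm he hP'
  have hNpos : 0 < ‖P‖ := by linarith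
  have hNpos' : 0 < ‖P'‖ := by linarith
  have hP0 : P ≠ 0 := norm_pos_iff.1 hNpos
  have hP0' : P' ≠ 0 := norm_pos_iff.1 hNpos'
  set c : ℂ := inner ℂ P P' with hc
  obtain ⟨μ, hμ, hμc⟩ : ∃ μ : ℂ, ‖μ‖ = 1 ∧ μ * c = (‖c‖ : ℂ) := by
    by_cases h0 : c = 0
    · exact ⟨1, by norm_num, by rw [h0]; simp⟩
    · have h0' : (‖c‖ : ℂ) ≠ 0 := by exact_mod_cast (norm_ne_zero_iff.2 h0)
      refine ⟨(‖c‖ : ℂ) / c, ?_, ?_⟩
      · rw [norm_div, Complex.norm_real, norm_norm, div_self (norm_ne_zero_iff.2 h0)]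
      · field_simp
  -- the scalar product is large
  have hA0 : 0 ≤ A := (norm_nonneg _).trans h
  have hcge : ‖P‖ * ‖P'‖ - A ≤ ‖c‖ := by
    have h1 : c = herm e P P' + 2 * (inner ℂ P e * inner ℂ e P') := by
      unfold herm; ring
    have h2 : ‖(2 : ℂ) * (inner ℂ P e * inner ℂ e P')‖ = 2 * (‖inner ℂ e P‖ * ‖inner ℂ e P'‖) := by
      rw [norm_mul, norm_mul, norm_inner_symm P e]; norm_num
    have h3 : ‖(2 : ℂ) * (inner ℂ P e * inner ℂ e P')‖ ≤ ‖c‖ + ‖herm e P P'‖ := by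
      have h4 : (2 : ℂ) * (inner ℂ P e * inner ℂ e P') = c - herm e P P' := by rw [h1]; ring
      rw [h4]
      exact norm_sub_le _ _
    have h5 : ‖P‖ * ‖P'‖ ≤ 2 * (‖inner ℂ e P‖ * ‖inner ℂ e P'‖) := by
      apply le_of_sq_le_sq _ (by positivity)
      have h6 : ‖P‖ ^ 2 ≤ 2 * ‖inner ℂ e P‖ ^ 2 := by unfold q at hP; linarith
      have h7 : ‖P'‖ ^ 2 ≤ 2 * ‖inner ℂ e P'‖ ^ 2 := by unfold q at hP'; linarith
      calc (‖P‖ * ‖P'‖) ^ 2 = ‖P‖ ^ 2 * ‖P'‖ ^ 2 := by ring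
        _ ≤ (2 * ‖inner ℂ e P‖ ^ 2) * (2 * ‖inner ℂ e P'‖ ^ 2) :=
          mul_le_mul h6 h7 (sq_nonneg _) (by positivity)
        _ = _ := by ring
    linarith
  -- the unit vectors
  set p : V := (1 * ((‖P‖⁻¹ : ℝ) : ℂ)) • P with hp
  set p' : V := (μ * ((‖P'‖⁻¹ : ℝ) : ℂ)) • P' with hp'
  have hpn : ‖p‖ = 1 := by
    rw [hp, norm_smul, norm_mul, Complex.norm_real, norm_one, one_mul, norm_inv, norm_norm]
    exact inv_mul_cancel₀ hNpos.ne'
  have hpn' : ‖p'‖ = 1 := by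
    rw [hp', norm_smul, norm_mul, Complex.norm_real, hμ, one_mul, norm_inv, norm_norm]
    exact inv_mul_cancel₀ hNpos'.ne'
  have hin : inner ℂ p p' = ((‖c‖ / (‖P‖ * ‖P'‖) : ℝ) : ℂ) := by
    have hz : (‖P‖ : ℂ) ≠ 0 := by exact_mod_cast hNpos.ne'
    have hz' : (‖P'‖ : ℂ) ≠ 0 := by exact_mod_cast hNpos'.ne'
    rw [hp, hp', inner_smul_left, inner_smul_right, map_mul, Complex.conj_ofReal, map_one, ← hc]
    push_cast
    rw [← hμc]
    field_simp
  have hdist : ‖p - p'‖ ^ 2 ≤ 2 * (A / (‖P‖ * ‖P'‖)) := by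
    rw [@norm_sub_sq ℂ, hpn, hpn', hin]
    simp only [RCLike.re_to_complex, Complex.ofReal_re]
    have h1 : 1 - A / (‖P‖ * ‖P'‖) ≤ ‖c‖ / (‖P‖ * ‖P'‖) := by
      rw [le_div_iff₀ (by positivity), sub_mul, div_mul_cancel₀ _ (by positivity)]
      linarith
    linarith
  rw [ap_eq hP0 (μ := 1) (by norm_num) x, ap_eq hP0' hμ x]
  refine (proj_sub_le hpn hpn' x).trans ?_
  have h2 : ‖p - p'‖ ≤ 4 * √(A / (‖P‖ * ‖P'‖)) := by
    apply le_of_sq_le_sq _ (by positivity)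
    rw [mul_pow, Real.sq_sqrt (by positivity)]
    have : 0 ≤ A / (‖P‖ * ‖P'‖) := by positivity
    linarith
  calc 2 * ‖p - p'‖ * ‖x‖ ≤ 2 * (4 * √(A / (‖P‖ * ‖P'‖))) * ‖x‖ := by gcongr
    _ = _ := by ring

end Unit

section Cont

/-- joint continuity of the `P`-norm -/
theorem pn_continuousAt {P x : V} (hP : 0 < q e P) :
    ContinuousAt (fun p : V × V => pn e p.1 p.2) (P, x) := by
  have h1 : Continuous fun p : V × V => herm e p.1 p.2 :=
    herm_continuous.comp (continuous_const.prodMk continuous_id)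
  have h2 : Continuous fun p : V × V => q e p.1 :=
    q_continuous.comp (continuous_const.prodMk continuous_fst)
  unfold pn
  apply ContinuousAt.sqrt
  apply ContinuousAt.add
  · exact Continuous.continuousAt (by fun_prop)
  · exact ((continuous_const.mul (h1.norm.pow 2)).continuousAt).div h2.continuousAt hP.ne'

theorem norm_sq_le_pn (he : ‖e‖ = 1) (hP : 0 < q e P) (x : V) :
    ‖x‖ ^ 2 ≤ (1 + 2 * pn e P e ^ 2) * pn e P x ^ 2 := by
  have h1 := pn_sq he (P := e) (by rw [q_e he]; norm_num) x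
  rw [pn_e he, q_e he, div_one] at h1
  have h2 : - q e x ≤ pn e P x ^ 2 := by
    rw [pn_sq he hP]
    have : 0 ≤ 2 * ‖herm e P x‖ ^ 2 / q e P := by positivity
    linarith
  have h3 : ‖herm e e x‖ ^ 2 ≤ (pn e P e * pn e P x) ^ 2 :=
    pow_le_pow_left₀ (norm_nonneg _) (herm_le he hP e x) 2
  have h4 : (1 + 2 * pn e P e ^ 2) * pn e P x ^ 2 =
      pn e P x ^ 2 + 2 * (pn e P e * pn e P x) ^ 2 := by ring
  rw [h1, h4]
  linarith

variable [FiniteDimensional ℂ V]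

/-- the `P`-norm is equivalent to the norm -/
theorem pn_equiv (he : ‖e‖ = 1) (hP : 0 < q e P) :
    ∃ c > 0, ∃ C > 0, ∀ x, c * ‖x‖ ≤ pn e P x ∧ pn e P x ≤ C * ‖x‖ := by
  have hc : 0 < 1 + 2 * pn e P e ^ 2 := by positivity
  have hC : 0 < 1 + 2 * ‖P‖ ^ 2 / q e P := by positivity
  refine ⟨(√(1 + 2 * pn e P e ^ 2))⁻¹, inv_pos.2 (Real.sqrt_pos.2 hc),
    √(1 + 2 * ‖P‖ ^ 2 / q e P), Real.sqrt_pos.2 hC, fun x => ⟨?_, ?_⟩⟩
  · rw [inv_mul_le_iff₀ (Real.sqrt_pos.2 hc)]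
    apply le_of_sq_le_sq _ (mul_nonneg (Real.sqrt_nonneg _) (pn_nonneg _ _ _))
    rw [mul_pow, Real.sq_sqrt hc.le]
    exact norm_sq_le_pn he hP x
  · apply le_of_sq_le_sq _ (by positivity)
    rw [mul_pow, Real.sq_sqrt hC.le]
    exact pn_sq_le he hP x

/-- the `P`-norms for nearby `P` are uniformly close -/
theorem pn_near (he : ‖e‖ = 1) (hP : 0 < q e P) {κ : ℝ} (hκ : 1 < κ) :
    ∀ᶠ P' in 𝓝 P, 0 < q e P' ∧ ∀ x, pn e P' x ≤ κ * pn e P x ∧ pn e P x ≤ κ * pn e P' x := by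
  have hq : Continuous fun P' : V => q e P' :=
    q_continuous.comp (continuous_const.prodMk continuous_id)
  have hK : 0 < 1 + 2 * pn e P e ^ 2 := by positivity
  set K : ℝ := 1 + 2 * pn e P e ^ 2 with hKdef
  set δ : V → ℝ := fun P' => 2 * (‖P' - P‖ * (‖P'‖ + ‖P‖) / q e P' +
    ‖P‖ ^ 2 * |1 / q e P' - 1 / q e P|) with hδ
  have hδc : ContinuousAt δ P := by
    have hqa : ContinuousAt (fun P' : V => q e P') P := hq.continuousAt
    have h1 : ContinuousAt (fun P' : V => ‖P' - P‖ * (‖P'‖ + ‖P‖)) P :=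
      Continuous.continuousAt (by fun_prop)
    exact continuousAt_const.mul ((h1.div hqa hP.ne').add (continuousAt_const.mul
      (((continuousAt_const.div hqa hP.ne').sub continuousAt_const).abs)))
  have hδ0 : δ P = 0 := by simp [hδ]
  have hκ2 : 0 < (1 - (κ ^ 2)⁻¹) / K := by
    apply div_pos _ hK
    have : (κ ^ 2)⁻¹ < 1 := inv_lt_one_of_one_lt₀ (by nlinarith)
    linarith
  have hev1 : ∀ᶠ P' in 𝓝 P, δ P' < (1 - (κ ^ 2)⁻¹) / K :=
    hδc.eventually_lt continuousAt_const (by rw [hδ0]; exact hκ2)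
  have hev2 : ∀ᶠ P' in 𝓝 P, 0 < q e P' := hq.continuousAt.eventually_const_lt hP
  filter_upwards [hev1, hev2] with P' h1 h2
  refine ⟨h2, fun x => ?_⟩
  have hdiff : |pn e P' x ^ 2 - pn e P x ^ 2| ≤ δ P' * ‖x‖ ^ 2 := by
    have h3 : pn e P' x ^ 2 - pn e P x ^ 2 =
        2 * ((‖herm e P' x‖ - ‖herm e P x‖) * (‖herm e P' x‖ + ‖herm e P x‖) / q e P' +
          ‖herm e P x‖ ^ 2 * (1 / q e P' - 1 / q e P)) := by
      rw [pn_sq he h2, pn_sq he hP]
      field_simp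
      ring
    have h4 : |‖herm e P' x‖ - ‖herm e P x‖| ≤ ‖P' - P‖ * ‖x‖ := by
      refine (abs_norm_sub_norm_le _ _).trans ?_
      rw [← herm_sub_left]
      exact herm_le_norm he _ _
    have h5 : ‖herm e P' x‖ + ‖herm e P x‖ ≤ (‖P'‖ + ‖P‖) * ‖x‖ := by
      rw [add_mul]
      exact add_le_add (herm_le_norm he _ _) (herm_le_norm he _ _)
    have h6 : ‖herm e P x‖ ^ 2 ≤ (‖P‖ * ‖x‖) ^ 2 :=
      pow_le_pow_left₀ (norm_nonneg _) (herm_le_norm he P x) 2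
    rw [h3, abs_mul, abs_two]
    have h7 : |(‖herm e P' x‖ - ‖herm e P x‖) * (‖herm e P' x‖ + ‖herm e P x‖) / q e P'| ≤
        (‖P' - P‖ * ‖x‖) * ((‖P'‖ + ‖P‖) * ‖x‖) / q e P' := by
      rw [abs_div, abs_of_pos h2, abs_mul,
        abs_of_nonneg (add_nonneg (norm_nonneg (herm e P' x)) (norm_nonneg (herm e P x)))]
      exact div_le_div_of_nonneg_right (mul_le_mul h4 h5 (by positivity) (by positivity)) h2.le
    have h8 : |‖herm e P x‖ ^ 2 * (1 / q e P' - 1 / q e P)| ≤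
        (‖P‖ * ‖x‖) ^ 2 * |1 / q e P' - 1 / q e P| := by
      rw [abs_mul, abs_of_nonneg (sq_nonneg _)]
      exact mul_le_mul_of_nonneg_right h6 (abs_nonneg _)
    calc 2 * |(‖herm e P' x‖ - ‖herm e P x‖) * (‖herm e P' x‖ + ‖herm e P x‖) / q e P' +
          ‖herm e P x‖ ^ 2 * (1 / q e P' - 1 / q e P)|
        ≤ 2 * ((‖P' - P‖ * ‖x‖) * ((‖P'‖ + ‖P‖) * ‖x‖) / q e P' +
          (‖P‖ * ‖x‖) ^ 2 * |1 / q e P' - 1 / q e P|) := by
          have := abs_add_le ((‖herm e P' x‖ - ‖herm e P x‖) *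
            (‖herm e P' x‖ + ‖herm e P x‖) / q e P')
            (‖herm e P x‖ ^ 2 * (1 / q e P' - 1 / q e P))
          linarith
      _ = δ P' * ‖x‖ ^ 2 := by rw [hδ]; ring
  have hx := norm_sq_le_pn he hP x
  rw [← hKdef] at hx
  set a : ℝ := pn e P x ^ 2 with ha
  set b : ℝ := pn e P' x ^ 2 with hb
  have ha0 : 0 ≤ a := sq_nonneg _
  have hb0 : 0 ≤ b := sq_nonneg _
  have hκpos : 0 < κ ^ 2 := by positivity
  have hδx : δ P' * ‖x‖ ^ 2 ≤ (1 - (κ ^ 2)⁻¹) * a := by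
    have hx0 : 0 ≤ ‖x‖ ^ 2 := sq_nonneg _
    calc δ P' * ‖x‖ ^ 2 ≤ (1 - (κ ^ 2)⁻¹) / K * ‖x‖ ^ 2 :=
          mul_le_mul_of_nonneg_right h1.le hx0
      _ ≤ (1 - (κ ^ 2)⁻¹) / K * (K * a) := mul_le_mul_of_nonneg_left hx hκ2.le
      _ = (1 - (κ ^ 2)⁻¹) * a := by field_simp
  have habs := abs_le.1 hdiff
  have hinv : κ ^ 2 * (κ ^ 2)⁻¹ = 1 := mul_inv_cancel₀ hκpos.ne'
  have hinv1 : (κ ^ 2)⁻¹ ≤ 1 := inv_le_one_of_one_le₀ (by nlinarith)
  have hinv0 : 0 < (κ ^ 2)⁻¹ := inv_pos.2 hκpos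
  constructor
  · apply le_of_sq_le_sq _ (mul_nonneg (by linarith) (pn_nonneg _ _ _))
    rw [mul_pow, ← ha, ← hb]
    have h9 : b ≤ a + (1 - (κ ^ 2)⁻¹) * a := by linarith [habs.2]
    have h10 : (1 - (κ ^ 2)⁻¹) ≤ κ ^ 2 - 1 := by
      have : (κ ^ 2)⁻¹ ≥ 2 - κ ^ 2 := by
        nlinarith [sq_nonneg (κ ^ 2 - 1)]
      linarith
    nlinarith
  · apply le_of_sq_le_sq _ (mul_nonneg (by linarith) (pn_nonneg _ _ _))
    rw [mul_pow, ← ha, ← hb]
    have h9 : a - (1 - (κ ^ 2)⁻¹) * a ≤ b := by linarith [habs.1]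
    have h10 : (κ ^ 2)⁻¹ * a ≤ b := by linarith
    calc a = κ ^ 2 * ((κ ^ 2)⁻¹ * a) := by rw [← mul_assoc, hinv, one_mul]
      _ ≤ κ ^ 2 * b := mul_le_mul_of_nonneg_left h10 hκpos.le

end Cont

end Pool.Agent.Helper50.HL
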