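import Pool.Agent.Helper50.HL.Radius

/-! Module CaseEa: the first half of case E (parts E0 - E2). -/

set_option autoImplicit false

open Set Filter Topology

namespace Pool.Agent.Helper50.HL

variable {V G Y : Type*} [NormedAddCommGroup V] [InnerProductSpace ℂ V] [Group G]
    [TopologicalSpace Y] [MulAction G Y] {D : HLData V G Y}

variable [FiniteDimensional ℂ V] [T2Space Y]

/-- the slice of timelike vectors with `⟪e, P⟫ = 1` -/
def sl (e : V) : Set V := {P | inner ℂ e P = 1 ∧ 0 < q e P}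

omit [FiniteDimensional ℂ V] in
theorem cea_q_of_inner {e P : V} (h : inner ℂ e P = 1) : q e P = 2 - ‖P‖ ^ 2 := by
  unfold q
  rw [h, norm_one]
  ring

omit [FiniteDimensional ℂ V] in
theorem cea_sl_iff {e P : V} : P ∈ sl e ↔ inner ℂ e P = 1 ∧ ‖P‖ < √2 := by
  constructor
  · rintro ⟨h1, h2⟩
    refine ⟨h1, ?_⟩
    rw [cea_q_of_inner h1] at h2
    exact Real.lt_sqrt_of_sq_lt (by linarith)
  · rintro ⟨h1, h2⟩
    refine ⟨h1, ?_⟩
    rw [cea_q_of_inner h1]
    have h3 : ‖P‖ ^ 2 < √2 ^ 2 := by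
      exact pow_lt_pow_left₀ h2 (norm_nonneg P) two_ne_zero
    rw [Real.sq_sqrt (by norm_num)] at h3
    linarith

omit [FiniteDimensional ℂ V] in
theorem cea_inner_comb {e P Q : V} (hP : inner ℂ e P = 1) (hQ : inner ℂ e Q = 1) {a b : ℝ}
    (hab : a + b = 1) : inner ℂ e (a • P + b • Q) = 1 := by
  rw [inner_add_right, inner_smul_right_eq_smul, inner_smul_right_eq_smul, hP, hQ, ← add_smul, hab,
    one_smul]

omit [FiniteDimensional ℂ V] in
theorem sl_convex (e : V) (he : ‖e‖ = 1) : Convex ℝ (sl e) := by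
  intro P hP Q hQ a b ha hb hab
  rw [cea_sl_iff] at hP hQ ⊢
  refine ⟨cea_inner_comb hP.1 hQ.1 hab, ?_⟩
  have h1 : ‖a • P + b • Q‖ ≤ a * ‖P‖ + b * ‖Q‖ := by
    refine (norm_add_le _ _).trans ?_
    rw [norm_smul, norm_smul, Real.norm_of_nonneg ha, Real.norm_of_nonneg hb]
  rcases ha.eq_or_lt with h0 | h0
  · have hb1 : b = 1 := by linarith
    subst hb1
    rw [← h0] at h1
    rw [← h0]
    linarith [hQ.2]
  · have h2 : a * ‖P‖ < a * √2 := mul_lt_mul_of_pos_left hP.2 h0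
    have h3 : b * ‖Q‖ ≤ b * √2 := mul_le_mul_of_nonneg_left hQ.2.le hb
    have h4 : a * √2 + b * √2 = √2 := by rw [← add_mul, hab, one_mul]
    linarith

omit [FiniteDimensional ℂ V] in
/-- every timelike vector is a multiple of one in the slice -/
theorem exists_sl (e : V) (he : ‖e‖ = 1) {P : V} (hP : 0 < q e P) :
    ∃ a : ℂ, a ≠ 0 ∧ a • P ∈ sl e := by
  have h0 : inner ℂ e P ≠ (0 : ℂ) := by
    intro h
    unfold q at hP
    rw [h, norm_zero] at hP
    have := sq_nonneg ‖P‖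
    nlinarith
  refine ⟨(inner ℂ e P)⁻¹, inv_ne_zero h0, ?_, ?_⟩
  · rw [inner_smul_right, inv_mul_cancel₀ h0]
  · rw [q_smul]
    have : 0 < ‖(inner ℂ e P : ℂ)⁻¹‖ := norm_pos_iff.2 (inv_ne_zero h0)
    positivity

/-- E0: the maximum of `g` is attained. -/
theorem exists_max (hinc : ∀ y, dom D.dev y ≠ univ)
    (h : ∃ y, ∃ ε > 0, ∀ P, 0 < q D.e P → ε ≤ (rad D y P)⁻¹) :
    ∃ y : Y, ∃ γ : ℝ, 0 < γ ∧ (∀ P, 0 < q D.e P → γ ≤ (rad D y P)⁻¹) ∧
      ∀ y' : Y, ∀ δ > 0, ∃ P, 0 < q D.e P ∧ (rad D y' P)⁻¹ < γ + δ := by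
  obtain ⟨y1, ε, hε, h1⟩ := h
  obtain ⟨K, hK, hGK⟩ := D.covering.cocompact
  have hne : ∀ y, ((fun P => (rad D y P)⁻¹) '' {P | 0 < q D.e P}).Nonempty := by
    intro y
    refine ⟨_, D.e, ?_, rfl⟩
    show 0 < q D.e D.e
    rw [q_e D.he]
    norm_num
  have hbd : ∀ y, BddBelow ((fun P => (rad D y P)⁻¹) '' {P | 0 < q D.e P}) := by
    intro y
    refine ⟨0, ?_⟩
    rintro _ ⟨P, hP, rfl⟩
    exact inv_nonneg.2 (rad_pos hinc y hP).le
  set g : Y → ℝ := fun y => sInf ((fun P => (rad D y P)⁻¹) '' {P | 0 < q D.e P}) with hg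
  have hg1 : ∀ y P, 0 < q D.e P → g y ≤ (rad D y P)⁻¹ :=
    fun y P hP => csInf_le (hbd y) ⟨P, hP, rfl⟩
  have hg2 : ∀ y c, g y < c → ∃ P, 0 < q D.e P ∧ (rad D y P)⁻¹ < c := by
    intro y c hc
    obtain ⟨_, ⟨P, hP, rfl⟩, h2⟩ := exists_lt_of_csInf_lt (hne y) hc
    exact ⟨P, hP, h2⟩
  have husc : UpperSemicontinuousOn g K := by
    intro y _ c hc
    obtain ⟨P, hP, h2⟩ := hg2 y c hc
    have h3 : ContinuousAt (fun y' : Y => rad D y' P) y :=
      ContinuousAt.comp (f := fun y' : Y => (y', P)) (rad_continuousAt hinc y hP) (by fun_prop)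
    have h4 : ContinuousAt (fun y' : Y => (rad D y' P)⁻¹) y :=
      h3.inv₀ (rad_pos hinc y hP).ne'
    filter_upwards [nhdsWithin_le_nhds (h4.eventually (gt_mem_nhds h2))] with y' hy'
    exact (hg1 y' P hP).trans_lt hy'
  obtain ⟨k1, hk1⟩ := hGK y1
  obtain ⟨y0, hy0, hmax⟩ := UpperSemicontinuousOn.exists_isMaxOn ⟨_, hk1⟩ hK husc
  have hinv : ∀ (k : G) (y : Y) (P : V), 0 < q D.e P → ∃ Q, 0 < q D.e Q ∧ rad D y Q = rad D (k • y) P := by
    intro k y P hP
    refine ⟨D.lin k⁻¹ P, ?_, ?_⟩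
    · rw [q_map _ (D.herm_lin k⁻¹)]
      exact hP
    · rw [← rad_equiv hinc k y (D.lin k⁻¹ P)]
      congr 1
      have : D.lin k (D.lin k⁻¹ P) = (D.lin k * D.lin k⁻¹) P := rfl
      rw [this, ← map_mul, mul_inv_cancel, map_one]
      rfl
  have hgi : ∀ (k : G) (y : Y), g (k • y) = g y := by
    have hle : ∀ (k : G) (y : Y), g y ≤ g (k • y) := by
      intro k y
      apply le_csInf (hne _)
      rintro _ ⟨P, hP, rfl⟩
      obtain ⟨Q, hQ, h2⟩ := hinv k y P hP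
      show g y ≤ (rad D (k • y) P)⁻¹
      rw [← h2]
      exact hg1 y Q hQ
    intro k y
    apply le_antisymm _ (hle k y)
    have := hle k⁻¹ (k • y)
    rwa [inv_smul_smul] at this
  refine ⟨y0, g y0, ?_, hg1 y0, ?_⟩
  · have h2 : g (k1 • y1) ≤ g y0 := hmax hk1
    rw [hgi] at h2
    have h3 : ε ≤ g y1 := by
      apply le_csInf (hne _)
      rintro _ ⟨P, hP, rfl⟩
      exact h1 P hP
    linarith
  · intro y' δ hδ
    apply hg2
    obtain ⟨k, hk⟩ := hGK y'
    have h2 : g (k • y') ≤ g y0 := hmax hk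
    rw [hgi] at h2
    linarith

omit [T2Space Y] [FiniteDimensional ℂ V] in
theorem cea_rad_inv {y : Y} {P : V} (hP : 0 < q D.e P) :
    (rad D y P)⁻¹ = FR D y P / √(q D.e P) := by
  unfold FR
  have h : √(q D.e P) ≠ 0 := (Real.sqrt_pos.2 hP).ne'
  field_simp

omit [FiniteDimensional ℂ V] in
theorem cea_e_mem (e : V) (he : ‖e‖ = 1) : e ∈ sl e := by
  refine ⟨?_, ?_⟩
  · rw [inner_self_eq_norm_sq_to_K, he]
    norm_num
  · rw [q_e he]
    norm_num

/-- E1: a minimiser exists. -/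
theorem exists_min (hinc : ∀ y, dom D.dev y ≠ univ) {y : Y} {γ : ℝ} (hγ : 0 < γ)
    (h1 : ∀ P, 0 < q D.e P → γ ≤ (rad D y P)⁻¹)
    (h2 : ∀ δ > 0, ∃ P, 0 < q D.e P ∧ (rad D y P)⁻¹ < γ + δ) :
    ∃ P ∈ sl D.e, (rad D y P)⁻¹ = γ := by
  -- a minimising sequence in the slice
  have h3 : ∀ j : ℕ, ∃ P ∈ sl D.e, (rad D y P)⁻¹ < γ + 1 / ((j : ℝ) + 1) := by
    intro j
    obtain ⟨P, hP, h4⟩ := h2 (1 / ((j : ℝ) + 1)) (by positivity)
    obtain ⟨a, ha, h5⟩ := exists_sl D.e D.he hP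
    refine ⟨a • P, h5, ?_⟩
    rw [rad_smul hinc y P ha]
    exact h4
  choose p hp1 hp2 using h3
  have hcomp : IsCompact (Metric.closedBall (0 : V) (√2)) := isCompact_closedBall _ _
  obtain ⟨Q, -, f, hf, hlim⟩ := hcomp.tendsto_subseq (x := p) (fun j => by
    rw [mem_closedBall_zero_iff]
    exact (cea_sl_iff.1 (hp1 j)).2.le)
  have hQ1 : inner ℂ D.e Q = 1 := by
    have h4 : Tendsto (fun j => inner ℂ D.e ((p ∘ f) j)) atTop (𝓝 (inner ℂ D.e Q)) :=
      tendsto_const_nhds.inner hlim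
    refine tendsto_nhds_unique h4 ?_
    refine tendsto_const_nhds.congr (fun j => ?_)
    exact (hp1 (f j)).1.symm
  have hu : Tendsto (fun j => γ + 1 / ((f j : ℝ) + 1)) atTop (𝓝 γ) := by
    have h4 : Tendsto (fun j : ℕ => γ + 1 / ((j : ℝ) + 1)) atTop (𝓝 (γ + 0)) :=
      tendsto_const_nhds.add tendsto_one_div_add_atTop_nhds_zero_nat
    rw [add_zero] at h4
    exact h4.comp hf.tendsto_atTop
  by_cases hQ : 0 < q D.e Q
  · refine ⟨Q, ⟨hQ1, hQ⟩, le_antisymm ?_ (h1 Q hQ)⟩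
    have h5' : ContinuousAt (fun P : V => rad D y P) Q :=
      ContinuousAt.comp (f := fun P : V => (y, P)) (rad_continuousAt hinc y hQ) (by fun_prop)
    have h5 : ContinuousAt (fun P : V => (rad D y P)⁻¹) Q := h5'.inv₀ (rad_pos hinc y hQ).ne'
    exact le_of_tendsto_of_tendsto (h5.tendsto.comp hlim) hu
      (Eventually.of_forall fun j => (hp2 (f j)).le)
  · exfalso
    -- the limit is a null vector
    have hqc : Continuous (fun P : V => q D.e P) :=
      q_continuous.comp (continuous_const.prodMk continuous_id)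
    have hqlim : Tendsto (fun j => q D.e ((p ∘ f) j)) atTop (𝓝 (q D.e Q)) :=
      (hqc.tendsto Q).comp hlim
    have hq0 : q D.e Q = 0 := by
      refine le_antisymm (not_lt.1 hQ) ?_
      exact ge_of_tendsto' hqlim (fun j => (hp1 (f j)).2.le)
    rw [hq0] at hqlim
    have hFlim : Tendsto (fun j => FR D y ((p ∘ f) j)) atTop (𝓝 0) := by
      have h6 : Tendsto (fun j => (γ + 1) * √(q D.e ((p ∘ f) j))) atTop (𝓝 ((γ + 1) * √0)) :=
        tendsto_const_nhds.mul ((Real.continuous_sqrt.tendsto 0).comp hqlim)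
      rw [Real.sqrt_zero, mul_zero] at h6
      refine squeeze_zero (fun j => (FR_pos hinc y (hp1 (f j)).2).le) (fun j => ?_) h6
      have h7 : FR D y ((p ∘ f) j) = (rad D y (p (f j)))⁻¹ * √(q D.e (p (f j))) := by
        unfold FR
        rw [div_eq_inv_mul]
        rfl
      rw [h7]
      apply mul_le_mul_of_nonneg_right _ (Real.sqrt_nonneg _)
      have h8 := hp2 (f j)
      have h9 : 1 / ((f j : ℝ) + 1) ≤ 1 := by
        rw [div_le_one (by positivity)]
        linarith [Nat.cast_nonneg (α := ℝ) (f j)]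
      linarith
    have hnQ : ‖Q‖ ^ 2 = 2 := by
      have := cea_q_of_inner hQ1
      linarith
    have he1 := cea_e_mem D.e D.he
    have hconv := FR_convex hinc y (sl_convex D.e D.he) (fun P hP => hP.2)
    -- the estimate on the segment from `e` to `Q`
    have key : ∀ t : ℝ, 0 ≤ t → t < 1 → γ ≤ √(1 - t) * FR D y D.e := by
      intro t ht0 ht1
      set R : V := (1 - t) • D.e + t • Q with hR
      have hR1 : inner ℂ D.e R = 1 := cea_inner_comb he1.1 hQ1 (by ring)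
      have hqR : q D.e R = 1 - t ^ 2 := by
        rw [cea_q_of_inner hR1, hR]
        have h6 : ‖(1 - t) • D.e + t • Q‖ ^ 2 = 1 + t ^ 2 := by
          rw [← Complex.coe_smul, ← Complex.coe_smul]
          rw [@norm_add_sq ℂ]
          rw [norm_smul, norm_smul, inner_smul_left, inner_smul_right, hQ1, D.he, mul_pow, mul_pow, hnQ]
          simp only [Complex.norm_real, Real.norm_eq_abs, sq_abs, mul_one, one_pow, Complex.conj_ofReal]
          rw [← Complex.ofReal_mul]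
          have h66 : RCLike.re (((1 - t) * t : ℝ) : ℂ) = (1 - t) * t := Complex.ofReal_re _
          rw [h66]
          ring
        rw [h6]
        ring
      have hqR0 : 0 < q D.e R := by
        rw [hqR]
        nlinarith
      have h7 : Tendsto (fun j => (1 - t) • D.e + t • (p ∘ f) j) atTop (𝓝 R) :=
        tendsto_const_nhds.add (hlim.const_smul t)
      have h8 : ContinuousAt (fun P : V => FR D y P) R :=
        ContinuousAt.comp (f := fun P : V => (y, P)) (FR_continuousAt hinc y hqR0) (by fun_prop)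
      have h9 : FR D y R ≤ (1 - t) * FR D y D.e + t * 0 := by
        refine le_of_tendsto_of_tendsto (h8.tendsto.comp h7)
          (tendsto_const_nhds.add (hFlim.const_mul t)) (Eventually.of_forall fun j => ?_)
        have := hconv.2 he1 (hp1 (f j)) (by linarith : (0:ℝ) ≤ 1 - t) ht0 (by ring)
        simpa [smul_eq_mul] using this
      rw [mul_zero, add_zero] at h9
      have h10 := h1 R hqR0
      rw [cea_rad_inv hqR0, le_div_iff₀ (Real.sqrt_pos.2 hqR0), hqR] at h10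
      have h11 : √(1 - t ^ 2) = √(1 - t) * √(1 + t) := by
        rw [← Real.sqrt_mul (by linarith)]
        congr 1
        ring
      have h12 : 1 ≤ √(1 + t) := by
        rw [Real.one_le_sqrt]
        linarith
      have h13 : 0 < √(1 - t) := Real.sqrt_pos.2 (by linarith)
      have h14 : √(1 - t) * √(1 - t) = 1 - t := Real.mul_self_sqrt (by linarith)
      have h15 : γ * √(1 - t) ≤ (√(1 - t) * FR D y D.e) * √(1 - t) := by
        calc γ * √(1 - t) ≤ γ * √(1 - t ^ 2) := by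
              rw [h11]
              apply mul_le_mul_of_nonneg_left _ hγ.le
              exact le_mul_of_one_le_right h13.le h12
          _ ≤ FR D y R := h10
          _ ≤ (1 - t) * FR D y D.e := h9
          _ = (√(1 - t) * √(1 - t)) * FR D y D.e := by rw [h14]
          _ = (√(1 - t) * FR D y D.e) * √(1 - t) := by ring
      exact le_of_mul_le_mul_right h15 h13
    -- let `t` tend to one
    have hF := FR_pos hinc y he1.2
    set c : ℝ := γ / FR D y D.e / 2 with hc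
    have hc0 : 0 < c := by positivity
    set s : ℝ := min 1 c with hs
    have hs0 : 0 < s := lt_min one_pos hc0
    have hs1 : s ≤ 1 := min_le_left _ _
    have h6 := key (1 - s ^ 2) (by nlinarith) (by nlinarith)
    rw [sub_sub_cancel, Real.sqrt_sq hs0.le] at h6
    have h7 : s * FR D y D.e ≤ c * FR D y D.e :=
      mul_le_mul_of_nonneg_right (min_le_right _ _) hF.le
    have h8 : c * FR D y D.e = γ / 2 := by
      rw [hc]
      field_simp
    linarith

omit [FiniteDimensional ℂ V] in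
/-- concavity of `√q` on the slice -/
theorem cea_sqrt_q_concave {e P Q : V} (hP : P ∈ sl e) (hQ : Q ∈ sl e) {a b : ℝ}
    (ha : 0 ≤ a) (hb : 0 ≤ b) (hab : a + b = 1) :
    a * √(q e P) + b * √(q e Q) ≤ √(q e (a • P + b • Q)) := by
  apply Real.le_sqrt_of_sq_le
  rw [cea_q_of_inner (cea_inner_comb hP.1 hQ.1 hab)]
  have hp := cea_q_of_inner hP.1
  have hr := cea_q_of_inner hQ.1
  have h1 : ‖a • P + b • Q‖ ≤ a * ‖P‖ + b * ‖Q‖ := by
    refine (norm_add_le _ _).trans ?_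
    rw [norm_smul, norm_smul, Real.norm_of_nonneg ha, Real.norm_of_nonneg hb]
  have h2 : ‖a • P + b • Q‖ ^ 2 ≤ (a * ‖P‖ + b * ‖Q‖) ^ 2 :=
    pow_le_pow_left₀ (norm_nonneg _) h1 2
  set x := √(q e P) with hx
  set z := √(q e Q) with hz
  have hx2 : x ^ 2 = 2 - ‖P‖ ^ 2 := by rw [hx, Real.sq_sqrt hP.2.le, hp]
  have hz2 : z ^ 2 = 2 - ‖Q‖ ^ 2 := by rw [hz, Real.sq_sqrt hQ.2.le, hr]
  have hP2 := (cea_sl_iff.1 hP).2
  have hQ2 := (cea_sl_iff.1 hQ).2
  have h3 : ‖P‖ * ‖Q‖ ≤ 2 := by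
    have h4 : ‖P‖ * ‖Q‖ ≤ √2 * √2 :=
      mul_le_mul hP2.le hQ2.le (norm_nonneg _) (Real.sqrt_nonneg _)
    rwa [Real.mul_self_sqrt (by norm_num)] at h4
  have h5 : x * z ≤ 2 - ‖P‖ * ‖Q‖ := by
    refine le_of_sq_le_sq ?_ (by linarith)
    have h6 : (x * z) ^ 2 = (2 - ‖P‖ ^ 2) * (2 - ‖Q‖ ^ 2) := by rw [mul_pow, hx2, hz2]
    rw [h6]
    nlinarith [sq_nonneg (‖P‖ - ‖Q‖)]
  have h7 : 0 ≤ a * b := mul_nonneg ha hb
  have h8 : a * b * (x * z) ≤ a * b * (2 - ‖P‖ * ‖Q‖) := mul_le_mul_of_nonneg_left h5 h7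
  have h9 : (a + b) ^ 2 = 1 := by rw [hab, one_pow]
  have h10 : (a * x + b * z) ^ 2 = a ^ 2 * x ^ 2 + b ^ 2 * z ^ 2 + 2 * (a * b * (x * z)) := by ring
  rw [h10, hx2, hz2]
  nlinarith

omit [FiniteDimensional ℂ V] in
/-- strict concavity at the midpoint -/
theorem cea_sqrt_q_strict {e P Q : V} (hP : P ∈ sl e) (hQ : Q ∈ sl e) (hne : P ≠ Q) :
    (√(q e P) + √(q e Q)) / 2 < √(q e ((1 / 2 : ℝ) • P + (1 / 2 : ℝ) • Q)) := by
  apply Real.lt_sqrt_of_sq_lt
  rw [cea_q_of_inner (cea_inner_comb hP.1 hQ.1 (by norm_num))]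
  have hp := cea_q_of_inner hP.1
  have hr := cea_q_of_inner hQ.1
  have h1 : ‖(1 / 2 : ℝ) • P + (1 / 2 : ℝ) • Q‖ = 1 / 2 * ‖P + Q‖ := by
    rw [← smul_add, norm_smul, Real.norm_of_nonneg (by norm_num)]
  have h2 := parallelogram_law_with_norm ℂ P Q
  have h3 : 0 < ‖P - Q‖ := norm_pos_iff.2 (sub_ne_zero.2 hne)
  set x := √(q e P) with hx
  set z := √(q e Q) with hz
  have hx2 : x ^ 2 = 2 - ‖P‖ ^ 2 := by rw [hx, Real.sq_sqrt hP.2.le, hp]
  have hz2 : z ^ 2 = 2 - ‖Q‖ ^ 2 := by rw [hz, Real.sq_sqrt hQ.2.le, hr]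
  rw [h1]
  have h4 : 0 < ‖P - Q‖ ^ 2 := by positivity
  nlinarith [sq_nonneg (x - z)]

omit [FiniteDimensional ℂ V] in
theorem cea_q_le_one {e P : V} (he : ‖e‖ = 1) (hP : P ∈ sl e) : q e P ≤ 1 := by
  rw [cea_q_of_inner hP.1]
  have h1 : ‖(inner ℂ e P : ℂ)‖ ≤ ‖e‖ * ‖P‖ := norm_inner_le_norm e P
  rw [hP.1, norm_one, he, one_mul] at h1
  nlinarith

/-- E2: robustness. -/
theorem robust (hinc : ∀ y, dom D.dev y ≠ univ) {y : Y} {γ : ℝ} (hγ : 0 < γ)
    (h1 : ∀ P, 0 < q D.e P → γ ≤ (rad D y P)⁻¹) {P0 : V} (hP0 : P0 ∈ sl D.e)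
    (h2 : (rad D y P0)⁻¹ = γ) {η : ℝ} (hη : 0 < η) :
    ∃ δ > 0, ∀ᶠ y' in 𝓝 y, ∀ P ∈ sl D.e, η ≤ ‖P - P0‖ → γ + δ ≤ (rad D y' P)⁻¹ := by
  -- `F - γ √q` is nonnegative, and positive except at `P0`
  have hΦ0 : ∀ P, 0 < q D.e P → γ * √(q D.e P) ≤ FR D y P := by
    intro P hP
    have h := h1 P hP
    rwa [cea_rad_inv hP, le_div_iff₀ (Real.sqrt_pos.2 hP)] at h
  have hΦP0 : FR D y P0 = γ * √(q D.e P0) := by
    rw [cea_rad_inv hP0.2, div_eq_iff (Real.sqrt_pos.2 hP0.2).ne'] at h2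
    exact h2
  have hconv : ∀ y' : Y, ConvexOn ℝ (sl D.e) (FR D y') := fun y' =>
    FR_convex hinc y' (sl_convex D.e D.he) (fun P hP => hP.2)
  have hΦ1 : ∀ P ∈ sl D.e, P ≠ P0 → 0 < FR D y P - γ * √(q D.e P) := by
    intro P hP hne
    have h3 := hΦ0 P hP.2
    rcases h3.lt_or_eq with h4 | h4
    · linarith
    · exfalso
      have h5 := cea_sqrt_q_strict hP hP0 hne
      have h6 := (hconv y).2 hP hP0 (by norm_num : (0:ℝ) ≤ 1 / 2) (by norm_num : (0:ℝ) ≤ 1 / 2)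
        (by norm_num)
      have h7 : (1 / 2 : ℝ) • P + (1 / 2 : ℝ) • P0 ∈ sl D.e :=
        sl_convex D.e D.he hP hP0 (by norm_num) (by norm_num) (by norm_num)
      have h8 := hΦ0 _ h7.2
      rw [← h4, hΦP0, smul_eq_mul, smul_eq_mul] at h6
      have h9 := mul_lt_mul_of_pos_left h5 hγ
      linarith
  -- a small sphere in the slice
  have hn0 := (cea_sl_iff.1 hP0).2
  set η' : ℝ := min η ((√2 - ‖P0‖) / 2) with hη'
  have hη'0 : 0 < η' := lt_min hη (by linarith)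
  have hη'1 : η' ≤ η := min_le_left _ _
  have hη'2 : η' ≤ (√2 - ‖P0‖) / 2 := min_le_right _ _
  set S : Set V := Metric.sphere P0 η' ∩ {P | inner ℂ D.e P = 1} with hS
  have hScomp : IsCompact S := by
    apply (isCompact_sphere P0 η').inter_right
    exact isClosed_eq (continuous_const.inner continuous_id) continuous_const
  have hSsl : S ⊆ sl D.e := by
    rintro P ⟨hP1, hP2⟩
    rw [cea_sl_iff]
    refine ⟨hP2, ?_⟩
    have h3 : ‖P - P0‖ = η' := by
      rw [← dist_eq_norm]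
      exact Metric.mem_sphere.1 hP1
    have h4 : ‖P‖ ≤ ‖P - P0‖ + ‖P0‖ := by
      have := norm_add_le (P - P0) P0
      rwa [sub_add_cancel] at this
    linarith
  have hSne : ∀ P ∈ S, P ≠ P0 := by
    rintro P ⟨hP1, _⟩ rfl
    rw [Metric.mem_sphere, dist_self] at hP1
    exact hη'0.ne hP1
  have hcontF : ∀ P, 0 < q D.e P → ContinuousAt (fun p : Y × V => FR D p.1 p.2 - γ * √(q D.e p.2)) (y, P) := by
    intro P hP
    apply (FR_continuousAt hinc y hP).sub
    apply ContinuousAt.mul continuousAt_const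
    apply ContinuousAt.sqrt
    have h3 : Continuous fun p : Y × V => q D.e p.2 :=
      q_continuous.comp (continuous_const.prodMk continuous_snd)
    exact h3.continuousAt
  have hcontS : ContinuousOn (fun P : V => FR D y P - γ * √(q D.e P)) S := by
    intro P hP
    apply ContinuousAt.continuousWithinAt
    have h3 := hcontF P (hSsl hP).2
    exact ContinuousAt.comp (f := fun P : V => (y, P)) h3 (by fun_prop)
  obtain ⟨κ, hκ0, hκ⟩ : ∃ κ, 0 < κ ∧ ∀ P ∈ S, κ ≤ FR D y P - γ * √(q D.e P) :=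
    hScomp.exists_forall_le' hcontS (fun P hP => hΦ1 P (hSsl hP) (hSne P hP))
  have hev1 : ∀ᶠ y' in 𝓝 y, ∀ P ∈ S, κ / 2 < FR D y' P - γ * √(q D.e P) := by
    apply hScomp.eventually_forall_of_forall_eventually
    intro P hP
    have h3 := hcontF P (hSsl hP).2
    apply h3.eventually (lt_mem_nhds _)
    have := hκ P hP
    show κ / 2 < FR D y P - γ * √(q D.e P)
    linarith
  have hev2 : ∀ᶠ y' in 𝓝 y, FR D y' P0 - γ * √(q D.e P0) < κ / 4 := by
    have h3 : ContinuousAt (fun y' : Y => FR D y' P0 - γ * √(q D.e P0)) y :=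
      ContinuousAt.comp (f := fun y' : Y => (y', P0)) (hcontF P0 hP0.2) (by fun_prop)
    apply h3.eventually (gt_mem_nhds _)
    show FR D y P0 - γ * √(q D.e P0) < κ / 4
    rw [hΦP0, sub_self]
    positivity
  refine ⟨κ / 4, by positivity, ?_⟩
  filter_upwards [hev1, hev2] with y' hy1 hy2 P hP hPη
  have hPpos : 0 < ‖P - P0‖ := hη.trans_le hPη
  set t : ℝ := η' / ‖P - P0‖ with ht
  have ht0 : 0 < t := div_pos hη'0 hPpos
  have ht1 : t ≤ 1 := by
    rw [ht, div_le_one hPpos]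
    exact hη'1.trans hPη
  set P1 : V := (1 - t) • P0 + t • P with hP1
  have hP1S : P1 ∈ S := by
    refine ⟨?_, cea_inner_comb hP0.1 hP.1 (by ring)⟩
    rw [Metric.mem_sphere, dist_eq_norm]
    have h3 : P1 - P0 = t • (P - P0) := by
      rw [hP1, smul_sub, sub_smul, one_smul]
      abel
    rw [h3, norm_smul, Real.norm_of_nonneg ht0.le, ht, div_mul_cancel₀ _ hPpos.ne']
  have h3 := hy1 P1 hP1S
  have h4 := (hconv y').2 hP0 hP (by linarith : (0:ℝ) ≤ 1 - t) ht0.le (by ring)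
  have h5 := cea_sqrt_q_concave hP0 hP (by linarith : (0:ℝ) ≤ 1 - t) ht0.le (by ring)
  rw [← hP1] at h4 h5
  rw [smul_eq_mul, smul_eq_mul] at h4
  -- the main estimate
  have h6 : (1 - t) * (FR D y' P0 - γ * √(q D.e P0)) ≤ (1 - t) * (κ / 4) :=
    mul_le_mul_of_nonneg_left hy2.le (by linarith)
  have h7 : γ * ((1 - t) * √(q D.e P0) + t * √(q D.e P)) ≤ γ * √(q D.e P1) :=
    mul_le_mul_of_nonneg_left h5 hγ.le
  have h8 : t * (γ * √(q D.e P) + κ / 4) ≤ t * FR D y' P := by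
    have : t * (κ / 4) ≤ κ / 4 := by
      have : 0 ≤ κ / 4 := by positivity
      nlinarith
    nlinarith
  have h9 : γ * √(q D.e P) + κ / 4 ≤ FR D y' P := le_of_mul_le_mul_left h8 ht0
  have hs := Real.sqrt_pos.2 hP.2
  have hs1 : √(q D.e P) ≤ 1 := by
    rw [Real.sqrt_le_one]
    exact cea_q_le_one D.he hP
  rw [cea_rad_inv hP.2, le_div_iff₀ hs]
  have : κ / 4 * √(q D.e P) ≤ κ / 4 := mul_le_of_le_one_right (by positivity) hs1
  linarith

end Pool.Agent.Helper50.HL
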