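import Pool.Agent.Helper50.HL.CaseEa

/-! Module CaseEb: the case `g* > 0` is impossible (parts E3-E6).  Helper16. -/

set_option autoImplicit false

open Set Filter Topology

namespace Pool.Agent.Helper50.HL

section Prod

variable {V : Type*} [NormedAddCommGroup V] [InnerProductSpace ℂ V]

/-- E4: product inequality. -/
theorem product_ineq {e : V} (he : ‖e‖ = 1) {P : V} (hP : q e P = 1) {γ : ℝ} (hγ : 0 < γ)
    {ι : Type*} [Fintype ι] (l : ι → ℝ) (m : ι → V) (hl : ∀ i, 0 ≤ l i) (hsum : ∑ i, l i = 1)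
    (hm : ∀ i, herm e (m i) (m i) = 0) (hPm : ∀ i, herm e P (m i) = ((- (γ / √2) : ℝ) : ℂ))
    (hbar : ∑ i, l i • m i = (γ / √2) • P) {P' : V} (hP' : 0 < q e P') :
    Real.log (γ * √(q e P')) ≤ ∑ i, l i * Real.log (√2 * ‖herm e P' (m i)‖) := by
  have hP0 : 0 < q e P := by rw [hP]; exact one_pos
  have hP'0 : P' ≠ 0 := by
    rintro rfl
    simp [q] at hP'
  have ha0 : herm e P P' ≠ 0 := herm_ne_zero he hP0 hP'.le hP'0
  have hs2 : (0 : ℝ) < √2 := by positivity
  have hs22 : √2 * √2 = (2 : ℝ) := Real.mul_self_sqrt (by norm_num)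
  have hg2 : 0 < γ / √2 := by positivity
  set a : ℂ := herm e P P' with ha
  set P2 : V := (-a⁻¹) • P' with hP2
  have hPP2 : herm e P P2 = -1 := by
    rw [hP2, herm_smul_right, ← ha]
    field_simp
  have hPP : herm e P P = -1 := by
    rw [herm_self, hP]; simp
  have hqP2 : q e P2 = (‖a‖⁻¹) ^ 2 * q e P' := by
    rw [hP2, q_smul, norm_neg, norm_inv]
  have hqP2pos : 0 < q e P2 := by
    rw [hqP2]
    have : 0 < ‖a‖ := norm_pos_iff.2 ha0
    positivity
  set τ : V := P2 - P with hτ
  have hPτ : herm e P τ = 0 := by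
    rw [hτ, herm_sub_right, hPP2, hPP]; ring
  have hτP : herm e τ P = 0 := by
    rw [← herm_conj, hPτ, map_zero]
  have hτq : q e τ ≤ 0 := by
    by_cases h0 : τ = 0
    · rw [h0]; simp [q]
    · exact (q_neg_of_perp he hP0 hPτ h0).le
  have hqadd : q e P2 = 1 + q e τ := by
    have h1 : P2 = P + τ := by rw [hτ]; abel
    have h2 : herm e P2 P2 = herm e P P + herm e τ τ := by
      rw [h1, herm_add_left, herm_add_right, herm_add_right, hPτ, hτP]
      ring
    rw [herm_self, herm_self, herm_self, hP] at h2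
    have h3 : (- q e P2 : ℝ) = - 1 + - q e τ := by exact_mod_cast h2
    linarith
  set θ : ℝ := √(- q e τ) with hθ
  have hθ0 : 0 ≤ θ := Real.sqrt_nonneg _
  have hθ2 : θ ^ 2 = - q e τ := Real.sq_sqrt (by linarith)
  have hθ1 : θ < 1 := by
    have : θ ^ 2 < 1 ^ 2 := by rw [hθ2]; linarith
    exact lt_of_pow_lt_pow_left₀ 2 zero_le_one this
  set c : ι → ℂ := fun i => -(((√2 / γ : ℝ) : ℂ) * herm e τ (m i)) with hc
  have hcsum : ∑ i, (l i : ℂ) * c i = 0 := by
    have h1 : herm e τ (∑ i, l i • m i) = ∑ i, (l i : ℂ) * herm e τ (m i) := by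
      have : ∀ s : Finset ι, herm e τ (∑ i ∈ s, l i • m i) = ∑ i ∈ s, (l i : ℂ) * herm e τ (m i) := by
        intro s
        classical
        induction s using Finset.induction_on with
        | empty => simp [herm]
        | insert i s his ih =>
          rw [Finset.sum_insert his, Finset.sum_insert his, herm_add_right, ih,
            herm_real_smul_right]
      exact this _
    rw [hbar, herm_real_smul_right, hτP, mul_zero] at h1
    have h2 : ∑ i, (l i : ℂ) * c i = -((√2 / γ : ℝ) : ℂ) * ∑ i, (l i : ℂ) * herm e τ (m i) := by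
      rw [Finset.mul_sum]
      refine Finset.sum_congr rfl fun i _ => ?_
      simp only [hc]
      ring
    rw [h2, ← h1, mul_zero]
  have hcn : ∀ i, ‖c i‖ ≤ θ := by
    intro i
    set m' : V := m i - (γ / √2) • P with hm'
    have h1 : herm e P m' = 0 := by
      rw [hm', herm_sub_right, hPm, herm_real_smul_right, hPP]
      push_cast
      ring
    have h2 : herm e τ m' = herm e τ (m i) := by
      rw [hm', herm_sub_right, herm_real_smul_right, hτP, mul_zero, sub_zero]
    have h3 : - q e m' = γ ^ 2 / 2 := by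
      have h4 : herm e m' m' = ((γ ^ 2 / 2 : ℝ) : ℂ) := by
        have h5 : herm e (m i) P = ((- (γ / √2) : ℝ) : ℂ) := by
          rw [← herm_conj, hPm, Complex.conj_ofReal]
        rw [hm', herm_sub_left, herm_sub_right, herm_sub_right, herm_real_smul_right,
          herm_real_smul_left, herm_real_smul_left, herm_real_smul_right, hm, hPm, h5, hPP]
        have h6 : (γ / √2) * (γ / √2) = γ ^ 2 / 2 := by
          field_simp
          rw [Real.sq_sqrt (by norm_num)]
        rw [← h6]
        push_cast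
        ring
      rw [herm_self] at h4
      exact_mod_cast h4
    have h4 := herm_sq_le_of_perp he hP0 hPτ h1
    rw [h2, h3, ← hθ2] at h4
    have h5 : ‖c i‖ ^ 2 ≤ θ ^ 2 := by
      have h6 : ‖c i‖ = √2 / γ * ‖herm e τ (m i)‖ := by
        simp only [hc]
        rw [norm_neg, norm_mul, Complex.norm_real, Real.norm_of_nonneg (by positivity)]
      rw [h6, mul_pow, div_pow, Real.sq_sqrt (by norm_num)]
      calc 2 / γ ^ 2 * ‖herm e τ (m i)‖ ^ 2 ≤ 2 / γ ^ 2 * (θ ^ 2 * (γ ^ 2 / 2)) := by gcongr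
        _ = θ ^ 2 := by field_simp
    exact le_of_sq_le_sq h5 hθ0
  have hch := chord_ineq l c hθ0 hθ1 hl hsum hcn hcsum
  have hP2m : ∀ i, √2 * ‖herm e P2 (m i)‖ = γ * ‖1 + c i‖ := by
    intro i
    have h1 : P2 = P + τ := by rw [hτ]; abel
    have h2 : herm e P2 (m i) = ((- (γ / √2) : ℝ) : ℂ) * (1 + c i) := by
      rw [h1, herm_add_left, hPm]
      simp only [hc]
      have h3 : ((γ / √2 : ℝ) : ℂ) * ((√2 / γ : ℝ) : ℂ) = 1 := by
        rw [← Complex.ofReal_mul]
        have : γ / √2 * (√2 / γ) = 1 := by field_simp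
        rw [this]; simp
      rw [Complex.ofReal_neg]
      linear_combination (-herm e τ (m i)) * h3
    rw [h2, norm_mul, Complex.norm_real, Real.norm_eq_abs, abs_neg, abs_of_pos hg2]
    field_simp
  have hn0 : ∀ i, 0 < ‖1 + c i‖ := by
    intro i
    have h1 := norm_sub_norm_le (1 : ℂ) (-c i)
    rw [norm_one, norm_neg, sub_neg_eq_add] at h1
    have := hcn i
    linarith
  have hmP' : ∀ i, √2 * ‖herm e P' (m i)‖ = ‖a‖ * (γ * ‖1 + c i‖) := by
    intro i
    have h1 : herm e P' (m i) = (starRingEnd ℂ) (-a) * herm e P2 (m i) := by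
      rw [← herm_smul_left, hP2, smul_smul]
      have : -a * -a⁻¹ = 1 := by field_simp
      rw [this, one_smul]
    rw [h1, norm_mul, RCLike.norm_conj, norm_neg, ← hP2m i]
    ring
  have hna : 0 < ‖a‖ := norm_pos_iff.2 ha0
  have e1 : ∀ i, Real.log (√2 * ‖herm e P' (m i)‖) =
      Real.log (‖a‖ * γ) + Real.log ‖1 + c i‖ := by
    intro i
    rw [hmP' i, ← mul_assoc, Real.log_mul (by positivity) (hn0 i).ne']
  have e2 : ∑ i, l i * Real.log (√2 * ‖herm e P' (m i)‖) =
      Real.log (‖a‖ * γ) + ∑ i, l i * Real.log ‖1 + c i‖ := by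
    simp only [e1, mul_add, Finset.sum_add_distrib]
    rw [← Finset.sum_mul, hsum, one_mul]
  have e3 : √(q e P') = ‖a‖ * √(1 - θ ^ 2) := by
    have h1 : q e P' = ‖a‖ ^ 2 * (1 - θ ^ 2) := by
      rw [hθ2]
      have h2 : 1 - - q e τ = q e P2 := by rw [hqadd]; ring
      rw [h2, hqP2]
      field_simp
    rw [h1, Real.sqrt_mul (by positivity), Real.sqrt_sq hna.le]
  have h1θ : 0 < 1 - θ ^ 2 := by nlinarith
  rw [e2, e3]
  have e4 : γ * (‖a‖ * √(1 - θ ^ 2)) = (‖a‖ * γ) * √(1 - θ ^ 2) := by ring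
  rw [e4, Real.log_mul (by positivity) (by positivity), Real.log_sqrt h1θ.le]
  linarith

end Prod

/-- Compactness of the convex hull of a compact set in finite dimension (from Helper71). -/
theorem ceb_isCompact_convexHull {E : Type*} [NormedAddCommGroup E] [NormedSpace ℝ E]
    [FiniteDimensional ℝ E] {s : Set E} (hs : IsCompact s) : IsCompact (convexHull ℝ s) := by
  classical
  rcases s.eq_empty_or_nonempty with rfl | ⟨s0, hs0⟩
  · simp
  set d := Module.finrank ℝ E + 1 with hd
  let F : (Fin d → ℝ) × (Fin d → E) → E := fun p => ∑ i, p.1 i • p.2 i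
  have hF : Continuous F := by
    refine continuous_finsetSum _ (fun i _ => ?_)
    exact ((continuous_apply i).comp continuous_fst).smul ((continuous_apply i).comp continuous_snd)
  have hK : IsCompact ((stdSimplex ℝ (Fin d)) ×ˢ (Set.univ.pi (fun _ : Fin d => s))) :=
    (isCompact_stdSimplex ℝ (Fin d)).prod (isCompact_univ_pi (fun _ => hs))
  have himg : convexHull ℝ s = F '' ((stdSimplex ℝ (Fin d)) ×ˢ (Set.univ.pi (fun _ : Fin d => s))) := by
    apply Set.Subset.antisymm
    · intro x hx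
      obtain ⟨ι, hι, z, w, hz, hai, hw, hw1, hx⟩ := eq_pos_convex_span_of_mem_convexHull hx
      have hcard : Fintype.card ι ≤ d := by
        have := hai.card_le_finrank_succ
        refine this.trans ?_
        have h2 : Module.finrank ℝ (vectorSpan ℝ (Set.range z)) ≤ Module.finrank ℝ E :=
          Submodule.finrank_le _
        omega
      obtain ⟨e⟩ : Nonempty (ι ↪ Fin d) := by
        apply Function.Embedding.nonempty_of_card_le
        simpa using hcard
      let w' : Fin d → ℝ := fun j => if h : ∃ i, e i = j then w h.choose else 0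
      let z' : Fin d → E := fun j => if h : ∃ i, e i = j then z h.choose else s0
      have hw'e : ∀ i, w' (e i) = w i := by
        intro i
        have h : ∃ i', e i' = e i := ⟨i, rfl⟩
        have hc : h.choose = i := e.injective h.choose_spec
        simp only [w', dif_pos h, hc]
      have hz'e : ∀ i, z' (e i) = z i := by
        intro i
        have h : ∃ i', e i' = e i := ⟨i, rfl⟩
        have hc : h.choose = i := e.injective h.choose_spec
        simp only [z', dif_pos h, hc]
      have hw'0 : ∀ j, (¬ ∃ i, e i = j) → w' j = 0 := by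
        intro j hj
        simp only [w', dif_neg hj]
      refine ⟨(w', z'), ⟨⟨?_, ?_⟩, ?_⟩, ?_⟩
      · intro j
        by_cases h : ∃ i, e i = j
        · obtain ⟨i, rfl⟩ := h
          show 0 ≤ w' (e i)
          rw [hw'e]; exact (hw i).le
        · show 0 ≤ w' j
          rw [hw'0 j h]
      · have : ∑ j, w' j = ∑ i, w' (e i) := by
          symm
          rw [← Finset.sum_map Finset.univ e w']
          apply Finset.sum_subset (Finset.subset_univ _)
          intro j _ hj
          apply hw'0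
          rintro ⟨i, hi⟩
          apply hj
          simp only [Finset.mem_map, Finset.mem_univ, true_and]
          exact ⟨i, hi⟩
        show ∑ j, w' j = 1
        rw [this]
        simpa [hw'e] using hw1
      · intro j _
        by_cases h : ∃ i, e i = j
        · obtain ⟨i, rfl⟩ := h
          show z' (e i) ∈ s
          rw [hz'e]; exact hz ⟨i, rfl⟩
        · show z' j ∈ s
          simp only [z', dif_neg h]; exact hs0
      · show ∑ j, w' j • z' j = x
        have : ∑ j, w' j • z' j = ∑ i, w' (e i) • z' (e i) := by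
          symm
          rw [← Finset.sum_map Finset.univ e (fun j => w' j • z' j)]
          apply Finset.sum_subset (Finset.subset_univ _)
          intro j _ hj
          have : w' j = 0 := by
            apply hw'0
            rintro ⟨i, hi⟩
            apply hj
            simp only [Finset.mem_map, Finset.mem_univ, true_and]
            exact ⟨i, hi⟩
          rw [this, zero_smul]
        rw [this]
        simpa [hw'e, hz'e] using hx
    · rintro x ⟨⟨w, z⟩, ⟨⟨hw0, hw1⟩, hz⟩, rfl⟩
      apply (convex_convexHull ℝ s).sum_mem (fun i _ => hw0 i) hw1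
      intro i _
      exact subset_convexHull ℝ s (hz i (Set.mem_univ i))
  rw [himg]
  exact hK.image hF

variable {V G Y : Type*} [NormedAddCommGroup V] [InnerProductSpace ℂ V] [Group G]
    [TopologicalSpace Y] [MulAction G Y] {D : HLData V G Y}

variable [FiniteDimensional ℂ V] [T2Space Y]

omit [FiniteDimensional ℂ V] in
theorem ceb_herm_tendsto {α : Type*} {l : Filter α} (e : V) {x y : V} {f g : α → V}
    (hf : Tendsto f l (𝓝 x)) (hg : Tendsto g l (𝓝 y)) :
    Tendsto (fun i => herm e (f i) (g i)) l (𝓝 (herm e x y)) := by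
  have h := (herm_continuous (V := V)).tendsto (e, x, y)
  have h2 : Tendsto (fun i => (e, f i, g i)) l (𝓝 (e, x, y)) :=
    tendsto_const_nhds.prodMk_nhds (hf.prodMk_nhds hg)
  exact Tendsto.comp (g := fun p : V × V × V => herm p.1 p.2.1 p.2.2)
    (f := fun i => (e, f i, g i)) h h2

omit [FiniteDimensional ℂ V] in
theorem ceb_q_tendsto {α : Type*} {l : Filter α} (e : V) {x : V} {f : α → V}
    (hf : Tendsto f l (𝓝 x)) : Tendsto (fun i => q e (f i)) l (𝓝 (q e x)) := by
  have h := (q_continuous (V := V)).tendsto (e, x)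
  have h2 : Tendsto (fun i => (e, f i)) l (𝓝 (e, x)) := tendsto_const_nhds.prodMk_nhds hf
  exact Tendsto.comp (g := fun p : V × V => q p.1 p.2) (f := fun i => (e, f i)) h h2

omit [FiniteDimensional ℂ V] in
theorem ceb_jp_tendsto {α : Type*} {l : Filter α} (e : V) {P x : V} (hP : 0 < q e P) {Q f : α → V}
    (hQ : Tendsto Q l (𝓝 P)) (hf : Tendsto f l (𝓝 x)) :
    Tendsto (fun i => jp e (Q i) (f i)) l (𝓝 (jp e P x)) := by
  unfold jp
  have h1 := (ceb_herm_tendsto e hQ hf).const_mul (2 : ℂ)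
  have h2 : Tendsto (fun i => ((q e (Q i) : ℝ) : ℂ)) l (𝓝 ((q e P : ℝ) : ℂ)) :=
    (Complex.continuous_ofReal.tendsto _).comp (ceb_q_tendsto e hQ)
  have h3 : ((q e P : ℝ) : ℂ) ≠ 0 := by exact_mod_cast hP.ne'
  exact hf.add ((h1.div h2 h3).smul hQ)

theorem ceb_rad_tendsto (hinc : ∀ y, dom D.dev y ≠ univ) {α : Type*} {l : Filter α} {y : Y} {P : V}
    (hP : 0 < q D.e P) {Q : α → V} (hQ : Tendsto Q l (𝓝 P)) :
    Tendsto (fun i => rad D y (Q i)) l (𝓝 (rad D y P)) := by
  have h := (rad_continuousAt hinc y hP).tendsto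
  have h2 : Tendsto (fun i => (y, Q i)) l (𝓝 (y, P)) := tendsto_const_nhds.prodMk_nhds hQ
  exact Tendsto.comp (g := fun p : Y × V => rad D p.1 p.2) (f := fun i => (y, Q i)) h h2

theorem ceb_cn_tendsto (hinc : ∀ y, dom D.dev y ≠ univ) {α : Type*} {l : Filter α} {y : Y} {P b : V}
    (hP : 0 < q D.e P) {Q B : α → V} (hQ : Tendsto Q l (𝓝 P)) (hB : Tendsto B l (𝓝 b)) :
    Tendsto (fun i => cn D y (Q i) (B i)) l (𝓝 (cn D y P b)) := by
  unfold cn
  have h1 := ((ceb_rad_tendsto hinc hP hQ (y := y)).pow 2).inv₀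
    (by have := rad_pos hinc y hP; positivity)
  exact h1.smul (ceb_jp_tendsto D.e hP hQ (hB.sub_const _))

theorem ceb_bdd (hinc : ∀ y, dom D.dev y ≠ univ) (y : Y) {P : V} (hP : 0 < q D.e P) :
    ∃ R : ℝ, ∀ᶠ P' in 𝓝 P, ∀ b, IsContact D y P' b → ‖b‖ ≤ R := by
  obtain ⟨c, hc, C, -, hcC⟩ := pn_equiv D.he hP
  refine ⟨2 * (rad D y P + 1) / c + ‖D.dev y‖, ?_⟩
  have h1 := pn_near D.he hP (κ := 2) (by norm_num)
  have h2 : ∀ᶠ P' in 𝓝 P, rad D y P' < rad D y P + 1 :=
    (ceb_rad_tendsto hinc hP (y := y) tendsto_id).eventually_lt_const (by linarith)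
  filter_upwards [h1, h2] with P' h1 h2 b hb
  have h3 := (hcC (b - D.dev y)).1
  have h4 := (h1.2 (b - D.dev y)).2
  rw [hb.2] at h4
  have h5 : ‖b - D.dev y‖ ≤ 2 * (rad D y P + 1) / c := by
    rw [le_div_iff₀ hc]
    linarith
  calc ‖b‖ = ‖(b - D.dev y) + D.dev y‖ := by rw [sub_add_cancel]
    _ ≤ ‖b - D.dev y‖ + ‖D.dev y‖ := norm_add_le _ _
    _ ≤ _ := by gcongr

theorem ceb_sum_pos {ι M : Type*} [Fintype ι] [AddCommMonoid M] (w : ι → ℝ)
    [DecidablePred fun i => 0 < w i] (f : ι → M)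
    (hf : ∀ i, f i ≠ 0 → 0 < w i) : ∑ i : {i // 0 < w i}, f i = ∑ i, f i := by
  rw [← Finset.sum_subtype (Finset.univ.filter fun i => 0 < w i) (by simp) f]
  exact Finset.sum_filter_of_ne fun i _ hi => hf i hi

/-- E3: barycentre. -/
theorem barycentre (hinc : ∀ y, dom D.dev y ≠ univ) {y : Y} {γ : ℝ} (hγ : 0 < γ)
    (h1 : ∀ P, 0 < q D.e P → γ ≤ (rad D y P)⁻¹) {P : V} (hP : q D.e P = 1)
    (h2 : (rad D y P)⁻¹ = γ) :
    ∃ (ι : Type) (_ : Fintype ι) (b : ι → V) (l : ι → ℝ) (u : ι → ℂ),
      (∀ i, IsContact D y P (b i)) ∧ (∀ i, 0 < l i) ∧ ∑ i, l i = 1 ∧ (∀ i, ‖u i‖ = 1) ∧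
      (∀ i, herm D.e P (u i • cn D y P (b i)) = ((- (γ / √2) : ℝ) : ℂ)) ∧
      ∑ i, l i • (u i • cn D y P (b i)) = (γ / √2) • P := by
  classical
  have : ProperSpace V := FiniteDimensional.proper ℂ V
  have : CompleteSpace V := FiniteDimensional.complete ℂ V
  have hP0 : 0 < q D.e P := by rw [hP]; exact one_pos
  have hs2 : (0 : ℝ) < √2 := by positivity
  have hPP : herm D.e P P = -1 := by
    rw [herm_self, hP]; simp
  have hFR : FR D y P = γ := by
    unfold FR
    rw [hP, Real.sqrt_one, one_div, h2]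
  set N : Set V := {m | ∃ (b : V) (u : ℂ), IsContact D y P b ∧ ‖u‖ = 1 ∧ m = u • cn D y P b ∧
    herm D.e P m = ((- (γ / √2) : ℝ) : ℂ)} with hN
  -- compactness
  have hNc : IsCompact N := by
    obtain ⟨R, hR⟩ := ceb_bdd hinc y hP0
    have hRP := hR.self_of_nhds
    set K : Set (V × ℂ) := {p | IsContact D y P p.1 ∧ ‖p.2‖ = 1 ∧
      herm D.e P (p.2 • cn D y P p.1) = ((- (γ / √2) : ℝ) : ℂ)} with hK
    have hKc : IsCompact K := by
      have hsub : K ⊆ Metric.closedBall 0 R ×ˢ Metric.sphere 0 1 := by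
        rintro ⟨b, u⟩ ⟨hb, hu, -⟩
        exact ⟨by simpa using hRP b hb, by simpa using hu⟩
      refine ((isCompact_closedBall _ _).prod (isCompact_sphere _ _)).of_isClosed_subset ?_ hsub
      refine isClosed_of_closure_subset fun p hp => ?_
      obtain ⟨x, hx, hxp⟩ := mem_closure_iff_seq_limit.1 hp
      have hx1 : Tendsto (fun k => (x k).1) atTop (𝓝 p.1) := (continuous_fst.tendsto _).comp hxp
      have hx2 : Tendsto (fun k => (x k).2) atTop (𝓝 p.2) := (continuous_snd.tendsto _).comp hxp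
      refine ⟨contact_closed hinc hP0 (Q := fun _ : ℕ => P) tendsto_const_nhds hx1
        (Eventually.of_forall fun k => (hx k).1), ?_, ?_⟩
      · refine tendsto_nhds_unique hx2.norm ?_
        simp only [fun k => (hx k).2.1]
        exact tendsto_const_nhds
      · have h3 := ceb_herm_tendsto D.e (f := fun _ : ℕ => P) (x := P) tendsto_const_nhds
          (hx2.smul (ceb_cn_tendsto hinc hP0 (y := y) (Q := fun _ : ℕ => P) tendsto_const_nhds hx1))
        refine tendsto_nhds_unique h3 ?_
        simp only [fun k => (hx k).2.2]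
        exact tendsto_const_nhds
    have himg : N = (fun p : V × ℂ => p.2 • cn D y P p.1) '' K := by
      ext m
      constructor
      · rintro ⟨b, u, hb, hu, rfl, hm⟩
        exact ⟨(b, u), ⟨hb, hu, hm⟩, rfl⟩
      · rintro ⟨⟨b, u⟩, ⟨hb, hu, hm⟩, rfl⟩
        exact ⟨b, u, hb, hu, rfl, hm⟩
    rw [himg]
    refine hKc.image ?_
    refine continuous_snd.smul ?_
    rw [continuous_iff_continuousAt]
    intro p
    exact ceb_cn_tendsto hinc hP0 (Q := fun _ : V × ℂ => P) tendsto_const_nhds
      (continuous_fst.tendsto p)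
  have hNcc := ceb_isCompact_convexHull hNc
  -- the point is in the convex hull
  have hmem : (γ / √2) • P ∈ convexHull ℝ N := by
    by_contra hcon
    obtain ⟨f, u0, hfx, hfN⟩ := RCLike.geometric_hahn_banach_point_closed (𝕜 := ℂ)
      (convex_convexHull ℝ N) hNcc.isClosed hcon
    set w : V := (InnerProductSpace.toDual ℂ V).symm f with hw
    have hwf : ∀ x, inner ℂ w x = f x := fun x => InnerProductSpace.toDual_symm_apply
    set η0 : V := w - (2 * inner ℂ D.e w) • D.e with hη0
    have hee : inner ℂ D.e D.e = (1 : ℂ) := by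
      rw [inner_self_eq_norm_sq_to_K, D.he]; simp
    have hη0x : ∀ x, herm D.e η0 x = f x := by
      intro x
      rw [← hwf x]
      unfold herm
      rw [hη0, inner_sub_left, inner_sub_left, inner_smul_left, inner_smul_left, hee]
      rw [map_mul, inner_conj_symm]
      simp only [map_ofNat]
      ring
    set c : ℂ := herm D.e P η0 with hc
    have hcP : (starRingEnd ℂ) c = f P := by
      rw [hc, herm_conj, hη0x]
    set η : V := η0 + c • P with hη
    have hPη : herm D.e P η = 0 := by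
      rw [hη, herm_add_right, herm_smul_right, hPP]
      ring
    have hηP : herm D.e η P = 0 := by
      rw [← herm_conj, hPη, map_zero]
    set κ : ℝ := u0 - RCLike.re (f ((γ / √2) • P)) with hκ
    have hκ0 : 0 < κ := by rw [hκ]; linarith
    have hκN : ∀ m ∈ N, κ ≤ (herm D.e η m).re := by
      intro m hm
      have h3 := hfN m (subset_convexHull ℝ N hm)
      obtain ⟨b, u, hb, hu, hmu, hmP⟩ := hm
      have h4 : herm D.e η m = f m - f ((γ / √2) • P) := by
        rw [hη, herm_add_left, herm_smul_left, hη0x, hmP, hcP]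
        have h5 : f ((γ / √2) • P) = ((γ / √2 : ℝ) : ℂ) * f P := by
          have : (γ / √2) • P = ((γ / √2 : ℝ) : ℂ) • P := (Complex.coe_smul _ _).symm
          rw [this, map_smul, smul_eq_mul]
        rw [h5]
        push_cast
        ring
      rw [h4, Complex.sub_re]
      rw [hκ]
      have h6 : RCLike.re (f m) = (f m).re := rfl
      have h7 : RCLike.re (f ((γ / √2) • P)) = (f ((γ / √2) • P)).re := rfl
      rw [h6] at h3
      rw [h7]
      linarith
    -- the segment
    set C : ℝ := - q D.e η with hC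
    have hC0 : 0 ≤ C := by
      rw [hC]
      by_cases h0 : η = 0
      · rw [h0]; simp [q]
      · have := q_neg_of_perp D.he hP0 hPη h0
        linarith
    set Pt : ℝ → V := fun t => P + t • η with hPt
    have hPt0 : Pt 0 = P := by simp [hPt]
    have hPtc : Continuous Pt := by
      simp only [hPt]
      fun_prop
    have hqPt : ∀ t, q D.e (Pt t) = 1 - C * t ^ 2 := by
      intro t
      have h3 : herm D.e (Pt t) (Pt t) = herm D.e P P + ((t : ℝ) : ℂ) ^ 2 * herm D.e η η := by
        simp only [hPt]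
        rw [herm_add_left, herm_add_right, herm_add_right, herm_real_smul_right,
          herm_real_smul_left, herm_real_smul_left, herm_real_smul_right, hPη, hηP]
        ring
      rw [herm_self, herm_self, herm_self, hP] at h3
      have h4 : (- q D.e (Pt t) : ℝ) = -1 + t ^ 2 * (- q D.e η) := by exact_mod_cast h3
      rw [hC]
      linarith
    set t0 : ℝ := 1 / (C + 1) with ht0
    have ht00 : 0 < t0 := by positivity
    have ht01 : t0 ≤ 1 := by
      rw [ht0, div_le_one (by linarith)]; linarith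
    have hqpos : ∀ t ∈ Icc 0 t0, 0 < q D.e (Pt t) := by
      intro t ht
      rw [hqPt t]
      have h3 : C * t0 < 1 := by
        rw [ht0, mul_one_div, div_lt_one (by linarith)]; linarith
      have h4 : t ^ 2 ≤ t0 := by nlinarith [ht.1, ht.2]
      nlinarith
    have hconv : ConvexOn ℝ (Icc 0 t0) fun s => FR D y (Pt s) := by
      have h3 : Convex ℝ (Pt '' Icc 0 t0) := by
        rintro _ ⟨s, hs, rfl⟩ _ ⟨s', hs', rfl⟩ a b ha hb hab
        refine ⟨a * s + b * s', (convex_Icc 0 t0) hs hs' ha hb hab, ?_⟩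
        simp only [hPt, smul_add, add_smul, mul_smul]
        have : P = a • P + b • P := by rw [← add_smul, hab, one_smul]
        nth_rewrite 1 [this]
        abel
      have h4 := FR_convex hinc y h3 (by
        rintro _ ⟨s, hs, rfl⟩
        exact hqpos s hs)
      refine ⟨convex_Icc 0 t0, fun s hs s' hs' a b ha hb hab => ?_⟩
      have h5 := h4.2 (mem_image_of_mem Pt hs) (mem_image_of_mem Pt hs') ha hb hab
      have h6 : Pt (a • s + b • s') = a • Pt s + b • Pt s' := by
        simp only [hPt, smul_add, add_smul, mul_smul, smul_eq_mul]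
        have : P = a • P + b • P := by rw [← add_smul, hab, one_smul]
        nth_rewrite 1 [this]
        abel
      simp only
      rw [h6]
      exact h5
    -- contacts
    have hcont : ∀ t, ∃ b, t ∈ Ioo 0 t0 → IsContact D y (Pt t) b := by
      intro t
      by_cases ht : t ∈ Ioo 0 t0
      · obtain ⟨b, hb⟩ := exists_contact hinc y (hqpos t (Ioo_subset_Icc_self ht))
        exact ⟨b, fun _ => hb⟩
      · exact ⟨0, fun h => absurd h ht⟩
    choose bt hbt using hcont
    have hphase : ∀ t, ∃ μ : ℂ, ‖μ‖ = 1 ∧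
        μ * herm D.e (Pt t) (cn D y (Pt t) (bt t)) =
          ((‖herm D.e (Pt t) (cn D y (Pt t) (bt t))‖ : ℝ) : ℂ) := by
      intro t
      set z := herm D.e (Pt t) (cn D y (Pt t) (bt t))
      by_cases hz : z = 0
      · exact ⟨1, by simp, by rw [hz]; simp⟩
      · refine ⟨(starRingEnd ℂ) z / (‖z‖ : ℂ), ?_, ?_⟩
        · rw [norm_div, RCLike.norm_conj, Complex.norm_real, norm_norm]
          exact div_self (norm_ne_zero_iff.2 hz)
        · have h3 : (‖z‖ : ℂ) ≠ 0 := by exact_mod_cast norm_ne_zero_iff.2 hz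
          rw [div_mul_eq_mul_div, div_eq_iff h3, mul_comm, Complex.mul_conj, Complex.normSq_eq_norm_sq]
          push_cast
          ring
    choose μ hμ1 hμ2 using hphase
    have hF : ∀ t ∈ Ioo 0 t0, FR D y (Pt t) ≤
        γ + t * (√2 * (μ t * herm D.e η (cn D y (Pt t) (bt t))).re) := by
      intro t ht
      have htq := hqpos t (Ioo_subset_Icc_self ht)
      set n := cn D y (Pt t) (bt t) with hn
      set p : ℝ := √2 * (μ t * herm D.e η n).re with hp
      set r0 : ℝ := √2 * (μ t * herm D.e P n).re with hr0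
      have hlin : ∀ s, p * s + r0 = √2 * (μ t * herm D.e (Pt s) n).re := by
        intro s
        simp only [hPt]
        rw [herm_add_left, herm_real_smul_left, mul_add, Complex.add_re, hp, hr0]
        have : (μ t * (((s : ℝ) : ℂ) * herm D.e η n)).re = s * (μ t * herm D.e η n).re := by
          have e : μ t * (((s : ℝ) : ℂ) * herm D.e η n) = ((s : ℝ) : ℂ) * (μ t * herm D.e η n) := by
            ring
          rw [e, Complex.re_ofReal_mul]
        rw [this]
        ring
      have hcn := cn_norm hinc htq (hbt t ht)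
      have heq : p * t + r0 = FR D y (Pt t) := by
        rw [hlin t, hμ2 t, Complex.ofReal_re]
        exact hcn.2.2
      have hsup := support hinc htq (hbt t ht)
      have hloc : ∀ᶠ s in 𝓝 t, s ∈ Icc 0 t0 → p * s + r0 ≤ FR D y (Pt s) := by
        have hten : Tendsto (fun s => (y, Pt s)) (𝓝 t) (𝓝 (y, Pt t)) :=
          tendsto_const_nhds.prodMk_nhds (hPtc.tendsto t)
        filter_upwards [hten.eventually hsup] with s hs _
        rw [hlin s]
        have h3 : (μ t * herm D.e (Pt s) n).re ≤ ‖herm D.e (Pt s) n‖ := by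
          refine (Complex.re_le_norm _).trans ?_
          rw [norm_mul, hμ1, one_mul]
        calc √2 * (μ t * herm D.e (Pt s) n).re ≤ √2 * ‖herm D.e (Pt s) n‖ := by gcongr
          _ ≤ _ := hs
          _ = FR D y (Pt s) := by
            rw [← hn, hcn.1, norm_one, mul_one]
      have h3 := affine_le_of_local hconv (Ioo_subset_Icc_self ht) heq hloc 0
        ⟨le_refl _, ht00.le⟩
      rw [hPt0, hFR, mul_zero, zero_add] at h3
      rw [← heq]
      linarith
    -- the limit
    set U : Ultrafilter ℝ := Ultrafilter.of (𝓝[>] (0 : ℝ)) with hU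
    have hUle : (U : Filter ℝ) ≤ 𝓝[>] 0 := Ultrafilter.of_le _
    have hU0 : Tendsto id (U : Filter ℝ) (𝓝 0) := hUle.trans nhdsWithin_le_nhds
    have hUI : ∀ᶠ t in (U : Filter ℝ), t ∈ Ioo 0 t0 := hUle (Ioo_mem_nhdsGT ht00)
    have hPtU : Tendsto Pt (U : Filter ℝ) (𝓝 P) := by
      have := (hPtc.tendsto 0).comp hU0
      rw [hPt0] at this
      exact this
    obtain ⟨R, hR⟩ := ceb_bdd hinc y hP0
    have hbR : ∀ᶠ t in (U : Filter ℝ), bt t ∈ Metric.closedBall (0 : V) R := by
      filter_upwards [hPtU.eventually hR, hUI] with t h3 h4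
      simpa using h3 _ (hbt t h4)
    obtain ⟨b, -, hb⟩ := (isCompact_closedBall (0 : V) R).ultrafilter_le_nhds' (U.map bt) hbR
    have hbU : Tendsto bt (U : Filter ℝ) (𝓝 b) := hb
    have hμR : ∀ᶠ t in (U : Filter ℝ), μ t ∈ Metric.sphere (0 : ℂ) 1 :=
      Eventually.of_forall fun t => by simpa using hμ1 t
    obtain ⟨μ0, hμ0, hμ'⟩ := (isCompact_sphere (0 : ℂ) 1).ultrafilter_le_nhds' (U.map μ) hμR
    have hμU : Tendsto μ (U : Filter ℝ) (𝓝 μ0) := hμ'
    have hμ01 : ‖μ0‖ = 1 := by simpa using hμ0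
    have hbc : IsContact D y P b := contact_closed hinc hP0 hPtU hbU (by
      filter_upwards [hUI] with t ht
      exact hbt t ht)
    have hnU := ceb_cn_tendsto hinc hP0 (y := y) hPtU hbU
    have hhU := ceb_herm_tendsto D.e hPtU hnU
    have hμh : μ0 * herm D.e P (cn D y P b) = ((‖herm D.e P (cn D y P b)‖ : ℝ) : ℂ) := by
      refine tendsto_nhds_unique (hμU.mul hhU) ?_
      have h3 : Tendsto (fun t => ((‖herm D.e (Pt t) (cn D y (Pt t) (bt t))‖ : ℝ) : ℂ))
          (U : Filter ℝ) (𝓝 ((‖herm D.e P (cn D y P b)‖ : ℝ) : ℂ)) :=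
        (Complex.continuous_ofReal.tendsto _).comp hhU.norm
      exact h3.congr fun t => (hμ2 t).symm
    have hnorm : ‖herm D.e P (cn D y P b)‖ = γ / √2 := by
      have h3 := (cn_norm hinc hP0 hbc).2.2
      rw [hFR] at h3
      rw [eq_div_iff hs2.ne']
      linarith
    rw [hnorm] at hμh
    have hmN : (-μ0) • cn D y P b ∈ N := by
      refine ⟨b, -μ0, hbc, by rw [norm_neg, hμ01], rfl, ?_⟩
      rw [herm_smul_right, neg_mul, hμh]
      push_cast
      ring
    have h3 := hκN _ hmN
    rw [herm_smul_right, neg_mul, Complex.neg_re] at h3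
    have h4 : Tendsto (fun t => (μ t * herm D.e η (cn D y (Pt t) (bt t))).re) (U : Filter ℝ)
        (𝓝 (μ0 * herm D.e η (cn D y P b)).re) := by
      have h5 := hμU.mul (ceb_herm_tendsto D.e (f := fun _ : ℝ => η) tendsto_const_nhds hnU)
      exact (Complex.continuous_re.tendsto _).comp h5
    have h5 : ∀ᶠ t in (U : Filter ℝ), (μ t * herm D.e η (cn D y (Pt t) (bt t))).re < -(κ / 2) :=
      h4.eventually_lt_const (by linarith)
    have h6 : ∀ᶠ t in (U : Filter ℝ), γ * C * t < √2 * (κ / 2) := by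
      have h7 : Tendsto (fun t : ℝ => γ * C * t) (U : Filter ℝ) (𝓝 (γ * C * 0)) :=
        hU0.const_mul _
      rw [mul_zero] at h7
      exact h7.eventually_lt_const (by positivity)
    obtain ⟨t, h5, h6, ht⟩ := (h5.and (h6.and hUI)).exists
    have htq := hqpos t (Ioo_subset_Icc_self ht)
    have h7 := hF t ht
    have h8 : γ * (1 - C * t ^ 2) ≤ FR D y (Pt t) := by
      unfold FR
      rw [hqPt t] at htq ⊢
      have h9 := h1 (Pt t) (hqpos t (Ioo_subset_Icc_self ht))
      have h10 : 1 - C * t ^ 2 ≤ √(1 - C * t ^ 2) := by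
        apply Real.le_sqrt_of_sq_le
        nlinarith [mul_nonneg hC0 (sq_nonneg t)]
      rw [div_eq_mul_inv]
      calc γ * (1 - C * t ^ 2) = (1 - C * t ^ 2) * γ := by ring
        _ ≤ √(1 - C * t ^ 2) * (rad D y (Pt t))⁻¹ := by gcongr
    have h9 : t * (√2 * (μ t * herm D.e η (cn D y (Pt t) (bt t))).re) ≤
        t * (√2 * (-(κ / 2))) := by
      have := ht.1
      gcongr
    have h10 : t * (γ * C * t) < t * (√2 * (κ / 2)) := mul_lt_mul_of_pos_left h6 ht.1
    nlinarith
  -- extract the weights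
  obtain ⟨ι, hι, w, z, hw0, hw1, hz, hsum⟩ := mem_convexHull_iff_exists_fintype.1 hmem
  choose b u hb hu hzu hzP using hz
  refine ⟨{i // 0 < w i}, inferInstance, fun i => b i, fun i => w i, fun i => u i,
    fun i => hb i, fun i => i.2, ?_, fun i => hu i, fun i => ?_, ?_⟩
  · rw [ceb_sum_pos w (fun i => w i) fun i hi => lt_of_le_of_ne (hw0 i) (Ne.symm hi), hw1]
  · rw [← hzu]
    exact hzP i
  · have h3 : ∀ i : {i // 0 < w i}, w i • (u i • cn D y P (b i)) = w i • z i := fun i => by
      rw [← hzu i]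
    rw [Finset.sum_congr rfl fun i _ => h3 i, ceb_sum_pos w (fun i => w i • z i) ?_, hsum]
    intro i hi
    refine lt_of_le_of_ne (hw0 i) fun h => hi ?_
    rw [← h, zero_smul]

/-- CASE E is impossible. -/
theorem caseE (hinc : ∀ y, dom D.dev y ≠ univ)
    (h : ∃ y, ∃ ε > 0, ∀ P, 0 < q D.e P → ε ≤ (rad D y P)⁻¹) : False := by
  obtain ⟨y, γ, hγ, hγ1, hγ2⟩ := exists_max hinc h
  obtain ⟨P0, hP0, hP0γ⟩ := exists_min hinc hγ hγ1 (hγ2 y)
  have hs2 : (0 : ℝ) < √2 := by positivity
  have hq0 : 0 < q D.e P0 := hP0.2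
  set κ : ℝ := √(q D.e P0) with hκ
  have hκ0 : 0 < κ := Real.sqrt_pos.2 hq0
  set P : V := ((κ⁻¹ : ℝ) : ℂ) • P0 with hP
  have hκc : ((κ⁻¹ : ℝ) : ℂ) ≠ 0 := by exact_mod_cast (inv_pos.2 hκ0).ne'
  have hqP : q D.e P = 1 := by
    rw [hP, q_smul, Complex.norm_real, Real.norm_of_nonneg (inv_pos.2 hκ0).le, inv_pow,
      Real.sq_sqrt hq0.le]
    exact inv_mul_cancel₀ hq0.ne'
  have hqP0 : 0 < q D.e P := by rw [hqP]; exact one_pos
  have hPγ : (rad D y P)⁻¹ = γ := by
    rw [hP, rad_smul hinc y P0 hκc, hP0γ]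
  obtain ⟨ι, hι, b, l, u, hb, hl, hl1, hu, hPm, hbar⟩ := barycentre hinc hγ hγ1 hqP hPγ
  set n : ι → V := fun i => cn D y P (b i) with hn
  have hcn := fun i => cn_norm hinc hqP0 (hb i)
  -- the support inequalities, summed
  have hsup : ∀ᶠ p : Y × V in 𝓝 (y, P), 0 < q D.e p.2 ∧ ∀ i, √2 * ‖herm D.e p.2 (n i)‖ ≤
      FR D p.1 p.2 * ‖herm D.e (n i) (b i - D.dev p.1)‖ := by
    have h0 : Tendsto (fun p : Y × V => p.2) (𝓝 (y, P)) (𝓝 P) := continuous_snd.tendsto (y, P)
    have h1 : ∀ᶠ p : Y × V in 𝓝 (y, P), 0 < q D.e p.2 :=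
      Tendsto.eventually_const_lt hqP0 (ceb_q_tendsto (f := fun p : Y × V => p.2) D.e h0)
    have h2 : ∀ᶠ p : Y × V in 𝓝 (y, P), ∀ i, √2 * ‖herm D.e p.2 (n i)‖ ≤
        FR D p.1 p.2 * ‖herm D.e (n i) (b i - D.dev p.1)‖ := by
      rw [eventually_all]
      intro i
      exact support hinc hqP0 (hb i)
    exact h1.and h2
  have hmain : ∀ᶠ p : Y × V in 𝓝 (y, P),
      Real.log γ - Real.log (rad D p.1 p.2)⁻¹ ≤
        ∑ i, l i * Real.log ‖herm D.e (n i) (b i - D.dev p.1)‖ := by
    filter_upwards [hsup] with p hp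
    obtain ⟨hq, hp⟩ := hp
    have h1 := product_ineq D.he hqP hγ l (fun i => u i • n i) (fun i => (hl i).le) hl1
      (fun i => by
        rw [herm_smul_left, herm_smul_right, cn_null hinc hqP0 (hb i)]
        ring) hPm hbar hq
    have hFR := FR_pos hinc p.1 hq
    have hr := rad_pos hinc p.1 hq
    have hqs : 0 < √(q D.e p.2) := Real.sqrt_pos.2 hq
    have h2 : ∀ i, Real.log (√2 * ‖herm D.e p.2 (u i • n i)‖) ≤
        Real.log (FR D p.1 p.2) + Real.log ‖herm D.e (n i) (b i - D.dev p.1)‖ := by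
      intro i
      have h3 : ‖herm D.e p.2 (u i • n i)‖ = ‖herm D.e p.2 (n i)‖ := by
        rw [herm_smul_right, norm_mul, hu i, one_mul]
      rw [h3]
      have hn0 : n i ≠ 0 := by
        intro h0
        have := (hcn i).1
        rw [show cn D y P (b i) = 0 from h0] at this
        simp [herm] at this
      have hnq : 0 ≤ q D.e (n i) := by
        have h4 := cn_null hinc hqP0 (hb i)
        rw [herm_self] at h4
        have h5 : (- q D.e (cn D y P (b i)) : ℝ) = 0 := by exact_mod_cast h4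
        have h6 : q D.e (cn D y P (b i)) = 0 := by linarith
        exact h6.ge
      have h4 : 0 < √2 * ‖herm D.e p.2 (n i)‖ :=
        mul_pos hs2 (norm_pos_iff.2 (herm_ne_zero D.he hq hnq hn0))
      have h5 := hp i
      have h6 : 0 < ‖herm D.e (n i) (b i - D.dev p.1)‖ := by
        by_contra hcon
        have h7 : ‖herm D.e (n i) (b i - D.dev p.1)‖ = 0 :=
          le_antisymm (not_lt.1 hcon) (norm_nonneg _)
        rw [h7, mul_zero] at h5
        linarith
      rw [← Real.log_mul hFR.ne' h6.ne']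
      exact Real.log_le_log h4 h5
    have h3 : ∑ i, l i * Real.log (√2 * ‖herm D.e p.2 (u i • n i)‖) ≤
        Real.log (FR D p.1 p.2) + ∑ i, l i * Real.log ‖herm D.e (n i) (b i - D.dev p.1)‖ := by
      calc _ ≤ ∑ i, l i * (Real.log (FR D p.1 p.2) +
            Real.log ‖herm D.e (n i) (b i - D.dev p.1)‖) :=
            Finset.sum_le_sum fun i _ => mul_le_mul_of_nonneg_left (h2 i) (hl i).le
        _ = _ := by
          simp only [mul_add, Finset.sum_add_distrib]
          rw [← Finset.sum_mul, hl1, one_mul]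
    have h4 : Real.log (γ * √(q D.e p.2)) = Real.log γ + Real.log √(q D.e p.2) :=
      Real.log_mul hγ.ne' hqs.ne'
    have h5 : Real.log (FR D p.1 p.2) = Real.log √(q D.e p.2) - Real.log (rad D p.1 p.2) := by
      unfold FR
      exact Real.log_div hqs.ne' hr.ne'
    rw [Real.log_inv]
    linarith
  -- uniformize
  rw [nhds_prod_eq, Filter.eventually_prod_iff] at hmain
  obtain ⟨W, hW, Z, hZ, hWZ⟩ := hmain
  obtain ⟨r, hr, hrZ⟩ := Metric.eventually_nhds_iff.1 hZ
  obtain ⟨δ, hδ, hrob⟩ := robust hinc hγ hγ1 hP0 hP0γ (η := r * κ) (by positivity)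
  have hpos : ∀ᶠ y' in 𝓝 y, 0 ≤ ∑ i, l i * Real.log ‖herm D.e (n i) (b i - D.dev y')‖ := by
    filter_upwards [hW, hrob] with y' hy' hy'r
    -- for all small `δ'`
    have h1 : ∀ δ' > 0, δ' < δ → Real.log γ - Real.log (γ + δ') ≤
        ∑ i, l i * Real.log ‖herm D.e (n i) (b i - D.dev y')‖ := by
      intro δ' hδ' hδ'δ
      obtain ⟨Q, hQ, hQγ⟩ := hγ2 y' δ' hδ'
      obtain ⟨a, ha, haQ⟩ := exists_sl D.e D.he hQ
      have hradQ : rad D y' (a • Q) = rad D y' Q := rad_smul hinc y' Q ha
      have hclose : ‖a • Q - P0‖ < r * κ := by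
        by_contra hcon
        have := hy'r (a • Q) haQ (not_lt.1 hcon)
        rw [hradQ] at this
        linarith
      set P' : V := ((κ⁻¹ : ℝ) : ℂ) • (a • Q) with hP'
      have hP'Z : Z P' := by
        apply hrZ
        rw [dist_eq_norm, hP', hP, ← smul_sub, norm_smul, Complex.norm_real,
          Real.norm_of_nonneg (inv_pos.2 hκ0).le, inv_mul_lt_iff₀ hκ0, mul_comm κ r]
        exact hclose
      have h2 := hWZ hy' hP'Z
      have hradP' : rad D y' P' = rad D y' Q := by
        rw [hP', rad_smul hinc y' _ hκc, hradQ]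
      rw [hradP'] at h2
      have h3 : Real.log (rad D y' Q)⁻¹ ≤ Real.log (γ + δ') :=
        Real.log_le_log (inv_pos.2 (rad_pos hinc y' hQ)) hQγ.le
      linarith
    have h2 : Tendsto (fun δ' : ℝ => Real.log γ - Real.log (γ + δ')) (𝓝[>] 0) (𝓝 0) := by
      have h3 : ContinuousAt (fun δ' : ℝ => Real.log γ - Real.log (γ + δ')) 0 := by
        apply ContinuousAt.sub continuousAt_const
        apply ContinuousAt.log (by fun_prop)
        simpa using hγ.ne'
      have h4 := h3.tendsto
      simp only [add_zero, sub_self] at h4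
      exact h4.mono_left nhdsWithin_le_nhds
    refine le_of_tendsto h2 ?_
    filter_upwards [Ioo_mem_nhdsGT hδ] with δ' hδ'
    exact h1 δ' hδ'.1 hδ'.2
  -- transport to the vector space
  have hposV : ∀ᶠ x in 𝓝 (D.dev y), 0 ≤ ∑ i, l i * Real.log ‖herm D.e (n i) (b i - x)‖ := by
    rw [← D.dev_local.map_nhds_eq y]
    exact hpos
  -- one fixed direction
  obtain ⟨j⟩ : Nonempty ι := by
    by_contra hcon
    rw [not_nonempty_iff] at hcon
    simp at hl1
  set v : ι → V := fun i => b i - D.dev y with hv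
  have hposζ : ∀ᶠ ζ in 𝓝 (0 : ℂ), 0 ≤ ∑ i, l i * Real.log ‖1 + ζ * (-(herm D.e (n i) (v j)))‖ := by
    have h1 : Tendsto (fun ζ : ℂ => D.dev y + ζ • v j) (𝓝 0) (𝓝 (D.dev y)) := by
      have : Continuous fun ζ : ℂ => D.dev y + ζ • v j := by fun_prop
      have h2 := this.tendsto 0
      simpa using h2
    filter_upwards [h1.eventually hposV] with ζ hζ
    have h2 : ∀ i, herm D.e (n i) (b i - (D.dev y + ζ • v j)) =
        1 + ζ * (-(herm D.e (n i) (v j))) := by
      intro i
      have h3 : b i - (D.dev y + ζ • v j) = v i - ζ • v j := by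
        simp only [hv]; abel
      rw [h3, herm_sub_right, herm_smul_right, show herm D.e (n i) (v i) = 1 from (hcn i).1]
      ring
    simpa only [h2] using hζ
  refine harmonic_lemma l (fun i => -(herm D.e (n i) (v j))) hl ?_ (j := j) ?_ hposζ
  · intro i
    rw [norm_neg]
    refine (herm_le D.he hqP0 (n i) (v j)).trans ?_
    rw [show pn D.e P (n i) = (rad D y P)⁻¹ from (hcn i).2.1,
      show pn D.e P (v j) = rad D y P from (hb j).2]
    exact (inv_mul_cancel₀ (rad_pos hinc y hqP0).ne').le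
  · rw [show herm D.e (n j) (v j) = 1 from (hcn j).1]

end Pool.Agent.Helper50.HL
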