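import Mathlib

/-! Module Plane: the planar theorem (part F, Fried type argument).  Independent of the rest. -/

set_option autoImplicit false

open Set Filter Topology

namespace Pool.Agent.Helper50.HL

/-- Planar data. `R y y'` : `y'` is seen from `y`; `T y` : the star domain of `y` in the plane. -/
structure PlaneData (G Y : Type*) [Group G] [TopologicalSpace Y] [MulAction G Y] where
  F : Y → ℂ
  T : Y → Set ℂ
  R : Y → Y → Prop
  lam : G → ℂ
  bet : G → ℂ
  K : Set Y
  lam_ne : ∀ g, lam g ≠ 0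
  act_mul : ∀ (g g' : G) (w : ℂ), lam (g * g') * w + bet (g * g') = lam g * (lam g' * w + bet g') + bet g
  act_one : ∀ w, lam 1 * w + bet 1 = w
  F_cont : Continuous F
  F_mem : ∀ y, F y ∈ T y
  T_open : IsOpen {p : Y × ℂ | p.2 ∈ T p.1}
  T_star : ∀ y, StarConvex ℝ (F y) (T y)
  R_refl : ∀ y, R y y
  R_symm : ∀ y y', R y y' → R y' y
  R_mem : ∀ y y', R y y' → F y' ∈ T y
  lift : ∀ y, ∀ w ∈ T y, ∃ y', R y y' ∧ F y' = w
  chart : ∀ (y y' y'' : Y) (U : Set ℂ), IsOpen U → Convex ℝ U → F y ∈ U → U ⊆ T y → R y y' →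
    R y y'' → F y' ∈ U → F y'' ∈ U → U ⊆ T y' ∧ R y' y''
  near : ∀ y, ∀ᶠ y' in 𝓝 y, R y y'
  glue : ∀ (y y' y'' : Y) (U U' : Set ℂ) (w : ℂ), IsOpen U → Convex ℝ U → F y ∈ U → U ⊆ T y →
    IsOpen U' → Convex ℝ U' → F y' ∈ U' → U' ⊆ T y' → R y y'' → R y' y'' → F y'' ∈ U →
    F y'' ∈ U' → segment ℝ (F y) w ⊆ U ∪ U' → w ∈ T y
  F_smul : ∀ (g : G) (y : Y), F (g • y) = lam g * F y + bet g
  T_smul : ∀ (g : G) (y : Y), ∀ w ∈ T y, lam g * w + bet g ∈ T (g • y)
  R_smul : ∀ (g : G) (y y' : Y), R y y' → R (g • y) (g • y')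
  K_compact : IsCompact K
  K_cover : ∀ y : Y, ∃ g : G, ∃ z ∈ K, y = g • z

variable {G Y : Type*} [Group G] [TopologicalSpace Y] [MulAction G Y] (D : PlaneData G Y)

/-- the distance from `F y` to the complement of `T y` -/
noncomputable def cr (y : Y) : ℝ := Metric.infDist (D.F y) (D.T y)ᶜ

/-- contacts -/
def IsCt (y : Y) (w : ℂ) : Prop := w ∉ D.T y ∧ dist (D.F y) w = cr D y

/-- the open half-plane with boundary point `w` and inner normal `u` -/
def hp (w u : ℂ) : Set ℂ := {x | 0 < ((x - w) * (starRingEnd ℂ) u).re}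

theorem hp_isOpen (w u : ℂ) : IsOpen (hp w u) := by
  have : Continuous fun x : ℂ => ((x - w) * (starRingEnd ℂ) u).re := by fun_prop
  exact isOpen_lt continuous_const this

theorem hp_convex (w u : ℂ) : Convex ℝ (hp w u) := by
  intro x hx y hy a b ha hb hab
  simp only [hp, mem_ofPred_eq] at hx hy ⊢
  have h1 : ((a • x + b • y - w) * (starRingEnd ℂ) u) =
      a * ((x - w) * (starRingEnd ℂ) u) + b * ((y - w) * (starRingEnd ℂ) u) := by
    have : (a : ℂ) + b = 1 := by exact_mod_cast hab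
    simp only [Complex.real_smul]
    linear_combination (w * (starRingEnd ℂ) u) * this
  rw [h1, Complex.add_re, Complex.re_ofReal_mul, Complex.re_ofReal_mul]
  rcases ha.eq_or_lt with rfl | ha'
  · have : b = 1 := by linarith
    subst this
    simpa using hy
  · have := mul_pos ha' hx
    have := mul_nonneg hb hy.le
    linarith

section

variable {D} (hT : ∀ y, D.T y ≠ univ)

theorem isOpen_T (y : Y) : IsOpen (D.T y) :=
  D.T_open.preimage (Continuous.prodMk continuous_const continuous_id)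

theorem lam_inv (g : G) : D.lam g⁻¹ * D.lam g = 1 := by
  have h0 := D.act_mul g⁻¹ g 0
  have h1 := D.act_mul g⁻¹ g 1
  rw [inv_mul_cancel, D.act_one] at h0 h1
  linear_combination h0 - h1

theorem act_inv (g : G) (x : ℂ) : D.lam g⁻¹ * (D.lam g * x + D.bet g) + D.bet g⁻¹ = x := by
  rw [← D.act_mul, inv_mul_cancel, D.act_one]

theorem T_smul_iff (g : G) (y : Y) (x : ℂ) : D.lam g * x + D.bet g ∈ D.T (g • y) ↔ x ∈ D.T y := by
  constructor
  · intro h
    have h1 := D.T_smul g⁻¹ _ _ h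
    rwa [act_inv, inv_smul_smul] at h1
  · exact D.T_smul g y x

include hT

theorem compl_nonempty (y : Y) : ((D.T y)ᶜ).Nonempty := by
  rw [nonempty_compl]
  exact hT y

theorem cr_pos (y : Y) : 0 < cr D y := by
  have h := (isOpen_T (D := D) y).isClosed_compl.notMem_iff_infDist_pos (compl_nonempty hT y)
    (x := D.F y)
  exact h.1 fun h' => h' (D.F_mem y)

theorem exists_ct (y : Y) : ∃ w, IsCt D y w := by
  obtain ⟨w, hw, h⟩ := (isOpen_T (D := D) y).isClosed_compl.exists_infDist_eq_dist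
    (compl_nonempty hT y) (D.F y)
  exact ⟨w, hw, h.symm⟩

omit hT in
theorem mem_T_of_dist (y : Y) {w : ℂ} (h : dist (D.F y) w < cr D y) : w ∈ D.T y := by
  by_contra hw
  exact absurd (Metric.infDist_le_dist_of_mem (s := (D.T y)ᶜ) (x := D.F y) hw) (not_le.2 h)

omit hT in
theorem cr_le_of_notMem (y : Y) {w : ℂ} (h : w ∉ D.T y) : cr D y ≤ dist (D.F y) w :=
  Metric.infDist_le_dist_of_mem (s := (D.T y)ᶜ) (x := D.F y) h

omit hT in
theorem dist_act (g : G) (x x' : ℂ) :
    dist (D.lam g * x + D.bet g) (D.lam g * x' + D.bet g) = ‖D.lam g‖ * dist x x' := by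
  rw [dist_add_right, dist_eq_norm, dist_eq_norm, ← mul_sub, norm_mul]

theorem cr_smul_le (g : G) (y : Y) : cr D (g • y) ≤ ‖D.lam g‖ * cr D y := by
  obtain ⟨w, hw, h⟩ := exists_ct hT y
  have h1 : D.lam g * w + D.bet g ∉ D.T (g • y) := fun h' => hw ((T_smul_iff g y w).1 h')
  have h2 := cr_le_of_notMem _ h1
  rwa [D.F_smul, dist_act, h] at h2

theorem cr_smul (g : G) (y : Y) : cr D (g • y) = ‖D.lam g‖ * cr D y := by
  refine le_antisymm (cr_smul_le hT g y) ?_
  have h1 := cr_smul_le hT g⁻¹ (g • y)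
  rw [inv_smul_smul] at h1
  have h2 : ‖D.lam g⁻¹‖ * ‖D.lam g‖ = 1 := by
    rw [← norm_mul, lam_inv, norm_one]
  have h3 : 0 < ‖D.lam g‖ := norm_pos_iff.2 (D.lam_ne g)
  calc ‖D.lam g‖ * cr D y ≤ ‖D.lam g‖ * (‖D.lam g⁻¹‖ * cr D (g • y)) := by gcongr
    _ = (‖D.lam g⁻¹‖ * ‖D.lam g‖) * cr D (g • y) := by ring
    _ = cr D (g • y) := by rw [h2, one_mul]

omit hT in
theorem ball_subset (y : Y) : Metric.ball (D.F y) (cr D y) ⊆ D.T y := fun x hx =>
  mem_T_of_dist y (by rw [dist_comm]; exact hx)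

theorem le_cr_of_ball {y : Y} {r : ℝ} (h : Metric.ball (D.F y) r ⊆ D.T y) : r ≤ cr D y := by
  by_contra hr
  push Not at hr
  obtain ⟨w, hw, h1⟩ := exists_ct hT y
  apply hw
  apply h
  rw [Metric.mem_ball, dist_comm, h1]
  exact hr

theorem cr_lower {y y' : Y} (hR : D.R y y') (hd : dist (D.F y) (D.F y') < cr D y) :
    cr D y - dist (D.F y) (D.F y') ≤ cr D y' := by
  apply le_cr_of_ball hT
  have h1 := (D.chart y y' y' _ Metric.isOpen_ball (convex_ball (D.F y) (cr D y))
    (Metric.mem_ball_self (cr_pos hT y)) (ball_subset y) hR hR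
    (by rw [Metric.mem_ball, dist_comm]; exact hd)
    (by rw [Metric.mem_ball, dist_comm]; exact hd)).1
  refine Subset.trans ?_ h1
  intro x hx
  rw [Metric.mem_ball] at hx ⊢
  have := dist_triangle x (D.F y') (D.F y)
  rw [dist_comm (D.F y') (D.F y)] at this
  linarith

theorem cr_continuous : Continuous (cr D) := by
  rw [continuous_iff_continuousAt]
  intro y
  rw [ContinuousAt, tendsto_iff_dist_tendsto_zero]
  have hF : Tendsto (fun y' => dist (D.F y) (D.F y')) (𝓝 y) (𝓝 0) := by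
    have h := (D.F_cont.tendsto y)
    have h2 := (tendsto_const_nhds (x := D.F y)).dist h
    simpa using h2
  refine squeeze_zero' (Eventually.of_forall fun _ => dist_nonneg) ?_ hF
  have h1 : ∀ᶠ y' in 𝓝 y, dist (D.F y) (D.F y') < cr D y / 2 :=
    hF.eventually_lt_const (by have := cr_pos hT y; linarith)
  filter_upwards [h1, D.near y] with y' hd hR
  have hc := cr_pos hT y
  have h2 := cr_lower hT hR (by linarith)
  have h3 := cr_lower hT (D.R_symm _ _ hR) (by rw [dist_comm]; linarith)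
  rw [dist_comm (D.F y')] at h3
  rw [Real.dist_eq, abs_le]
  constructor <;> linarith

omit hT in
theorem plane_convex_nhd {S : Set ℂ} (hS : IsOpen S) {p w : ℂ} (hst : StarConvex ℝ p S)
    (hw : w ∈ S) : ∃ U : Set ℂ, IsOpen U ∧ Convex ℝ U ∧ p ∈ U ∧ w ∈ U ∧ U ⊆ S := by
  have hseg : segment ℝ p w ⊆ S := hst.segment_subset hw
  have hcomp : IsCompact (segment ℝ p w) := by
    rw [← Path.range_segment] 
    exact isCompact_range (Path.segment p w).continuous
  obtain ⟨δ, hδ, h⟩ := hcomp.exists_thickening_subset_open hS hseg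
  refine ⟨Metric.thickening δ (segment ℝ p w), Metric.isOpen_thickening,
    (convex_segment p w).thickening δ, ?_, ?_, h⟩
  · exact Metric.self_subset_thickening hδ _ (left_mem_segment ℝ p w)
  · exact Metric.self_subset_thickening hδ _ (right_mem_segment ℝ p w)

omit hT in
/-- A boundary point of a convex chart which is not seen from `y` is not seen from any point of
the chart. -/
theorem notMem_of_seen {y y' : Y} {C : Set ℂ} (hC : IsOpen C) (hconv : Convex ℝ C)
    (hyC : D.F y ∈ C) (hCT : C ⊆ D.T y) {w : ℂ} (hcl : w ∈ closure C) (hw : w ∉ D.T y)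
    (hR : D.R y y') (hF : D.F y' ∈ C) : w ∉ D.T y' := by
  intro hw'
  obtain ⟨U, hU, hUc, h1, h2, h3⟩ := plane_convex_nhd (isOpen_T (D := D) y') (D.T_star y') hw'
  refine hw (D.glue y y' y' C U w hC hconv hyC hCT hU hUc h1 h3 hR (D.R_refl y') hF h1 ?_)
  rw [← insert_endpoints_openSegment]
  rintro q (rfl | rfl | hq)
  · exact Or.inl hyC
  · exact Or.inr h2
  · left
    have := hconv.openSegment_interior_closure_subset_interior
      (by rw [hC.interior_eq]; exact hyC) hcl hq
    rwa [hC.interior_eq] at this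

omit hT in
theorem isOpen_pull (g : G) {U : Set ℂ} (hU : IsOpen U) :
    IsOpen {x | D.lam g * x + D.bet g ∈ U} :=
  hU.preimage (by fun_prop)

omit hT in
theorem convex_pull (g : G) {U : Set ℂ} (hU : Convex ℝ U) :
    Convex ℝ {x | D.lam g * x + D.bet g ∈ U} := by
  intro x hx y hy a b ha hb hab
  simp only [mem_ofPred_eq] at hx hy ⊢
  have := hU hx hy ha hb hab
  have h1 : D.lam g * (a • x + b • y) + D.bet g =
      a • (D.lam g * x + D.bet g) + b • (D.lam g * y + D.bet g) := by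
    have : (a : ℂ) + b = 1 := by exact_mod_cast hab
    simp only [Complex.real_smul]
    linear_combination (-(D.bet g)) * this
  rwa [h1]

omit hT in
theorem isOpen_push (g : G) {U : Set ℂ} (hU : IsOpen U) :
    IsOpen {x | (x - D.bet g) / D.lam g ∈ U} :=
  hU.preimage (by fun_prop)

omit hT in
theorem convex_push (g : G) {U : Set ℂ} (hU : Convex ℝ U) :
    Convex ℝ {x | (x - D.bet g) / D.lam g ∈ U} := by
  intro x hx y hy a b ha hb hab
  simp only [mem_ofPred_eq] at hx hy ⊢
  have := hU hx hy ha hb hab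
  have h1 : (a • x + b • y - D.bet g) / D.lam g =
      a • ((x - D.bet g) / D.lam g) + b • ((y - D.bet g) / D.lam g) := by
    have : (a : ℂ) + b = 1 := by exact_mod_cast hab
    simp only [Complex.real_smul]
    have h0 := D.lam_ne g
    field_simp
    linear_combination (D.bet g) * this
  rwa [h1]

omit hT in
theorem push_subset (g : G) {z : Y} {U : Set ℂ} (hU : U ⊆ D.T z) :
    {x | (x - D.bet g) / D.lam g ∈ U} ⊆ D.T (g • z) := by
  intro x hx
  have h1 := D.T_smul g z _ (hU hx)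
  have h2 : D.lam g * ((x - D.bet g) / D.lam g) + D.bet g = x := by
    have h0 := D.lam_ne g
    field_simp
    ring
  rwa [h2] at h1

omit hT in
theorem pull_subset (g : G) {z : Y} {U : Set ℂ} (hU : U ⊆ D.T (g • z)) :
    {x | D.lam g * x + D.bet g ∈ U} ⊆ D.T z := fun x hx =>
  (T_smul_iff g z x).1 (hU hx)

omit hT in
theorem inv_of_norm {u : ℂ} (hu : ‖u‖ = 1) : u * (starRingEnd ℂ) u = 1 := by
  rw [Complex.mul_conj, Complex.normSq_eq_norm_sq, hu]
  simp

/-- The zoom lemma.  `C` is a convex chart at `y`, `w ∉ T y` a boundary point of `C`; the points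
`ys a` approach `w` in the direction `u` with `cr (ys a) = s a → 0` along an ultrafilter.  After
renormalising by `gs a` we get a limit point `z`, with half-plane chart `hp w' u'`. -/
theorem zoom {α : Type*} (l : Ultrafilter α) {y : Y} {C : Set ℂ} (hC : IsOpen C)
    (hconv : Convex ℝ C) (hyC : D.F y ∈ C) (hCT : C ⊆ D.T y) {w u : ℂ} (hu : ‖u‖ = 1)
    (hw : w ∉ D.T y) {s : α → ℝ} (hs : ∀ᶠ a in (l : Filter α), 0 < s a)
    (hs0 : Tendsto s l (𝓝 0)) {ys : α → Y} (hR : ∀ᶠ a in (l : Filter α), D.R y (ys a))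
    (hF : ∀ᶠ a in (l : Filter α), D.F (ys a) = w + s a * u)
    (hyC' : ∀ᶠ a in (l : Filter α), D.F (ys a) ∈ C)
    (hcr : ∀ᶠ a in (l : Filter α), cr D (ys a) = s a)
    (hbig : ∀ x ∈ hp w u, ∀ᶠ p : ℝ × ℂ in 𝓝[>] 0 ×ˢ 𝓝 (x - w), w + p.1 * p.2 ∈ C) :
    ∃ (gs : α → G) (zs : α → Y) (z : Y) (w' u' : ℂ),
      (∀ a, ys a = gs a • zs a) ∧ Tendsto zs l (𝓝 z) ∧ ‖u'‖ = 1 ∧
      (∀ᶠ a in (l : Filter α), ‖D.lam (gs a)‖ = s a / cr D (zs a)) ∧
      Tendsto (fun a => (w - D.bet (gs a)) / D.lam (gs a)) l (𝓝 w') ∧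
      Tendsto (fun a => u * ‖D.lam (gs a)‖ / D.lam (gs a)) l (𝓝 u') ∧
      D.F z = w' + cr D z * u' ∧ w' ∉ D.T z ∧ hp w' u' ⊆ D.T z := by
  have hK : ∀ a, ∃ g : G, ∃ z ∈ D.K, ys a = g • z := fun a => D.K_cover (ys a)
  choose gs zs hzK hgz using hK
  obtain ⟨z, -, hz⟩ := D.K_compact.ultrafilter_le_nhds (l.map zs) (by
    rw [le_principal_iff]
    exact Eventually.of_forall (f := (l : Filter α)) hzK)
  have hz : Tendsto zs l (𝓝 z) := hz
  have hunorm : ∀ a, ‖u * ‖D.lam (gs a)‖ / D.lam (gs a)‖ = 1 := by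
    intro a
    have h0 := D.lam_ne (gs a)
    rw [norm_div, norm_mul, hu, one_mul, Complex.norm_real, norm_norm]
    exact div_self (norm_ne_zero_iff.2 h0)
  obtain ⟨u', hu'1, hu'⟩ := (isCompact_sphere (0 : ℂ) 1).ultrafilter_le_nhds
    (l.map fun a => u * ‖D.lam (gs a)‖ / D.lam (gs a)) (by
    rw [le_principal_iff]
    refine Eventually.of_forall (f := (l : Filter α)) fun a => ?_
    rw [mem_sphere_zero_iff_norm]
    exact hunorm a)
  have hu' : Tendsto (fun a => u * ‖D.lam (gs a)‖ / D.lam (gs a)) l (𝓝 u') := hu'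
  have hu'1 : ‖u'‖ = 1 := by simpa using hu'1
  have hcz := (cr_continuous hT).tendsto z |>.comp hz
  have hFz := D.F_cont.tendsto z |>.comp hz
  have hczp := cr_pos hT z
  have hlam : ∀ᶠ a in (l : Filter α), ‖D.lam (gs a)‖ = s a / cr D (zs a) := by
    filter_upwards [hcr] with a ha
    rw [hgz a, cr_smul hT] at ha
    rw [eq_div_iff (cr_pos hT _).ne']
    exact ha
  have hlam0 : Tendsto (fun a => ‖D.lam (gs a)‖) l (𝓝[>] 0) := by
    rw [tendsto_nhdsWithin_iff]
    refine ⟨?_, Eventually.of_forall fun a => norm_pos_iff.2 (D.lam_ne _)⟩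
    have h1 : Tendsto (fun a => s a / cr D (zs a)) l (𝓝 (0 / cr D z)) := hs0.div hcz hczp.ne'
    rw [zero_div] at h1
    exact h1.congr' (hlam.mono fun a ha => ha.symm)
  have hFzs : ∀ᶠ a in (l : Filter α), D.F (zs a) = (w - D.bet (gs a)) / D.lam (gs a) +
      cr D (zs a) * (u * ‖D.lam (gs a)‖ / D.lam (gs a)) := by
    filter_upwards [hF, hcr] with a h1 h2
    have h0 := D.lam_ne (gs a)
    rw [← h2, hgz a, cr_smul hT, D.F_smul] at h1
    push_cast at h1
    field_simp
    linear_combination h1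
  set w' : ℂ := D.F z - cr D z * u' with hw'def
  have hw' : Tendsto (fun a => (w - D.bet (gs a)) / D.lam (gs a)) l (𝓝 w') := by
    have h1 : Tendsto (fun a => D.F (zs a) -
        cr D (zs a) * (u * ‖D.lam (gs a)‖ / D.lam (gs a))) l (𝓝 w') := by
      refine Tendsto.sub hFz (Tendsto.mul ?_ hu')
      exact (Complex.continuous_ofReal.tendsto _).comp hcz
    refine h1.congr' ?_
    filter_upwards [hFzs] with a ha
    rw [ha]
    ring
  have huu : u * (starRingEnd ℂ) u = 1 := inv_of_norm hu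
  have huu' : u' * (starRingEnd ℂ) u' = 1 := inv_of_norm hu'1
  have hu0 : u ≠ 0 := fun h => by rw [h] at hu; simp at hu
  have hu'0 : u' ≠ 0 := fun h => by rw [h] at hu'1; simp at hu'1
  -- points of the limit half-plane enter `C`
  have key1 : ∀ x ∈ hp w' u', ∀ᶠ a in (l : Filter α), D.lam (gs a) * x + D.bet (gs a) ∈ C := by
    intro x hx
    have hx0 : w + u / u' * (x - w') ∈ hp w u := by
      show 0 < ((w + u / u' * (x - w') - w) * (starRingEnd ℂ) u).re
      have h1 : (w + u / u' * (x - w') - w) * (starRingEnd ℂ) u =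
          (x - w') * (starRingEnd ℂ) u' := by
        have h2 : u / u' = u * (starRingEnd ℂ) u' := by
          rw [div_eq_iff hu'0]
          linear_combination (-u) * huu'
        rw [h2]
        linear_combination ((x - w') * (starRingEnd ℂ) u') * huu
      rw [h1]
      exact hx
    have h1 := hbig _ hx0
    rw [add_sub_cancel_left] at h1
    have h2 : Tendsto (fun a => (‖D.lam (gs a)‖, u / (u * ‖D.lam (gs a)‖ / D.lam (gs a)) *
        (x - (w - D.bet (gs a)) / D.lam (gs a)))) l (𝓝[>] 0 ×ˢ 𝓝 (u / u' * (x - w'))) := by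
      refine hlam0.prodMk (Tendsto.mul ?_ (tendsto_const_nhds.sub hw'))
      exact tendsto_const_nhds.div hu' hu'0
    refine (h2.eventually h1).mono fun a ha => ?_
    have h0 := D.lam_ne (gs a)
    have h00 : (‖D.lam (gs a)‖ : ℂ) ≠ 0 := by
      exact_mod_cast (norm_ne_zero_iff.2 h0)
    have h3 : w + (‖D.lam (gs a)‖ : ℂ) * (u / (u * ‖D.lam (gs a)‖ / D.lam (gs a)) *
        (x - (w - D.bet (gs a)) / D.lam (gs a))) = D.lam (gs a) * x + D.bet (gs a) := by
      field_simp
      ring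
    rw [← h3]
    exact ha
  have hcl : w ∈ closure C := by
    have hmem : w + u ∈ hp w u := by
      show 0 < ((w + u - w) * (starRingEnd ℂ) u).re
      rw [add_sub_cancel_left, huu]
      simp
    have h1 := hbig _ hmem
    rw [add_sub_cancel_left] at h1
    have h2 : Tendsto (fun t : ℝ => (t, u)) (𝓝[>] 0) (𝓝[>] 0 ×ˢ 𝓝 u) :=
      tendsto_id.prodMk tendsto_const_nhds
    have h3 := h2.eventually h1
    have h4 : Tendsto (fun t : ℝ => w + (t : ℂ) * u) (𝓝[>] 0) (𝓝 w) := by
      have : Continuous fun t : ℝ => w + (t : ℂ) * u := by fun_prop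
      have h5 := (this.tendsto 0).mono_left (nhdsWithin_le_nhds (s := Ioi 0))
      simpa using h5
    exact mem_closure_of_tendsto h4 h3
  have hFzeq : D.F z = w' + cr D z * u' := by rw [hw'def]; ring
  refine ⟨gs, zs, z, w', u', hgz, hz, hu'1, hlam, hw', hu', hFzeq, ?_, ?_⟩
  · intro hmem
    have h1 : ∀ᶠ a in (l : Filter α), (w - D.bet (gs a)) / D.lam (gs a) ∈ D.T (zs a) := by
      have h2 : Tendsto (fun a => (zs a, (w - D.bet (gs a)) / D.lam (gs a))) l (𝓝 (z, w')) :=
        hz.prodMk_nhds hw'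
      exact h2.eventually (D.T_open.mem_nhds hmem)
    obtain ⟨a, h1, hRa, hFa⟩ := (h1.and (hR.and hyC')).exists
    have h2 := D.T_smul (gs a) _ _ h1
    rw [← hgz a] at h2
    have h3 : D.lam (gs a) * ((w - D.bet (gs a)) / D.lam (gs a)) + D.bet (gs a) = w := by
      have h0 := D.lam_ne (gs a)
      field_simp
      ring
    rw [h3] at h2
    exact notMem_of_seen hC hconv hyC hCT hcl hw hRa hFa h2
  · intro x hx
    have hFzmem : D.F z ∈ hp w' u' := by
      show 0 < ((D.F z - w') * (starRingEnd ℂ) u').re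
      rw [hFzeq, add_sub_cancel_left, mul_assoc, huu', mul_one, Complex.ofReal_re]
      exact hczp
    have hnear := hz.eventually (D.near z)
    obtain ⟨a, h1, h2, hRa, hFa, hn⟩ :=
      ((key1 x hx).and ((key1 _ hFzmem).and (hR.and (hyC'.and hnear)))).exists
    have hCa : C ⊆ D.T (gs a • zs a) := by
      rw [← hgz a]
      exact (D.chart y (ys a) (ys a) C hC hconv hyC hCT hRa hRa hFa hFa).1
    have hFa' : D.F (zs a) ∈ {x | D.lam (gs a) * x + D.bet (gs a) ∈ C} := by
      show D.lam (gs a) * D.F (zs a) + D.bet (gs a) ∈ C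
      rw [← D.F_smul, ← hgz a]
      exact hFa
    have h3 := (D.chart (zs a) z z _ (isOpen_pull (gs a) hC) (convex_pull (gs a) hconv) hFa'
      (pull_subset (gs a) hCa) (D.R_symm _ _ hn) (D.R_symm _ _ hn) h2 h2).1
    exact h3 h1

/-- F1 -/
theorem hp_subset {y : Y} {w : ℂ} (h : IsCt D y w) : hp w (D.F y - w) ⊆ D.T y := by
  obtain ⟨hw, hd⟩ := h
  have hc := cr_pos hT y
  set c := cr D y with hcdef
  have hc0 : (c : ℂ) ≠ 0 := by exact_mod_cast hc.ne'
  set u : ℂ := (D.F y - w) / c with hudef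
  have hFy : D.F y - w = c * u := by
    rw [hudef]
    field_simp
  have hu : ‖u‖ = 1 := by
    rw [hudef, norm_div, ← dist_eq_norm, hd, Complex.norm_real, Real.norm_eq_abs, abs_of_pos hc]
    exact div_self hc.ne'
  have huu : u * (starRingEnd ℂ) u = 1 := inv_of_norm hu
  have hu0 : u ≠ 0 := fun h => by rw [h] at hu; simp at hu
  have hball := ball_subset (D := D) y
  rw [← hcdef] at hball
  have hys : ∀ a : ℝ, ∃ y', 0 < a → a < 1 → D.R y y' ∧ D.F y' = w + a * (D.F y - w) := by
    intro a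
    by_cases h1 : 0 < a ∧ a < 1
    · have h2 : w + a * (D.F y - w) ∈ D.T y := by
        apply hball
        rw [Metric.mem_ball, dist_eq_norm]
        have h3 : w + a * (D.F y - w) - D.F y = ((a - 1 : ℝ) : ℂ) * (D.F y - w) := by
          push_cast
          ring
        rw [h3, norm_mul, ← dist_eq_norm, hd, Complex.norm_real, Real.norm_eq_abs,
          abs_of_neg (by linarith [h1.2])]
        nlinarith [h1.1]
      obtain ⟨y', h3, h4⟩ := D.lift y _ h2
      exact ⟨y', fun _ _ => ⟨h3, h4⟩⟩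
    · exact ⟨y, fun h2 h3 => absurd ⟨h2, h3⟩ h1⟩
  choose ys hys using hys
  let l : Ultrafilter ℝ := Ultrafilter.of (𝓝[>] (0 : ℝ))
  have hl : (l : Filter ℝ) ≤ 𝓝[>] 0 := Ultrafilter.of_le _
  have hpos : ∀ᶠ a in (l : Filter ℝ), 0 < a := hl self_mem_nhdsWithin
  have hlt : ∀ᶠ a in (l : Filter ℝ), a < 1 :=
    hl (nhdsWithin_le_nhds (Iio_mem_nhds one_pos))
  have hcl : w ∈ closure (Metric.ball (D.F y) c) := by
    rw [closure_ball _ hc.ne', Metric.mem_closedBall, dist_comm]
    exact hd.le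
  have hmemball : ∀ a : ℝ, 0 < a → a < 1 → w + a * (D.F y - w) ∈ Metric.ball (D.F y) c := by
    intro a h1 h2
    rw [Metric.mem_ball, dist_eq_norm]
    have h3 : w + a * (D.F y - w) - D.F y = ((a - 1 : ℝ) : ℂ) * (D.F y - w) := by
      push_cast
      ring
    rw [h3, norm_mul, ← dist_eq_norm, hd, Complex.norm_real, Real.norm_eq_abs,
      abs_of_neg (by linarith)]
    nlinarith
  have hcrs : ∀ a : ℝ, 0 < a → a < 1 → cr D (ys a) = a * c := by
    intro a h1 h2
    obtain ⟨h3, h4⟩ := hys a h1 h2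
    have hFm : D.F (ys a) ∈ Metric.ball (D.F y) c := by rw [h4]; exact hmemball a h1 h2
    apply le_antisymm
    · have h5 := notMem_of_seen Metric.isOpen_ball (convex_ball _ _)
        (Metric.mem_ball_self hc) hball hcl hw h3 hFm
      refine (cr_le_of_notMem _ h5).trans ?_
      rw [h4, dist_eq_norm, add_sub_cancel_left, norm_mul, ← dist_eq_norm, hd, Complex.norm_real,
        Real.norm_eq_abs, abs_of_pos h1]
    · apply le_cr_of_ball hT
      have h5 := (D.chart y (ys a) (ys a) _ Metric.isOpen_ball (convex_ball (D.F y) c)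
        (Metric.mem_ball_self hc) hball h3 h3 hFm hFm).1
      refine Subset.trans ?_ h5
      intro x hx
      rw [Metric.mem_ball] at hx ⊢
      have h6 := dist_triangle x (D.F (ys a)) (D.F y)
      have h7 : dist (D.F (ys a)) (D.F y) = (1 - a) * c := by
        have h8 : w + a * (D.F y - w) - D.F y = ((a - 1 : ℝ) : ℂ) * (D.F y - w) := by
          push_cast
          ring
        rw [h4, dist_eq_norm, h8, norm_mul, ← dist_eq_norm (D.F y) w, hd, Complex.norm_real,
          Real.norm_eq_abs, abs_of_neg (by linarith)]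
        ring
      rw [h7] at h6
      linarith
  obtain ⟨gs, zs, z, w', u', hgz, hz, hu'1, hlam, hw', hu', hFz, hw'T, hpT⟩ :=
    zoom hT l Metric.isOpen_ball (convex_ball (D.F y) c) (Metric.mem_ball_self hc) hball hu hw
      (s := fun a => a * c) (ys := ys)
      (hpos.mono fun a ha => mul_pos ha hc)
      (by
        have h1 : Tendsto (fun a : ℝ => a * c) (𝓝 0) (𝓝 (0 * c)) :=
          tendsto_id.mul tendsto_const_nhds
        rw [zero_mul] at h1
        exact h1.mono_left (hl.trans nhdsWithin_le_nhds))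
      (by filter_upwards [hpos, hlt] with a h1 h2 using (hys a h1 h2).1)
      (by
        filter_upwards [hpos, hlt] with a h1 h2
        rw [(hys a h1 h2).2, hFy]
        push_cast
        ring)
      (by
        filter_upwards [hpos, hlt] with a h1 h2
        rw [(hys a h1 h2).2]
        exact hmemball a h1 h2)
      (by filter_upwards [hpos, hlt] with a h1 h2 using hcrs a h1 h2)
      (by
        intro x hx
        have hx : 0 < ((x - w) * (starRingEnd ℂ) u).re := hx
        have hcont : Continuous fun p : ℝ × ℂ =>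
          p.1 * Complex.normSq p.2 - 2 * c * (p.2 * (starRingEnd ℂ) u).re := by
          have := Complex.continuous_normSq
          fun_prop
        have h1 : (fun p : ℝ × ℂ =>
          p.1 * Complex.normSq p.2 - 2 * c * (p.2 * (starRingEnd ℂ) u).re) (0, x - w) < 0 := by
          simp only [zero_mul, zero_sub]
          have := mul_pos (mul_pos two_pos hc) hx
          linarith
        have h2 : ∀ᶠ p : ℝ × ℂ in 𝓝[>] 0 ×ˢ 𝓝 (x - w),
            p.1 * Complex.normSq p.2 - 2 * c * (p.2 * (starRingEnd ℂ) u).re < 0 := by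
          have h3 := (hcont.tendsto (0, x - w)).eventually (gt_mem_nhds h1)
          rw [nhds_prod_eq] at h3
          exact h3.filter_mono (prod_mono nhdsWithin_le_nhds le_rfl)
        have h3 : ∀ᶠ p : ℝ × ℂ in 𝓝[>] 0 ×ˢ 𝓝 (x - w), 0 < p.1 :=
          tendsto_fst.eventually self_mem_nhdsWithin
        filter_upwards [h2, h3] with p h4 h5
        rw [Metric.mem_ball, dist_eq_norm]
        have h6 : w + p.1 * p.2 - D.F y = p.1 * p.2 - c * u := by
          linear_combination -hFy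
        rw [h6]
        have h7 : ‖(p.1 : ℂ) * p.2 - c * u‖ ^ 2 < c ^ 2 := by
          rw [← Complex.normSq_eq_norm_sq, Complex.normSq_sub, Complex.normSq_mul,
            Complex.normSq_mul, Complex.normSq_ofReal, Complex.normSq_ofReal,
            Complex.normSq_eq_norm_sq u, hu, map_mul, Complex.conj_ofReal]
          have h8 : ((p.1 : ℂ) * p.2 * (c * (starRingEnd ℂ) u)).re =
              p.1 * c * (p.2 * (starRingEnd ℂ) u).re := by
            have : (p.1 : ℂ) * p.2 * (c * (starRingEnd ℂ) u) =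
              ((p.1 * c : ℝ) : ℂ) * (p.2 * (starRingEnd ℂ) u) := by push_cast; ring
            rw [this, Complex.re_ofReal_mul]
          rw [h8]
          nlinarith [mul_neg_of_pos_of_neg h5 h4]
        exact lt_of_pow_lt_pow_left₀ 2 hc.le h7)
  have huu' : u' * (starRingEnd ℂ) u' = 1 := inv_of_norm hu'1
  have hlampos : ∀ a, 0 < ‖D.lam (gs a)‖ := fun a => norm_pos_iff.2 (D.lam_ne _)
  have hcz := (cr_continuous hT).tendsto z |>.comp hz
  have hczp := cr_pos hT z
  have hlam0 : Tendsto (fun a => ‖D.lam (gs a)‖) l (𝓝 0) := by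
    have h0 : Tendsto (fun a : ℝ => a * c) l (𝓝 0) := by
      have h1 : Tendsto (fun a : ℝ => a * c) (𝓝 0) (𝓝 (0 * c)) :=
        tendsto_id.mul tendsto_const_nhds
      rw [zero_mul] at h1
      exact h1.mono_left (hl.trans nhdsWithin_le_nhds)
    have h1 : Tendsto (fun a => a * c / cr D (zs a)) l (𝓝 (0 / cr D z)) := h0.div hcz hczp.ne'
    rw [zero_div] at h1
    exact h1.congr' (hlam.mono fun a ha => ha.symm)
  -- points of the half-plane enter `g H_z`
  have key : ∀ x, 0 < ((x - w) * (starRingEnd ℂ) u).re →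
      ∀ᶠ a in (l : Filter ℝ), (x - D.bet (gs a)) / D.lam (gs a) ∈ hp w' u' := by
    intro x hx
    have h1 : Tendsto (fun a => (‖D.lam (gs a)‖ * ((w - D.bet (gs a)) / D.lam (gs a) - w') *
        (starRingEnd ℂ) u' + (x - w) * ((u * ‖D.lam (gs a)‖ / D.lam (gs a)) / u) *
          (starRingEnd ℂ) u').re) l (𝓝 ((x - w) * (starRingEnd ℂ) u).re) := by
      have h2 : ((x - w) * (starRingEnd ℂ) u) = ((0 : ℝ) : ℂ) * (w' - w') * (starRingEnd ℂ) u' +
          (x - w) * (u' / u) * (starRingEnd ℂ) u' := by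
        have h3 : u' / u * (starRingEnd ℂ) u' = (starRingEnd ℂ) u := by
          rw [div_mul_eq_mul_div, huu', eq_comm, eq_div_iff hu0, mul_comm, huu]
        rw [mul_assoc (x - w), h3]
        simp
      rw [h2]
      refine (Complex.continuous_re.tendsto _).comp ?_
      refine Tendsto.add (Tendsto.mul (Tendsto.mul ?_ (hw'.sub tendsto_const_nhds))
        tendsto_const_nhds) (Tendsto.mul (Tendsto.mul tendsto_const_nhds
          (hu'.div tendsto_const_nhds hu0)) tendsto_const_nhds)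
      exact (Complex.continuous_ofReal.tendsto _).comp hlam0
    filter_upwards [h1.eventually (lt_mem_nhds hx)] with a ha
    show 0 < (((x - D.bet (gs a)) / D.lam (gs a) - w') * (starRingEnd ℂ) u').re
    have h0 := D.lam_ne (gs a)
    have h4 : ‖D.lam (gs a)‖ * ((w - D.bet (gs a)) / D.lam (gs a) - w') *
        (starRingEnd ℂ) u' + (x - w) * ((u * ‖D.lam (gs a)‖ / D.lam (gs a)) / u) *
          (starRingEnd ℂ) u' = (‖D.lam (gs a)‖ : ℂ) *
          (((x - D.bet (gs a)) / D.lam (gs a) - w') * (starRingEnd ℂ) u') := by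
      field_simp
      ring
    rw [h4, Complex.re_ofReal_mul] at ha
    exact (mul_pos_iff_of_pos_left (hlampos a)).1 ha
  intro x hx
  have hx' : 0 < ((x - w) * (starRingEnd ℂ) u).re := by
    have h1 : 0 < ((x - w) * (starRingEnd ℂ) (D.F y - w)).re := hx
    rw [hFy, map_mul, Complex.conj_ofReal] at h1
    have h2 : (x - w) * ((c : ℂ) * (starRingEnd ℂ) u) =
      (c : ℂ) * ((x - w) * (starRingEnd ℂ) u) := by ring
    rw [h2, Complex.re_ofReal_mul] at h1
    exact (mul_pos_iff_of_pos_left hc).1 h1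
  have hy' : 0 < ((D.F y - w) * (starRingEnd ℂ) u).re := by
    rw [hFy, mul_assoc, huu, mul_one, Complex.ofReal_re]
    exact hc
  have hFzmem : D.F z ∈ hp w' u' := by
    show 0 < ((D.F z - w') * (starRingEnd ℂ) u').re
    rw [hFz, add_sub_cancel_left, mul_assoc, huu', mul_one, Complex.ofReal_re]
    exact hczp
  have hFzs : ∀ᶠ a in (l : Filter ℝ), D.F (zs a) ∈ hp w' u' :=
    (D.F_cont.tendsto z |>.comp hz).eventually ((hp_isOpen w' u').mem_nhds hFzmem)
  obtain ⟨a, h1, h2, h3, h4, h5, h6⟩ := ((key x hx').and ((key _ hy').and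
    (hFzs.and ((hz.eventually (D.near z)).and (hpos.and hlt))))).exists
  have hHz : hp w' u' ⊆ D.T (zs a) :=
    (D.chart z (zs a) (zs a) _ (hp_isOpen w' u') (hp_convex w' u') hFzmem hpT h4 h4 h3 h3).1
  have hRa := (hys a h5 h6).1
  rw [hgz a] at hRa
  have hFa : D.F (gs a • zs a) ∈ {x | (x - D.bet (gs a)) / D.lam (gs a) ∈ hp w' u'} := by
    show (D.F (gs a • zs a) - D.bet (gs a)) / D.lam (gs a) ∈ hp w' u'
    have h0 := D.lam_ne (gs a)
    have h7 : (D.F (gs a • zs a) - D.bet (gs a)) / D.lam (gs a) = D.F (zs a) := by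
      rw [D.F_smul]
      field_simp
      ring
    rw [h7]
    exact h3
  have h8 := (D.chart (gs a • zs a) y y _ (isOpen_push (gs a) (hp_isOpen w' u'))
    (convex_push (gs a) (hp_convex w' u')) hFa (push_subset (gs a) hHz) (D.R_symm _ _ hRa)
    (D.R_symm _ _ hRa) h2 h2).1
  exact h8 h1

/-- F2 -/
theorem ct_unique {y : Y} {w w' : ℂ} (h : IsCt D y w) (h' : IsCt D y w') : w = w' := by
  by_contra hne
  apply h'.1
  apply hp_subset hT h
  show 0 < ((w' - w) * (starRingEnd ℂ) (D.F y - w)).re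
  have h1 : Complex.normSq (D.F y - w') = Complex.normSq (D.F y - w) := by
    rw [Complex.normSq_eq_norm_sq, Complex.normSq_eq_norm_sq, ← dist_eq_norm, ← dist_eq_norm,
      h.2, h'.2]
  have h2 : D.F y - w' = (D.F y - w) - (w' - w) := by ring
  rw [h2, Complex.normSq_sub] at h1
  have h3 : 0 < Complex.normSq (w' - w) := Complex.normSq_pos.2 (sub_ne_zero.2 (Ne.symm hne))
  have h4 : ((D.F y - w) * (starRingEnd ℂ) (w' - w)).re =
      ((w' - w) * (starRingEnd ℂ) (D.F y - w)).re := by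
    simp only [Complex.mul_re, Complex.conj_re, Complex.conj_im]
    ring
  rw [h4] at h1
  linarith

theorem exists_ct_fun : ∃ ct : Y → ℂ, (∀ y, IsCt D y (ct y)) ∧ Continuous ct ∧
    ∀ (g : G) (y : Y), ct (g • y) = D.lam g * ct y + D.bet g := by
  choose ct hct using exists_ct (D := D) hT
  refine ⟨ct, hct, ?_, ?_⟩
  · rw [continuous_iff_continuousAt]
    intro y
    rw [ContinuousAt, tendsto_iff_ultrafilter]
    intro l hl
    have hc := ((cr_continuous hT).tendsto y).mono_left hl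
    have hF := (D.F_cont.tendsto y).mono_left hl
    have h1 : ∀ᶠ y' in (l : Filter Y), ct y' ∈ Metric.closedBall (D.F y) (cr D y + 2) := by
      have h2 : ∀ᶠ y' in (l : Filter Y), cr D y' < cr D y + 1 :=
        hc.eventually (gt_mem_nhds (by linarith))
      have h3 : ∀ᶠ y' in (l : Filter Y), dist (D.F y') (D.F y) < 1 :=
        hF.eventually (Metric.ball_mem_nhds _ one_pos)
      filter_upwards [h2, h3] with y' h4 h5
      rw [Metric.mem_closedBall]
      have h6 := dist_triangle (ct y') (D.F y') (D.F y)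
      have h7 := (hct y').2
      rw [dist_comm] at h7
      linarith
    obtain ⟨w, -, hw⟩ := (isCompact_closedBall (D.F y) (cr D y + 2)).ultrafilter_le_nhds
      (l.map ct) (by rw [le_principal_iff]; exact h1)
    have hw : Tendsto ct l (𝓝 w) := hw
    have h2 : IsCt D y w := by
      refine ⟨fun hmem => ?_, ?_⟩
      · have h3 : Tendsto (fun y' => (y', ct y')) l (𝓝 (y, w)) :=
          Tendsto.prodMk_nhds hl hw
        obtain ⟨y', h4⟩ := (h3.eventually (D.T_open.mem_nhds hmem)).exists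
        exact (hct y').1 h4
      · have h3 : Tendsto (fun y' => dist (D.F y') (ct y')) l (𝓝 (dist (D.F y) w)) := hF.dist hw
        have h4 : Tendsto (fun y' => dist (D.F y') (ct y')) l (𝓝 (cr D y)) :=
          hc.congr fun y' => (hct y').2.symm
        exact tendsto_nhds_unique h3 h4
    rw [ct_unique hT (hct y) h2]
    exact hw
  · intro g y
    refine ct_unique hT (hct _) ⟨fun h => (hct y).1 ((T_smul_iff g y _).1 h), ?_⟩
    rw [D.F_smul, dist_act, (hct y).2, cr_smul hT]

omit hT in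
theorem T_isOpen (y : Y) : IsOpen (D.T y) :=
  D.T_open.preimage (Continuous.prodMk_right y)

omit hT in
theorem exists_thick {y : Y} {x : ℂ} (hx : x ∈ D.T y) :
    ∃ U : Set ℂ, IsOpen U ∧ Convex ℝ U ∧ U ⊆ D.T y ∧ segment ℝ (D.F y) x ⊆ U := by
  have hseg : segment ℝ (D.F y) x ⊆ D.T y := (D.T_star y).segment_subset hx
  have hcomp : IsCompact (segment ℝ (D.F y) x) := by
    rw [segment_eq_image_lineMap]
    exact isCompact_Icc.image (AffineMap.lineMap_continuous)
  obtain ⟨δ, hδ, hδ'⟩ := hcomp.exists_thickening_subset_open (T_isOpen y) hseg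
  exact ⟨Metric.thickening δ (segment ℝ (D.F y) x), Metric.isOpen_thickening,
    (convex_segment _ _).thickening δ, hδ', Metric.self_subset_thickening hδ _⟩

omit hT in
/-- gluing at a point -/
theorem glue_pt {y y' : Y} {U : Set ℂ} (hU : IsOpen U) (hconv : Convex ℝ U) (hy : D.F y ∈ U)
    (hUT : U ⊆ D.T y) (hR : D.R y y') (hy' : D.F y' ∈ U) {x : ℂ} (hx : x ∈ D.T y')
    (hseg : ∀ t : ℝ, 0 < t → t ≤ 1 → x + t * (D.F y - x) ∈ U) : x ∈ D.T y := by
  obtain ⟨U', hU', hconv', hUT', hs'⟩ := exists_thick hx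
  have h1 : D.F y' ∈ U' := hs' (left_mem_segment ℝ _ _)
  have h2 : x ∈ U' := hs' (right_mem_segment ℝ _ _)
  refine D.glue y y' y' U U' x hU hconv hy hUT hU' hconv' h1 hUT' hR (D.R_refl y') hy' h1 ?_
  intro p hp
  obtain ⟨a, b, ha, hb, hab, rfl⟩ := hp
  rcases ha.eq_or_lt with h | h
  · right
    have hb1 : b = 1 := by linarith
    rw [← h, hb1]
    simpa using h2
  · left
    have := hseg a h (by linarith)
    have hb1 : b = 1 - a := by linarith
    have e : a • D.F y + b • x = x + a * (D.F y - x) := by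
      rw [hb1, Complex.real_smul, Complex.real_smul]
      push_cast
      ring
    rw [e]
    exact this

omit hT in
theorem chart_sub {y y' : Y} {U : Set ℂ} (hU : IsOpen U) (hconv : Convex ℝ U) (hy : D.F y ∈ U)
    (hUT : U ⊆ D.T y) (hR : D.R y y') (hy' : D.F y' ∈ U) : U ⊆ D.T y' :=
  (D.chart y y' y' U hU hconv hy hUT hR hR hy' hy').1

omit hT in
theorem chart_R {y y' y'' : Y} {U : Set ℂ} (hU : IsOpen U) (hconv : Convex ℝ U) (hy : D.F y ∈ U)
    (hUT : U ⊆ D.T y) (hR : D.R y y') (hR' : D.R y y'') (hy' : D.F y' ∈ U)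
    (hy'' : D.F y'' ∈ U) : D.R y' y'' :=
  (D.chart y y' y'' U hU hconv hy hUT hR hR' hy' hy'').2

/-- F3 -/
theorem no_gap {y : Y} {w u : ℂ} (hu : u ≠ 0) (hy : D.F y ∈ hp w u) (hH : hp w u ⊆ D.T y)
    {α μ β : ℝ} (h1 : α < μ) (h2 : μ < β) (ha : w + α * Complex.I * u ∉ D.T y)
    (hb : w + β * Complex.I * u ∉ D.T y) : w + μ * Complex.I * u ∉ D.T y := by
  intro hm
  set m : ℂ := w + μ * Complex.I * u with hmdef
  obtain ⟨ym, hRm, hFm⟩ := D.lift y m hm
  obtain ⟨wm, hwm⟩ := exists_ct hT ym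
  have hHm := hp_subset hT hwm
  have hcr := cr_pos hT ym
  rw [hFm] at hHm
  have hmm : m ∈ hp wm (m - wm) := by
    have hne : m - wm ≠ 0 := by
      intro h
      have := hwm.2
      rw [hFm, dist_eq_norm, h, norm_zero] at this
      exact hcr.ne this
    show 0 < ((m - wm) * (starRingEnd ℂ) (m - wm)).re
    rw [Complex.mul_conj, Complex.ofReal_re]
    exact Complex.normSq_pos.mpr hne
  -- points of the boundary line visible
  have key : ∀ ν : ℝ, w + ν * Complex.I * u ∈ hp wm (m - wm) →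
      w + ν * Complex.I * u ∈ D.T y := by
    intro ν hν
    set x : ℂ := w + ν * Complex.I * u with hx
    obtain ⟨U0, hU0, hc0, hUT0, hs0⟩ := exists_thick hm
    have hreal : ∀ κ : ℝ, ((w + κ * Complex.I * u - w) * (starRingEnd ℂ) u).re = 0 := by
      intro κ
      have : (w + κ * Complex.I * u - w) * (starRingEnd ℂ) u =
          (κ * Complex.normSq u : ℝ) * Complex.I := by
        have h := Complex.mul_conj u
        push_cast
        rw [← h]
        ring
      rw [this]
      simp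
    have hyre : 0 < ((D.F y - w) * (starRingEnd ℂ) u).re := hy
    have hin : ∀ κ : ℝ, ∀ t : ℝ, 0 < t →
        (w + κ * Complex.I * u) + t * (D.F y - (w + κ * Complex.I * u)) ∈ hp w u := by
      intro κ t ht
      show 0 < (((w + κ * Complex.I * u) + t * (D.F y - (w + κ * Complex.I * u)) - w) *
        (starRingEnd ℂ) u).re
      have e : ((w + κ * Complex.I * u) + t * (D.F y - (w + κ * Complex.I * u)) - w) *
        (starRingEnd ℂ) u = ((1 - t : ℝ) : ℂ) * ((w + κ * Complex.I * u - w) * (starRingEnd ℂ) u) +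
          (t : ℂ) * ((D.F y - w) * (starRingEnd ℂ) u) := by
        push_cast
        ring
      rw [e, Complex.add_re, Complex.re_ofReal_mul, Complex.re_ofReal_mul, hreal κ]
      have := mul_pos ht hyre
      linarith
    -- choose p = m + ε (F y - m) in H, in hp wm, in U0
    have hcont : Tendsto (fun t : ℝ => m + t * (D.F y - m)) (𝓝[>] 0) (𝓝 m) := by
      have : Continuous (fun t : ℝ => m + t * (D.F y - m)) := by fun_prop
      have h := this.tendsto 0
      simp only [Complex.ofReal_zero, zero_mul, add_zero] at h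
      exact h.mono_left nhdsWithin_le_nhds
    have he1 : ∀ᶠ t : ℝ in 𝓝[>] 0, m + t * (D.F y - m) ∈ hp wm (m - wm) :=
      hcont.eventually ((hp_isOpen _ _).mem_nhds hmm)
    have he2 : ∀ᶠ t : ℝ in 𝓝[>] 0, m + t * (D.F y - m) ∈ U0 :=
      hcont.eventually (hU0.mem_nhds (hs0 (right_mem_segment ℝ _ _)))
    obtain ⟨t, ht1, ht2, ht0⟩ := (he1.and (he2.and self_mem_nhdsWithin)).exists
    have ht0' : 0 < t := ht0
    set p : ℂ := m + t * (D.F y - m) with hp'
    have hpH : p ∈ hp w u := hin μ t ht0'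
    obtain ⟨y'', hR'', hF''⟩ := D.lift y p (hH hpH)
    have hRm'' : D.R ym y'' := chart_R hU0 hc0 (hs0 (left_mem_segment ℝ _ _)) hUT0 hRm hR''
      (by rw [hFm]; exact hs0 (right_mem_segment ℝ _ _)) (by rw [hF'']; exact ht2)
    refine D.glue y ym y'' (hp w u) (hp wm (m - wm)) x (hp_isOpen _ _) (hp_convex _ _) hy hH
      (hp_isOpen _ _) (hp_convex _ _) (by rw [hFm]; exact hmm) hHm hR'' hRm''
      (by rw [hF'']; exact hpH) (by rw [hF'']; exact ht1) ?_
    intro q hq
    obtain ⟨a, b, ha', hb', hab, rfl⟩ := hq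
    rcases ha'.eq_or_lt with h | h
    · right
      have hb1 : b = 1 := by linarith
      rw [← h, hb1]
      simpa using hν
    · left
      have := hin ν a h
      have hb1 : b = 1 - a := by linarith
      have e : a • D.F y + b • x = x + a * (D.F y - x) := by
        rw [hb1, Complex.real_smul, Complex.real_smul]
        push_cast
        ring
      rw [e]
      exact this
  -- the affine functional
  have haff : 0 < ((w + μ * Complex.I * u - wm) * (starRingEnd ℂ) (m - wm)).re := hmm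
  have hlin : ∀ κ : ℝ, ((w + κ * Complex.I * u - wm) * (starRingEnd ℂ) (m - wm)).re =
      ((w - wm) * (starRingEnd ℂ) (m - wm)).re +
        κ * ((Complex.I * u) * (starRingEnd ℂ) (m - wm)).re := by
    intro κ
    have e : (w + κ * Complex.I * u - wm) * (starRingEnd ℂ) (m - wm) =
        (w - wm) * (starRingEnd ℂ) (m - wm) +
          (κ : ℂ) * ((Complex.I * u) * (starRingEnd ℂ) (m - wm)) := by ring
    rw [e, Complex.add_re, Complex.re_ofReal_mul]
  rw [hlin] at haff
  by_cases hA : 0 < ((w - wm) * (starRingEnd ℂ) (m - wm)).re +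
      α * ((Complex.I * u) * (starRingEnd ℂ) (m - wm)).re
  · apply ha
    apply key
    show 0 < ((w + α * Complex.I * u - wm) * (starRingEnd ℂ) (m - wm)).re
    rw [hlin]; exact hA
  · apply hb
    apply key
    show 0 < ((w + β * Complex.I * u - wm) * (starRingEnd ℂ) (m - wm)).re
    rw [hlin]
    push Not at hA
    nlinarith

omit hT in
theorem hp_eq (w u : ℂ) (κ r : ℝ) (hr : 0 < r) : hp (w + κ * Complex.I * u) (r * u) = hp w u := by
  ext x
  have e : (x - (w + κ * Complex.I * u)) * (starRingEnd ℂ) (r * u) =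
      (r : ℂ) * ((x - w) * (starRingEnd ℂ) u) - (r * κ * Complex.normSq u : ℝ) * Complex.I := by
    have h := Complex.mul_conj u
    push_cast
    rw [← h, map_mul, Complex.conj_ofReal]
    ring
  show 0 < ((x - (w + κ * Complex.I * u)) * (starRingEnd ℂ) (r * u)).re ↔
    0 < ((x - w) * (starRingEnd ℂ) u).re
  rw [e, Complex.sub_re, Complex.re_ofReal_mul]
  simp [hr]

omit hT in
theorem hp_eq' (w u : ℂ) (r : ℝ) (hr : 0 < r) : hp w (r * u) = hp w u := by
  have := hp_eq w u 0 r hr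
  simpa using this

omit hT in
theorem bd_re (w u : ℂ) (κ : ℝ) :
    ((w + κ * Complex.I * u - w) * (starRingEnd ℂ) u).re = 0 := by
  have : (w + κ * Complex.I * u - w) * (starRingEnd ℂ) u =
      (κ * Complex.normSq u : ℝ) * Complex.I := by
    have h := Complex.mul_conj u
    push_cast
    rw [← h]
    ring
  rw [this]
  simp

omit hT in
/-- the open segment from a boundary point to an inner point lies in the half-plane -/
theorem hp_seg {w u v x : ℂ} (hv : v ∈ hp w u) (hx : 0 ≤ ((x - w) * (starRingEnd ℂ) u).re)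
    {t : ℝ} (ht : 0 < t) (ht1 : t ≤ 1) : x + t * (v - x) ∈ hp w u := by
  have hv' : 0 < ((v - w) * (starRingEnd ℂ) u).re := hv
  show 0 < ((x + t * (v - x) - w) * (starRingEnd ℂ) u).re
  have e : (x + t * (v - x) - w) * (starRingEnd ℂ) u =
      ((1 - t : ℝ) : ℂ) * ((x - w) * (starRingEnd ℂ) u) +
        (t : ℂ) * ((v - w) * (starRingEnd ℂ) u) := by
    push_cast
    ring
  rw [e, Complex.add_re, Complex.re_ofReal_mul, Complex.re_ofReal_mul]
  have h1 := mul_pos ht hv'
  have h2 : 0 ≤ (1 - t) * ((x - w) * (starRingEnd ℂ) u).re := mul_nonneg (by linarith) hx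
  linarith

omit hT in
theorem hbig_hp (w u : ℂ) : ∀ x ∈ hp w u, ∀ᶠ p : ℝ × ℂ in 𝓝[>] 0 ×ˢ 𝓝 (x - w),
    w + p.1 * p.2 ∈ hp w u := by
  intro x hx
  have h1 : ∀ᶠ t : ℝ in 𝓝[>] 0, 0 < t := self_mem_nhdsWithin
  have h2 : ∀ᶠ v : ℂ in 𝓝 (x - w), 0 < (v * (starRingEnd ℂ) u).re := by
    have hc : Continuous (fun v : ℂ => (v * (starRingEnd ℂ) u).re) := by fun_prop
    exact hc.tendsto (x - w) |>.eventually (lt_mem_nhds hx)
  filter_upwards [h1.prod_mk h2] with p hp'
  show 0 < ((w + p.1 * p.2 - w) * (starRingEnd ℂ) u).re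
  have e : (w + p.1 * p.2 - w) * (starRingEnd ℂ) u = (p.1 : ℂ) * (p.2 * (starRingEnd ℂ) u) := by
    ring
  rw [e, Complex.re_ofReal_mul]
  exact mul_pos hp'.1 hp'.2

omit hT in
theorem cr_eq {y y' : Y} {w u : ℂ} (hu : ‖u‖ = 1) (hy : D.F y ∈ hp w u) (hH : hp w u ⊆ D.T y)
    (hw : w ∉ D.T y) {s : ℝ} (hs : 0 < s) (hR : D.R y y') (hF : D.F y' = w + s * u) :
    cr D y' = s ∧ D.F y' ∈ hp w u ∧ hp w u ⊆ D.T y' := by
  have hnu : Complex.normSq u = 1 := by
    rw [Complex.normSq_eq_norm_sq, hu]; norm_num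
  have hin : D.F y' ∈ hp w u := by
    show 0 < ((D.F y' - w) * (starRingEnd ℂ) u).re
    rw [hF]
    have e : (w + s * u - w) * (starRingEnd ℂ) u = (s : ℂ) * (Complex.normSq u : ℂ) := by
      have h := Complex.mul_conj u
      rw [← h]
      ring
    rw [e, hnu]
    simpa using hs
  have hsub := chart_sub (hp_isOpen w u) (hp_convex w u) hy hH hR hin
  refine ⟨?_, hin, hsub⟩
  have hw' : w ∉ D.T y' := by
    intro h
    apply hw
    refine glue_pt (hp_isOpen w u) (hp_convex w u) hy hH hR hin h ?_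
    intro t ht ht1
    exact hp_seg hy (by simp) ht ht1
  apply le_antisymm
  · have h := Metric.infDist_le_dist_of_mem (x := D.F y') (show w ∈ (D.T y')ᶜ from hw')
    refine h.trans ?_
    rw [hF, dist_eq_norm]
    have e : w + s * u - w = (s : ℂ) * u := by ring
    rw [e, norm_mul, hu, Complex.norm_real, Real.norm_eq_abs, abs_of_pos hs, mul_one]
  · rw [cr, Metric.le_infDist ⟨w, hw'⟩]
    intro q hq
    by_contra hlt
    push Not at hlt
    apply hq
    apply hsub
    show 0 < ((q - w) * (starRingEnd ℂ) u).re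
    have e : (q - w) * (starRingEnd ℂ) u = (s : ℂ) * (Complex.normSq u : ℂ) -
        (D.F y' - q) * (starRingEnd ℂ) u := by
      have h := Complex.mul_conj u
      rw [← h, hF]
      ring
    rw [e, hnu, Complex.sub_re]
    have h2 : ((D.F y' - q) * (starRingEnd ℂ) u).re ≤ ‖(D.F y' - q) * (starRingEnd ℂ) u‖ :=
      Complex.re_le_norm _
    rw [norm_mul, Complex.norm_conj, hu, mul_one, ← dist_eq_norm] at h2
    simp only [Complex.ofReal_one, mul_one, Complex.ofReal_re]
    linarith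

/-- F3' : second alternative of the planar theorem -/
theorem interval_case [ConnectedSpace Y] {y : Y} {w u : ℂ} (hu : u ≠ 0) (hy : D.F y ∈ hp w u)
    (hH : hp w u ⊆ D.T y) {α β : ℝ} (h1 : α < β)
    (hI : ∀ μ ∈ Icc α β, w + (μ : ℂ) * Complex.I * u ∉ D.T y) :
    ∃ H : Set ℂ, Convex ℝ H ∧ H.Nonempty ∧ H ≠ univ ∧
      ∀ g, ∀ w ∈ H, D.lam g * w + D.bet g ∈ H := by
  have hun : 0 < ‖u‖ := norm_pos_iff.mpr hu
  set u1 : ℂ := ((‖u‖⁻¹ : ℝ) : ℂ) * u with hu1def
  have hu1 : ‖u1‖ = 1 := by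
    rw [hu1def, norm_mul, Complex.norm_real, Real.norm_eq_abs, abs_of_pos (inv_pos.mpr hun),
      inv_mul_cancel₀ hun.ne']
  set γ : ℝ := (α + β) / 2 with hγ
  set m0 : ℂ := w + γ * Complex.I * u with hm0
  have hHeq : hp m0 u1 = hp w u := hp_eq w u γ _ (inv_pos.mpr hun)
  rw [← hHeq] at hy hH
  have hm0T : m0 ∉ D.T y := hI γ ⟨by rw [hγ]; linarith, by rw [hγ]; linarith⟩
  -- the points `y_s`
  have hex : ∀ s : ℝ, ∃ ys : Y, 0 < s → D.R y ys ∧ D.F ys = m0 + s * u1 := by
    intro s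
    by_cases hs : 0 < s
    · have hin : m0 + s * u1 ∈ hp m0 u1 := by
        show 0 < ((m0 + s * u1 - m0) * (starRingEnd ℂ) u1).re
        have e : (m0 + s * u1 - m0) * (starRingEnd ℂ) u1 = (s : ℂ) * (Complex.normSq u1 : ℂ) := by
          have h := Complex.mul_conj u1
          rw [← h]
          ring
        rw [e, Complex.normSq_eq_norm_sq, hu1]
        simpa using hs
      obtain ⟨y', hR, hF⟩ := D.lift y _ (hH hin)
      exact ⟨y', fun _ => ⟨hR, hF⟩⟩
    · exact ⟨y, fun h => absurd h hs⟩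
  choose ys hys using hex
  let l : Ultrafilter ℝ := Ultrafilter.of (𝓝[>] (0 : ℝ))
  have hl : (l : Filter ℝ) ≤ 𝓝[>] (0 : ℝ) := Ultrafilter.of_le _
  have hpos : ∀ᶠ a in (l : Filter ℝ), 0 < a := hl self_mem_nhdsWithin
  have hto : Tendsto (fun a : ℝ => a) l (𝓝 0) := hl.trans nhdsWithin_le_nhds
  obtain ⟨gs, zs, z, w', u', hgz, hzs, hu', hlam, hw', hu'', hFz, hw'T, hzT⟩ :=
    zoom hT l (hp_isOpen m0 u1) (hp_convex m0 u1) hy hH hu1 hm0T hpos hto
      (ys := ys) (hpos.mono fun a ha => (hys a ha).1) (hpos.mono fun a ha => (hys a ha).2)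
      (hpos.mono fun a ha =>
        (cr_eq hu1 hy hH hm0T ha (hys a ha).1 (hys a ha).2).2.1)
      (hpos.mono fun a ha => (cr_eq hu1 hy hH hm0T ha (hys a ha).1 (hys a ha).2).1)
      (hbig_hp m0 u1)
  have hcrz := cr_pos hT z
  have hcrlim : Tendsto (fun a => cr D (zs a)) l (𝓝 (cr D z)) :=
    (cr_continuous hT).tendsto z |>.comp hzs
  have hlam0 : Tendsto (fun a => ‖D.lam (gs a)‖) l (𝓝 0) := by
    have h := hto.div hcrlim hcrz.ne'
    rw [zero_div] at h
    exact h.congr' (hlam.mono fun a ha => ha.symm)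
  -- the whole boundary line is invisible from `z`
  have hline : ∀ ν : ℝ, w' + ν * Complex.I * u' ∉ D.T z := by
    intro ν hν
    have hx : Tendsto (fun a => (m0 + ν * ‖D.lam (gs a)‖ * Complex.I * u1 - D.bet (gs a)) /
        D.lam (gs a)) l (𝓝 (w' + ν * Complex.I * u')) := by
      have h := hw'.add (hu''.const_mul ((ν : ℂ) * Complex.I))
      refine h.congr fun a => ?_
      have hne := D.lam_ne (gs a)
      field_simp
      ring
    have hopen := D.T_open.mem_nhds (show (z, w' + ν * Complex.I * u') ∈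
      {p : Y × ℂ | p.2 ∈ D.T p.1} from hν)
    have hev : ∀ᶠ a in (l : Filter ℝ), (m0 + ν * ‖D.lam (gs a)‖ * Complex.I * u1 -
        D.bet (gs a)) / D.lam (gs a) ∈ D.T (zs a) := (hzs.prodMk_nhds hx).eventually hopen
    have hsmall : ∀ᶠ a in (l : Filter ℝ), γ + ν * ‖D.lam (gs a)‖ * ‖u‖⁻¹ ∈ Icc α β := by
      have h : Tendsto (fun a => γ + ν * ‖D.lam (gs a)‖ * ‖u‖⁻¹) l (𝓝 (γ + ν * 0 * ‖u‖⁻¹)) :=
        tendsto_const_nhds.add ((hlam0.const_mul ν).mul_const _)
      rw [mul_zero, zero_mul, add_zero] at h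
      exact h.eventually (Icc_mem_nhds (by rw [hγ]; linarith) (by rw [hγ]; linarith))
    obtain ⟨a, ha1, ha2, ha3⟩ := (hev.and (hsmall.and hpos)).exists
    have hne := D.lam_ne (gs a)
    have h2 := D.T_smul (gs a) (zs a) _ ha1
    rw [← hgz a] at h2
    have e : D.lam (gs a) * ((m0 + ν * ‖D.lam (gs a)‖ * Complex.I * u1 - D.bet (gs a)) /
        D.lam (gs a)) + D.bet (gs a) = m0 + ((ν * ‖D.lam (gs a)‖ : ℝ) : ℂ) * Complex.I * u1 := by
      push_cast
      field_simp
      ring
    rw [e] at h2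
    have h3 : m0 + ((ν * ‖D.lam (gs a)‖ : ℝ) : ℂ) * Complex.I * u1 ∈ D.T y := by
      refine glue_pt (hp_isOpen m0 u1) (hp_convex m0 u1) hy hH (hys a ha3).1
        (cr_eq hu1 hy hH hm0T ha3 (hys a ha3).1 (hys a ha3).2).2.1 h2 ?_
      intro t ht ht1
      exact hp_seg hy (bd_re m0 u1 _).ge ht ht1
    apply hI _ ha2
    have e2 : m0 + ((ν * ‖D.lam (gs a)‖ : ℝ) : ℂ) * Complex.I * u1 =
        w + ((γ + ν * ‖D.lam (gs a)‖ * ‖u‖⁻¹ : ℝ) : ℂ) * Complex.I * u := by
      rw [hm0, hu1def]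
      push_cast
      ring
    rw [← e2]
    exact h3
  have hu'0 : u' ≠ 0 := by
    intro h
    rw [h, norm_zero] at hu'
    exact zero_ne_one hu'
  have hnu' : Complex.normSq u' = 1 := by
    rw [Complex.normSq_eq_norm_sq, hu']; norm_num
  -- a point set with a dark boundary line is the half-plane
  have heq : ∀ y1 : Y, D.F y1 ∈ hp w' u' → hp w' u' ⊆ D.T y1 →
      (∀ ν : ℝ, w' + ν * Complex.I * u' ∉ D.T y1) → D.T y1 = hp w' u' := by
    intro y1 hF1 hsub hdark
    apply Subset.antisymm _ hsub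
    intro p hp'
    by_contra hnp
    have hp0 : ((p - w') * (starRingEnd ℂ) u').re ≤ 0 := not_lt.mp hnp
    have hF0 : 0 < ((D.F y1 - w') * (starRingEnd ℂ) u').re := hF1
    set A := ((D.F y1 - w') * (starRingEnd ℂ) u').re with hA
    set B := ((p - w') * (starRingEnd ℂ) u').re with hB
    have hAB : 0 < A - B := by linarith
    set t : ℝ := A / (A - B) with ht
    have ht0 : 0 ≤ t := by positivity
    have ht1 : t ≤ 1 := by
      rw [ht, div_le_one hAB]; linarith
    have hq : (1 - t) • D.F y1 + t • p ∈ D.T y1 :=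
      D.T_star y1 hp' (by linarith) ht0 (by ring)
    set q : ℂ := (1 - t) • D.F y1 + t • p with hqdef
    have hqre : ((q - w') * (starRingEnd ℂ) u').re = 0 := by
      have e : (q - w') * (starRingEnd ℂ) u' = ((1 - t : ℝ) : ℂ) * ((D.F y1 - w') *
          (starRingEnd ℂ) u') + (t : ℂ) * ((p - w') * (starRingEnd ℂ) u') := by
        rw [hqdef, Complex.real_smul, Complex.real_smul]
        push_cast
        ring
      rw [e, Complex.add_re, Complex.re_ofReal_mul, Complex.re_ofReal_mul, ← hA, ← hB, ht]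
      field_simp
      ring
    apply hdark (((q - w') * (starRingEnd ℂ) u').im)
    have e : (w' + ((((q - w') * (starRingEnd ℂ) u').im : ℝ) : ℂ) * Complex.I * u') = q := by
      have h3 : ((((q - w') * (starRingEnd ℂ) u').im : ℝ) : ℂ) * Complex.I =
          (q - w') * (starRingEnd ℂ) u' := by
        apply Complex.ext
        · simp [hqre]
        · simp
      rw [h3]
      have h4 := Complex.mul_conj u'
      have h5 : (q - w') * (starRingEnd ℂ) u' * u' = (q - w') * (u' * (starRingEnd ℂ) u') := by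
        ring
      rw [h5, h4, hnu']
      simp
    rw [e]
    exact hq
  have hFzH : D.F z ∈ hp w' u' := by
    show 0 < ((D.F z - w') * (starRingEnd ℂ) u').re
    rw [hFz]
    have e : (w' + cr D z * u' - w') * (starRingEnd ℂ) u' =
        (cr D z : ℂ) * (Complex.normSq u' : ℂ) := by
      have h := Complex.mul_conj u'
      rw [← h]
      ring
    rw [e, hnu']
    simpa using hcrz
  have hzeq : D.T z = hp w' u' := heq z hFzH hzT hline
  -- propagation
  have hprop : ∀ y1 y2, D.R y1 y2 → D.T y1 = hp w' u' → D.T y2 = hp w' u' := by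
    intro y1 y2 hR h
    have hm1 : D.F y1 ∈ hp w' u' := h ▸ D.F_mem y1
    have hm2 : D.F y2 ∈ hp w' u' := h ▸ D.R_mem y1 y2 hR
    have hsub := chart_sub (hp_isOpen w' u') (hp_convex w' u') hm1 h.ge hR hm2
    refine heq y2 hm2 hsub ?_
    intro ν hν
    have : w' + ν * Complex.I * u' ∈ D.T y1 := by
      refine glue_pt (hp_isOpen w' u') (hp_convex w' u') hm1 h.ge hR hm2 hν ?_
      intro t ht ht1
      exact hp_seg hm1 (bd_re w' u' ν).ge ht ht1
    rw [h] at this
    have h0 := bd_re w' u' ν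
    exact (ne_of_gt (show 0 < ((w' + ν * Complex.I * u' - w') * (starRingEnd ℂ) u').re from this)) h0
  have hclopen : IsClopen {y1 : Y | D.T y1 = hp w' u'} := by
    constructor
    · rw [← isOpen_compl_iff, isOpen_iff_mem_nhds]
      intro y1 hy1
      filter_upwards [D.near y1] with y2 hR h
      exact hy1 (hprop y2 y1 (D.R_symm _ _ hR) h)
    · rw [isOpen_iff_mem_nhds]
      intro y1 hy1
      filter_upwards [D.near y1] with y2 hR
      exact hprop y1 y2 hR hy1
  have huniv : {y1 : Y | D.T y1 = hp w' u'} = univ := hclopen.eq_univ ⟨z, hzeq⟩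
  refine ⟨hp w' u', hp_convex w' u', ⟨D.F z, hFzH⟩, ?_, ?_⟩
  · intro h
    exact hT z (hzeq.trans h)
  · intro g v hv
    have h1 : v ∈ D.T z := hzeq ▸ hv
    have h2 := D.T_smul g z v h1
    have h3 : D.T (g • z) = hp w' u' := by
      have : (g • z) ∈ {y1 : Y | D.T y1 = hp w' u'} := huniv ▸ mem_univ _
      exact this
    rwa [h3] at h2

/-- F4 -/
theorem ct_locally_constant {ct : Y → ℂ} (hct : ∀ y, IsCt D y (ct y)) (hc : Continuous ct)
    (hpt : ∀ y, ∀ μ : ℝ, μ ≠ 0 → ct y + μ * Complex.I * (D.F y - ct y) ∈ D.T y) (y : Y) :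
    ∀ᶠ y' in 𝓝 y, ct y' = ct y := by
  by_contra hcon
  have hfreq : ∃ᶠ y' in 𝓝 y, ct y' ≠ ct y := Filter.not_eventually.mp hcon
  have hne : (𝓝 y ⊓ 𝓟 {y' | ct y' ≠ ct y}).NeBot := Filter.frequently_iff_neBot.mp hfreq
  let l : Ultrafilter Y := Ultrafilter.of (𝓝 y ⊓ 𝓟 {y' | ct y' ≠ ct y})
  have hl : (l : Filter Y) ≤ 𝓝 y ⊓ 𝓟 {y' | ct y' ≠ ct y} := Ultrafilter.of_le _
  have hly : (l : Filter Y) ≤ 𝓝 y := hl.trans inf_le_left
  have hlne : ∀ᶠ a in (l : Filter Y), ct a ≠ ct y :=
    (hl.trans inf_le_right) (mem_principal_self _)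
  have hcr := cr_pos hT
  set un : Y → ℂ := fun a => (((cr D a)⁻¹ : ℝ) : ℂ) * (D.F a - ct a) with hundef
  have hun1 : ∀ a, ‖un a‖ = 1 := by
    intro a
    have h := (hct a).2
    rw [dist_eq_norm] at h
    simp only [hundef]
    rw [norm_mul, h, Complex.norm_real, Real.norm_eq_abs, abs_of_pos (inv_pos.mpr (hcr a)),
      inv_mul_cancel₀ (hcr a).ne']
  have hunc : Continuous un := by
    have h1 : Continuous fun a => ((((cr D a)⁻¹ : ℝ)) : ℂ) :=
      Complex.continuous_ofReal.comp ((cr_continuous hT).inv₀ fun a => (hcr a).ne')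
    exact h1.mul (D.F_cont.sub hc)
  have hFu : ∀ a, D.F a = ct a + cr D a * un a := by
    intro a
    have h : (cr D a : ℂ) ≠ 0 := by exact_mod_cast (hcr a).ne'
    simp only [hundef]
    push_cast
    field_simp
    ring
  have hpe : ∀ a, hp (ct a) (un a) = hp (ct a) (D.F a - ct a) := fun a =>
    hp_eq' _ _ _ (inv_pos.mpr (hcr a))
  have hHa : ∀ a, hp (ct a) (un a) ⊆ D.T a := fun a => (hpe a).trans_subset (hp_subset hT (hct a))
  have hnsq : ∀ v : ℂ, ‖v‖ = 1 → Complex.normSq v = 1 := by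
    intro v hv
    rw [Complex.normSq_eq_norm_sq, hv]; norm_num
  have hFa : ∀ a, D.F a ∈ hp (ct a) (un a) := by
    intro a
    show 0 < ((D.F a - ct a) * (starRingEnd ℂ) (un a)).re
    have e : (D.F a - ct a) * (starRingEnd ℂ) (un a) =
        (cr D a : ℂ) * (Complex.normSq (un a) : ℂ) := by
      have h := Complex.mul_conj (un a)
      rw [← h]
      nth_rewrite 1 [hFu a]
      ring
    rw [e, hnsq _ (hun1 a)]
    simpa using hcr a
  set c0 := ct y with hc0
  set u := un y with hudef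
  have hu : ‖u‖ = 1 := hun1 y
  have hyC : D.F y ∈ hp c0 u := hFa y
  have hCT : hp c0 u ⊆ D.T y := hHa y
  have hc0T : c0 ∉ D.T y := (hct y).1
  have hs : ∀ᶠ a in (l : Filter Y), 0 < ‖ct a - c0‖ :=
    hlne.mono fun a ha => norm_pos_iff.mpr (sub_ne_zero.mpr ha)
  have hctl : Tendsto ct l (𝓝 c0) := (hc.tendsto y).mono_left hly
  have hs0 : Tendsto (fun a => ‖ct a - c0‖) l (𝓝 0) := by
    have h := (hctl.sub_const c0).norm
    simpa using h
  have hex : ∀ a : Y, ∃ y1 : Y, 0 < ‖ct a - c0‖ → D.R y y1 ∧ D.F y1 = c0 + ‖ct a - c0‖ * u := by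
    intro a
    by_cases hpos : 0 < ‖ct a - c0‖
    · have hin : c0 + ‖ct a - c0‖ * u ∈ hp c0 u := by
        show 0 < ((c0 + ‖ct a - c0‖ * u - c0) * (starRingEnd ℂ) u).re
        have e : (c0 + ‖ct a - c0‖ * u - c0) * (starRingEnd ℂ) u =
            (‖ct a - c0‖ : ℂ) * (Complex.normSq u : ℂ) := by
          have h := Complex.mul_conj u
          rw [← h]
          ring
        rw [e, hnsq _ hu]
        simpa using hpos
      obtain ⟨y', hR, hF⟩ := D.lift y _ (hCT hin)
      exact ⟨y', fun _ => ⟨hR, hF⟩⟩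
    · exact ⟨y, fun h => absurd h hpos⟩
  choose ys hys using hex
  obtain ⟨gs, zs, z, w1, u1, hgz, hzs, hu1, hlam, hw1, hu1', hFz, hw1T, hzT⟩ :=
    zoom hT l (hp_isOpen c0 u) (hp_convex c0 u) hyC hCT hu hc0T hs hs0
      (ys := ys) (hs.mono fun a ha => (hys a ha).1) (hs.mono fun a ha => (hys a ha).2)
      (hs.mono fun a ha => (cr_eq hu hyC hCT hc0T ha (hys a ha).1 (hys a ha).2).2.1)
      (hs.mono fun a ha => (cr_eq hu hyC hCT hc0T ha (hys a ha).1 (hys a ha).2).1)
      (hbig_hp c0 u)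
  have hcrz := hcr z
  have hw1z : w1 = ct z := by
    refine ct_unique hT ⟨hw1T, ?_⟩ (hct z)
    rw [hFz, dist_eq_norm]
    have e : w1 + cr D z * u1 - w1 = (cr D z : ℂ) * u1 := by ring
    rw [e, norm_mul, hu1, mul_one, Complex.norm_real, Real.norm_eq_abs, abs_of_pos hcrz]
  have hcrlim : Tendsto (fun a => cr D (zs a)) l (𝓝 (cr D z)) :=
    (cr_continuous hT).tendsto z |>.comp hzs
  have hlam0 : Tendsto (fun a => ‖D.lam (gs a)‖) l (𝓝 0) := by
    have h := hs0.div hcrlim hcrz.ne'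
    rw [zero_div] at h
    exact h.congr' (hlam.mono fun a ha => ha.symm)
  have hlne' : ∀ a, 0 < ‖D.lam (gs a)‖ := fun a => norm_pos_iff.mpr (D.lam_ne _)
  have hslam : ∀ᶠ a in (l : Filter Y), ‖ct a - c0‖ = ‖D.lam (gs a)‖ * cr D (zs a) :=
    hlam.mono fun a ha => by rw [ha]; have := (hcr (zs a)).ne'; field_simp
  -- events
  have hnear : ∀ᶠ a in (l : Filter Y), D.R y a := hly (D.near y)
  have hFin : ∀ᶠ a in (l : Filter Y), D.F a ∈ hp c0 u :=
    hly ((D.F_cont.tendsto y).eventually ((hp_isOpen c0 u).mem_nhds hyC))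
  have hi1 : ∀ᶠ a in (l : Filter Y), ((ct a - c0) * (starRingEnd ℂ) u).re ≤ 0 := by
    filter_upwards [hnear, hFin] with a hR hF
    by_contra h
    push Not at h
    exact (hct a).1 (chart_sub (hp_isOpen c0 u) (hp_convex c0 u) hyC hCT hR hF h)
  have hi2 : ∀ᶠ a in (l : Filter Y), 0 ≤ ((ct a - c0) * (starRingEnd ℂ) (un a)).re := by
    filter_upwards [hnear, hFin] with a hR hF
    have hn : c0 ∉ D.T a := by
      intro h
      apply hc0T
      refine glue_pt (hp_isOpen c0 u) (hp_convex c0 u) hyC hCT hR hF h ?_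
      intro t ht ht1
      exact hp_seg hyC (by simp) ht ht1
    have h2 : ¬ 0 < ((c0 - ct a) * (starRingEnd ℂ) (un a)).re := fun h => hn (hHa a h)
    have e : (c0 - ct a) * (starRingEnd ℂ) (un a) = - ((ct a - c0) * (starRingEnd ℂ) (un a)) := by
      ring
    rw [e, Complex.neg_re] at h2
    linarith
  have hi3 : ∀ᶠ a in (l : Filter Y), |((ct a - c0) * (starRingEnd ℂ) u).re| ≤
      ‖un a - u‖ * ‖ct a - c0‖ := by
    filter_upwards [hi1, hi2] with a h1 h2
    rw [abs_of_nonpos h1]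
    have e : (ct a - c0) * (starRingEnd ℂ) (un a - u) =
        (ct a - c0) * (starRingEnd ℂ) (un a) - (ct a - c0) * (starRingEnd ℂ) u := by
      rw [map_sub]; ring
    have h3 : ((ct a - c0) * (starRingEnd ℂ) (un a - u)).re ≤
        ‖(ct a - c0) * (starRingEnd ℂ) (un a - u)‖ := Complex.re_le_norm _
    rw [e, Complex.sub_re, ← e, norm_mul, Complex.norm_conj] at h3
    linarith [mul_comm ‖un a - u‖ ‖ct a - c0‖]
  have hund : Tendsto (fun a => ‖un a - u‖) l (𝓝 0) := by
    have h := (((hunc.tendsto y).mono_left hly).sub_const u).norm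
    simpa [← hudef] using h
  -- the limit of the normalised difference
  have hnf : ∀ᶠ a in (l : Filter Y), ‖(ct a - c0) / D.lam (gs a)‖ = cr D (zs a) := by
    filter_upwards [hslam] with a ha
    rw [norm_div, ha]
    have := (hlne' a).ne'
    field_simp
  have hbd : ∀ᶠ a in (l : Filter Y), (ct a - c0) / D.lam (gs a) ∈
      Metric.closedBall (0 : ℂ) (cr D z + 1) := by
    have h : ∀ᶠ a in (l : Filter Y), cr D (zs a) < cr D z + 1 :=
      hcrlim.eventually (gt_mem_nhds (by linarith))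
    filter_upwards [h, hnf] with a h1 h2
    rw [mem_closedBall_zero_iff, h2]
    exact h1.le
  obtain ⟨e, -, he⟩ := (isCompact_closedBall (0 : ℂ) (cr D z + 1)).ultrafilter_le_nhds'
    (l.map fun a => (ct a - c0) / D.lam (gs a)) hbd
  have hte : Tendsto (fun a => (ct a - c0) / D.lam (gs a)) l (𝓝 e) := he
  have hne : ‖e‖ = cr D z :=
    tendsto_nhds_unique hte.norm (hcrlim.congr' (hnf.mono fun a ha => ha.symm))
  have hree : (e * (starRingEnd ℂ) u1).re = 0 := by
    have h1 : Tendsto (fun a => ((ct a - c0) / D.lam (gs a) *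
        (starRingEnd ℂ) (u * ‖D.lam (gs a)‖ / D.lam (gs a))).re) l
        (𝓝 ((e * (starRingEnd ℂ) u1).re)) := by
      have hcj : Tendsto (fun a => (starRingEnd ℂ) (u * ‖D.lam (gs a)‖ / D.lam (gs a))) l
          (𝓝 ((starRingEnd ℂ) u1)) := (Complex.continuous_conj.tendsto _).comp hu1'
      exact (Complex.continuous_re.tendsto _).comp (hte.mul hcj)
    have h2 : ∀ᶠ a in (l : Filter Y), |((ct a - c0) / D.lam (gs a) *
        (starRingEnd ℂ) (u * ‖D.lam (gs a)‖ / D.lam (gs a))).re| ≤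
        ‖un a - u‖ * cr D (zs a) := by
      filter_upwards [hi3, hslam] with a h3 h4
      have hl0 := D.lam_ne (gs a)
      have hl1 := (hlne' a)
      have hl0' : (starRingEnd ℂ) (D.lam (gs a)) ≠ 0 := by
        simpa using hl0
      have h5 : D.lam (gs a) * (starRingEnd ℂ) (D.lam (gs a)) = ((‖D.lam (gs a)‖ : ℝ) : ℂ) ^ 2 := by
        rw [Complex.mul_conj, Complex.normSq_eq_norm_sq]; push_cast; ring
      have hl2 : ((‖D.lam (gs a)‖ : ℝ) : ℂ) ≠ 0 := by exact_mod_cast hl1.ne'
      have e1 : (ct a - c0) / D.lam (gs a) *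
          (starRingEnd ℂ) (u * ‖D.lam (gs a)‖ / D.lam (gs a)) =
          ((‖D.lam (gs a)‖⁻¹ : ℝ) : ℂ) * ((ct a - c0) * (starRingEnd ℂ) u) := by
        rw [map_div₀, map_mul, Complex.conj_ofReal, div_mul_div_comm, h5]
        push_cast
        field_simp
      rw [e1, Complex.re_ofReal_mul, abs_mul, abs_of_pos (inv_pos.mpr hl1)]
      rw [h4] at h3
      calc ‖D.lam (gs a)‖⁻¹ * |((ct a - c0) * (starRingEnd ℂ) u).re|
          ≤ ‖D.lam (gs a)‖⁻¹ * (‖un a - u‖ * (‖D.lam (gs a)‖ * cr D (zs a))) :=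
            mul_le_mul_of_nonneg_left h3 (inv_pos.mpr hl1).le
        _ = ‖un a - u‖ * cr D (zs a) := by field_simp
    have h3 : Tendsto (fun a => ‖un a - u‖ * cr D (zs a)) l (𝓝 0) := by
      have := hund.mul hcrlim
      simpa using this
    have h4 : Tendsto (fun a => ((ct a - c0) / D.lam (gs a) *
        (starRingEnd ℂ) (u * ‖D.lam (gs a)‖ / D.lam (gs a))).re) l (𝓝 0) :=
      squeeze_zero_norm' (h2.mono fun a ha => by rw [Real.norm_eq_abs]; exact ha) h3
    exact tendsto_nhds_unique h1 h4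
  have hu1n := hnsq _ hu1
  have heu : e = (((e * (starRingEnd ℂ) u1).im : ℝ) : ℂ) * Complex.I * u1 := by
    have h3 : ((((e * (starRingEnd ℂ) u1).im : ℝ)) : ℂ) * Complex.I = e * (starRingEnd ℂ) u1 := by
      apply Complex.ext
      · simp only [Complex.mul_re, Complex.ofReal_re, Complex.I_re, mul_zero, Complex.ofReal_im,
          Complex.I_im, mul_one, sub_self]
        exact hree.symm
      · simp
    rw [h3]
    have h4 := Complex.mul_conj u1
    have h5 : e * (starRingEnd ℂ) u1 * u1 = e * (u1 * (starRingEnd ℂ) u1) := by ring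
    rw [h5, h4, hu1n]
    simp
  set κ0 : ℝ := (e * (starRingEnd ℂ) u1).im with hκ0
  have hκne : κ0 ≠ 0 := by
    intro h
    rw [h] at heu
    have : e = 0 := by rw [heu]; simp
    rw [this, norm_zero] at hne
    exact hcrz.ne hne
  have hw2T : w1 + e ∈ D.T z := by
    have h := hpt z (κ0 / cr D z) (div_ne_zero hκne hcrz.ne')
    have e2 : ct z + ((κ0 / cr D z : ℝ) : ℂ) * Complex.I * (D.F z - ct z) = w1 + e := by
      have hz : (cr D z : ℂ) ≠ 0 := by exact_mod_cast hcrz.ne'
      rw [hFz, hw1z, heu]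
      push_cast
      field_simp
      ring
    rwa [e2] at h
  obtain ⟨U, hU, hUc, hUT, hUs⟩ := exists_thick hw2T
  have hw2U : w1 + e ∈ U := hUs (right_mem_segment ℝ _ _)
  have hFzU : D.F z ∈ U := hUs (left_mem_segment ℝ _ _)
  obtain ⟨δ, hδ, hδU⟩ := Metric.isOpen_iff.mp hU _ hw2U
  have hv0 : w1 + e + ((δ / 2 : ℝ) : ℂ) * u1 ∈ U := by
    apply hδU
    rw [Metric.mem_ball, dist_eq_norm]
    have e2 : w1 + e + ((δ / 2 : ℝ) : ℂ) * u1 - (w1 + e) = ((δ / 2 : ℝ) : ℂ) * u1 := by ring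
    rw [e2, norm_mul, hu1, mul_one, Complex.norm_real, Real.norm_eq_abs, abs_of_pos (by linarith)]
    linarith
  -- more events
  have hE1 : ∀ᶠ a in (l : Filter Y), D.R z (zs a) := hzs (D.near z)
  have hE2 : ∀ᶠ a in (l : Filter Y), D.F (zs a) ∈ U :=
    ((D.F_cont.tendsto z).comp hzs).eventually (hU.mem_nhds hFzU)
  have hct' : Tendsto (fun a => (ct a - D.bet (gs a)) / D.lam (gs a)) l (𝓝 (w1 + e)) := by
    refine (hw1.add hte).congr fun a => ?_
    rw [← add_div]
    congr 1
    ring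
  have hE5 : ∀ᶠ a in (l : Filter Y), (ct a - D.bet (gs a)) / D.lam (gs a) ∈ U :=
    hct'.eventually (hU.mem_nhds hw2U)
  have hunlim : Tendsto (fun a => un a * ‖D.lam (gs a)‖ / D.lam (gs a)) l (𝓝 u1) := by
    have h1 : Tendsto (fun a => (un a - u) * ‖D.lam (gs a)‖ / D.lam (gs a)) l (𝓝 0) := by
      apply squeeze_zero_norm' _ hund
      filter_upwards with a
      have := (hlne' a).ne'
      rw [norm_div, norm_mul, Complex.norm_real, Real.norm_eq_abs, abs_of_pos (hlne' a)]
      apply le_of_eq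
      field_simp
    have h2 := hu1'.add h1
    rw [add_zero] at h2
    refine h2.congr fun a => ?_
    ring
  have hE6 : ∀ᶠ a in (l : Filter Y), (ct a + ((δ / 2 * ‖D.lam (gs a)‖ : ℝ) : ℂ) * un a -
      D.bet (gs a)) / D.lam (gs a) ∈ U := by
    have h : Tendsto (fun a => (ct a + ((δ / 2 * ‖D.lam (gs a)‖ : ℝ) : ℂ) * un a -
      D.bet (gs a)) / D.lam (gs a)) l (𝓝 (w1 + e + ((δ / 2 : ℝ) : ℂ) * u1)) := by
      refine (hct'.add (hunlim.const_mul ((δ / 2 : ℝ) : ℂ))).congr fun a => ?_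
      push_cast
      ring
    exact h.eventually (hU.mem_nhds hv0)
  have hcra : Tendsto (fun a => cr D a) l (𝓝 (cr D y)) :=
    ((cr_continuous hT).tendsto y).mono_left hly
  have hE7 : ∀ᶠ a in (l : Filter Y), δ / 2 * ‖D.lam (gs a)‖ < 2 * cr D a := by
    have h1 : Tendsto (fun a => δ / 2 * ‖D.lam (gs a)‖) l (𝓝 (δ / 2 * 0)) :=
      hlam0.const_mul _
    have h2 : Tendsto (fun a => 2 * cr D a) l (𝓝 (2 * cr D y)) := hcra.const_mul _
    exact h1.eventually_lt h2 (by have := hcr y; nlinarith)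
  have hE8 : ∀ᶠ a in (l : Filter Y), 0 < ((ct a + ((δ / 2 * ‖D.lam (gs a)‖ : ℝ) : ℂ) * un a - c0) *
      (starRingEnd ℂ) u).re := by
    have h1 : Tendsto (fun a => δ / 2 * (un a * (starRingEnd ℂ) u).re - ‖un a - u‖ * cr D (zs a))
        l (𝓝 (δ / 2 * (u * (starRingEnd ℂ) u).re - 0 * cr D z)) := by
      have h2 : Tendsto (fun a => (un a * (starRingEnd ℂ) u).re) l
          (𝓝 (u * (starRingEnd ℂ) u).re) := by
        have h3 : Continuous fun a => (un a * (starRingEnd ℂ) u).re := by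
          exact Complex.continuous_re.comp (hunc.mul continuous_const)
        exact (h3.tendsto y).mono_left hly
      exact (h2.const_mul _).sub (hund.mul hcrlim)
    have h4 : 0 < δ / 2 * (u * (starRingEnd ℂ) u).re - 0 * cr D z := by
      rw [Complex.mul_conj, hnsq _ hu]
      simp
      linarith
    filter_upwards [h1.eventually (lt_mem_nhds h4), hi3, hslam] with a h5 h6 h7
    have e1 : (ct a + ((δ / 2 * ‖D.lam (gs a)‖ : ℝ) : ℂ) * un a - c0) * (starRingEnd ℂ) u =
        (ct a - c0) * (starRingEnd ℂ) u +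
          ((δ / 2 * ‖D.lam (gs a)‖ : ℝ) : ℂ) * (un a * (starRingEnd ℂ) u) := by ring
    rw [e1, Complex.add_re, Complex.re_ofReal_mul]
    have h8 := neg_abs_le ((ct a - c0) * (starRingEnd ℂ) u).re
    rw [h7] at h6
    have h9 := mul_pos (hlne' a) h5
    nlinarith
  obtain ⟨a, ha⟩ := (hs.and (hnear.and (hFin.and (hE1.and (hE2.and (hE5.and (hE6.and
    (hE7.and hE8)))))))).exists
  obtain ⟨has, haR, haF, ha1, ha2, ha5, ha6, ha7, ha8⟩ := ha
  have hl0 := D.lam_ne (gs a)
  obtain ⟨hRys, hFys⟩ := hys a has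
  obtain ⟨-, hFysC, hCTys⟩ := cr_eq hu hyC hCT hc0T has hRys hFys
  set p : ℂ := ct a + ((δ / 2 * ‖D.lam (gs a)‖ : ℝ) : ℂ) * un a with hpdef
  have hpC : p ∈ hp c0 u := ha8
  obtain ⟨y'', hR'', hF''⟩ := D.lift y p (hCT hpC)
  have hRa : D.R a y'' := chart_R (hp_isOpen c0 u) (hp_convex c0 u) hyC hCT haR hR'' haF
    (by rw [hF'']; exact hpC)
  have hRb : D.R (ys a) y'' := chart_R (hp_isOpen c0 u) (hp_convex c0 u) hyC hCT hRys hR'' hFysC
    (by rw [hF'']; exact hpC)
  have hUzs : U ⊆ D.T (zs a) := chart_sub hU hUc hFzU hUT ha1 ha2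
  set U' : Set ℂ := {q | (q - D.bet (gs a)) / D.lam (gs a) ∈ U} with hU'
  have hU'o : IsOpen U' := by
    have hcont : Continuous fun q : ℂ => (q - D.bet (gs a)) / D.lam (gs a) := by fun_prop
    exact hU.preimage hcont
  have hU'c : Convex ℝ U' := by
    intro q1 h1 q2 h2 s t hs' ht' hst
    have h3 := hUc h1 h2 hs' ht' hst
    show (s • q1 + t • q2 - D.bet (gs a)) / D.lam (gs a) ∈ U
    have e3 : (s • q1 + t • q2 - D.bet (gs a)) / D.lam (gs a) =
        s • ((q1 - D.bet (gs a)) / D.lam (gs a)) + t • ((q2 - D.bet (gs a)) / D.lam (gs a)) := by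
      have hst' : (s : ℂ) + (t : ℂ) = 1 := by exact_mod_cast hst
      simp only [Complex.real_smul]
      have : D.bet (gs a) = ((s : ℂ) + t) * D.bet (gs a) := by rw [hst', one_mul]
      nth_rewrite 1 [this]
      ring
    rw [e3]
    exact h3
  have hU'T : U' ⊆ D.T (ys a) := by
    intro q hq
    have h1 := D.T_smul (gs a) (zs a) _ (hUzs hq)
    rw [← hgz a] at h1
    have e3 : D.lam (gs a) * ((q - D.bet (gs a)) / D.lam (gs a)) + D.bet (gs a) = q := by
      field_simp
      ring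
    rwa [e3] at h1
  have hFysU : D.F (ys a) ∈ U' := by
    show (D.F (ys a) - D.bet (gs a)) / D.lam (gs a) ∈ U
    have e3 : (D.F (ys a) - D.bet (gs a)) / D.lam (gs a) = D.F (zs a) := by
      rw [hgz a, D.F_smul]
      field_simp
      ring
    rw [e3]
    exact ha2
  apply (hct a).1
  refine D.glue a (ys a) y'' (Metric.ball (D.F a) (cr D a)) U' (ct a) Metric.isOpen_ball
    (convex_ball _ _) (Metric.mem_ball_self (hcr a)) ?_ hU'o hU'c hFysU hU'T hRa hRb ?_ ?_ ?_
  · intro q hq
    exact mem_T_of_dist a (by rw [dist_comm]; exact hq)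
  · rw [hF'', Metric.mem_ball, dist_eq_norm]
    have e3 : p - D.F a = ((δ / 2 * ‖D.lam (gs a)‖ - cr D a : ℝ) : ℂ) * un a := by
      rw [hpdef]
      nth_rewrite 1 [hFu a]
      push_cast
      ring
    rw [e3, norm_mul, hun1 a, mul_one, Complex.norm_real, Real.norm_eq_abs, abs_lt]
    have := mul_pos (half_pos hδ) (hlne' a)
    constructor <;> linarith
  · rw [hF'']
    exact ha6
  · intro q hq
    obtain ⟨s, t, hs', ht', hst, rfl⟩ := hq
    rcases hs'.eq_or_lt with h | h
    · right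
      have ht1 : t = 1 := by linarith
      rw [← h, ht1, zero_smul, one_smul, zero_add]
      exact ha5
    · left
      rw [Metric.mem_ball, dist_eq_norm]
      have hs1 : s = 1 - t := by linarith
      have e3 : s • D.F a + t • ct a - D.F a = ((-(t * cr D a) : ℝ) : ℂ) * un a := by
        have h4 := hFu a
        have h5 : (cr D a : ℂ) * un a = D.F a - ct a := by rw [h4]; ring
        rw [hs1, Complex.real_smul, Complex.real_smul]
        push_cast
        linear_combination (t : ℂ) * h5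
      rw [e3, norm_mul, hun1 a, mul_one, Complex.norm_real, Real.norm_eq_abs, abs_neg,
        abs_of_nonneg (mul_nonneg ht' (hcr a).le)]
      have : t < 1 := by linarith
      nlinarith [hcr a]

/-- The planar theorem. -/
theorem planar [ConnectedSpace Y] :
    (∃ w : ℂ, ∀ g, D.lam g * w + D.bet g = w) ∨
      ∃ H : Set ℂ, Convex ℝ H ∧ H.Nonempty ∧ H ≠ univ ∧
        ∀ g, ∀ w ∈ H, D.lam g * w + D.bet g ∈ H := by
  obtain ⟨ct, hct, hc, hg⟩ := exists_ct_fun hT
  by_cases hpt : ∀ y, ∀ μ : ℝ, μ ≠ 0 → ct y + μ * Complex.I * (D.F y - ct y) ∈ D.T y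
  · left
    have hloc := ct_locally_constant hT hct hc hpt
    have hconst : ∀ y y', ct y = ct y' := by
      intro y y'
      have h := IsLocallyConstant.iff_eventually_eq ct |>.2 hloc
      exact h.apply_eq_of_isPreconnected isPreconnected_univ (mem_univ y) (mem_univ y')
    obtain ⟨y⟩ := (inferInstance : Nonempty Y)
    exact ⟨ct y, fun g => by rw [← hg g y]; exact hconst _ _⟩
  · right
    push Not at hpt
    obtain ⟨y, μ, hμ, hn⟩ := hpt
    have hct0 : (D.F y - ct y) ≠ 0 := by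
      intro h
      have := (hct y).2
      rw [dist_eq_norm, h, norm_zero] at this
      exact (cr_pos hT y).ne this
    have hy : D.F y ∈ hp (ct y) (D.F y - ct y) := by
      show 0 < ((D.F y - ct y) * (starRingEnd ℂ) (D.F y - ct y)).re
      rw [Complex.mul_conj, Complex.ofReal_re]
      exact Complex.normSq_pos.mpr hct0
    have h0 : ct y + ((0 : ℝ) : ℂ) * Complex.I * (D.F y - ct y) ∉ D.T y := by
      simpa using (hct y).1
    have hH := hp_subset hT (hct y)
    rcases lt_or_gt_of_ne hμ with h | h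
    · refine interval_case hT hct0 hy hH h ?_
      rintro ν ⟨h1, h2⟩
      rcases h1.eq_or_lt with rfl | h1
      · exact hn
      rcases h2.eq_or_lt with rfl | h2
      · exact h0
      exact no_gap hT hct0 hy hH h1 h2 hn h0
    · refine interval_case hT hct0 hy hH h ?_
      rintro ν ⟨h1, h2⟩
      rcases h1.eq_or_lt with rfl | h1
      · exact h0
      rcases h2.eq_or_lt with rfl | h2
      · exact hn
      exact no_gap hT hct0 hy hH h1 h2 h0 hn

end

end Pool.Agent.Helper50.HL
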