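import Pool.Agent.Helper50.HL.Radius
import Pool.Agent.Helper50.HL.Plane

/-! Module CaseF: the case `g = 0` (part F0 and the reduction to the planar theorem). -/

set_option autoImplicit false

open Set Filter Topology

namespace Pool.Agent.Helper50.HL

variable {V G Y : Type*} [NormedAddCommGroup V] [InnerProductSpace ℂ V] [Group G]
    [TopologicalSpace Y] [MulAction G Y] {D : HLData V G Y}

section CFAlg

variable {e n : V}

/-- normalised null vectors -/
def IsNull (e n : V) : Prop := inner ℂ e n = 1 ∧ herm e n n = 0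

theorem cf_herm_en (he : ‖e‖ = 1) (hn : IsNull e n) : herm e e n = -1 := by
  rw [herm_e he, hn.1]

theorem cf_herm_ne (he : ‖e‖ = 1) (hn : IsNull e n) : herm e n e = -1 := by
  rw [← herm_conj, cf_herm_en he hn]; simp

theorem cf_herm_ee (he : ‖e‖ = 1) : herm e e e = -1 := by
  rw [herm_self, q_e he]; norm_num

theorem cf_q (he : ‖e‖ = 1) (hn : IsNull e n) (t : ℝ) :
    q e ((1 - t) • e + t • n) = 1 - t ^ 2 := by
  have h := herm_self e ((1 - t) • e + t • n)
  rw [herm_add_left, herm_add_right, herm_add_right, herm_real_smul_left, herm_real_smul_left,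
    herm_real_smul_left, herm_real_smul_left, herm_real_smul_right, herm_real_smul_right,
    herm_real_smul_right, herm_real_smul_right, cf_herm_ee he, cf_herm_en he hn,
    cf_herm_ne he hn, hn.2] at h
  have h2 : (((1 - t) * ((1 - t) * (-1)) + (1 - t) * (t * (-1)) + (t * ((1 - t) * (-1)) + t * (t * 0)) : ℝ) : ℂ)
      = ((- q e ((1 - t) • e + t • n) : ℝ) : ℂ) := by
    rw [← h]; push_cast; ring
  have h3 := Complex.ofReal_injective h2
  linarith

theorem cf_herm_Pn (he : ‖e‖ = 1) (hn : IsNull e n) (t : ℝ) :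
    herm e ((1 - t) • e + t • n) n = ((-(1 - t) : ℝ) : ℂ) := by
  rw [herm_add_left, herm_real_smul_left, herm_real_smul_left, cf_herm_en he hn, hn.2]
  push_cast; ring

/-- the slice -/
def slF (e : V) : Set V := {P | inner ℂ e P = 1 ∧ 0 < q e P}

theorem slF_q {P : V} (h : inner ℂ e P = 1) : q e P = 2 - ‖P‖ ^ 2 := by
  unfold q; rw [h]; norm_num

theorem slF_convex (e : V) : Convex ℝ (slF e) := by
  have h1 : slF e = {P | inner ℂ e P = 1} ∩ Metric.ball 0 √2 := by
    ext P
    constructor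
    · rintro ⟨h, h'⟩
      refine ⟨h, ?_⟩
      rw [slF_q h] at h'
      rw [Metric.mem_ball, dist_zero_right]
      exact Real.lt_sqrt_of_sq_lt (by linarith)
    · rintro ⟨h, h'⟩
      refine ⟨h, ?_⟩
      rw [slF_q h]
      rw [Metric.mem_ball, dist_zero_right] at h'
      have := (Real.lt_sqrt (norm_nonneg P)).1 h'
      linarith
  rw [h1]
  refine Convex.inter ?_ (convex_ball _ _)
  intro P hP P' hP' a b ha hb hab
  show inner ℂ e (a • P + b • P') = 1
  have hP : inner ℂ e P = (1 : ℂ) := hP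
  have hP' : inner ℂ e P' = (1 : ℂ) := hP'
  rw [inner_add_right, ← Complex.coe_smul a P, ← Complex.coe_smul b P', inner_smul_right,
    inner_smul_right, hP, hP', mul_one, mul_one]
  exact_mod_cast hab

theorem slF_e (he : ‖e‖ = 1) : e ∈ slF e := by
  refine ⟨?_, ?_⟩
  · rw [inner_self_eq_norm_sq_to_K, he]; norm_num
  · rw [q_e he]; norm_num

theorem slF_q_le (he : ‖e‖ = 1) {P : V} (h : inner ℂ e P = 1) : q e P ≤ 1 := by
  rw [slF_q h]
  have h1 : ‖inner ℂ e P‖ ≤ ‖e‖ * ‖P‖ := norm_inner_le_norm e P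
  rw [h, he, norm_one, one_mul] at h1
  nlinarith

end CFAlg

variable [FiniteDimensional ℂ V] [T2Space Y]

/-- F0a -/
theorem exists_null (hinc : ∀ y, dom D.dev y ≠ univ) (y : Y)
    (h : ∀ ε > 0, ∃ P, 0 < q D.e P ∧ (rad D y P)⁻¹ < ε) :
    ∃ n, IsNull D.e n ∧ ∀ t : ℝ, 0 ≤ t → t < 1 →
      FR D y ((1 - t) • D.e + t • n) ≤ (1 - t) * FR D y D.e := by
  have hseq : ∀ k : ℕ, ∃ Q ∈ slF D.e, FR D y Q ≤ 1 / ((k : ℝ) + 1) := by
    intro k
    obtain ⟨P, hP, hr⟩ := h (1 / ((k : ℝ) + 1)) (by positivity)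
    have hin : inner ℂ D.e P ≠ (0 : ℂ) := by
      intro h0
      unfold q at hP
      rw [h0, norm_zero] at hP
      nlinarith [norm_nonneg P]
    have ha : (inner ℂ D.e P)⁻¹ ≠ (0 : ℂ) := inv_ne_zero hin
    have hQ1 : inner ℂ D.e ((inner ℂ D.e P)⁻¹ • P) = (1 : ℂ) := by
      rw [inner_smul_right]; exact inv_mul_cancel₀ hin
    have hQ2 : 0 < q D.e ((inner ℂ D.e P)⁻¹ • P) := by
      rw [q_smul]; exact mul_pos (by positivity) hP
    refine ⟨(inner ℂ D.e P)⁻¹ • P, ⟨hQ1, hQ2⟩, ?_⟩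
    have hrp := rad_pos hinc y hP
    unfold FR
    rw [rad_smul hinc y P ha, div_eq_mul_inv]
    have h1 : √(q D.e ((inner ℂ D.e P)⁻¹ • P)) ≤ 1 := Real.sqrt_le_one.2 (slF_q_le D.he hQ1)
    calc √(q D.e ((inner ℂ D.e P)⁻¹ • P)) * (rad D y P)⁻¹ ≤ 1 * (rad D y P)⁻¹ :=
          mul_le_mul_of_nonneg_right h1 (inv_nonneg.2 hrp.le)
      _ ≤ _ := by rw [one_mul]; exact hr.le
  choose Q hQ hFR using hseq
  have : ProperSpace V := FiniteDimensional.proper ℂ V
  have hball : ∀ k, Q k ∈ Metric.closedBall (0 : V) √2 := by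
    intro k
    have h1 := (hQ k).2
    rw [slF_q (hQ k).1] at h1
    rw [Metric.mem_closedBall, dist_zero_right]
    exact Real.le_sqrt_of_sq_le (by linarith)
  obtain ⟨n, -, φ, hφ, hlim⟩ := (isCompact_closedBall (0 : V) √2).tendsto_subseq hball
  have hFlim : Tendsto (fun k => FR D y (Q (φ k))) atTop (𝓝 0) := by
    have h1 : Tendsto (fun k : ℕ => 1 / (((φ k : ℕ) : ℝ) + 1)) atTop (𝓝 0) :=
      tendsto_one_div_add_atTop_nhds_zero_nat.comp hφ.tendsto_atTop
    refine squeeze_zero (fun k => (FR_pos hinc y (hQ (φ k)).2).le) (fun k => hFR (φ k)) h1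
  have hn1 : inner ℂ D.e n = (1 : ℂ) := by
    have h1 : Tendsto (fun k => inner ℂ D.e (Q (φ k))) atTop (𝓝 (inner ℂ D.e n : ℂ)) :=
      ((continuous_const.inner continuous_id).tendsto n).comp hlim
    have h2 : (fun k => (inner ℂ D.e (Q (φ k)) : ℂ)) = fun _ => 1 := by
      funext k; exact (hQ (φ k)).1
    rw [h2] at h1
    exact tendsto_nhds_unique h1 tendsto_const_nhds
  have hcont : ∀ {P : V}, 0 < q D.e P → ContinuousAt (fun P' => FR D y P') P := by
    intro P hP
    have h1 := FR_continuousAt hinc y hP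
    have h2 : ContinuousAt (fun P' : V => (y, P')) P := by fun_prop
    exact ContinuousAt.comp (f := fun P' : V => (y, P')) (g := fun p : Y × V => FR D p.1 p.2) h1 h2
  have hqlim : Tendsto (fun k => q D.e (Q (φ k))) atTop (𝓝 (q D.e n)) := by
    have h1 : Continuous fun P : V => q D.e P := q_continuous.comp (by fun_prop : Continuous fun P : V => (D.e, P))
    exact (h1.tendsto n).comp hlim
  have hq0 : 0 ≤ q D.e n := ge_of_tendsto' hqlim fun k => (hQ (φ k)).2.le
  have hq : q D.e n = 0 := by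
    by_contra hne
    have hpos : 0 < q D.e n := lt_of_le_of_ne hq0 (Ne.symm hne)
    have h1 : Tendsto (fun k => FR D y (Q (φ k))) atTop (𝓝 (FR D y n)) :=
      (hcont hpos).tendsto.comp hlim
    have h2 := tendsto_nhds_unique h1 hFlim
    exact (FR_pos hinc y hpos).ne' h2
  have hnull : IsNull D.e n := ⟨hn1, by rw [herm_self, hq]; simp⟩
  refine ⟨n, hnull, fun t ht0 ht1 => ?_⟩
  have hqt : 0 < q D.e ((1 - t) • D.e + t • n) := by
    rw [cf_q D.he hnull]; nlinarith
  have h1 : Tendsto (fun k => FR D y ((1 - t) • D.e + t • Q (φ k))) atTop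
      (𝓝 (FR D y ((1 - t) • D.e + t • n))) := by
    refine (hcont hqt).tendsto.comp ?_
    exact (tendsto_const_nhds).add (hlim.const_smul t)
  have h2 : Tendsto (fun k => (1 - t) * FR D y D.e + t * FR D y (Q (φ k))) atTop
      (𝓝 ((1 - t) * FR D y D.e + t * 0)) :=
    tendsto_const_nhds.add (hFlim.const_mul t)
  have hconv := FR_convex hinc y (slF_convex D.e) (fun P hP => hP.2)
  have h3 := le_of_tendsto_of_tendsto' h1 h2 fun k => by
    have := hconv.2 (slF_e D.he) (hQ (φ k)) (sub_nonneg.2 ht1.le) ht0 (by ring)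
    simpa [smul_eq_mul] using this
  simpa using h3

/-- F0b: the slab -/
theorem slab_of_null (hinc : ∀ y, dom D.dev y ≠ univ) (y : Y) {n : V} (hn : IsNull D.e n)
    (h : ∀ t : ℝ, 0 ≤ t → t < 1 →
      FR D y ((1 - t) • D.e + t • n) ≤ (1 - t) * FR D y D.e) (x : V)
    (hx : ‖herm D.e n (x - D.dev y)‖ < √2 * rad D y D.e) : x ∈ dom D.dev y := by
  have hqe : 0 < q D.e D.e := (slF_e D.he).2
  have hr := rad_pos hinc y hqe
  set v := x - D.dev y with hv
  set r := rad D y D.e with hrdef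
  have hcont : Continuous fun t : ℝ =>
      (1 + t) ^ 2 * r ^ 2 - (-(1 - t ^ 2) * q D.e v + 2 * ‖herm D.e ((1 - t) • D.e + t • n) v‖ ^ 2) := by
    have h1 : Continuous fun t : ℝ => herm D.e ((1 - t) • D.e + t • n) v :=
      herm_continuous.comp (by fun_prop : Continuous fun t : ℝ => (D.e, (1 - t) • D.e + t • n, v))
    fun_prop
  have h1 : 0 < (1 + (1 : ℝ)) ^ 2 * r ^ 2 - (-(1 - (1 : ℝ) ^ 2) * q D.e v +
      2 * ‖herm D.e ((1 - (1 : ℝ)) • D.e + (1 : ℝ) • n) v‖ ^ 2) := by
    have h2 : (1 - (1 : ℝ)) • D.e + (1 : ℝ) • n = n := by simp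
    rw [h2]
    have h3 : ‖herm D.e n v‖ ^ 2 < 2 * r ^ 2 := by
      have h4 : ‖herm D.e n v‖ ^ 2 < (√2 * r) ^ 2 := pow_lt_pow_left₀ hx (norm_nonneg _) (by norm_num)
      rw [mul_pow, Real.sq_sqrt (by norm_num)] at h4
      exact h4
    linarith
  have h2 := (hcont.tendsto 1).eventually (lt_mem_nhds h1)
  have h3 : ∀ᶠ t : ℝ in 𝓝[<] 1, 0 < (1 + t) ^ 2 * r ^ 2 - (-(1 - t ^ 2) * q D.e v +
      2 * ‖herm D.e ((1 - t) • D.e + t • n) v‖ ^ 2) := nhdsWithin_le_nhds h2
  have h4 : ∀ᶠ t : ℝ in 𝓝[<] 1, t ∈ Ioo (0 : ℝ) 1 := Ioo_mem_nhdsLT (by norm_num)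
  obtain ⟨t, ht, ht0, ht1⟩ := (h3.and h4).exists
  have hqt : q D.e ((1 - t) • D.e + t • n) = 1 - t ^ 2 := cf_q D.he hn t
  have hqt' : 0 < q D.e ((1 - t) • D.e + t • n) := by rw [hqt]; nlinarith
  set P := (1 - t) • D.e + t • n with hPdef
  refine mem_dom_of_lt hinc y hqt' ?_
  have hrP := rad_pos hinc y hqt'
  refine lt_of_pow_lt_pow_left₀ 2 hrP.le ?_
  rw [pn_sq D.he hqt', hqt]
  have h5 := h t ht0.le ht1
  unfold FR at h5
  rw [hqt, q_e D.he, Real.sqrt_one, ← hrdef, div_le_iff₀ hrP] at h5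
  have h6 : (1 - t ^ 2) * r ^ 2 ≤ (1 - t) ^ 2 * rad D y P ^ 2 := by
    have h7 : √(1 - t ^ 2) * r ≤ (1 - t) * rad D y P := by
      have h8 := mul_le_mul_of_nonneg_right h5 hr.le
      calc _ ≤ _ := h8
        _ = _ := by field_simp
    have h9 := pow_le_pow_left₀ (by positivity) h7 2
    rwa [mul_pow, mul_pow, Real.sq_sqrt (by nlinarith)] at h9
  have h10 : (1 + t) * r ^ 2 ≤ (1 - t) * rad D y P ^ 2 := by
    have h11 : 0 < 1 - t := by linarith
    have h12 : (1 - t) * ((1 + t) * r ^ 2) ≤ (1 - t) * ((1 - t) * rad D y P ^ 2) := by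
      nlinarith
    exact le_of_mul_le_mul_left h12 h11
  have h13 : 0 < 1 - t ^ 2 := by nlinarith
  have h14 : (1 - t ^ 2) * (-q D.e v + 2 * ‖herm D.e P v‖ ^ 2 / (1 - t ^ 2)) <
      (1 - t ^ 2) * rad D y P ^ 2 := by
    have h15 : (1 - t ^ 2) * (-q D.e v + 2 * ‖herm D.e P v‖ ^ 2 / (1 - t ^ 2)) =
        -(1 - t ^ 2) * q D.e v + 2 * ‖herm D.e P v‖ ^ 2 := by
      field_simp
      try ring
    rw [h15]
    have h16 : (1 + t) ^ 2 * r ^ 2 ≤ (1 - t ^ 2) * rad D y P ^ 2 := by
      have := mul_le_mul_of_nonneg_left h10 (by linarith : (0 : ℝ) ≤ 1 + t)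
      nlinarith
    linarith
  exact lt_of_mul_lt_mul_left h14 h13.le

/-- F0c: converse -/
theorem FR_of_slab (hinc : ∀ y, dom D.dev y ≠ univ) (y : Y) {n : V} (hn : IsNull D.e n) {c : ℝ}
    (hc : 0 < c) (h : ∀ x, ‖herm D.e n (x - D.dev y)‖ < c → x ∈ dom D.dev y) {t : ℝ}
    (h0 : 0 ≤ t) (h1 : t < 1) :
    0 < q D.e ((1 - t) • D.e + t • n) ∧ FR D y ((1 - t) • D.e + t • n) ≤ √2 * (1 - t) / c := by
  have hqt : q D.e ((1 - t) • D.e + t • n) = 1 - t ^ 2 := cf_q D.he hn t
  have hqt' : 0 < q D.e ((1 - t) • D.e + t • n) := by rw [hqt]; nlinarith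
  refine ⟨hqt', ?_⟩
  have hPn := cf_herm_Pn D.he hn t
  set P := (1 - t) • D.e + t • n with hPdef
  have hn0 : n ≠ 0 := by
    rintro rfl
    have := hn.1
    simp at this
  have hpn : pn D.e P n = √2 * (1 - t) / √(1 - t ^ 2) := by
    rw [pn_null D.he hqt' hn.2, hPn, hqt, Complex.norm_real, Real.norm_eq_abs, abs_neg,
      abs_of_pos (by linarith)]
  have hpos : 0 < pn D.e P n := pn_pos D.he hqt' hn0
  have hsq : 0 < √(1 - t ^ 2) := Real.sqrt_pos.2 (by nlinarith)
  have hr : c / pn D.e P n ≤ rad D y P := by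
    refine le_rad hinc y hqt' fun x hx => h x ?_
    calc ‖herm D.e n (x - D.dev y)‖ ≤ pn D.e P n * pn D.e P (x - D.dev y) :=
          herm_le D.he hqt' _ _
      _ < pn D.e P n * (c / pn D.e P n) := mul_lt_mul_of_pos_left hx hpos
      _ = c := by field_simp
  have hrp := rad_pos hinc y hqt'
  unfold FR
  rw [hqt, div_le_div_iff₀ hrp hc]
  rw [hpn] at hr
  have h2 : c * √(1 - t ^ 2) / (√2 * (1 - t)) ≤ rad D y P := by
    calc _ = c / (√2 * (1 - t) / √(1 - t ^ 2)) := by field_simp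
      _ ≤ _ := hr
  have h3 : 0 < √2 * (1 - t) := mul_pos (by positivity) (by linarith)
  rw [div_le_iff₀ h3] at h2
  linarith

/-- F0d: uniqueness of the direction of slabs -/
theorem slab_unique (hinc : ∀ y, dom D.dev y ≠ univ) (y : Y) {n n' : V} (hn : IsNull D.e n)
    (hn' : IsNull D.e n') {c c' : ℝ} (hc : 0 < c) (hc' : 0 < c')
    (h : ∀ x, ‖herm D.e n (x - D.dev y)‖ < c → x ∈ dom D.dev y)
    (h' : ∀ x, ‖herm D.e n' (x - D.dev y)‖ < c' → x ∈ dom D.dev y) : n = n' := by
  by_contra hne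
  have hnn : ∀ {m : V}, IsNull D.e m → ‖m‖ ^ 2 = 2 := by
    intro m hm
    have h1 := herm_self D.e m
    rw [hm.2] at h1
    have h2 : q D.e m = 0 := by
      have h3 : ((0 : ℝ) : ℂ) = ((- q D.e m : ℝ) : ℂ) := by rw [← h1]; simp
      have := Complex.ofReal_injective h3
      linarith
    rw [slF_q hm.1] at h2
    linarith
  set m := (1 / 2 : ℝ) • n + (1 / 2 : ℝ) • n' with hm
  have hm1 : inner ℂ D.e m = (1 : ℂ) := by
    rw [hm, inner_add_right, ← Complex.coe_smul _ n, ← Complex.coe_smul _ n', inner_smul_right,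
      inner_smul_right, hn.1, hn'.1]
    push_cast; norm_num
  have hmq : 0 < q D.e m := by
    rw [slF_q hm1]
    have h1 : ‖m‖ ^ 2 < 2 := by
      have h2 : ‖n + n'‖ ^ 2 + ‖n - n'‖ ^ 2 = 2 * (‖n‖ ^ 2 + ‖n'‖ ^ 2) := by
        have := parallelogram_law_with_norm ℂ n n'
        nlinarith
      have h3 : 0 < ‖n - n'‖ := norm_pos_iff.2 (sub_ne_zero.2 hne)
      have h4 : m = (1 / 2 : ℝ) • (n + n') := by rw [hm, smul_add]
      rw [h4, norm_smul, mul_pow, Real.norm_eq_abs]
      rw [hnn hn, hnn hn'] at h2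
      have h5 : (|(1 / 2 : ℝ)|) ^ 2 = 1 / 4 := by rw [sq_abs]; norm_num
      rw [h5]
      nlinarith
    linarith
  have hcont : Continuous fun t : ℝ => (1 - t) • D.e + t • m := by fun_prop
  have hat : ContinuousAt (fun P' => FR D y P') m := by
    have h1 := FR_continuousAt hinc y hmq
    have h2 : ContinuousAt (fun P' : V => (y, P')) m := by fun_prop
    exact ContinuousAt.comp (f := fun P' : V => (y, P')) (g := fun p : Y × V => FR D p.1 p.2) h1 h2
  have hlim : Tendsto (fun t : ℝ => FR D y ((1 - t) • D.e + t • m)) (𝓝[<] 1)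
      (𝓝 (FR D y m)) := by
    refine hat.tendsto.comp (tendsto_nhdsWithin_of_tendsto_nhds ?_)
    have h1 := hcont.tendsto 1
    simpa using h1
  have hlim2 : Tendsto (fun t : ℝ => (1 / 2) * (√2 * (1 - t) / c) + (1 / 2) * (√2 * (1 - t) / c'))
      (𝓝[<] 1) (𝓝 0) := by
    have h1 : Continuous fun t : ℝ => (1 / 2) * (√2 * (1 - t) / c) + (1 / 2) * (√2 * (1 - t) / c') := by
      fun_prop
    have h2 := h1.tendsto 1
    refine tendsto_nhdsWithin_of_tendsto_nhds ?_
    simpa using h2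
  have hconv := FR_convex hinc y (slF_convex D.e) (fun P hP => hP.2)
  have hev : ∀ᶠ t : ℝ in 𝓝[<] 1, FR D y ((1 - t) • D.e + t • m) ≤
      (1 / 2) * (√2 * (1 - t) / c) + (1 / 2) * (√2 * (1 - t) / c') := by
    have h4 : ∀ᶠ t : ℝ in 𝓝[<] 1, t ∈ Ioo (0 : ℝ) 1 := Ioo_mem_nhdsLT (by norm_num)
    filter_upwards [h4] with t ht
    obtain ⟨hq1, hF1⟩ := FR_of_slab hinc y hn hc h ht.1.le ht.2
    obtain ⟨hq2, hF2⟩ := FR_of_slab hinc y hn' hc' h' ht.1.le ht.2
    have hin : ∀ {k : V}, IsNull D.e k → inner ℂ D.e ((1 - t) • D.e + t • k) = (1 : ℂ) := by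
      intro k hk
      rw [inner_add_right, ← Complex.coe_smul _ D.e, ← Complex.coe_smul _ k, inner_smul_right,
        inner_smul_right, hk.1, (slF_e D.he).1]
      push_cast; ring
    have h5 := hconv.2 (⟨hin hn, hq1⟩ : _ ∈ slF D.e) (⟨hin hn', hq2⟩ : _ ∈ slF D.e)
      (by norm_num : (0 : ℝ) ≤ 1 / 2) (by norm_num : (0 : ℝ) ≤ 1 / 2) (by norm_num)
    have h6 : (1 / 2 : ℝ) • ((1 - t) • D.e + t • n) + (1 / 2 : ℝ) • ((1 - t) • D.e + t • n') =
        (1 - t) • D.e + t • m := by
      rw [hm]; module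
    rw [h6] at h5
    refine h5.trans ?_
    simp only [smul_eq_mul]
    linarith
  have h7 := le_of_tendsto_of_tendsto hlim hlim2 hev
  exact absurd (FR_pos hinc y hmq) (not_lt.2 h7)

omit [FiniteDimensional ℂ V] [T2Space Y] in
theorem cf_slab_isOpen (n : V) (p : V) (c : ℝ) : IsOpen {x | ‖herm D.e n (x - p)‖ < c} := by
  have h1 : Continuous fun x : V => ‖herm D.e n (x - p)‖ :=
    (herm_continuous.comp (by fun_prop : Continuous fun x : V => (D.e, n, x - p))).norm
  exact isOpen_lt h1 continuous_const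

omit [FiniteDimensional ℂ V] [T2Space Y] in
theorem cf_slab_convex (n : V) (p : V) (c : ℝ) :
    Convex ℝ {x | ‖herm D.e n (x - p)‖ < c} := by
  intro x hx x' hx' a b ha hb hab
  have hx : ‖herm D.e n (x - p)‖ < c := hx
  have hx' : ‖herm D.e n (x' - p)‖ < c := hx'
  show ‖herm D.e n (a • x + b • x' - p)‖ < c
  have h1 : a • x + b • x' - p = a • (x - p) + b • (x' - p) := by
    have h2 : p = (a + b) • p := by rw [hab, one_smul]
    nth_rewrite 1 [h2]
    module
  rw [h1, herm_add_right, herm_real_smul_right, herm_real_smul_right]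
  have h2 : ‖(a : ℂ) * herm D.e n (x - p) + (b : ℂ) * herm D.e n (x' - p)‖ ≤
      a * ‖herm D.e n (x - p)‖ + b * ‖herm D.e n (x' - p)‖ := by
    refine (norm_add_le _ _).trans ?_
    rw [norm_mul, norm_mul, Complex.norm_real, Complex.norm_real, Real.norm_eq_abs,
      Real.norm_eq_abs, abs_of_nonneg ha, abs_of_nonneg hb]
  refine h2.trans_lt ?_
  rcases ha.eq_or_lt with h0 | h0
  · subst h0
    have : b = 1 := by linarith
    subst this
    simpa using hx'
  · have h3 : a * ‖herm D.e n (x - p)‖ < a * c := mul_lt_mul_of_pos_left hx h0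
    have h4 : b * ‖herm D.e n (x' - p)‖ ≤ b * c := mul_le_mul_of_nonneg_left hx'.le hb
    have h5 : a * c + b * c = c := by rw [← add_mul, hab, one_mul]
    linarith

/-- F0e: one direction for all points -/
theorem exists_global [ConnectedSpace Y] (hinc : ∀ y, dom D.dev y ≠ univ)
    (h : ∀ y, ∀ ε > 0, ∃ P, 0 < q D.e P ∧ (rad D y P)⁻¹ < ε) :
    ∃ n, IsNull D.e n ∧ ∀ y, ∃ c > 0, ∀ x, ‖herm D.e n (x - D.dev y)‖ < c → x ∈ dom D.dev y := by
  have hex : ∀ y : Y, ∃ n, IsNull D.e n ∧ ∃ c > 0, ∀ x, ‖herm D.e n (x - D.dev y)‖ < c →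
      x ∈ dom D.dev y := by
    intro y
    obtain ⟨n, hn, h1⟩ := exists_null hinc y (h y)
    exact ⟨n, hn, √2 * rad D y D.e, mul_pos (by positivity) (rad_pos hinc y (slF_e D.he).2),
      fun x hx => slab_of_null hinc y hn h1 x hx⟩
  choose N hN c hc hslab using hex
  have hloc : IsLocallyConstant N := by
    rw [IsLocallyConstant.iff_eventually_eq]
    intro y
    set C : Set V := {x | ‖herm D.e (N y) (x - D.dev y)‖ < c y} with hC
    have hCo : IsOpen C := cf_slab_isOpen (N y) (D.dev y) (c y)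
    have hCc : Convex ℝ C := cf_slab_convex (N y) (D.dev y) (c y)
    have h00 : herm D.e (N y) 0 = 0 := by
      have := herm_real_smul_right D.e (N y) 0 0
      simpa using this
    have hyC : D.dev y ∈ C := by
      show ‖herm D.e (N y) (D.dev y - D.dev y)‖ < c y
      rw [sub_self, h00, norm_zero]
      exact hc y
    have hsub : C ⊆ dom D.dev y := fun x hx => hslab y x hx
    have hev : ∀ᶠ y' in 𝓝 y, D.dev y' ∈ C :=
      D.dev_local.continuous.continuousAt.eventually_mem (hCo.mem_nhds hyC)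
    filter_upwards [hev, near D.dev_local y] with y' hy' hnear
    obtain ⟨-, hsec, -, -⟩ := hnear
    have h1 := (rebase D.dev_local hCo hCc hyC hsub hy').1
    rw [hsec] at h1
    have hy'2 : ‖herm D.e (N y) (D.dev y' - D.dev y)‖ < c y := hy'
    refine (slab_unique hinc y' (hN y') (hN y) (hc y')
      (sub_pos.2 hy'2 : 0 < c y - ‖herm D.e (N y) (D.dev y' - D.dev y)‖) (hslab y') ?_)
    intro x hx
    refine h1 ?_
    show ‖herm D.e (N y) (x - D.dev y)‖ < c y
    have h2 : x - D.dev y = (x - D.dev y') + (D.dev y' - D.dev y) := by abel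
    rw [h2, herm_add_right]
    refine (norm_add_le _ _).trans_lt ?_
    linarith
  obtain ⟨y0⟩ := (inferInstance : Nonempty Y)
  refine ⟨N y0, hN y0, fun y => ?_⟩
  have h1 : N y = N y0 := hloc.apply_eq_of_isPreconnected isPreconnected_univ (mem_univ y) (mem_univ y0)
  rw [← h1]
  exact ⟨c y, hc y, hslab y⟩

/-- F0f: the line of `n` is invariant -/
theorem exists_lam (hinc : ∀ y, dom D.dev y ≠ univ) {n : V} (hn : IsNull D.e n) [Nonempty Y]
    (h : ∀ y, ∃ c > 0, ∀ x, ‖herm D.e n (x - D.dev y)‖ < c → x ∈ dom D.dev y) (g : G) :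
    ∃ a : ℂ, a ≠ 0 ∧ ∀ x, herm D.e n (D.lin g x) = a * herm D.e n x := by
  obtain ⟨y⟩ := (inferInstance : Nonempty Y)
  obtain ⟨c, hc, hslab⟩ := h y
  obtain ⟨c', hc', hslab'⟩ := h (g • y)
  have hn0 : n ≠ 0 := by
    rintro rfl
    have := hn.1
    simp at this
  have hm0 : D.lin g n ≠ 0 := by
    intro h0
    exact hn0 ((map_eq_zero_iff _ (D.lin g).injective).1 h0)
  have hmm : herm D.e (D.lin g n) (D.lin g n) = 0 := by rw [D.herm_lin]; exact hn.2
  set a : ℂ := inner ℂ D.e (D.lin g n) with ha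
  have ha0 : a ≠ 0 := by
    intro h0
    have h1 := herm_self D.e (D.lin g n)
    rw [hmm] at h1
    have h2 : q D.e (D.lin g n) = 0 := by
      have h3 : ((0 : ℝ) : ℂ) = ((- q D.e (D.lin g n) : ℝ) : ℂ) := by rw [← h1]; simp
      have := Complex.ofReal_injective h3
      linarith
    unfold q at h2
    rw [← ha, h0, norm_zero] at h2
    have h4 : ‖D.lin g n‖ ^ 2 = 0 := by linarith
    exact hm0 (norm_eq_zero.1 (pow_eq_zero_iff (by norm_num) |>.1 h4))
  have hn2 : IsNull D.e (a⁻¹ • D.lin g n) := by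
    refine ⟨?_, ?_⟩
    · rw [inner_smul_right, ← ha]; exact inv_mul_cancel₀ ha0
    · rw [herm_smul_left, herm_smul_right, hmm]; simp
  have hna : 0 < ‖a‖ := norm_pos_iff.2 ha0
  have heq : a⁻¹ • D.lin g n = n := by
    refine slab_unique hinc (g • y) hn2 hn (div_pos hc hna) hc' ?_ hslab'
    intro x hx
    have h1 : x = D.hol g (D.hol g⁻¹ x) := (hol_hol_inv D g x).symm
    rw [h1, dom_smul]
    refine hslab _ ?_
    have h2 : herm D.e n (D.hol g⁻¹ x - D.dev y) =
        herm D.e (D.lin g n) (x - D.dev (g • y)) := by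
      rw [← D.herm_lin g n (D.hol g⁻¹ x - D.dev y), ← hol_sub, hol_hol_inv, dev_smul']
    rw [h2]
    rw [herm_smul_left, norm_mul] at hx
    have h3 : ‖(starRingEnd ℂ) a⁻¹‖ = ‖a‖⁻¹ := by simp
    rw [h3] at hx
    rw [inv_mul_lt_iff₀ hna] at hx
    calc _ < _ := hx
      _ = c := by field_simp
  have hlin : D.lin g n = a • n := by
    nth_rewrite 2 [← heq]
    rw [smul_smul, mul_inv_cancel₀ ha0, one_smul]
  have hca : (starRingEnd ℂ) a ≠ 0 := by
    intro h0; exact ha0 ((map_eq_zero_iff _ (starRingEnd ℂ).injective).1 h0)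
  refine ⟨((starRingEnd ℂ) a)⁻¹, inv_ne_zero hca, fun x => ?_⟩
  have h1 := D.herm_lin g n x
  rw [hlin, herm_smul_left] at h1
  rw [← h1]
  field_simp

omit [FiniteDimensional ℂ V] in
/-- gluing along a slab -/
theorem cf_step {y y0 : Y} {C : Set V} (hCo : IsOpen C) (hCc : Convex ℝ C) (hy0 : D.dev y0 ∈ C)
    (hC : C ⊆ dom D.dev y0) {a b : V} (ha : a ∈ C) (hb : b ∈ C) (hab : a ∈ segment ℝ (D.dev y) b) :
    (a ∈ dom D.dev y ∧ sec D.dev y a = sec D.dev y0 a) ↔
      (b ∈ dom D.dev y ∧ sec D.dev y b = sec D.dev y0 b) := by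
  have hagree : b ∈ dom D.dev y → a ∈ dom D.dev y ∧
      (sec D.dev y a = sec D.dev y0 a ↔ sec D.dev y b = sec D.dev y0 b) := by
    intro hbd
    have hseg : segment ℝ (D.dev y) b ⊆ dom D.dev y := (starConvex_dom y).segment_subset hbd
    have had : a ∈ dom D.dev y := hseg hab
    refine ⟨had, ?_⟩
    have hsub1 : segment ℝ a b ⊆ dom D.dev y := by
      refine Subset.trans ?_ hseg
      exact (convex_segment _ _).segment_subset hab (right_mem_segment ℝ _ _)
    have hsub2 : segment ℝ a b ⊆ C := hCc.segment_subset ha hb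
    have hs1 : IsSec D.dev (segment ℝ a b) (sec D.dev y) := (isSec_sec D.dev_local y).mono hsub1
    have hs2 : IsSec D.dev (segment ℝ a b) (sec D.dev y0) :=
      (isSec_sec D.dev_local y0).mono (hsub2.trans hC)
    have hpre : IsPreconnected (segment ℝ a b) := (convex_segment a b).isPreconnected
    constructor
    · intro h1
      exact IsSec.eqOn D.dev_local hpre hs1 hs2 (left_mem_segment ℝ a b) h1
        (right_mem_segment ℝ a b)
    · intro h1
      exact IsSec.eqOn D.dev_local hpre hs1 hs2 (right_mem_segment ℝ a b) h1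
        (left_mem_segment ℝ a b)
  constructor
  · rintro ⟨had, hsa⟩
    have h1 : C ⊆ dom D.dev (sec D.dev y a) := by
      rw [hsa]
      exact (rebase D.dev_local hCo hCc hy0 hC ha).1
    have hbd : b ∈ dom D.dev y := mem_dom_of_ray D.dev_local had hab hCo hCc ha h1 hb
    exact ⟨hbd, (hagree hbd).2.1 hsa⟩
  · rintro ⟨hbd, hsb⟩
    exact ⟨(hagree hbd).1, (hagree hbd).2.2 hsb⟩

omit [FiniteDimensional ℂ V] in
/-- the star domain is saturated with respect to `herm D.e n` -/
theorem cf_saturated {n : V}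
    (h : ∀ y, ∃ c > 0, ∀ x, ‖herm D.e n (x - D.dev y)‖ < c → x ∈ dom D.dev y) {y : Y} {x x' : V}
    (hx : x ∈ dom D.dev y) (hxx : herm D.e n x' = herm D.e n x) : x' ∈ dom D.dev y := by
  have hseg : ∀ t : Icc (0 : ℝ) 1, D.dev y + (t : ℝ) • (x - D.dev y) ∈ dom D.dev y := by
    intro t
    refine (starConvex_dom y).segment_subset hx ?_
    rw [segment_eq_image']
    exact ⟨t, t.2, rfl⟩
  set X : Icc (0 : ℝ) 1 → V := fun t => D.dev y + (t : ℝ) • (x - D.dev y) with hX
  set Q : Icc (0 : ℝ) 1 → V := fun t => D.dev y + (t : ℝ) • (x' - D.dev y) with hQ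
  have hXc : Continuous X := by fun_prop
  have hQc : Continuous Q := by fun_prop
  set σ : Icc (0 : ℝ) 1 → Y := fun t => sec D.dev y (X t) with hσ
  have hσc : Continuous σ := by
    have h1 := (isSec_sec D.dev_local y).1
    exact h1.comp_continuous hXc hseg
  have hdev : ∀ t, D.dev (σ t) = X t := fun t => (isSec_sec D.dev_local y).2 _ (hseg t)
  have hfe : ∀ t (p : V), herm D.e n (Q t - p) = herm D.e n (X t - p) := by
    intro t p
    simp only [hX, hQ, herm_sub_right, herm_add_right, herm_real_smul_right, hxx]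
  let A : Icc (0 : ℝ) 1 → Prop := fun t => Q t ∈ dom D.dev y ∧
    sec D.dev y (Q t) = sec D.dev (σ t) (Q t)
  have hA : IsLocallyConstant A := by
    rw [IsLocallyConstant.iff_eventually_eq]
    intro t0
    obtain ⟨c, hc, hslab⟩ := h (σ t0)
    set C : Set V := {z | ‖herm D.e n (z - D.dev (σ t0))‖ < c} with hC
    have hCo : IsOpen C := cf_slab_isOpen n (D.dev (σ t0)) c
    have hCc : Convex ℝ C := cf_slab_convex n (D.dev (σ t0)) c
    have h00 : herm D.e n 0 = 0 := by
      have := herm_real_smul_right D.e n 0 0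
      simpa using this
    have hyC : D.dev (σ t0) ∈ C := by
      show ‖herm D.e n (D.dev (σ t0) - D.dev (σ t0))‖ < c
      rw [sub_self, h00, norm_zero]
      exact hc
    have hsub : C ⊆ dom D.dev (σ t0) := fun x hx => hslab x hx
    have hXC : ∀ t, X t ∈ C → Q t ∈ C := by
      intro t ht
      show ‖herm D.e n (Q t - D.dev (σ t0))‖ < c
      rw [hfe]
      exact ht
    have hX0 : X t0 ∈ C := by rw [← hdev]; exact hyC
    have hev : ∀ᶠ t in 𝓝 t0, X t ∈ C := hXc.continuousAt.eventually_mem (hCo.mem_nhds hX0)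
    have hnear : ∀ᶠ t in 𝓝 t0, sec D.dev (σ t0) (D.dev (σ t)) = σ t := by
      have h1 := hσc.continuousAt.eventually (near D.dev_local (σ t0))
      filter_upwards [h1] with t ht using ht.2.1
    filter_upwards [hev, hnear] with t ht hst
    have hreb := (rebase D.dev_local hCo hCc hyC hsub (x := D.dev (σ t)) (by rw [hdev]; exact ht)).2
    rw [hst] at hreb
    have h1 : A t ↔ (Q t ∈ dom D.dev y ∧ sec D.dev y (Q t) = sec D.dev (σ t0) (Q t)) := by
      show (Q t ∈ dom D.dev y ∧ sec D.dev y (Q t) = sec D.dev (σ t) (Q t)) ↔ _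
      rw [hreb (hXC t ht)]
    have h2 : ∀ s s' : Icc (0 : ℝ) 1, s ≤ s' → Q s ∈ segment ℝ (D.dev y) (Q s') := by
      intro s s' hss
      rcases eq_or_lt_of_le (s'.2.1 : (0 : ℝ) ≤ s') with h0 | h0
      · have h3 : (s : ℝ) = 0 := le_antisymm ((show (s : ℝ) ≤ s' from hss).trans h0.ge) s.2.1
        have h4 : Q s = D.dev y := by simp only [hQ, h3, zero_smul, add_zero]
        rw [h4]
        exact left_mem_segment ℝ _ _
      · rw [segment_eq_image']
        refine ⟨(s : ℝ) / s', ⟨div_nonneg s.2.1 h0.le, (div_le_one h0).2 hss⟩, ?_⟩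
        simp only [hQ, add_sub_cancel_left, smul_smul]
        rw [div_mul_cancel₀ _ h0.ne']
    apply propext
    rw [h1]
    show _ ↔ (Q t0 ∈ dom D.dev y ∧ sec D.dev y (Q t0) = sec D.dev (σ t0) (Q t0))
    rcases le_total t t0 with hle | hle
    · exact cf_step hCo hCc hyC hsub (hXC t ht) (hXC t0 hX0) (h2 _ _ hle)
    · exact (cf_step hCo hCc hyC hsub (hXC t0 hX0) (hXC t ht) (h2 _ _ hle)).symm
  have hA01 := hA.apply_eq_of_isPreconnected isPreconnected_univ
    (mem_univ (⟨0, by simp⟩ : Icc (0 : ℝ) 1)) (mem_univ (⟨1, by simp⟩ : Icc (0 : ℝ) 1))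
  have hA0 : A ⟨0, by simp⟩ := by
    have h1 : Q ⟨0, by simp⟩ = D.dev y := by simp [hQ]
    have h2 : X ⟨0, by simp⟩ = D.dev y := by simp [hX]
    have h3 : σ ⟨0, by simp⟩ = y := by
      simp only [hσ]
      rw [h2]
      exact sec_self D.dev_local y
    show Q ⟨0, by simp⟩ ∈ dom D.dev y ∧ _
    rw [h1, h3]
    exact ⟨mem_dom_self D.dev_local y, rfl⟩
  rw [hA01] at hA0
  have h1 : Q ⟨1, by simp⟩ = x' := by simp [hQ]
  have h2 : Q ⟨1, by simp⟩ ∈ dom D.dev y := hA0.1
  rwa [h1] at h2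

omit [FiniteDimensional ℂ V] [T2Space Y] in
theorem cf_surj {n : V} (hn : IsNull D.e n) (w : ℂ) : herm D.e n (-w • D.e) = w := by
  rw [herm_smul_right, cf_herm_ne D.he hn]
  ring

/-- F0g: the planar data -/
theorem exists_planeData (hinc : ∀ y, dom D.dev y ≠ univ) {n : V} (hn : IsNull D.e n) [Nonempty Y]
    (h : ∀ y, ∃ c > 0, ∀ x, ‖herm D.e n (x - D.dev y)‖ < c → x ∈ dom D.dev y) :
    ∃ E : PlaneData G Y, (∀ g, ∀ x, herm D.e n (D.hol g x) = E.lam g * herm D.e n x + E.bet g) ∧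
      ∀ y, (∀ x, herm D.e n x ∈ E.T y → x ∈ dom D.dev y) := by
  choose lam hlam0 hlam using exists_lam hinc hn h
  obtain ⟨Fr⟩ := exists_frame D
  have hhol : ∀ g x, herm D.e n (D.hol g x) = lam g * herm D.e n x + herm D.e n (D.tr g) := by
    intro g x
    unfold HLData.hol
    rw [herm_add_right, hlam]
  have hfcont : Continuous fun x : V => herm D.e n x :=
    herm_continuous.comp (by fun_prop : Continuous fun x : V => (D.e, n, x))
  let fL : V →ₗ[ℝ] ℂ :=
    { toFun := fun x => herm D.e n x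
      map_add' := fun x x' => herm_add_right _ _ _ _
      map_smul' := fun a x => by
        rw [herm_real_smul_right]
        simp }
  have hfL : ∀ x, fL x = herm D.e n x := fun x => rfl
  have hsurj : ∀ w : ℂ, fL (-w • D.e) = w := fun w => cf_surj hn w
  have hfLc : Continuous fL := hfcont
  have hfLo : IsOpenMap fL := by
    rw [isOpenMap_iff_nhds_le]
    intro x
    -- a continuous right inverse
    have h1 : Continuous fun w : ℂ => x + (-(w - fL x)) • D.e := by fun_prop
    have h2 : Tendsto (fun w : ℂ => x + (-(w - fL x)) • D.e) (𝓝 (fL x)) (𝓝 x) := by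
      have := h1.tendsto (fL x)
      simpa using this
    have h3 : ∀ w : ℂ, fL (x + (-(w - fL x)) • D.e) = w := by
      intro w
      rw [map_add, hsurj]; ring
    intro s hs
    rw [Filter.mem_map] at hs
    have h4 := h2 hs
    rw [Filter.mem_map] at h4
    filter_upwards [h4] with w hw
    have h5 : fL (x + (-(w - fL x)) • D.e) ∈ s := hw
    rwa [h3] at h5
  let T : Y → Set ℂ := fun y => fL '' dom D.dev y
  have hsat : ∀ y x, fL x ∈ T y → x ∈ dom D.dev y := by
    rintro y x ⟨x', hx', hxx⟩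
    exact cf_saturated h hx' (by rw [← hfL, ← hfL, hxx])
  have hCo : ∀ {U : Set ℂ}, IsOpen U → IsOpen (fL ⁻¹' U) := fun hU => hU.preimage hfLc
  have hCc : ∀ {U : Set ℂ}, Convex ℝ U → Convex ℝ (fL ⁻¹' U) := fun hU => hU.linear_preimage fL
  let E : PlaneData G Y :=
    { F := fun y => fL (D.dev y)
      T := T
      R := fun y y' => D.dev y' ∈ dom D.dev y ∧ sec D.dev y (D.dev y') = y'
      lam := lam
      bet := fun g => herm D.e n (D.tr g)
      K := Fr.K
      lam_ne := hlam0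
      act_mul := by
        intro g g' w
        obtain ⟨x, hx⟩ : ∃ x, herm D.e n x = w := ⟨_, cf_surj hn w⟩
        rw [← hx, ← hhol, ← hhol, ← hhol, hol_mul]
      act_one := by
        intro w
        obtain ⟨x, hx⟩ : ∃ x, herm D.e n x = w := ⟨_, cf_surj hn w⟩
        rw [← hx, ← hhol, hol_one]
      F_cont := hfLc.comp D.dev_local.continuous
      F_mem := fun y => ⟨D.dev y, mem_dom_self D.dev_local y, rfl⟩
      T_open := by
        have h1 : {p : Y × ℂ | p.2 ∈ T p.1} =
            (Prod.map id fL) '' {p : Y × V | p.2 ∈ dom D.dev p.1} := by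
          ext ⟨y, w⟩
          constructor
          · rintro ⟨x, hx, hxw⟩
            exact ⟨(y, x), hx, by simp [hxw]⟩
          · rintro ⟨⟨y', x⟩, hx, hxw⟩
            simp only [Prod.map_apply, id_eq, Prod.mk.injEq] at hxw
            obtain ⟨rfl, rfl⟩ := hxw
            exact ⟨x, hx, rfl⟩
        rw [h1]
        exact (IsOpenMap.id.prodMap hfLo) _ (isOpen_graph D.dev_local)
      T_star := fun y => (starConvex_dom y).linear_image fL
      R_refl := fun y => ⟨mem_dom_self D.dev_local y, sec_self D.dev_local y⟩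
      R_symm := by
        rintro y y' ⟨h1, h2⟩
        obtain ⟨C, hCo, hCc, hyC, hy'C, s, hs, hsy⟩ := h1
        have hch := (chart D.dev_local hCo (hCc.starConvex hyC) hyC hs hsy).1
        have hreb := rebase D.dev_local hCo hCc hyC hch hy'C
        rw [h2] at hreb
        refine ⟨hreb.1 hyC, ?_⟩
        rw [hreb.2 hyC]
        exact sec_self D.dev_local y
      R_mem := fun y y' h1 => ⟨D.dev y', h1.1, rfl⟩
      lift := by
        rintro y w ⟨x, hx, rfl⟩
        have h1 := (isSec_sec D.dev_local y).2 x hx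
        refine ⟨sec D.dev y x, ⟨?_, ?_⟩, ?_⟩
        · rw [h1]; exact hx
        · rw [h1]
        · show fL (D.dev (sec D.dev y x)) = fL x
          rw [h1]
      chart := by
        rintro y y' y'' U hU hUc hyU hUT ⟨h1, h2⟩ ⟨h3, h4⟩ hy' hy''
        have hsub : fL ⁻¹' U ⊆ dom D.dev y := fun x hx => hsat y x (hUT hx)
        have hreb := rebase D.dev_local (hCo hU) (hCc hUc) hyU hsub (x := D.dev y') hy'
        rw [h2] at hreb
        refine ⟨?_, hreb.1 hy'', ?_⟩
        · intro w hw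
          refine ⟨-w • D.e, hreb.1 ?_, hsurj w⟩
          show fL (-w • D.e) ∈ U
          rw [hsurj]; exact hw
        · rw [hreb.2 hy'', h4]
      near := by
        intro y
        filter_upwards [near D.dev_local y] with y' hy'
        exact ⟨hy'.1, hy'.2.1⟩
      glue := by
        rintro y y' y'' U U' w hU hUc hyU hUT hU' hUc' hyU' hUT' ⟨h1, h2⟩ ⟨h3, h4⟩ h5 h6 hseg
        have hsub : fL ⁻¹' U ⊆ dom D.dev y := fun x hx => hsat y x (hUT hx)
        have hsub' : fL ⁻¹' U' ⊆ dom D.dev y' := fun x hx => hsat y' x (hUT' hx)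
        have hb := (glue D.dev_local (hCo hU) (hCc hUc) hyU hsub (hCo hU') (hCc hUc') hyU' hsub'
          (x := D.dev y'') h5 h6 (by rw [h2, h4]) (b := -w • D.e) ?_).1
        · exact ⟨-w • D.e, hb, hsurj w⟩
        · intro x hx
          have h7 : fL x ∈ segment ℝ (fL (D.dev y)) w := by
            have h8 : fL x ∈ fL '' segment ℝ (D.dev y) (-w • D.e) := ⟨x, hx, rfl⟩
            rw [← LinearMap.coe_toAffineMap, image_segment, LinearMap.coe_toAffineMap, hsurj] at h8
            exact h8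
          exact hseg h7
      F_smul := by
        intro g y
        show herm D.e n (D.dev (g • y)) = _
        rw [dev_smul', hhol]
        rfl
      T_smul := by
        rintro g y w ⟨x, hx, rfl⟩
        refine ⟨D.hol g x, (dom_smul D g y x).2 hx, ?_⟩
        show herm D.e n (D.hol g x) = _
        rw [hhol]
        rfl
      R_smul := by
        rintro g y y' ⟨h1, h2⟩
        refine ⟨?_, ?_⟩
        · rw [dev_smul', dom_smul]; exact h1
        · rw [dev_smul', sec_smul D g y h1, h2]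
      K_compact := Fr.hK
      K_cover := Fr.cover }
  exact ⟨E, hhol, fun y x hx => hsat y x hx⟩

/-- CASE F: an invariant proper convex set. -/
theorem caseF [ConnectedSpace Y] (hinc : ∀ y, dom D.dev y ≠ univ)
    (h : ∀ y, ∀ ε > 0, ∃ P, 0 < q D.e P ∧ (rad D y P)⁻¹ < ε) :
    ∃ C : Set V, Convex ℝ C ∧ C.Nonempty ∧ C ≠ univ ∧ ∀ g, ∀ x ∈ C, D.hol g x ∈ C := by
  obtain ⟨n, hn, hslab⟩ := exists_global hinc h
  obtain ⟨E, hE1, hE2⟩ := exists_planeData hinc hn hslab
  have hT : ∀ y, E.T y ≠ univ := by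
    intro y hy
    refine hinc y (eq_univ_of_forall fun x => hE2 y x ?_)
    rw [hy]; exact mem_univ _
  have hconv : ∀ {H : Set ℂ}, Convex ℝ H → Convex ℝ {x : V | herm D.e n x ∈ H} := by
    intro H hH x hx x' hx' a b ha hb hab
    show herm D.e n (a • x + b • x') ∈ H
    rw [herm_add_right, herm_real_smul_right, herm_real_smul_right]
    have := hH hx hx' ha hb hab
    simpa using this
  rcases planar (D := E) hT with ⟨w, hw⟩ | ⟨H, hH, hne, huniv, hinv⟩
  · refine ⟨{x : V | herm D.e n x ∈ ({w} : Set ℂ)}, hconv (convex_singleton w),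
      ⟨-w • D.e, cf_surj hn w⟩, ?_, ?_⟩
    · intro h1
      have h2 : (-(w + 1) • D.e) ∈ {x : V | herm D.e n x ∈ ({w} : Set ℂ)} := by
        rw [h1]; exact mem_univ _
      have h3 : herm D.e n (-(w + 1) • D.e) = w := h2
      rw [cf_surj hn] at h3
      simp at h3
    · intro g x hx
      have hx : herm D.e n x = w := hx
      show herm D.e n (D.hol g x) = w
      rw [hE1, hx, hw]
  · refine ⟨{x : V | herm D.e n x ∈ H}, hconv hH, ?_, ?_, ?_⟩
    · obtain ⟨w, hw⟩ := hne
      refine ⟨-w • D.e, ?_⟩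
      show herm D.e n (-w • D.e) ∈ H
      rw [cf_surj hn]; exact hw
    · intro h1
      refine huniv (eq_univ_of_forall fun w => ?_)
      have h2 : (-w • D.e) ∈ {x : V | herm D.e n x ∈ H} := by rw [h1]; exact mem_univ _
      have h3 : herm D.e n (-w • D.e) ∈ H := h2
      rwa [cf_surj hn] at h3
    · intro g x hx
      show herm D.e n (D.hol g x) ∈ H
      rw [hE1]
      exact hinv g _ hx

end Pool.Agent.Helper50.HL
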