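import Mathlib
import Pool.Agent.Helper2.MK.Data

/-!
# Flat Hermite-Lorentz manifolds: definitions

`V` is a complex inner product space, `e` a unit vector, `herm e` the Hermitian form
`⟪x, y⟫ - 2 ⟪x, e⟫ ⟪e, y⟫` of signature `(k, 1)`.
-/

set_option autoImplicit false

open Set Filter Topology

namespace Pool.Agent.Helper50.HL

open Pool.Agent.Helper2.MK

section Forms

variable {V : Type*} [NormedAddCommGroup V] [InnerProductSpace ℂ V]

/-- The Hermitian form of signature `(k, 1)` with timelike unit vector `e`
(conjugate-linear in the first variable). -/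
noncomputable def herm (e x y : V) : ℂ :=
  inner ℂ x y - 2 * (inner ℂ x e * inner ℂ e y)

/-- `q e P = - herm e P P`; `P` is timelike when this is positive. -/
noncomputable def q (e P : V) : ℝ := 2 * ‖inner ℂ e P‖ ^ 2 - ‖P‖ ^ 2

/-- The `P`-norm: `|x|_P ^ 2 = h(x, x) + 2 |h(P, x)| ^ 2 / q(P)`. -/
noncomputable def pn (e P x : V) : ℝ :=
  √(‖x‖ ^ 2 - 2 * ‖inner ℂ e x‖ ^ 2 + 2 * ‖herm e P x‖ ^ 2 / q e P)

/-- The involution `J_P x = x + (2 h(P, x) / q(P)) P`. -/
noncomputable def jp (e P x : V) : V := x + (2 * herm e P x / (q e P : ℂ)) • P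

end Forms

section Charts

variable {V Y : Type*} [NormedAddCommGroup V] [NormedSpace ℝ V] [TopologicalSpace Y]

/-- `s` is a continuous section of `dev` over `C`. -/
def IsSec (dev : Y → V) (C : Set V) (s : V → Y) : Prop :=
  ContinuousOn s C ∧ ∀ x ∈ C, dev (s x) = x

/-- The star domain of `y`: the union of all open convex sets containing `dev y` over which there
is a continuous section of `dev` through `y`. -/
def dom (dev : Y → V) (y : Y) : Set V :=
  {x | ∃ C : Set V, IsOpen C ∧ Convex ℝ C ∧ dev y ∈ C ∧ x ∈ C ∧
    ∃ s : V → Y, IsSec dev C s ∧ s (dev y) = y}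

open Classical in
/-- The section of `dev` over the star domain of `y`. -/
noncomputable def sec (dev : Y → V) (y : Y) (x : V) : Y :=
  if h : x ∈ dom dev y then h.choose_spec.2.2.2.2.choose x else y

end Charts

/-- The data of a compact affine manifold with linear holonomy preserving `herm e`. -/
structure HLData (V G Y : Type*) [NormedAddCommGroup V] [InnerProductSpace ℂ V] [Group G]
    [TopologicalSpace Y] [MulAction G Y] where
  /-- the unit timelike vector -/
  e : V
  he : ‖e‖ = 1
  /-- the developing map -/
  dev : Y → V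
  dev_local : IsLocalHomeomorph dev
  /-- the linear holonomy -/
  lin : G →* (V ≃ₗ[ℂ] V)
  /-- the translational part of the holonomy -/
  tr : G → V
  tr_mul : ∀ g g', tr (g * g') = lin g (tr g') + tr g
  dev_smul : ∀ (g : G) (y : Y), dev (g • y) = lin g (dev y) + tr g
  herm_lin : ∀ (g : G) (x y : V), herm e (lin g x) (lin g y) = herm e x y
  covering : IsCocompactCovering G Y

/-- The affine holonomy. -/
def HLData.hol {V G Y : Type*} [NormedAddCommGroup V] [InnerProductSpace ℂ V] [Group G]
    [TopologicalSpace Y] [MulAction G Y] (D : HLData V G Y) (g : G) (x : V) : V :=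
  D.lin g x + D.tr g

end Pool.Agent.Helper50.HL
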