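import Pool.Agent.Helper50.HL.Charts
import Pool.Agent.Helper50.HL.Alg

/-! Module Frame: equivariance and compactness constants (A7, A8). -/

set_option autoImplicit false
set_option linter.unusedSectionVars false

open Set Filter Topology

namespace Pool.Agent.Helper50.HL

variable {V G Y : Type*} [NormedAddCommGroup V] [InnerProductSpace ℂ V] [Group G]
    [TopologicalSpace Y] [MulAction G Y] (D : HLData V G Y)

theorem hol_mul (g g' : G) (x : V) : D.hol (g * g') x = D.hol g (D.hol g' x) := by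
  simp only [HLData.hol, D.tr_mul, map_mul, LinearEquiv.mul_apply, map_add]
  abel

theorem hol_one (x : V) : D.hol 1 x = x := by
  have h : D.tr 1 = 0 := by
    have := D.tr_mul 1 1
    rw [mul_one, map_one, LinearEquiv.coe_one, id] at this
    simpa using this
  simp only [HLData.hol, map_one, LinearEquiv.coe_one, id, h, add_zero]

theorem hol_inv_hol (g : G) (x : V) : D.hol g⁻¹ (D.hol g x) = x := by
  rw [← hol_mul, inv_mul_cancel, hol_one]

theorem hol_hol_inv (g : G) (x : V) : D.hol g (D.hol g⁻¹ x) = x := by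
  rw [← hol_mul, mul_inv_cancel, hol_one]

theorem hol_sub (g : G) (x x' : V) : D.hol g x - D.hol g x' = D.lin g (x - x') := by
  simp only [HLData.hol, map_sub]
  abel

theorem dev_smul' (g : G) (y : Y) : D.dev (g • y) = D.hol g (D.dev y) := D.dev_smul g y

theorem lin_inv_lin (g : G) (x : V) : D.lin g⁻¹ (D.lin g x) = x := by
  rw [← LinearEquiv.mul_apply, ← map_mul, inv_mul_cancel, map_one]; rfl

theorem lin_lin_inv (g : G) (x : V) : D.lin g (D.lin g⁻¹ x) = x := by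
  rw [← LinearEquiv.mul_apply, ← map_mul, mul_inv_cancel, map_one]; rfl

theorem hol_continuous [FiniteDimensional ℂ V] (g : G) : Continuous (D.hol g) := by
  unfold HLData.hol
  exact (LinearMap.continuous_of_finiteDimensional
    ((D.lin g : V ≃ₗ[ℂ] V) : V →ₗ[ℂ] V)).add continuous_const

theorem hol_convex_preimage (g : G) {C : Set V} (hC : Convex ℝ C) : Convex ℝ (D.hol g ⁻¹' C) := by
  intro p hp p' hp' a c ha hc hac
  have h1 : D.hol g (a • p + c • p') = a • D.hol g p + c • D.hol g p' := by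
    simp only [HLData.hol, map_add, smul_add]
    rw [← Complex.coe_smul, ← Complex.coe_smul, map_smul, map_smul, Complex.coe_smul,
      Complex.coe_smul]
    have : D.tr g = a • D.tr g + c • D.tr g := by rw [← add_smul, hac, one_smul]
    nth_rewrite 1 [this]
    abel
  show D.hol g _ ∈ C
  rw [h1]
  exact hC hp hp' ha hc hac

/-- transport of a chart -/
theorem transport [FiniteDimensional ℂ V] (g : G) (y : Y) {C : Set V} (hC : IsOpen C)
    (hconv : Convex ℝ C) (hy : D.dev y ∈ C) {s : V → Y} (hs : IsSec D.dev C s)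
    (h : s (D.dev y) = y) :
    IsOpen (D.hol g⁻¹ ⁻¹' C) ∧ Convex ℝ (D.hol g⁻¹ ⁻¹' C) ∧ D.dev (g • y) ∈ D.hol g⁻¹ ⁻¹' C ∧
      IsSec D.dev (D.hol g⁻¹ ⁻¹' C) (fun v => g • s (D.hol g⁻¹ v)) ∧
      g • s (D.hol g⁻¹ (D.dev (g • y))) = g • y := by
  have h1 : D.hol g⁻¹ (D.dev (g • y)) = D.dev y := by rw [dev_smul', hol_inv_hol]
  refine ⟨hC.preimage (hol_continuous D _), hol_convex_preimage D _ hconv, ?_, ⟨?_, ?_⟩, ?_⟩
  · show D.hol g⁻¹ _ ∈ C
    rw [h1]; exact hy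
  · exact (D.covering.continuous_smul g).comp_continuousOn
      (hs.1.comp (hol_continuous D _).continuousOn fun v hv => hv)
  · intro v hv
    rw [dev_smul', hs.2 _ hv, hol_hol_inv]
  · rw [h1, h]

/-- A7 -/
theorem dom_smul [FiniteDimensional ℂ V] (g : G) (y : Y) (x : V) :
    D.hol g x ∈ dom D.dev (g • y) ↔ x ∈ dom D.dev y := by
  have key : ∀ (g : G) (y : Y) (x : V), x ∈ dom D.dev y → D.hol g x ∈ dom D.dev (g • y) := by
    rintro g y x ⟨C, hC, hconv, hy, hx, s, hs, h⟩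
    obtain ⟨h1, h2, h3, h4, h5⟩ := transport D g y hC hconv hy hs h
    refine ⟨_, h1, h2, h3, ?_, _, h4, h5⟩
    show D.hol g⁻¹ _ ∈ C
    rw [hol_inv_hol]; exact hx
  refine ⟨fun h => ?_, key g y x⟩
  have := key g⁻¹ (g • y) _ h
  rwa [hol_inv_hol, inv_smul_smul] at this

/-- A7 -/
theorem sec_smul [FiniteDimensional ℂ V] [T2Space Y] (g : G) (y : Y) {x : V}
    (hx : x ∈ dom D.dev y) : sec D.dev (g • y) (D.hol g x) = g • sec D.dev y x := by
  obtain ⟨C, hC, hconv, hy, hxC, s, hs, h⟩ := hx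
  obtain ⟨h1, h2, h3, h4, h5⟩ := transport D g y hC hconv hy hs h
  have e1 := (chart D.dev_local hC (hconv.starConvex hy) hy hs h).2
  have e2 := (chart D.dev_local h1 (h2.starConvex h3) h3 h4 h5).2
  rw [← e1 hxC]
  have h6 : D.hol g x ∈ D.hol g⁻¹ ⁻¹' C := by
    show D.hol g⁻¹ _ ∈ C
    rw [hol_inv_hol]; exact hxC
  rw [← e2 h6]
  simp only [hol_inv_hol]

include D in
/-- proper discontinuity for two compact sets -/
theorem finite_of_compact {K K' : Set Y} (hK : IsCompact K) (hK' : IsCompact K') :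
    {g : G | ∃ z ∈ K, g • z ∈ K'}.Finite := by
  refine (D.covering.proper (K ∪ K') (hK.union hK')).subset ?_
  rintro g ⟨z, hz, hgz⟩
  exact ⟨g • z, ⟨z, Or.inl hz, rfl⟩, Or.inr hgz⟩

/-- A8: compactness constants. -/
structure Frame where
  /-- compact set meeting all orbits -/
  K : Set Y
  /-- compact set containing all half-balls over `K` -/
  K1 : Set Y
  /-- radius of charts over `K` -/
  r0 : ℝ
  /-- bound for the linear parts of the elements moving `K` into `K1` -/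
  A : ℝ
  hK : IsCompact K
  hK1 : IsCompact K1
  cover : ∀ y : Y, ∃ g : G, ∃ z ∈ K, y = g • z
  hr0 : 0 < r0
  hA : 1 ≤ A
  ball : ∀ z ∈ K, Metric.ball (D.dev z) r0 ⊆ dom D.dev z
  half : ∀ z ∈ K, ∀ x, ‖x - D.dev z‖ ≤ r0 / 2 → sec D.dev z x ∈ K1
  bound : ∀ g : G, (∃ z ∈ K, g • z ∈ K1) → ∀ x, ‖D.lin g x‖ ≤ A * ‖x‖ ∧ ‖x‖ ≤ A * ‖D.lin g x‖

theorem exists_frame [FiniteDimensional ℂ V] [T2Space Y] : Nonempty (Frame D) := by
  obtain ⟨K, hK, hcov⟩ := D.covering.cocompact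
  have hprop := FiniteDimensional.proper ℂ V
  obtain ⟨r, hr, hball⟩ := exists_radius D.dev_local hK
  obtain ⟨K1, hK1, hhalf⟩ := exists_compact_sec D.dev_local hK (by linarith : r / 2 < r) hball
  have hfin := finite_of_compact D hK hK1
  have hb : ∀ g : G, ∃ B : ℝ, 0 ≤ B ∧ ∀ x, ‖D.lin g x‖ ≤ B * ‖x‖ := by
    intro g
    let L : V →L[ℂ] V := LinearMap.toContinuousLinearMap ((D.lin g : V ≃ₗ[ℂ] V) : V →ₗ[ℂ] V)
    exact ⟨‖L‖, norm_nonneg _, fun x => L.le_opNorm x⟩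
  choose B hB0 hB using hb
  obtain ⟨A1, hA1⟩ := (hfin.image B).bddAbove
  obtain ⟨A2, hA2⟩ := (hfin.image fun g => B g⁻¹).bddAbove
  refine ⟨⟨K, K1, r, max 1 (max A1 A2), hK, hK1, ?_, hr, le_max_left _ _, hball, hhalf, ?_⟩⟩
  · intro y
    obtain ⟨g, hg⟩ := hcov y
    exact ⟨g⁻¹, g • y, hg, by rw [inv_smul_smul]⟩
  · intro g hg x
    constructor
    · refine (hB g x).trans (mul_le_mul_of_nonneg_right ?_ (norm_nonneg _))
      exact (hA1 ⟨g, hg, rfl⟩).trans ((le_max_left _ _).trans (le_max_right _ _))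
    · have h1 := hB g⁻¹ (D.lin g x)
      rw [lin_inv_lin] at h1
      refine h1.trans (mul_le_mul_of_nonneg_right ?_ (norm_nonneg _))
      exact (hA2 ⟨g, hg, rfl⟩).trans ((le_max_right _ _).trans (le_max_right _ _))

/-- the `P`-norm for `P = lin g e` -/
theorem pn_lin_e (g : G) (x : V) : pn D.e (D.lin g D.e) x = ‖D.lin g⁻¹ x‖ := by
  have h := pn_map (D.lin g) (D.herm_lin g) D.e (D.lin g⁻¹ x)
  rw [lin_lin_inv, pn_e D.he] at h
  exact h

theorem norm_hol_inv_sub (g : G) (z : Y) (x : V) :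
    ‖D.hol g⁻¹ x - D.dev z‖ = ‖D.lin g⁻¹ (x - D.dev (g • z))‖ := by
  rw [← hol_sub, dev_smul', hol_inv_hol]

/-- the ellipsoid chart at `g • z` -/
theorem ellipsoid [FiniteDimensional ℂ V] [T2Space Y] (Fr : Frame D) (g : G) {z : Y}
    (hz : z ∈ Fr.K) {x : V} (hx : ‖D.lin g⁻¹ (x - D.dev (g • z))‖ < Fr.r0) :
    x ∈ dom D.dev (g • z) := by
  rw [← hol_hol_inv D g x, dom_smul]
  apply Fr.ball z hz
  rw [mem_ball_iff_norm, norm_hol_inv_sub]
  exact hx

/-- points of the half ellipsoid lift into `g • K1` -/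
theorem half_sec [FiniteDimensional ℂ V] [T2Space Y] (Fr : Frame D) (g : G) {z : Y}
    (hz : z ∈ Fr.K) {x : V} (hx : ‖D.lin g⁻¹ (x - D.dev (g • z))‖ ≤ Fr.r0 / 2) :
    ∃ k ∈ Fr.K1, sec D.dev (g • z) x = g • k := by
  have hr := Fr.hr0
  rw [← norm_hol_inv_sub] at hx
  refine ⟨sec D.dev z (D.hol g⁻¹ x), Fr.half z hz _ hx, ?_⟩
  rw [← sec_smul D g z, hol_hol_inv]
  apply Fr.ball z hz
  rw [mem_ball_iff_norm]
  linarith

/-- the hop lemma -/
theorem hop [FiniteDimensional ℂ V] [T2Space Y] (Fr : Frame D) (g g' : G) {z z' : Y}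
    (hz : z ∈ Fr.K) (hz' : z' ∈ Fr.K) {x : V}
    (hx : ‖D.lin g⁻¹ (x - D.dev (g • z))‖ ≤ Fr.r0 / 2) (h : sec D.dev (g • z) x = g' • z') :
    (∀ v, ‖D.lin g'⁻¹ v‖ ≤ Fr.A * ‖D.lin g⁻¹ v‖) ∧
      ‖herm D.e (D.lin g D.e) (D.lin g' D.e)‖ ≤ Fr.A := by
  obtain ⟨k, hk, hk'⟩ := half_sec D Fr g hz hx
  have h1 : (g⁻¹ * g') • z' = k := by
    rw [mul_smul, ← h, hk', inv_smul_smul]
  have hb := Fr.bound (g⁻¹ * g') ⟨z', hz', by rw [h1]; exact hk⟩
  constructor
  · intro v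
    have h2 := (hb (D.lin g'⁻¹ v)).2
    rwa [map_mul, LinearEquiv.mul_apply, lin_lin_inv] at h2
  · have h3 : herm D.e (D.lin g D.e) (D.lin g' D.e) =
        herm D.e D.e (D.lin (g⁻¹ * g') D.e) := by
      rw [← D.herm_lin g D.e (D.lin (g⁻¹ * g') D.e), map_mul, LinearEquiv.mul_apply, lin_lin_inv]
    rw [h3, herm_e D.he, norm_neg]
    refine (norm_inner_le_norm _ _).trans ?_
    have h4 := (hb D.e).1
    rw [D.he, mul_one] at h4
    rw [D.he, one_mul]
    exact h4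

end Pool.Agent.Helper50.HL
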