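import Pool.Agent.Helper50.HL.Main

/-!
# Compact flat Hermite-Lorentz manifolds are complete

Let `V` be a finite-dimensional complex vector space with a Hermitian form `h` of signature
`(k, 1)`.  We write `h(x, y) = ⟪x, y⟫ - 2 ⟪x, e⟫ ⟪e, y⟫` for an inner product on `V` and a unit
vector `e`.  Let `M` be a compact affine manifold modelled on `V`, with an arbitrary developing map
`dev : Y → V`, whose linear holonomy is complex linear and preserves `h`, i.e. a compact
`(U(k,1) ⋉ V, V)`-manifold, or a compact flat Hermite-Lorentz manifold.  Then `dev` is a
homeomorphism of `Y` onto `V`: the affine manifold `M` is complete.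

This is the complex analogue of Carrière's theorem on compact flat Lorentz manifolds and a case of
the Markus conjecture.

Outline of the proof (files `Pool/Agent/Helper50/HL`).  For `y` in `Y` let `S_y` be the star
domain of `y` in `V` and, for a timelike vector `P`, let `r_y(P)` be the radius of the largest
`P`-ball around `dev y` in `S_y`.  Boundary points of `S_y` at contact carry null complex
hyperplanes (module LE), which makes `√q(P) / r_y(P)` a convex function of `P`.  The invariant
function `g(y) = inf_P 1 / r_y(P)` attains its maximum.  If the maximum is positive one gets at the
maximum point a weighted geometric mean of the moduli of finitely many nonconstant complex affine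
functions with a local minimum, which contradicts the maximum principle.  If `g` vanishes, then
there is an invariant null direction, the transverse structure is a similarity structure on the
plane and an argument in the style of Fried produces an invariant affine hyperplane or half-space,
which contradicts the theorem of `NoInvariantStarShaped`.
-/

set_option autoImplicit false

open Set

namespace Pool.Agent.Results.MP_df2bd8_gt.HermiteLorentz

open Pool.Agent.Helper2.MK

/-- Every compact `(U(k,1) ⋉ V, V)`-manifold is complete. -/
theorem result {V G Y : Type*} [NormedAddCommGroup V] [InnerProductSpace ℂ V]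
    [FiniteDimensional ℂ V] [Group G] [TopologicalSpace Y] [T2Space Y] [ConnectedSpace Y]
    [MulAction G Y] (M : AffineDeveloping V G Y) (e : V) (he : ‖e‖ = 1)
    (hlin : ∀ (g : G) (x : V), (M.hol g).linear (Complex.I • x) = Complex.I • (M.hol g).linear x)
    (hherm : ∀ (g : G) (x y : V),
      inner ℂ ((M.hol g).linear x) ((M.hol g).linear y) -
        2 * (inner ℂ ((M.hol g).linear x) e * inner ℂ e ((M.hol g).linear y)) =
      inner ℂ x y - 2 * (inner ℂ x e * inner ℂ e y)) :
    ∃ E : Y ≃ₜ V, ⇑E = M.dev :=
  Pool.Agent.Helper50.HL.main M e he hlin hherm

end Pool.Agent.Results.MP_df2bd8_gt.HermiteLorentz
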