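import Pool.Agent.Helper50.HL.Frame

/-! Module LE: null complex hyperplanes at visible boundary points (part C of the proof). -/

set_option autoImplicit false
set_option linter.unusedSectionVars false

open Set Filter Topology

namespace Pool.Agent.Helper50.HL

/-- The hop principle (C3): `δ` is the hop size, bounded below on `[s', s]`. -/
theorem hop_principle {s' s d : ℝ} (δ : ℝ → ℝ) (hd : 0 < d)
    (hδ : ∀ t, s' ≤ t → t ≤ s → d ≤ δ t) (Q : ℝ → Prop)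
    (hlast : ∀ t, s' ≤ t → t ≤ s → t - s' ≤ δ t → Q t)
    (hstep : ∀ t, s' ≤ t → t ≤ s → s' ≤ t - δ t → Q (t - δ t) → Q t) (hs : s' ≤ s) : Q s := by
  have key : ∀ N : ℕ, ∀ t, s' ≤ t → t ≤ s → t - s' ≤ N * d → Q t := by
    intro N
    induction N with
    | zero =>
      intro t h1 h2 h3
      have := hδ t h1 h2
      refine hlast t h1 h2 ?_
      simp only [Nat.cast_zero, zero_mul] at h3
      linarith
    | succ N ih =>
      intro t h1 h2 h3
      by_cases h : t - s' ≤ δ t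
      · exact hlast t h1 h2 h
      · push Not at h
        have h4 := hδ t h1 h2
        refine hstep t h1 h2 (by linarith) (ih _ (by linarith) (by linarith) ?_)
        push_cast at h3
        nlinarith
  obtain ⟨N, hN⟩ := exists_nat_ge ((s - s') / d)
  exact key N s hs le_rfl (by rwa [div_le_iff₀ hd] at hN)

section JJ

variable {V : Type*} [NormedAddCommGroup V] [InnerProductSpace ℂ V]

/-- The unitary involution `J`. -/
noncomputable def jw (e w : V) : V := w - (2 * inner ℂ e w) • e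

theorem herm_eq_inner_jw (e x w : V) : herm e x w = inner ℂ x (jw e w) := by
  simp only [herm, jw, inner_sub_right, inner_smul_right]
  ring

theorem jw_jw {e : V} (he : ‖e‖ = 1) (w : V) : jw e (jw e w) = w := by
  have h1 : inner ℂ e e = (1 : ℂ) := by
    rw [inner_self_eq_norm_sq_to_K, he]; norm_num
  have h2 : inner ℂ e (jw e w) = - inner ℂ e w := by
    simp only [jw, inner_sub_right, inner_smul_right, h1]
    ring
  unfold jw at h2 ⊢
  rw [h2, mul_neg, neg_smul]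
  abel

theorem herm_jw {e : V} (he : ‖e‖ = 1) (x w : V) : herm e x (jw e w) = inner ℂ x w := by
  rw [herm_eq_inner_jw, jw_jw he]

theorem norm_jw {e : V} (he : ‖e‖ = 1) (w : V) : ‖jw e w‖ = ‖w‖ := by
  have h : (inner ℂ (jw e w) (jw e w) : ℂ) = inner ℂ w w := by
    have h1 : inner ℂ e e = (1 : ℂ) := by
      rw [inner_self_eq_norm_sq_to_K, he]; norm_num
    simp only [jw, inner_sub_right, inner_smul_right, inner_sub_left, inner_smul_left, h1,
      map_mul, inner_conj_symm]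
    have : (starRingEnd ℂ) 2 = 2 := Complex.conj_ofNat 2
    rw [this]
    ring
  have h3 : ‖jw e w‖ ^ 2 = ‖w‖ ^ 2 := by
    have := congrArg Complex.re h
    rw [← inner_self_eq_norm_sq (𝕜 := ℂ), ← inner_self_eq_norm_sq (𝕜 := ℂ)]
    exact this
  nlinarith [norm_nonneg w, norm_nonneg (jw e w), sq_nonneg (‖jw e w‖ - ‖w‖)]

end JJ

variable {V G Y : Type*} [NormedAddCommGroup V] [InnerProductSpace ℂ V] [Group G]
    [TopologicalSpace Y] [MulAction G Y] {D : HLData V G Y}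

/-- A visible boundary point `b` of the star domain of `y`, with chosen translates over the
points of the ray. -/
structure Ray (D : HLData V G Y) (Φ : Frame D) (y : Y) (b : V) where
  hb : b ∉ dom D.dev y
  hvis : ∀ s : ℝ, 0 < s → s ≤ 1 → b + s • (D.dev y - b) ∈ dom D.dev y
  g : ℝ → G
  z : ℝ → Y
  hz : ∀ s, z s ∈ Φ.K
  hg : ∀ s, sec D.dev y (b + s • (D.dev y - b)) = g s • z s

namespace Ray

variable {Φ : Frame D} {y : Y} {b : V} (R : Ray D Φ y b)

/-- point of the ray -/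
noncomputable def x (_ : Ray D Φ y b) (s : ℝ) : V := b + s • (D.dev y - b)

/-- the timelike vector -/
def P (s : ℝ) : V := D.lin (R.g s) D.e

/-- the local norm -/
def nm (s : ℝ) (v : V) : ℝ := ‖D.lin (R.g s)⁻¹ v‖

theorem x_def (s : ℝ) : R.x s = b + s • (D.dev y - b) := rfl

theorem x_sub (s t : ℝ) : R.x s - R.x t = (s - t) • (D.dev y - b) := by
  simp only [x_def, sub_smul]; abel

theorem q_P (s : ℝ) : q D.e (R.P s) = 1 := by
  rw [P, q_map _ (D.herm_lin _), q_e D.he]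

theorem nm_eq (s : ℝ) (v : V) : R.nm s v = pn D.e (R.P s) v := by
  rw [P, pn_lin_e]; rfl

theorem nm_add_le (s : ℝ) (v w : V) : R.nm s (v + w) ≤ R.nm s v + R.nm s w := by
  unfold nm; rw [map_add]; exact norm_add_le _ _

theorem nm_smul (s a : ℝ) (v : V) : R.nm s (a • v) = |a| * R.nm s v := by
  unfold nm
  rw [← Complex.coe_smul, map_smul, norm_smul, Complex.norm_real, Real.norm_eq_abs]

theorem nm_neg (s : ℝ) (v : V) : R.nm s (-v) = R.nm s v := by
  unfold nm; rw [map_neg, norm_neg]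

theorem nm_nonneg (s : ℝ) (v : V) : 0 ≤ R.nm s v := norm_nonneg _

theorem nm_zero (s : ℝ) : R.nm s 0 = 0 := by simp [nm]

section
variable [FiniteDimensional ℂ V]

theorem nm_continuous (s : ℝ) : Continuous (R.nm s) := by
  unfold nm
  exact (LinearMap.continuous_of_finiteDimensional
    ((D.lin (R.g s)⁻¹ : V ≃ₗ[ℂ] V) : V →ₗ[ℂ] V)).norm

/-- the open ellipsoid -/
def E (s : ℝ) : Set V := {p | R.nm s (p - R.x s) < Φ.r0}

theorem E_open (s : ℝ) : IsOpen (R.E s) :=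
  isOpen_lt ((R.nm_continuous s).comp (continuous_id.sub continuous_const)) continuous_const

theorem E_convex (s : ℝ) : Convex ℝ (R.E s) := by
  intro p hp p' hp' a c ha hc hac
  have h1 : a • p + c • p' - R.x s = a • (p - R.x s) + c • (p' - R.x s) := by
    have : R.x s = (a + c) • R.x s := by rw [hac, one_smul]
    rw [smul_sub, smul_sub]
    nth_rewrite 1 [this]
    rw [add_smul]; abel
  show R.nm s _ < Φ.r0
  rw [h1]
  have h2 := R.nm_add_le s (a • (p - R.x s)) (c • (p' - R.x s))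
  rw [R.nm_smul, R.nm_smul, abs_of_nonneg ha, abs_of_nonneg hc] at h2
  have h3 : R.nm s (p - R.x s) < Φ.r0 := hp
  have h4 : R.nm s (p' - R.x s) < Φ.r0 := hp'
  rcases ha.eq_or_lt with rfl | ha'
  · have : c = 1 := by linarith
    subst this
    simp only [zero_mul, one_mul, zero_add] at h2
    exact h2.trans_lt h4
  · have h5 : a * R.nm s (p - R.x s) < a * Φ.r0 := (mul_lt_mul_iff_right₀ ha').mpr h3
    have h6 : c * R.nm s (p' - R.x s) ≤ c * Φ.r0 := mul_le_mul_of_nonneg_left h4.le hc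
    have h7 : a * Φ.r0 + c * Φ.r0 = Φ.r0 := by rw [← add_mul, hac, one_mul]
    linarith

theorem x_mem_E (s : ℝ) : R.x s ∈ R.E s := by
  show R.nm s _ < Φ.r0
  rw [sub_self, R.nm_zero]
  exact Φ.hr0

include R in
theorem v_ne : D.dev y - b ≠ 0 := by
  intro h
  rw [sub_eq_zero] at h
  exact R.hb (h ▸ mem_dom_self D.dev_local y)

theorem x_mem {s : ℝ} (h0 : 0 < s) (h1 : s ≤ 1) : R.x s ∈ dom D.dev y := R.hvis s h0 h1

variable [T2Space Y]

theorem dev_gz {s : ℝ} (h0 : 0 < s) (h1 : s ≤ 1) : D.dev (R.g s • R.z s) = R.x s := by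
  rw [← R.hg s]
  exact (isSec_sec D.dev_local y).2 _ (R.hvis s h0 h1)

theorem E_sub {s : ℝ} (h0 : 0 < s) (h1 : s ≤ 1) : R.E s ⊆ dom D.dev (R.g s • R.z s) := by
  intro p hp
  refine ellipsoid D Φ (R.g s) (R.hz s) ?_
  rw [R.dev_gz h0 h1]
  exact hp

theorem sec_x (s : ℝ) : sec D.dev y (R.x s) = R.g s • R.z s := R.hg s

/-- C1 -/
theorem r0_le {s : ℝ} (h0 : 0 < s) (h1 : s ≤ 1) : Φ.r0 ≤ s * R.nm s (D.dev y - b) := by
  by_contra h
  push Not at h
  refine R.hb (mem_dom_of_ray D.dev_local (R.x_mem h0 h1) ?_ (R.E_open s) (R.E_convex s)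
    (R.x_mem_E s) ?_ ?_)
  · rw [segment_symm, segment_eq_image']
    exact ⟨s, ⟨h0.le, h1⟩, rfl⟩
  · rw [R.sec_x]
    exact R.E_sub h0 h1
  · show R.nm s _ < Φ.r0
    have : b - R.x s = -(s • (D.dev y - b)) := by rw [x_def]; abel
    rw [this, R.nm_neg, R.nm_smul, abs_of_pos h0]
    exact h

theorem nm_le (s : ℝ) (v : V) : R.nm s v ≤ 2 * ‖R.P s‖ * ‖v‖ := by
  rw [R.nm_eq]
  exact pn_le D.he (R.q_P s) v

theorem one_le_P (s : ℝ) : 1 ≤ ‖R.P s‖ := one_le_norm D.he (R.q_P s)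

/-- C1: lower bound for `P` -/
theorem P_lower {s : ℝ} (h0 : 0 < s) (h1 : s ≤ 1) :
    Φ.r0 / (2 * ‖D.dev y - b‖) / ‖R.P s‖ ≤ s := by
  have hv : 0 < ‖D.dev y - b‖ := norm_pos_iff.mpr R.v_ne
  have hP : 0 < ‖R.P s‖ := lt_of_lt_of_le one_pos (R.one_le_P s)
  have h2 := R.r0_le h0 h1
  have h3 := mul_le_mul_of_nonneg_left (R.nm_le s (D.dev y - b)) h0.le
  rw [div_div, div_le_iff₀ (by positivity)]
  nlinarith

/-- C2 -/
theorem sec_near {t t' : ℝ} (h0 : 0 < t') (h1 : t' ≤ t) (h2 : t ≤ 1)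
    (h3 : (t - t') * R.nm t (D.dev y - b) < Φ.r0) :
    sec D.dev (R.g t • R.z t) (R.x t') = R.g t' • R.z t' := by
  have ht : 0 < t := h0.trans_le h1
  have hxt' : R.x t' ∈ R.E t := by
    show R.nm t _ < Φ.r0
    rw [R.x_sub, R.nm_smul, abs_sub_comm, abs_of_nonneg (by linarith)]
    exact h3
  rw [← R.sec_x t, ← R.sec_x t']
  apply sec_sec_of_segment D.dev_local (R.x_mem ht h2)
  · intro p hp
    rw [segment_symm, segment_eq_image'] at hp
    obtain ⟨a, ⟨ha, ha'⟩, rfl⟩ := hp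
    have : R.x t' + a • (R.x t - R.x t') = R.x (t' + a * (t - t')) := by
      rw [R.x_sub, x_def, x_def, add_smul, mul_smul]; abel
    show R.x t' + a • (R.x t - R.x t') ∈ _
    rw [this]
    exact R.x_mem (by nlinarith) (by nlinarith)
  · rw [R.sec_x]
    exact ((R.E_convex t).segment_subset (R.x_mem_E t) hxt').trans (R.E_sub ht h2)

theorem hop' {t t' : ℝ} (h0 : 0 < t') (h1 : t' ≤ t) (h2 : t ≤ 1)
    (h3 : (t - t') * R.nm t (D.dev y - b) ≤ Φ.r0 / 2) :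
    (∀ v, R.nm t' v ≤ Φ.A * R.nm t v) ∧ ‖herm D.e (R.P t) (R.P t')‖ ≤ Φ.A := by
  have hr := Φ.hr0
  refine hop D Φ (R.g t) (R.g t') (R.hz t) (R.hz t') (x := R.x t') ?_
    (R.sec_near h0 h1 h2 (by linarith))
  rw [R.dev_gz (h0.trans_le h1) h2]
  show R.nm t _ ≤ _
  rw [R.x_sub, R.nm_smul, abs_sub_comm, abs_of_nonneg (by linarith)]
  exact h3

/-- `P` is bounded on compact parameter intervals (properness) -/
theorem bounded {s' : ℝ} (h0 : 0 < s') : ∃ B : ℝ, ∀ t, s' ≤ t → t ≤ 1 → ‖R.P t‖ ≤ B := by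
  have hQ : IsCompact ((fun t => sec D.dev y (R.x t)) '' Icc s' 1) := by
    refine isCompact_Icc.image_of_continuousOn ?_
    have h1 : ContinuousOn R.x (Icc s' 1) := by
      have : Continuous R.x := by
        show Continuous fun s : ℝ => b + s • (D.dev y - b)
        fun_prop
      exact this.continuousOn
    exact (isSec_sec D.dev_local y).1.comp h1 fun t ht => R.x_mem (h0.trans_le ht.1) ht.2
  have hfin := finite_of_compact D Φ.hK hQ
  obtain ⟨B, hB⟩ := (hfin.image fun g => ‖D.lin g D.e‖).bddAbove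
  refine ⟨B, fun t h1 h2 => hB ⟨R.g t, ⟨R.z t, R.hz t, t, ⟨h1, h2⟩, R.sec_x t⟩, rfl⟩⟩

/-- direction estimate for one hop -/
theorem ap_hop {t t' : ℝ} (h0 : 0 < t') (h1 : t' ≤ t) (h2 : t ≤ 1)
    (h3 : (t - t') * R.nm t (D.dev y - b) ≤ Φ.r0 / 2) (x : V) :
    ‖ap (R.P t) x - ap (R.P t') x‖ ≤ 12 * Φ.A / ‖R.P t‖ * ‖x‖ := by
  have hA := Φ.hA
  obtain ⟨-, h4⟩ := R.hop' h0 h1 h2 h3
  have h5 := ap_sub_le D.he (R.q_P t) (R.q_P t') h4 x
  have h6 := norm_le_of_herm_le D.he (R.q_P t) (R.q_P t') hA h4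
  have hP := R.one_le_P t
  have hP' := R.one_le_P t'
  refine h5.trans (mul_le_mul_of_nonneg_right ?_ (norm_nonneg _))
  have h7 : Φ.A / (‖R.P t‖ * ‖R.P t'‖) ≤ 2 * (Φ.A / ‖R.P t‖) ^ 2 := by
    rw [div_pow, mul_div_assoc', div_le_div_iff₀ (by positivity) (by positivity)]
    have : ‖R.P t‖ * (Φ.A * ‖R.P t‖) ≤ ‖R.P t‖ * (Φ.A * (2 * Φ.A * ‖R.P t'‖)) := by gcongr
    nlinarith
  have h8 : √(Φ.A / (‖R.P t‖ * ‖R.P t'‖)) ≤ 3 / 2 * (Φ.A / ‖R.P t‖) := by
    apply Real.sqrt_le_iff.mpr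
    refine ⟨by positivity, h7.trans ?_⟩
    have := sq_nonneg (Φ.A / ‖R.P t‖)
    nlinarith
  calc 8 * √(Φ.A / (‖R.P t‖ * ‖R.P t'‖)) ≤ 8 * (3 / 2 * (Φ.A / ‖R.P t‖)) := by gcongr
    _ = _ := by ring

/-- hop size constant -/
noncomputable def c' (_ : Ray D Φ y b) : ℝ := Φ.r0 / (8 * Φ.A * ‖D.dev y - b‖)

theorem c'_pos : 0 < R.c' := by
  have hv : 0 < ‖D.dev y - b‖ := norm_pos_iff.mpr R.v_ne
  have hA := Φ.hA
  have hr := Φ.hr0
  unfold c'
  positivity

theorem hop_ok {t t' : ℝ} (h1 : t' ≤ t) (h : t - t' ≤ R.c' / ‖R.P t‖) :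
    (t - t') * R.nm t (D.dev y - b) ≤ Φ.r0 / (4 * Φ.A) := by
  have hv : 0 < ‖D.dev y - b‖ := norm_pos_iff.mpr R.v_ne
  have hA := Φ.hA
  have hr := Φ.hr0
  have hP : 0 < ‖R.P t‖ := lt_of_lt_of_le one_pos (R.one_le_P t)
  have h2 := R.nm_le t (D.dev y - b)
  calc (t - t') * R.nm t (D.dev y - b)
      ≤ (R.c' / ‖R.P t‖) * (2 * ‖R.P t‖ * ‖D.dev y - b‖) :=
        mul_le_mul h h2 (R.nm_nonneg _ _) (div_nonneg R.c'_pos.le hP.le)
    _ = Φ.r0 / (4 * Φ.A) := by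
        unfold c'; field_simp; norm_num

/-- C4: direction estimate -/
theorem dir : ∃ C : ℝ, 0 < C ∧ ∀ s' s : ℝ, 0 < s' → s' ≤ s → s ≤ 1 → ∀ x : V,
    ‖ap (R.P s) x - ap (R.P s') x‖ ≤ C * s * ‖x‖ := by
  have hv : 0 < ‖D.dev y - b‖ := norm_pos_iff.mpr R.v_ne
  have hA := Φ.hA
  have hr := Φ.hr0
  have hc' := R.c'_pos
  set c : ℝ := Φ.r0 / (2 * ‖D.dev y - b‖) with hc
  have hcpos : 0 < c := by positivity
  refine ⟨12 * Φ.A / R.c' + 12 * Φ.A / c, by positivity, ?_⟩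
  intro s' s h0 h1 h2 x
  obtain ⟨B, hB⟩ := R.bounded h0
  have hB1 : 1 ≤ B := (R.one_le_P s).trans (hB s h1 h2)
  have hr4 : Φ.r0 / (4 * Φ.A) ≤ Φ.r0 / 2 := by
    apply div_le_div_of_nonneg_left hr.le (by norm_num)
    linarith
  have key := hop_principle (s' := s') (s := s) (d := R.c' / B) (fun t => R.c' / ‖R.P t‖)
    (by positivity) (fun t ht ht' => by
      have := R.one_le_P t
      exact div_le_div_of_nonneg_left hc'.le (by linarith) (hB t ht (ht'.trans h2)))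
    (fun t => ‖ap (R.P t) x - ap (R.P s') x‖ ≤
      12 * Φ.A / R.c' * (t - s') * ‖x‖ + 12 * Φ.A / c * t * ‖x‖) ?_ ?_ h1
  · refine key.trans ?_
    have : 12 * Φ.A / R.c' * (s - s') * ‖x‖ ≤ 12 * Φ.A / R.c' * s * ‖x‖ := by
      gcongr; linarith
    linarith [this]
  · intro t ht ht' hδ
    have h3 := R.hop_ok ht hδ
    have h4 := R.ap_hop h0 ht (ht'.trans h2) (h3.trans hr4) x
    have hP : 0 < ‖R.P t‖ := lt_of_lt_of_le one_pos (R.one_le_P t)
    have h5 := R.P_lower (h0.trans_le ht) (ht'.trans h2)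
    have h6 : 12 * Φ.A / ‖R.P t‖ ≤ 12 * Φ.A / c * t := by
      have : 12 * Φ.A / ‖R.P t‖ = 12 * Φ.A / c * (c / ‖R.P t‖) := by field_simp
      rw [this]
      gcongr
    have h7 : 0 ≤ 12 * Φ.A / R.c' * (t - s') * ‖x‖ := by
      have : 0 ≤ t - s' := by linarith
      positivity
    have h8 := mul_le_mul_of_nonneg_right h6 (norm_nonneg x)
    linarith
  · intro t ht ht' hδ ih
    have hP : 0 < ‖R.P t‖ := lt_of_lt_of_le one_pos (R.one_le_P t)
    have hδpos : 0 < R.c' / ‖R.P t‖ := by positivity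
    have h3 := R.hop_ok (t := t) (t' := t - R.c' / ‖R.P t‖) (by linarith) (by linarith)
    have h4 := R.ap_hop (t := t) (t' := t - R.c' / ‖R.P t‖) (h0.trans_le hδ) (by linarith)
      (ht'.trans h2) (h3.trans hr4) x
    have h5 : 12 * Φ.A / ‖R.P t‖ = 12 * Φ.A / R.c' * (R.c' / ‖R.P t‖) := by field_simp
    have h6 : ‖ap (R.P t) x - ap (R.P s') x‖ ≤ ‖ap (R.P t) x - ap (R.P (t - R.c' / ‖R.P t‖)) x‖ +
        ‖ap (R.P (t - R.c' / ‖R.P t‖)) x - ap (R.P s') x‖ := norm_sub_le_norm_sub_add_norm_sub _ _ _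
    have h7 : 12 * Φ.A / c * (t - R.c' / ‖R.P t‖) * ‖x‖ ≤ 12 * Φ.A / c * t * ‖x‖ := by
      gcongr; linarith
    rw [h5] at h4
    have h8 : 12 * Φ.A / R.c' * (t - s') * ‖x‖ = 12 * Φ.A / R.c' * (R.c' / ‖R.P t‖) * ‖x‖ +
      12 * Φ.A / R.c' * (t - R.c' / ‖R.P t‖ - s') * ‖x‖ := by ring
    rw [h8]
    linarith

/-- C5: the limit direction `n` -/
theorem limit : ∃ n : V, ‖n‖ = 1 ∧ herm D.e n n = 0 ∧ ∃ C : ℝ, 0 < C ∧
    ∀ s, 0 < s → s ≤ 1 → (∀ w, herm D.e n w = 0 →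
      ‖herm D.e (R.P s) w‖ ≤ C * s * ‖R.P s‖ * ‖w‖) ∧
      (1 - C * s) * ‖R.P s‖ ≤ ‖(inner ℂ (R.P s) n : ℂ)‖ := by
  have hv : 0 < ‖D.dev y - b‖ := norm_pos_iff.mpr R.v_ne
  have hr := Φ.hr0
  obtain ⟨C, hC, hdir⟩ := R.dir
  -- an ultrafilter tending to 0 from the right
  obtain ⟨U, hU⟩ := Ultrafilter.exists_le (𝓝[>] (0 : ℝ))
  have hpos : ∀ᶠ s in (U : Filter ℝ), 0 < s := hU self_mem_nhdsWithin
  have h0 : Tendsto (fun s : ℝ => s) U (𝓝 0) :=
    (tendsto_id.mono_left hU).trans nhdsWithin_le_nhds |>.trans le_rfl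
  have hle : ∀ᶠ s in (U : Filter ℝ), s ≤ 1 := h0.eventually (ge_mem_nhds one_pos)
  have hsm : ∀ {s : ℝ}, 0 < s → ∀ᶠ s' in (U : Filter ℝ), s' ≤ s := fun hs =>
    h0.eventually (ge_mem_nhds hs)
  -- unit vectors
  have hP0 : ∀ s, 0 < ‖R.P s‖ := fun s => lt_of_lt_of_le one_pos (R.one_le_P s)
  have := FiniteDimensional.proper ℂ V
  obtain ⟨n, hn, hlim⟩ := (isCompact_sphere (0 : V) 1).ultrafilter_le_nhds
    (U.map fun s => (‖R.P s‖⁻¹ : ℂ) • R.P s) (by
      rw [le_principal_iff]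
      refine Ultrafilter.mem_map.mpr (Filter.Eventually.of_forall fun s => ?_)
      show (‖R.P s‖⁻¹ : ℂ) • R.P s ∈ Metric.sphere (0 : V) 1
      simp only [mem_sphere_iff_norm, sub_zero, norm_smul, norm_inv, Complex.norm_real, norm_norm]
      exact inv_mul_cancel₀ (hP0 s).ne')
  have hlim' : Tendsto (fun s => (‖R.P s‖⁻¹ : ℂ) • R.P s) U (𝓝 n) := hlim
  have hn1 : ‖n‖ = 1 := by simpa using hn
  -- n is null
  have hPinf : Tendsto (fun s => ‖R.P s‖⁻¹) U (𝓝 0) := by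
    set c : ℝ := Φ.r0 / (2 * ‖D.dev y - b‖) with hc
    have hcpos : 0 < c := by positivity
    have h1 : Tendsto (fun s : ℝ => s / c) U (𝓝 0) := by
      have := h0.div_const c
      simpa using this
    refine squeeze_zero' (Eventually.of_forall fun s => by positivity) ?_ h1
    filter_upwards [hpos, hle] with s hs hs1
    have := R.P_lower hs hs1
    rw [le_div_iff₀ hcpos]
    rw [div_eq_mul_inv, mul_comm] at this
    exact this
  have hnull : herm D.e n n = 0 := by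
    have h1 : Tendsto (fun s => herm D.e ((‖R.P s‖⁻¹ : ℂ) • R.P s) ((‖R.P s‖⁻¹ : ℂ) • R.P s)) U
        (𝓝 (herm D.e n n)) := by
      have hc : Continuous fun p : V => herm D.e p p :=
        herm_continuous.comp (by fun_prop : Continuous fun p : V => (D.e, p, p))
      exact (hc.tendsto n).comp hlim'
    have h2 : Tendsto (fun s => herm D.e ((‖R.P s‖⁻¹ : ℂ) • R.P s) ((‖R.P s‖⁻¹ : ℂ) • R.P s)) U
        (𝓝 0) := by
      have h3 : ∀ s, herm D.e ((‖R.P s‖⁻¹ : ℂ) • R.P s) ((‖R.P s‖⁻¹ : ℂ) • R.P s) =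
          -((‖R.P s‖⁻¹ : ℝ) : ℂ) ^ 2 := by
        intro s
        rw [herm_smul_left, herm_smul_right, herm_self, R.q_P]
        simp only [map_inv₀, Complex.conj_ofReal, Complex.ofReal_neg, Complex.ofReal_one,
          Complex.ofReal_inv]
        ring
      simp_rw [h3]
      have h4 : Tendsto (fun s => ((‖R.P s‖⁻¹ : ℝ) : ℂ)) U (𝓝 ((0 : ℝ) : ℂ)) :=
        (Complex.continuous_ofReal.tendsto _).comp hPinf
      have h5 := (h4.pow 2).neg
      simpa using h5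
    exact tendsto_nhds_unique h1 h2
  -- the projections converge
  have hap : ∀ x : V, Tendsto (fun s => ap (R.P s) x) U (𝓝 ((inner ℂ n x : ℂ) • n)) := by
    intro x
    have h1 : ∀ s, ap (R.P s) x = (inner ℂ ((‖R.P s‖⁻¹ : ℂ) • R.P s) x : ℂ) •
        ((‖R.P s‖⁻¹ : ℂ) • R.P s) := by
      intro s
      unfold ap
      rw [inner_smul_left, smul_smul]
      congr 1
      simp only [map_inv₀, Complex.conj_ofReal, Complex.ofReal_pow]
      have := (hP0 s).ne'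
      have h2 : (‖R.P s‖ : ℂ) ≠ 0 := by exact_mod_cast this
      field_simp
    simp_rw [h1]
    exact (hlim'.inner tendsto_const_nhds).smul hlim'
  have hdir' : ∀ s, 0 < s → s ≤ 1 → ∀ x : V, ‖ap (R.P s) x - (inner ℂ n x : ℂ) • n‖ ≤
      C * s * ‖x‖ := by
    intro s hs hs1 x
    have h1 : Tendsto (fun s' => ‖ap (R.P s) x - ap (R.P s') x‖) U
        (𝓝 ‖ap (R.P s) x - (inner ℂ n x : ℂ) • n‖) := (tendsto_const_nhds.sub (hap x)).norm
    refine le_of_tendsto h1 ?_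
    filter_upwards [hpos, hsm hs] with s' hs' hs'1
    exact hdir s' s hs' hs'1 hs1 x
  have hnap : ∀ s x, ‖ap (R.P s) x‖ = ‖(inner ℂ (R.P s) x : ℂ)‖ / ‖R.P s‖ := by
    intro s x
    unfold ap
    rw [norm_smul, norm_div, Complex.norm_real, Real.norm_eq_abs, abs_of_nonneg (by positivity)]
    have := (hP0 s).ne'
    field_simp
  refine ⟨n, hn1, hnull, C, hC, fun s hs hs1 => ⟨fun w hw => ?_, ?_⟩⟩
  · have h1 := hdir' s hs hs1 (jw D.e w)
    rw [← herm_eq_inner_jw, hw, zero_smul, sub_zero, hnap, ← herm_eq_inner_jw, norm_jw D.he,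
      div_le_iff₀ (hP0 s)] at h1
    calc _ ≤ C * s * ‖w‖ * ‖R.P s‖ := h1
      _ = _ := by ring
  · have h1 := hdir' s hs hs1 n
    have h2 : (inner ℂ n n : ℂ) = 1 := by
      rw [inner_self_eq_norm_sq_to_K, hn1]; norm_num
    rw [h2, one_smul, hn1, mul_one] at h1
    have h3 : ‖n‖ - ‖ap (R.P s) n‖ ≤ ‖ap (R.P s) n - n‖ := by
      rw [norm_sub_rev]; exact norm_sub_norm_le _ _
    rw [hn1, hnap] at h3
    have h4 : 1 - C * s ≤ ‖(inner ℂ (R.P s) n : ℂ)‖ / ‖R.P s‖ := by linarith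
    rwa [le_div_iff₀ (hP0 s)] at h4

theorem sec_gz {s : ℝ} (h0 : 0 < s) (h1 : s ≤ 1) :
    sec D.dev (R.g s • R.z s) (R.x s) = R.g s • R.z s := by
  rw [← R.dev_gz h0 h1]
  exact sec_self D.dev_local _

/-- C6, C7 -/
theorem final {n : V} (hn1 : ‖n‖ = 1) {C : ℝ} (hC : 0 < C)
    (hlim : ∀ s, 0 < s → s ≤ 1 → (∀ w, herm D.e n w = 0 →
      ‖herm D.e (R.P s) w‖ ≤ C * s * ‖R.P s‖ * ‖w‖) ∧
      (1 - C * s) * ‖R.P s‖ ≤ ‖(inner ℂ (R.P s) n : ℂ)‖) {ρ : ℝ} (hρ : 0 < ρ) :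
    ∃ ε > 0, ∀ C' : Set V, IsOpen C' → Convex ℝ C' → C' ⊆ dom D.dev y →
      Metric.ball (D.dev y) ρ ⊆ C' → ∀ w, herm D.e n w = 0 → ‖w‖ < ε → b + w ∉ C' := by
  have hv : 0 < ‖D.dev y - b‖ := norm_pos_iff.mpr R.v_ne
  have hr := Φ.hr0
  have hA := Φ.hA
  have hc' := R.c'_pos
  have hP0 : ∀ s, 0 < ‖R.P s‖ := fun s => lt_of_lt_of_le one_pos (R.one_le_P s)
  obtain ⟨s0, hs0, hs01, hs0C⟩ : ∃ s0 : ℝ, 0 < s0 ∧ s0 ≤ 1 ∧ C * s0 ≤ 1 / 2 := by
    refine ⟨min 1 (1 / (2 * C)), by positivity, min_le_left _ _, ?_⟩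
    calc C * min 1 (1 / (2 * C)) ≤ C * (1 / (2 * C)) := by gcongr; exact min_le_right _ _
      _ = 1 / 2 := by field_simp
  refine ⟨min (Φ.r0 / (8 * Φ.A)) (min (ρ / (1 + 2 * C)) (ρ * s0)), by positivity, ?_⟩
  intro C' hC'o hC'c hC'd hball w hw hwε hq
  rw [lt_min_iff, lt_min_iff] at hwε
  obtain ⟨hw1, hw2, hw3⟩ := hwε
  have hw1' : 2 * ‖w‖ ≤ Φ.r0 / (4 * Φ.A) := by
    have : Φ.r0 / (4 * Φ.A) = 2 * (Φ.r0 / (8 * Φ.A)) := by field_simp; norm_num
    rw [this]; linarith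
  have hw2' : (1 + 2 * C) * ‖w‖ < ρ := by
    rw [lt_div_iff₀ (by positivity)] at hw2; linarith
  have hr4 : Φ.r0 / (4 * Φ.A) ≤ Φ.r0 / 4 := by
    apply div_le_div_of_nonneg_left hr.le (by norm_num)
    linarith
  have hA4 : Φ.A * (Φ.r0 / (4 * Φ.A)) = Φ.r0 / 4 := by field_simp
  set k : ℝ → ℂ := fun s => herm D.e (R.P s) w / inner ℂ (R.P s) n with hk
  set u : ℝ → V := fun s => w - k s • jw D.e n with hu
  set c : ℝ → V := fun s => R.x s + u s with hcdef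
  have hk1 : ∀ s, 0 < s → s ≤ s0 → ‖k s‖ ≤ 2 * C * s * ‖w‖ ∧ (inner ℂ (R.P s) n : ℂ) ≠ 0 := by
    intro s h0 h1
    obtain ⟨h2, h3⟩ := hlim s h0 (h1.trans hs01)
    have h4 := h2 w hw
    have h5 : C * s ≤ 1 / 2 := by
      have : C * s ≤ C * s0 := by gcongr
      linarith
    have h6 : 1 / 2 * ‖R.P s‖ ≤ ‖(inner ℂ (R.P s) n : ℂ)‖ := by
      refine le_trans ?_ h3
      have := hP0 s
      nlinarith
    have h7 : 0 < ‖(inner ℂ (R.P s) n : ℂ)‖ := lt_of_lt_of_le (by have := hP0 s; positivity) h6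
    refine ⟨?_, norm_pos_iff.mp h7⟩
    rw [hk]
    simp only [norm_div]
    rw [div_le_iff₀ h7]
    calc ‖herm D.e (R.P s) w‖ ≤ C * s * ‖R.P s‖ * ‖w‖ := h4
      _ = 2 * C * s * ‖w‖ * (1 / 2 * ‖R.P s‖) := by ring
      _ ≤ _ := by gcongr
  have hu1 : ∀ s, 0 < s → s ≤ s0 → ‖u s‖ ≤ 2 * ‖w‖ ∧ R.nm s (u s) ≤ 2 * ‖w‖ := by
    intro s h0 h1
    obtain ⟨h2, h3⟩ := hk1 s h0 h1
    have h4 : ‖u s‖ ≤ 2 * ‖w‖ := by
      calc ‖u s‖ ≤ ‖w‖ + ‖k s • jw D.e n‖ := norm_sub_le _ _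
        _ = ‖w‖ + ‖k s‖ := by rw [norm_smul, norm_jw D.he, hn1, mul_one]
        _ ≤ ‖w‖ + 2 * C * s * ‖w‖ := by gcongr
        _ ≤ 2 * ‖w‖ := by
            have : C * s ≤ C * s0 := by gcongr
            nlinarith [norm_nonneg w]
    refine ⟨h4, ?_⟩
    rw [R.nm_eq]
    refine (pn_of_perp D.he (by rw [R.q_P]; norm_num) ?_).trans h4
    rw [hu]
    simp only
    rw [herm_sub_right, herm_smul_right, herm_jw D.he, hk]
    field_simp
    ring
  have hcx : ∀ s, c s - R.x s = u s := fun s => by rw [hcdef]; simp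
  have hcE : ∀ s, 0 < s → s ≤ s0 → c s ∈ R.E s := by
    intro s h0 h1
    show R.nm s _ < Φ.r0
    rw [hcx]
    have := (hu1 s h0 h1).2
    linarith
  have hcC : ∀ s, 0 < s → s ≤ s0 → c s ∈ C' := by
    intro s h0 h1
    have h2 := (hk1 s h0 h1).1
    have h3 : D.dev y + (w - (s⁻¹ : ℝ) • k s • jw D.e n) ∈ C' := by
      apply hball
      rw [mem_ball_iff_norm, add_sub_cancel_left]
      calc ‖w - (s⁻¹ : ℝ) • k s • jw D.e n‖ ≤ ‖w‖ + ‖(s⁻¹ : ℝ) • k s • jw D.e n‖ := norm_sub_le _ _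
        _ = ‖w‖ + s⁻¹ * ‖k s‖ := by
            rw [norm_smul, norm_smul, norm_jw D.he, hn1, mul_one, Real.norm_eq_abs,
              abs_of_pos (by positivity)]
        _ ≤ ‖w‖ + s⁻¹ * (2 * C * s * ‖w‖) := by gcongr
        _ = (1 + 2 * C) * ‖w‖ := by field_simp
        _ < ρ := hw2'
    have h4 : c s = (1 - s) • (b + w) + s • (D.dev y + (w - (s⁻¹ : ℝ) • k s • jw D.e n)) := by
      rw [hcdef, hu]
      simp only [x_def, smul_add, smul_sub, sub_smul, one_smul]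
      rw [smul_smul s s⁻¹, mul_inv_cancel₀ h0.ne', one_smul]
      abel
    rw [h4]
    exact hC'c hq h3 (by linarith) h0.le (by ring)
  have hxE : ∀ t t', 0 < t' → t' ≤ t → t ≤ s0 → t - t' ≤ R.c' / ‖R.P t‖ → R.x t' ∈ R.E t := by
    intro t t' h0 h1 h2 h3
    show R.nm t _ < Φ.r0
    rw [R.x_sub, R.nm_smul, abs_sub_comm, abs_of_nonneg (by linarith)]
    have := R.hop_ok h1 h3
    linarith
  -- agreement of the sections
  have hop : ∀ t t', 0 < t' → t' ≤ t → t ≤ s0 → t - t' ≤ R.c' / ‖R.P t‖ →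
      sec D.dev (R.g t • R.z t) (c t) = sec D.dev y (c t) →
      sec D.dev (R.g t' • R.z t') (c t') = sec D.dev y (c t') := by
    intro t t' h0 h1 h2 h3 hag
    have ht : 0 < t := h0.trans_le h1
    have ht1 : t ≤ 1 := h2.trans hs01
    have ht'1 : t' ≤ 1 := h1.trans ht1
    have h4 := R.hop_ok h1 h3
    have hct' : c t ∈ R.E t' := by
      show R.nm t' _ < Φ.r0
      have h5 := (R.hop' h0 h1 ht1 (by linarith)).1 (c t - R.x t')
      have h6 : R.nm t (c t - R.x t') ≤ Φ.r0 / (4 * Φ.A) + Φ.r0 / (4 * Φ.A) := by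
        have : c t - R.x t' = u t + (R.x t - R.x t') := by rw [← hcx t]; abel
        rw [this]
        refine (R.nm_add_le t _ _).trans (add_le_add ((hu1 t ht h2).2.trans hw1') ?_)
        rw [R.x_sub, R.nm_smul, abs_of_nonneg (by linarith)]
        exact h4
      have h7 := mul_le_mul_of_nonneg_left h6 (by linarith : (0 : ℝ) ≤ Φ.A)
      rw [mul_add, hA4] at h7
      linarith
    have hxt' := hxE t t' h0 h1 h2 h3
    have e1 : EqOn (sec D.dev (R.g t • R.z t)) (sec D.dev (R.g t' • R.z t')) (R.E t ∩ R.E t') := by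
      refine IsSec.eqOn D.dev_local ((R.E_convex t).inter (R.E_convex t')).isPreconnected
        ((isSec_sec D.dev_local _).mono (inter_subset_left.trans (R.E_sub ht ht1)))
        ((isSec_sec D.dev_local _).mono (inter_subset_right.trans (R.E_sub h0 ht'1)))
        (x := R.x t') ⟨hxt', R.x_mem_E t'⟩ ?_
      rw [R.sec_near h0 h1 ht1 (by linarith), R.sec_gz h0 ht'1]
    have e2 := e1 ⟨hcE t ht h2, hct'⟩
    have e3 : EqOn (sec D.dev (R.g t' • R.z t')) (sec D.dev y) (R.E t' ∩ C') := by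
      refine IsSec.eqOn D.dev_local ((R.E_convex t').inter hC'c).isPreconnected
        ((isSec_sec D.dev_local _).mono (inter_subset_left.trans (R.E_sub h0 ht'1)))
        ((isSec_sec D.dev_local _).mono (inter_subset_right.trans hC'd))
        (x := c t) ⟨hct', hcC t ht h2⟩ ?_
      rw [← e2, hag]
    exact e3 ⟨hcE t' h0 (h1.trans h2), hcC t' h0 (h1.trans h2)⟩
  have hbase : sec D.dev (R.g s0 • R.z s0) (c s0) = sec D.dev y (c s0) := by
    have hxC : R.x s0 ∈ C' := by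
      have h3 : D.dev y - ((1 - s0) / s0) • w ∈ C' := by
        apply hball
        rw [mem_ball_iff_norm, sub_sub_cancel_left, norm_neg, norm_smul, Real.norm_eq_abs,
          abs_of_nonneg (div_nonneg (by linarith) hs0.le)]
        calc (1 - s0) / s0 * ‖w‖ ≤ 1 / s0 * ‖w‖ := by gcongr; linarith
          _ = ‖w‖ / s0 := by ring
          _ < ρ := by rwa [div_lt_iff₀ hs0]
      have h4 : R.x s0 = (1 - s0) • (b + w) + s0 • (D.dev y - ((1 - s0) / s0) • w) := by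
        simp only [x_def, smul_add, smul_sub, smul_smul]
        rw [mul_div_cancel₀ _ hs0.ne']
        simp only [sub_smul, one_smul]
        abel
      rw [h4]
      exact hC'c hq h3 (by linarith) hs0.le (by ring)
    have e3 : EqOn (sec D.dev (R.g s0 • R.z s0)) (sec D.dev y) (R.E s0 ∩ C') := by
      refine IsSec.eqOn D.dev_local ((R.E_convex s0).inter hC'c).isPreconnected
        ((isSec_sec D.dev_local _).mono (inter_subset_left.trans (R.E_sub hs0 hs01)))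
        ((isSec_sec D.dev_local _).mono (inter_subset_right.trans hC'd))
        (x := R.x s0) ⟨R.x_mem_E s0, hxC⟩ ?_
      rw [R.sec_gz hs0 hs01, R.sec_x]
    exact e3 ⟨hcE s0 hs0 le_rfl, hcC s0 hs0 le_rfl⟩
  have hagree : ∀ s, 0 < s → s ≤ s0 →
      sec D.dev (R.g s • R.z s) (c s) = sec D.dev y (c s) := by
    intro s h0 h1
    obtain ⟨B, hB⟩ := R.bounded h0
    have hB1 : 1 ≤ B := (R.one_le_P s).trans (hB s le_rfl (h1.trans hs01))
    refine hop_principle (s' := s) (s := s0) (d := R.c' / B) (fun t => R.c' / ‖R.P t‖)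
      (by positivity) (fun t ht ht' => by
        have := R.one_le_P t
        exact div_le_div_of_nonneg_left hc'.le (by linarith) (hB t ht (ht'.trans hs01)))
      (fun t => sec D.dev (R.g t • R.z t) (c t) = sec D.dev y (c t) →
        sec D.dev (R.g s • R.z s) (c s) = sec D.dev y (c s)) ?_ ?_ h1 hbase
    · intro t ht ht' hδ hag
      exact hop t s h0 ht ht' hδ hag
    · intro t ht ht' hδ ih hag
      have hPt := hP0 t
      have : 0 < R.c' / ‖R.P t‖ := by positivity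
      exact ih (hop t _ (h0.trans_le hδ) (by linarith) ht' (by linarith) hag)
  -- the limit
  have hfd := FiniteDimensional.proper ℂ V
  obtain ⟨κ, hκ, hκC⟩ := Metric.nhds_basis_closedBall.mem_iff.mp (hC'o.mem_nhds hq)
  have hN : IsCompact (sec D.dev y '' Metric.closedBall (b + w) κ) :=
    (isCompact_closedBall _ _).image_of_continuousOn
      ((isSec_sec D.dev_local y).1.mono (hκC.trans hC'd))
  have hfin := finite_of_compact D Φ.hK1 hN
  obtain ⟨B, hB⟩ := (hfin.image fun g => ‖D.lin g D.e‖).bddAbove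
  set c1 : ℝ := Φ.r0 / (2 * ‖D.dev y - b‖) with hc1
  have hc1pos : 0 < c1 := by positivity
  set B' : ℝ := max B 1 with hB'
  have hB'pos : 0 < B' := lt_of_lt_of_le one_pos (le_max_right _ _)
  set M : ℝ := ‖D.dev y - b‖ + 2 * C * ‖w‖ with hM
  have hMpos : 0 < M := by positivity
  obtain ⟨s, hs, hs1, hs2, hs3⟩ : ∃ s : ℝ, 0 < s ∧ s ≤ s0 ∧ s * M ≤ κ ∧ s < c1 / B' := by
    refine ⟨min s0 (min (κ / M) (c1 / B' / 2)), by positivity, min_le_left _ _, ?_, ?_⟩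
    · calc min s0 (min (κ / M) (c1 / B' / 2)) * M ≤ κ / M * M := by
            gcongr; exact (min_le_right _ _).trans (min_le_left _ _)
        _ = κ := by field_simp
    · refine lt_of_le_of_lt ((min_le_right _ _).trans (min_le_right _ _)) ?_
      have : 0 < c1 / B' := by positivity
      linarith
  have hcb : c s ∈ Metric.closedBall (b + w) κ := by
    rw [mem_closedBall_iff_norm]
    have h1 : c s - (b + w) = s • (D.dev y - b) - k s • jw D.e n := by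
      rw [hcdef, hu]; simp only [x_def]; abel
    rw [h1]
    calc ‖s • (D.dev y - b) - k s • jw D.e n‖ ≤ ‖s • (D.dev y - b)‖ + ‖k s • jw D.e n‖ :=
          norm_sub_le _ _
      _ = s * ‖D.dev y - b‖ + ‖k s‖ := by
          rw [norm_smul, norm_smul, norm_jw D.he, hn1, mul_one, Real.norm_eq_abs, abs_of_pos hs]
      _ ≤ s * ‖D.dev y - b‖ + 2 * C * s * ‖w‖ := by gcongr; exact (hk1 s hs hs1).1
      _ = s * M := by rw [hM]; ring
      _ ≤ κ := hs2
  obtain ⟨k1, hk1K, hk1e⟩ := half_sec D Φ (R.g s) (R.hz s) (x := c s) (by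
    rw [R.dev_gz hs (hs1.trans hs01)]
    show R.nm s _ ≤ _
    rw [hcx]
    have := (hu1 s hs hs1).2
    linarith)
  have hmem : R.g s ∈ {g : G | ∃ z ∈ Φ.K1, g • z ∈ sec D.dev y '' Metric.closedBall (b + w) κ} :=
    ⟨k1, hk1K, c s, hcb, by rw [← hagree s hs hs1, hk1e]⟩
  have hPB : ‖R.P s‖ ≤ B' := (hB ⟨R.g s, hmem, rfl⟩).trans (le_max_left _ _)
  have hlow := R.P_lower hs (hs1.trans hs01)
  have : c1 / B' ≤ c1 / ‖R.P s‖ := div_le_div_of_nonneg_left hc1pos.le (hP0 s) hPB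
  linarith

end

end Ray

variable (D)

/-- LEMMA LE. -/
theorem le_lemma [FiniteDimensional ℂ V] [T2Space Y] {y : Y} {b : V} (hb : b ∉ dom D.dev y)
    (hvis : ∀ s : ℝ, 0 < s → s ≤ 1 → b + s • (D.dev y - b) ∈ dom D.dev y) :
    ∃ n : V, ‖n‖ = 1 ∧ herm D.e n n = 0 ∧ ∀ ρ > 0, ∃ ε > 0, ∀ C : Set V, IsOpen C → Convex ℝ C →
      C ⊆ dom D.dev y → Metric.ball (D.dev y) ρ ⊆ C → ∀ w, herm D.e n w = 0 → ‖w‖ < ε →
        b + w ∉ C := by
  obtain ⟨Φ⟩ := exists_frame D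
  choose g z hz hg using fun s : ℝ => Φ.cover (sec D.dev y (b + s • (D.dev y - b)))
  let R : Ray D Φ y b := ⟨hb, hvis, g, z, hz, hg⟩
  obtain ⟨n, hn1, hnull, C, hC, hlim⟩ := R.limit
  exact ⟨n, hn1, hnull, fun ρ hρ => R.final hn1 hC hlim hρ⟩

end Pool.Agent.Helper50.HL
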