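import Pool.Agent.Helper50.HL.CaseEb
import Pool.Agent.Helper50.HL.CaseF
import Pool.Agent.Helper2.MK.StarShaped

/-! Module Main: assembly. -/

set_option autoImplicit false
set_option linter.unusedSectionVars false

open Set Filter Topology

namespace Pool.Agent.Helper50.HL

open Pool.Agent.Helper2.MK

variable {V G Y : Type*} [NormedAddCommGroup V] [InnerProductSpace ℂ V] [FiniteDimensional ℂ V]
    [Group G] [TopologicalSpace Y] [T2Space Y] [ConnectedSpace Y] [MulAction G Y]

/-- A real-linear map commuting with `I` is complex-linear. -/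
theorem map_smul_of_map_I (L : V →ₗ[ℝ] V) (h : ∀ x, L (Complex.I • x) = Complex.I • L x) (a : ℂ)
    (x : V) : L (a • x) = a • L x := by
  have h1 : ∀ v : V, a • v = a.re • v + a.im • (Complex.I • v) := by
    intro v
    conv_lhs => rw [← Complex.re_add_im a, add_smul, mul_smul]
    rw [Complex.coe_smul, Complex.coe_smul]
  rw [h1 x, h1 (L x), map_add, map_smul, map_smul, h]

/-- From helper2's structure to `HLData`. -/
theorem exists_data (M : AffineDeveloping V G Y) (e : V) (he : ‖e‖ = 1)
    (hsmul : ∀ (g : G) (x : V), (M.hol g).linear (Complex.I • x) = Complex.I • (M.hol g).linear x)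
    (hherm : ∀ (g : G) (x y : V), herm e ((M.hol g).linear x) ((M.hol g).linear y) = herm e x y) :
    ∃ D : HLData V G Y, D.dev = M.dev ∧ ∀ g x, D.hol g x = M.hol g x := by
  have hdec : ∀ g x, M.hol g x = (M.hol g).linear x + M.hol g 0 := by
    intro g x
    have := (M.hol g).map_vadd 0 x
    simpa using this
  have hlin : ∀ g g' x, (M.hol (g * g')).linear x = (M.hol g).linear ((M.hol g').linear x) := by
    intro g g' x
    have h1 := hdec (g * g') x
    rw [M.hol_mul, M.hol_mul, hdec g (M.hol g' x), hdec g (M.hol g' 0), hdec g' x, map_add] at h1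
    have h2 : (M.hol g).linear ((M.hol g').linear x) + ((M.hol g).linear (M.hol g' 0) +
        M.hol g 0) = (M.hol (g * g')).linear x + ((M.hol g).linear (M.hol g' 0) + M.hol g 0) := by
      rw [← add_assoc]; exact h1
    exact (add_right_cancel h2).symm
  let L : G → (V ≃ₗ[ℂ] V) := fun g =>
    { (M.hol g).linear with
      map_smul' := fun a x => map_smul_of_map_I ((M.hol g).linear : V →ₗ[ℝ] V) (hsmul g) a x }
  have hL : ∀ g x, L g x = (M.hol g).linear x := fun g x => rfl
  let Lh : G →* (V ≃ₗ[ℂ] V) := MonoidHom.mk' L fun g g' => LinearEquiv.ext fun x => by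
    rw [LinearEquiv.mul_apply, hL, hL, hL, hlin]
  refine ⟨⟨e, he, M.dev, M.dev_local, Lh, fun g => M.hol g 0, ?_, ?_, ?_, M.covering⟩, rfl, ?_⟩
  · intro g g'
    rw [M.hol_mul, hdec g]
    rfl
  · intro g y
    rw [M.dev_smul, hdec g]
    rfl
  · intro g x y
    exact hherm g x y
  · intro g x
    rw [hdec g]
    rfl

theorem main (M : AffineDeveloping V G Y) (e : V) (he : ‖e‖ = 1)
    (hsmul : ∀ (g : G) (x : V), (M.hol g).linear (Complex.I • x) = Complex.I • (M.hol g).linear x)
    (hherm : ∀ (g : G) (x y : V), herm e ((M.hol g).linear x) ((M.hol g).linear y) = herm e x y) :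
    ∃ E : Y ≃ₜ V, ⇑E = M.dev := by
  obtain ⟨D, hdev, hhol⟩ := exists_data M e he hsmul hherm
  by_cases hinc : ∀ y, dom D.dev y ≠ univ
  · exfalso
    by_cases h : ∃ y, ∃ ε > 0, ∀ P, 0 < q D.e P → ε ≤ (rad D y P)⁻¹
    · exact caseE hinc h
    · push Not at h
      obtain ⟨C, hC, hne, hC1, hC2⟩ := caseF hinc h
      refine hC1 ?_
      have : FiniteDimensional ℝ V := FiniteDimensional.complexToReal V
      refine Pool.Agent.Results.MP_df2bd8_gt.NoInvariantStarShaped.convex_case M C ?_ hne hC
      intro g x hx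
      rw [← hhol]
      exact hC2 g x hx
  · push Not at hinc
    obtain ⟨y, hy⟩ := hinc
    obtain ⟨E, hE⟩ := complete_of_dom_univ D.dev_local hy
    exact ⟨E, hE.trans hdev⟩

end Pool.Agent.Helper50.HL
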