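import Pool.Agent.Helper50.HL.LE
import Pool.Agent.Helper50.HL.Scalar

/-! Module Radius: the radius function, contacts and the support inequality (part D). -/

set_option autoImplicit false

open Set Filter Topology

namespace Pool.Agent.Helper50.HL

variable {V G Y : Type*} [NormedAddCommGroup V] [InnerProductSpace ℂ V] [Group G]
    [TopologicalSpace Y] [MulAction G Y] (D : HLData V G Y)

/-- The radius of the largest open `P`-ball about `dev y` inside the star domain of `y`. -/
noncomputable def rad (y : Y) (P : V) : ℝ :=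
  sInf ((fun b => pn D.e P (b - D.dev y)) '' (dom D.dev y)ᶜ)

/-- contact points -/
def IsContact (y : Y) (P b : V) : Prop := b ∉ dom D.dev y ∧ pn D.e P (b - D.dev y) = rad D y P

/-- the contact normal of the contact point `b` -/
noncomputable def cn (y : Y) (P b : V) : V :=
  ((rad D y P ^ 2)⁻¹ : ℝ) • jp D.e P (b - D.dev y)

/-- `F_y(P) = √q(P) / r_y(P)` -/
noncomputable def FR (y : Y) (P : V) : ℝ := √(q D.e P) / rad D y P

section Aux

variable {e P : V}

theorem radAux_pn_continuous (e P : V) : Continuous (pn e P) := by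
  unfold pn herm
  fun_prop

theorem radAux_isOpen_ball (e P c : V) (r : ℝ) : IsOpen {x | pn e P (x - c) < r} :=
  isOpen_lt ((radAux_pn_continuous e P).comp (continuous_id.sub continuous_const))
    continuous_const

theorem radAux_convex_ball (he : ‖e‖ = 1) (hP : 0 < q e P) (c : V) (r : ℝ) :
    Convex ℝ {x | pn e P (x - c) < r} := by
  intro x hx y hy a b ha hb hab
  simp only [mem_setOf_eq] at hx hy ⊢
  have h1 : a • x + b • y - c = a • (x - c) + b • (y - c) := by
    have : c = a • c + b • c := by rw [← add_smul, hab, one_smul]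
    rw [smul_sub, smul_sub]
    nth_rw 1 [this]
    abel
  rw [h1]
  have h2 := pn_add_le he hP (a • (x - c)) (b • (y - c))
  rw [pn_real_smul he hP, pn_real_smul he hP, abs_of_nonneg ha, abs_of_nonneg hb] at h2
  rcases eq_or_lt_of_le ha with h0 | h0
  · subst h0
    have hb1 : b = 1 := by linarith
    subst hb1
    linarith
  · have h3 : a * pn e P (x - c) < a * r := mul_lt_mul_of_pos_left hx h0
    have h4 : b * pn e P (y - c) ≤ b * r := mul_le_mul_of_nonneg_left hy.le hb
    have h5 : a * r + b * r = r := by rw [← add_mul, hab, one_mul]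
    linarith

theorem radAux_pn_zero (he : ‖e‖ = 1) (hP : 0 < q e P) : pn e P 0 = 0 := by
  have h := pn_smul he hP (0 : ℂ) (0 : V)
  simpa using h

theorem radAux_pn_neg (he : ‖e‖ = 1) (hP : 0 < q e P) (x : V) : pn e P (-x) = pn e P x := by
  have h := pn_real_smul he hP (-1) x
  simpa using h

theorem radAux_pn_sub_comm (he : ‖e‖ = 1) (hP : 0 < q e P) (x y : V) :
    pn e P (x - y) = pn e P (y - x) := by
  rw [← radAux_pn_neg he hP, neg_sub]

end Aux

section

variable [FiniteDimensional ℂ V] [T2Space Y] {D} (hinc : ∀ y, dom D.dev y ≠ univ)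
include hinc

theorem exists_contact (y : Y) {P : V} (hP : 0 < q D.e P) : ∃ b, IsContact D y P b := by
  haveI : ProperSpace V := FiniteDimensional.proper ℂ V
  obtain ⟨x0, hx0⟩ : ∃ x0, x0 ∉ dom D.dev y := by
    by_contra h
    push Not at h
    exact hinc y (eq_univ_of_forall h)
  obtain ⟨c, hc, C, hC, hcC⟩ := pn_equiv D.he hP
  have hcl : IsClosed (dom D.dev y)ᶜ := (isOpen_dom y).isClosed_compl
  have hcont : Continuous fun b => pn D.e P (b - D.dev y) :=
    (radAux_pn_continuous D.e P).comp (continuous_id.sub continuous_const)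
  have htend : Tendsto (fun b => pn D.e P (b - D.dev y)) (cocompact V) atTop := by
    have h1 : Tendsto (fun b : V => c * (‖b‖ - ‖D.dev y‖)) (cocompact V) atTop := by
      refine Tendsto.const_mul_atTop hc ?_
      exact tendsto_atTop_add_const_right _ _ (tendsto_norm_cocompact_atTop)
    refine tendsto_atTop_mono (fun b => ?_) h1
    have h2 := (hcC (b - D.dev y)).1
    have h3 : ‖b‖ - ‖D.dev y‖ ≤ ‖b - D.dev y‖ := norm_sub_norm_le _ _
    nlinarith
  obtain ⟨b, hb, hmin⟩ := hcont.continuousOn.exists_isMinOn' hcl (x₀ := x0) hx0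
    ((htend.eventually_ge_atTop _).filter_mono inf_le_left)
  refine ⟨b, hb, ?_⟩
  refine le_antisymm ?_ ?_
  · refine le_csInf ⟨_, mem_image_of_mem _ hx0⟩ ?_
    rintro _ ⟨x, hx, rfl⟩
    exact hmin hx
  · refine csInf_le ⟨0, ?_⟩ (mem_image_of_mem _ hb)
    rintro _ ⟨x, hx, rfl⟩
    exact pn_nonneg _ _ _

theorem mem_dom_of_lt (y : Y) {P x : V} (hP : 0 < q D.e P)
    (hx : pn D.e P (x - D.dev y) < rad D y P) : x ∈ dom D.dev y := by
  by_contra h
  have : rad D y P ≤ pn D.e P (x - D.dev y) := by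
    refine csInf_le ⟨0, ?_⟩ (mem_image_of_mem _ h)
    rintro _ ⟨x, hx, rfl⟩
    exact pn_nonneg _ _ _
  linarith

theorem le_rad (y : Y) {P : V} (hP : 0 < q D.e P) {r : ℝ}
    (h : ∀ x, pn D.e P (x - D.dev y) < r → x ∈ dom D.dev y) : r ≤ rad D y P := by
  obtain ⟨x0, hx0⟩ : ∃ x0, x0 ∉ dom D.dev y := by
    by_contra h
    push Not at h
    exact hinc y (eq_univ_of_forall h)
  refine le_csInf ⟨_, mem_image_of_mem _ hx0⟩ ?_
  rintro _ ⟨x, hx, rfl⟩
  by_contra h'
  push Not at h'
  exact hx (h x h')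

theorem rad_pos (y : Y) {P : V} (hP : 0 < q D.e P) : 0 < rad D y P := by
  obtain ⟨b, hb, hb'⟩ := exists_contact hinc y hP
  rw [← hb']
  refine pn_pos D.he hP ?_
  intro h0
  rw [sub_eq_zero] at h0
  exact hb (h0 ▸ mem_dom_self D.dev_local y)

theorem rad_smul (y : Y) (P : V) {a : ℂ} (ha : a ≠ 0) : rad D y (a • P) = rad D y P := by
  unfold rad
  congr 1
  refine image_congr fun b _ => ?_
  exact pn_smul_left _ _ _ ha

/-- D1: invariance -/
theorem rad_equiv (g : G) (y : Y) (P : V) : rad D (g • y) (D.lin g P) = rad D y P := by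
  unfold rad
  congr 1
  ext r
  constructor
  · rintro ⟨b, hb, rfl⟩
    refine ⟨D.hol g⁻¹ b, ?_, ?_⟩
    · intro h
      rw [← dom_smul D g y] at h
      rw [hol_hol_inv] at h
      exact hb h
    · have h1 : b - D.dev (g • y) = D.lin g (D.hol g⁻¹ b - D.dev y) := by
        rw [← hol_sub, hol_hol_inv, dev_smul']
      simp only
      rw [h1, pn_map (D.lin g) (D.herm_lin g)]
  · rintro ⟨b, hb, rfl⟩
    refine ⟨D.hol g b, ?_, ?_⟩
    · intro h
      exact hb ((dom_smul D g y b).1 h)
    · simp only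
      rw [dev_smul', hol_sub, pn_map (D.lin g) (D.herm_lin g)]

/-- two-sided comparison of the radius function near a point -/
theorem radAux_near (y : Y) {P : V} (hP : 0 < q D.e P) {κ : ℝ} (hκ : 1 < κ) :
    ∀ᶠ p : Y × V in 𝓝 (y, P), rad D y P / κ ^ 2 ≤ rad D p.1 p.2 ∧
      rad D p.1 p.2 ≤ κ ^ 2 * rad D y P := by
  have hr := rad_pos hinc y hP
  have hκ0 : 0 < κ := by linarith
  set r := rad D y P with hrdef
  set δ0 : ℝ := min (r * (1 - 1 / κ)) (r / κ ^ 3 / 2) with hδ0
  have hδpos : 0 < δ0 := by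
    refine lt_min ?_ (by positivity)
    have : 1 / κ < 1 := by rw [div_lt_one hκ0]; exact hκ
    exact mul_pos hr (by linarith)
  have hdevc : Continuous D.dev := D.dev_local.continuous
  have hd : ∀ᶠ y' in 𝓝 y, pn D.e P (D.dev y' - D.dev y) < δ0 := by
    have hc : Continuous fun y' => pn D.e P (D.dev y' - D.dev y) :=
      (radAux_pn_continuous D.e P).comp (hdevc.sub continuous_const)
    have := (hc.tendsto y)
    rw [sub_self, radAux_pn_zero D.he hP] at this
    exact this.eventually (gt_mem_nhds hδpos)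
  have hnear := near D.dev_local y
  have hP' := pn_near D.he hP hκ
  rw [nhds_prod_eq]
  filter_upwards [(hd.and hnear).prod_mk hP'] with p hp
  obtain ⟨⟨hδ, hy1, hy2, hy3, hy4⟩, hq', hcmp⟩ := hp
  obtain ⟨y', P'⟩ := p
  simp only at *
  set δ := pn D.e P (D.dev y' - D.dev y) with hδdef
  have hδn : 0 ≤ δ := pn_nonneg _ _ _
  have hδ1 : δ < r * (1 - 1 / κ) := lt_of_lt_of_le hδ (min_le_left _ _)
  have hδ2 : δ < r / κ ^ 3 / 2 := lt_of_lt_of_le hδ (min_le_right _ _)
  have hδr : δ < r := by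
    have : r * (1 - 1 / κ) ≤ r := by
      have : 0 < 1 / κ := by positivity
      nlinarith
    linarith
  -- first inequality
  have h1 : (r - δ) / κ ≤ rad D y' P' := by
    refine le_rad hinc y' hq' fun x hx => ?_
    have hC := rebase D.dev_local (C := {x | pn D.e P (x - D.dev y) < r})
      (radAux_isOpen_ball _ _ _ _) (radAux_convex_ball D.he hP _ _)
      (by simp only [mem_setOf_eq, sub_self, radAux_pn_zero D.he hP]; exact hr)
      (fun x hx => mem_dom_of_lt hinc y hP hx) (x := D.dev y') hδr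
    rw [hy2] at hC
    refine hC.1 ?_
    simp only [mem_setOf_eq]
    have e1 : x - D.dev y = (x - D.dev y') + (D.dev y' - D.dev y) := by abel
    rw [e1]
    have e2 := pn_add_le D.he hP (x - D.dev y') (D.dev y' - D.dev y)
    have e3 := (hcmp (x - D.dev y')).2
    have e4 : κ * pn D.e P' (x - D.dev y') < r - δ := by
      rw [lt_div_iff₀ hκ0] at hx
      linarith
    linarith
  have h1' : r / κ ^ 2 ≤ rad D y' P' := by
    refine le_trans ?_ h1
    have : r / κ ^ 2 = (r / κ) / κ := by field_simp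
    rw [this]
    apply div_le_div_of_nonneg_right _ hκ0.le
    have : r * (1 - 1 / κ) = r - r / κ := by ring
    linarith
  refine ⟨h1', ?_⟩
  -- second inequality
  have hκδ : κ * δ < rad D y' P' := by
    have : κ * δ < r / κ ^ 2 := by
      have h3 : κ * δ < κ * (r / κ ^ 3 / 2) := mul_lt_mul_of_pos_left hδ2 hκ0
      have h4 : κ * (r / κ ^ 3 / 2) = r / κ ^ 2 / 2 := by field_simp
      have h5 : 0 < r / κ ^ 2 := by positivity
      linarith
    linarith
  have h2 : (rad D y' P' - κ * δ) / κ ≤ r := by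
    refine le_rad hinc y hP fun x hx => ?_
    have hdy : pn D.e P' (D.dev y - D.dev y') ≤ κ * δ := by
      rw [radAux_pn_sub_comm D.he hq']
      exact (hcmp _).1
    have hC := rebase D.dev_local (y := y') (C := {x | pn D.e P' (x - D.dev y') < rad D y' P'})
      (radAux_isOpen_ball _ _ _ _) (radAux_convex_ball D.he hq' _ _)
      (by
        simp only [mem_setOf_eq, sub_self, radAux_pn_zero D.he hq']
        exact rad_pos hinc y' hq')
      (fun x hx => mem_dom_of_lt hinc y' hq' hx) (x := D.dev y) (lt_of_le_of_lt hdy hκδ)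
    rw [hy4] at hC
    refine hC.1 ?_
    simp only [mem_setOf_eq]
    have e1 : x - D.dev y' = (x - D.dev y) + (D.dev y - D.dev y') := by abel
    rw [e1]
    have e2 := pn_add_le D.he hq' (x - D.dev y) (D.dev y - D.dev y')
    have e3 := (hcmp (x - D.dev y)).1
    have e4 : κ * pn D.e P (x - D.dev y) < rad D y' P' - κ * δ := by
      rw [lt_div_iff₀ hκ0] at hx
      linarith
    linarith
  rw [div_le_iff₀ hκ0] at h2
  have h6 : κ * δ ≤ κ * (r * (κ - 1)) := by
    refine mul_le_mul_of_nonneg_left ?_ hκ0.le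
    have h7 : 1 - 1 / κ ≤ κ - 1 := by
      have : κ + 1 / κ ≥ 2 := by
        have h8 : κ + 1 / κ - 2 = (κ - 1) ^ 2 / κ := by field_simp; ring
        have h9 : 0 ≤ (κ - 1) ^ 2 / κ := by positivity
        linarith
      linarith
    have := mul_le_mul_of_nonneg_left h7 hr.le
    linarith
  nlinarith

/-- D1: continuity -/
theorem rad_continuousAt (y : Y) {P : V} (hP : 0 < q D.e P) :
    ContinuousAt (fun p : Y × V => rad D p.1 p.2) (y, P) := by
  have hr := rad_pos hinc y hP
  refine tendsto_order.2 ⟨fun a ha => ?_, fun a ha => ?_⟩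
  · simp only at ha
    have hc : ContinuousAt (fun κ : ℝ => rad D y P / κ ^ 2) 1 := by
      refine ContinuousAt.div continuousAt_const (by fun_prop) (by norm_num)
    have h1 : ∀ᶠ κ in 𝓝[>] (1 : ℝ), a < rad D y P / κ ^ 2 := by
      refine (hc.eventually (lt_mem_nhds ?_)).filter_mono nhdsWithin_le_nhds
      simpa using ha
    obtain ⟨κ, h2, hκ⟩ := (h1.and self_mem_nhdsWithin).exists
    filter_upwards [radAux_near hinc y hP hκ] with p hp
    exact lt_of_lt_of_le h2 hp.1
  · simp only at ha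
    have hc : ContinuousAt (fun κ : ℝ => κ ^ 2 * rad D y P) 1 := by fun_prop
    have h1 : ∀ᶠ κ in 𝓝[>] (1 : ℝ), κ ^ 2 * rad D y P < a := by
      refine (hc.eventually (gt_mem_nhds ?_)).filter_mono nhdsWithin_le_nhds
      simpa using ha
    obtain ⟨κ, h2, hκ⟩ := (h1.and self_mem_nhdsWithin).exists
    filter_upwards [radAux_near hinc y hP hκ] with p hp
    exact lt_of_le_of_lt hp.2 h2

theorem radAux_norm {y : Y} {P b : V} (hP : 0 < q D.e P) (hb : IsContact D y P b) :
    herm D.e (cn D y P b) (b - D.dev y) = 1 ∧ pn D.e P (cn D y P b) = (rad D y P)⁻¹ := by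
  have hr := rad_pos hinc y hP
  have hrc : ((rad D y P : ℝ) : ℂ) ≠ 0 := by exact_mod_cast hr.ne'
  constructor
  · unfold cn
    rw [herm_real_smul_left, ← herm_conj, herm_jp D.he hP, Complex.conj_ofReal, hb.2]
    push_cast
    field_simp
  · unfold cn
    rw [pn_real_smul D.he hP, pn_jp D.he hP, hb.2, abs_of_pos (by positivity)]
    field_simp

/-- the contact normal is a multiple of the null vector of LEMMA LE -/
theorem radAux_cn {y : Y} {P b : V} (hP : 0 < q D.e P) (hb : IsContact D y P b) :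
    ∃ n : V, herm D.e n n = 0 ∧ (∃ a : ℂ, a ≠ 0 ∧ cn D y P b = a • n) ∧
      ∀ ρ > 0, ∃ ε > 0, ∀ C : Set V, IsOpen C → Convex ℝ C →
      C ⊆ dom D.dev y → Metric.ball (D.dev y) ρ ⊆ C → ∀ w, herm D.e n w = 0 → ‖w‖ < ε →
        b + w ∉ C := by
  have hr := rad_pos hinc y hP
  obtain ⟨hb1, hb2⟩ := hb
  have hvis : ∀ s : ℝ, 0 < s → s ≤ 1 → b + s • (D.dev y - b) ∈ dom D.dev y := by
    intro s hs hs1
    refine mem_dom_of_lt hinc y hP ?_
    have e1 : b + s • (D.dev y - b) - D.dev y = (1 - s) • (b - D.dev y) := by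
      rw [sub_smul, one_smul, ← neg_sub b (D.dev y), smul_neg]
      abel
    rw [e1, pn_real_smul D.he hP, hb2, abs_of_nonneg (by linarith)]
    nlinarith
  obtain ⟨n, hn1, hn0, hle⟩ := le_lemma D hb1 hvis
  have hn : n ≠ 0 := by
    intro h
    rw [h] at hn1
    simp at hn1
  refine ⟨n, hn0, ?_, hle⟩
  -- the ball is an admissible chart
  have hopen := radAux_isOpen_ball D.e P (D.dev y) (rad D y P)
  have hmem : D.dev y ∈ {x | pn D.e P (x - D.dev y) < rad D y P} := by
    simp only [mem_setOf_eq, sub_self, radAux_pn_zero D.he hP]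
    exact hr
  obtain ⟨ρ, hρ, hρ'⟩ := Metric.isOpen_iff.1 hopen _ hmem
  obtain ⟨ε, hε, hε'⟩ := hle ρ hρ
  have hle2 : ∀ w, herm D.e n w = 0 → ‖w‖ < ε →
      pn D.e P (b - D.dev y) ≤ pn D.e P ((b - D.dev y) + w) := by
    intro w hw hwε
    have h1 := hε' _ hopen (radAux_convex_ball D.he hP _ _)
      (fun x hx => mem_dom_of_lt hinc y hP hx) hρ' w hw hwε
    simp only [mem_setOf_eq, not_lt] at h1
    rw [hb2]
    have e1 : b - D.dev y + w = b + w - D.dev y := by abel
    rw [e1]
    exact h1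
  have htan := tangent D.he hP hε hle2
  obtain ⟨a, ha⟩ := smul_of_perp D.he hn htan
  have hcn : cn D y P b = ((((rad D y P ^ 2)⁻¹ : ℝ) : ℂ) * a) • n := by
    unfold cn
    rw [ha, mul_smul]
    rfl
  refine ⟨_, ?_, hcn⟩
  intro h0
  rw [h0, zero_smul] at hcn
  have h1 := (radAux_norm hinc hP ⟨hb1, hb2⟩).1
  rw [hcn] at h1
  have h2 : herm D.e (0 : V) (b - D.dev y) = 0 := by
    have := herm_smul_left D.e (0 : V) (b - D.dev y) 0
    simpa using this
  rw [h2] at h1
  exact zero_ne_one h1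

/-- D2: facts on contact normals -/
theorem cn_null {y : Y} {P b : V} (hP : 0 < q D.e P) (hb : IsContact D y P b) :
    herm D.e (cn D y P b) (cn D y P b) = 0 := by
  obtain ⟨n, hn, ⟨a, -, ha⟩, -⟩ := radAux_cn hinc hP hb
  rw [ha, herm_smul_left, herm_smul_right, hn]
  simp

theorem cn_norm {y : Y} {P b : V} (hP : 0 < q D.e P) (hb : IsContact D y P b) :
    herm D.e (cn D y P b) (b - D.dev y) = 1 ∧ pn D.e P (cn D y P b) = (rad D y P)⁻¹ ∧
      √2 * ‖herm D.e P (cn D y P b)‖ = FR D y P := by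
  obtain ⟨h1, h2⟩ := radAux_norm hinc hP hb
  refine ⟨h1, h2, ?_⟩
  have h3 := pn_null D.he hP (cn_null hinc hP hb)
  have hsq : 0 < √(q D.e P) := Real.sqrt_pos.2 hP
  rw [h2] at h3
  unfold FR
  rw [div_eq_mul_inv, h3]
  field_simp

/-- D2: the support inequality -/
theorem support {y : Y} {P b : V} (hP : 0 < q D.e P) (hb : IsContact D y P b) :
    ∀ᶠ p : Y × V in 𝓝 (y, P), √2 * ‖herm D.e p.2 (cn D y P b)‖ ≤
      FR D p.1 p.2 * ‖herm D.e (cn D y P b) (b - D.dev p.1)‖ := by
  have hr := rad_pos hinc y hP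
  obtain ⟨n1, hn1, ⟨a, ha, hcn⟩, hle⟩ := radAux_cn hinc hP hb
  obtain ⟨hv, hpn, hFR⟩ := cn_norm hinc hP hb
  have hnull := cn_null hinc hP hb
  set n := cn D y P b with hndef
  have hn0 : n ≠ 0 := by
    intro h
    rw [h] at hpn
    rw [radAux_pn_zero D.he hP] at hpn
    have := inv_pos.2 hr
    linarith
  obtain ⟨c, hc, C0, hC0, hcC⟩ := pn_equiv D.he hP
  set r := rad D y P with hrdef
  set ρ : ℝ := r / (8 * C0) / 2 with hρdef
  have hρ : 0 < ρ := by positivity
  obtain ⟨ε, hε, hε'⟩ := hle ρ hρ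
  have hdevc : Continuous D.dev := D.dev_local.continuous
  -- the moving point `b'`
  have hqcont : Continuous fun P' => q D.e P' :=
    q_continuous.comp (continuous_const.prodMk continuous_id)
  have hbt : Tendsto (fun p : Y × V => D.dev p.1 +
      (herm D.e n (b - D.dev p.1) / ((pn D.e p.2 n ^ 2 : ℝ) : ℂ)) • jp D.e p.2 n)
      (𝓝 (y, P)) (𝓝 b) := by
    have hA : ContinuousAt (fun p : Y × V => herm D.e n (b - D.dev p.1)) (y, P) := by
      have : Continuous (fun p : Y × V => herm D.e n (b - D.dev p.1)) := by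
        unfold herm
        fun_prop
      exact this.continuousAt
    have hB : ContinuousAt (fun p : Y × V => pn D.e p.2 n) (y, P) := by
      have h1 : ContinuousAt (fun p : V × V => pn D.e p.1 p.2) (P, n) := pn_continuousAt hP
      have h2 : ContinuousAt (fun p : Y × V => ((p.2, n) : V × V)) (y, P) :=
        (continuous_snd.prodMk continuous_const).continuousAt
      exact ContinuousAt.comp (f := fun p : Y × V => ((p.2, n) : V × V)) h1 h2
    have hB2 : ContinuousAt (fun p : Y × V => ((pn D.e p.2 n ^ 2 : ℝ) : ℂ)) (y, P) :=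
      Complex.continuous_ofReal.continuousAt.comp (hB.pow 2)
    have hC : ContinuousAt (fun p : Y × V => jp D.e p.2 n) (y, P) := by
      unfold jp
      refine continuousAt_const.add (ContinuousAt.smul (ContinuousAt.div ?_ ?_ ?_)
        continuous_snd.continuousAt)
      · have : Continuous (fun p : Y × V => 2 * herm D.e p.2 n) := by
          unfold herm
          fun_prop
        exact this.continuousAt
      · exact (Complex.continuous_ofReal.comp (hqcont.comp continuous_snd)).continuousAt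
      · simp only
        exact_mod_cast hP.ne'
    have hne : ((pn D.e P n ^ 2 : ℝ) : ℂ) ≠ 0 := by
      rw [hpn]
      exact_mod_cast (by positivity : (r⁻¹ : ℝ) ^ 2 ≠ 0)
    have hD : ContinuousAt (fun p : Y × V => D.dev p.1 +
      (herm D.e n (b - D.dev p.1) / ((pn D.e p.2 n ^ 2 : ℝ) : ℂ)) • jp D.e p.2 n) (y, P) :=
      (hdevc.comp continuous_fst).continuousAt.add ((hA.div hB2 hne).smul hC)
    have hval : D.dev y + (herm D.e n (b - D.dev y) / ((pn D.e P n ^ 2 : ℝ) : ℂ)) •
        jp D.e P n = b := by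
      have e1 : jp D.e P n = ((((r ^ 2)⁻¹ : ℝ)) : ℂ) • (b - D.dev y) := by
        have e2 : n = ((((r ^ 2)⁻¹ : ℝ)) : ℂ) • jp D.e P (b - D.dev y) := by
          rw [hndef]
          rfl
        rw [e2, jp_smul, jp_jp D.he hP]
      have hrc : ((r : ℝ) : ℂ) ≠ 0 := by exact_mod_cast hr.ne'
      rw [e1, hv, hpn, smul_smul]
      have e3 : (1 : ℂ) / (((r⁻¹) ^ 2 : ℝ) : ℂ) * (((r ^ 2)⁻¹ : ℝ) : ℂ) = 1 := by
        push_cast
        field_simp
      rw [e3, one_smul]
      abel
    have h1 := hD.tendsto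
    simp only at h1
    rw [hval] at h1
    exact h1
  have hb'ε : ∀ᶠ p : Y × V in 𝓝 (y, P), ‖D.dev p.1 +
      (herm D.e n (b - D.dev p.1) / ((pn D.e p.2 n ^ 2 : ℝ) : ℂ)) • jp D.e p.2 n - b‖ < ε := by
    have h1 := (hbt.sub_const b).norm
    rw [sub_self, norm_zero] at h1
    exact h1.eventually (gt_mem_nhds hε)
  have hρ1 : ∀ᶠ p : Y × V in 𝓝 (y, P), ‖D.dev p.1 - D.dev y‖ < ρ := by
    have h1 : Tendsto (fun p : Y × V => ‖D.dev p.1 - D.dev y‖) (𝓝 (y, P)) (𝓝 0) := by
      have : Continuous fun p : Y × V => ‖D.dev p.1 - D.dev y‖ := by fun_prop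
      simpa using this.tendsto (y, P)
    exact h1.eventually (gt_mem_nhds hρ)
  have hrad2 : ∀ᶠ p : Y × V in 𝓝 (y, P), r / 2 < rad D p.1 p.2 := by
    refine (rad_continuousAt hinc y hP).eventually (lt_mem_nhds ?_)
    simp only
    linarith
  have hnear : ∀ᶠ p : Y × V in 𝓝 (y, P), D.dev p.1 ∈ dom D.dev y ∧
      sec D.dev y (D.dev p.1) = p.1 ∧ D.dev y ∈ dom D.dev p.1 ∧
      sec D.dev p.1 (D.dev y) = y :=
    (continuous_fst.tendsto (y, P)).eventually (near D.dev_local y)
  have hpn2 : ∀ᶠ p : Y × V in 𝓝 (y, P), 0 < q D.e p.2 ∧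
      ∀ x, pn D.e p.2 x ≤ 2 * pn D.e P x ∧ pn D.e P x ≤ 2 * pn D.e p.2 x :=
    (continuous_snd.tendsto (y, P)).eventually (pn_near D.he hP one_lt_two)
  filter_upwards [hb'ε, hρ1, hrad2, hnear, hpn2] with p h1 h2 h3 h4 h5
  obtain ⟨y', P'⟩ := p
  obtain ⟨hq', hcmp⟩ := h5
  obtain ⟨-, -, hy3, hy4⟩ := h4
  simp only at h1 h2 h3 hq' hcmp hy3 hy4 ⊢
  have hr' := rad_pos hinc y' hq'
  have hpos : 0 < pn D.e P' n := pn_pos D.he hq' hn0
  have hbound : ∀ x, pn D.e P' x ≤ 2 * (C0 * ‖x‖) := fun x =>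
    (hcmp x).1.trans (mul_le_mul_of_nonneg_left (hcC x).2 two_pos.le)
  -- main claim
  have key : rad D y' P' * pn D.e P' n ≤ ‖herm D.e n (b - D.dev y')‖ := by
    by_contra hlt
    push Not at hlt
    set b' := D.dev y' +
      (herm D.e n (b - D.dev y') / ((pn D.e P' n ^ 2 : ℝ) : ℂ)) • jp D.e P' n with hb'
    have hpc : ((pn D.e P' n ^ 2 : ℝ) : ℂ) ≠ 0 := by
      exact_mod_cast (pow_pos hpos 2).ne'
    have hperp : herm D.e n (b' - b) = 0 := by
      have e1 : b' - b = (herm D.e n (b - D.dev y') / ((pn D.e P' n ^ 2 : ℝ) : ℂ)) • jp D.e P' n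
          - (b - D.dev y') := by rw [hb']; abel
      rw [e1, herm_sub_right, herm_smul_right, herm_jp D.he hq', div_mul_cancel₀ _ hpc, sub_self]
    have hperp1 : herm D.e n1 (b' - b) = 0 := by
      rw [hcn, herm_smul_left] at hperp
      rcases mul_eq_zero.1 hperp with h | h
      · exact absurd ((map_eq_zero _).1 h) ha
      · exact h
    have hC'1 : b' ∈ {x | pn D.e P' (x - D.dev y') < rad D y' P'} := by
      simp only [mem_setOf_eq]
      have e1 : b' - D.dev y' = (herm D.e n (b - D.dev y') / ((pn D.e P' n ^ 2 : ℝ) : ℂ)) •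
          jp D.e P' n := by rw [hb']; abel
      rw [e1, pn_smul D.he hq', pn_jp D.he hq', norm_div, Complex.norm_real, norm_pow,
        Real.norm_of_nonneg hpos.le]
      rw [div_mul_eq_mul_div, div_lt_iff₀ (pow_pos hpos 2)]
      calc ‖herm D.e n (b - D.dev y')‖ * pn D.e P' n
          < (rad D y' P' * pn D.e P' n) * pn D.e P' n := mul_lt_mul_of_pos_right hlt hpos
        _ = rad D y' P' * pn D.e P' n ^ 2 := by ring
    have hball : ∀ x, ‖x - D.dev y‖ < ρ → pn D.e P' (x - D.dev y') < rad D y' P' := by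
      intro x hx
      have e1 : x - D.dev y' = (x - D.dev y) - (D.dev y' - D.dev y) := by abel
      have e2 : ‖x - D.dev y'‖ < ρ + ρ := by
        rw [e1]
        exact (norm_sub_le _ _).trans_lt (add_lt_add hx h2)
      have e3 := hbound (x - D.dev y')
      have e4 : 2 * (C0 * ‖x - D.dev y'‖) ≤ 2 * (C0 * (ρ + ρ)) := by
        have := mul_le_mul_of_nonneg_left e2.le hC0.le
        linarith
      have e5 : 2 * (C0 * (ρ + ρ)) = r / 4 := by
        rw [hρdef]
        field_simp
        ring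
      linarith
    have hC := rebase D.dev_local (y := y') (C := {x | pn D.e P' (x - D.dev y') < rad D y' P'})
      (radAux_isOpen_ball _ _ _ _) (radAux_convex_ball D.he hq' _ _)
      (by
        simp only [mem_setOf_eq, sub_self, radAux_pn_zero D.he hq']
        exact hr')
      (fun x hx => mem_dom_of_lt hinc y' hq' hx) (x := D.dev y)
      (hball _ (by simpa using hρ))
    rw [hy4] at hC
    refine hε' _ (radAux_isOpen_ball _ _ _ _) (radAux_convex_ball D.he hq' _ _) hC.1
      (fun x hx => hball x (by simpa [dist_eq_norm] using hx)) (b' - b) hperp1 h1 ?_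
    rw [add_sub_cancel]
    exact hC'1
  -- conclusion
  have hsq : 0 < √(q D.e P') := Real.sqrt_pos.2 hq'
  have h6 : √2 * ‖herm D.e P' n‖ = √(q D.e P') * pn D.e P' n := by
    rw [pn_null D.he hq' hnull]
    field_simp
  rw [h6]
  unfold FR
  rw [div_mul_eq_mul_div, le_div_iff₀ hr', mul_assoc]
  refine mul_le_mul_of_nonneg_left ?_ hsq.le
  rw [mul_comm]
  exact key

theorem FR_pos (y : Y) {P : V} (hP : 0 < q D.e P) : 0 < FR D y P :=
  div_pos (Real.sqrt_pos.2 hP) (rad_pos hinc y hP)

theorem FR_smul (y : Y) (P : V) {a : ℂ} (ha : a ≠ 0) : FR D y (a • P) = ‖a‖ * FR D y P := by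
  unfold FR
  rw [rad_smul hinc y P ha, q_smul, Real.sqrt_mul (sq_nonneg _), Real.sqrt_sq (norm_nonneg _)]
  ring

theorem FR_continuousAt (y : Y) {P : V} (hP : 0 < q D.e P) :
    ContinuousAt (fun p : Y × V => FR D p.1 p.2) (y, P) := by
  unfold FR
  refine ContinuousAt.div ?_ (rad_continuousAt hinc y hP) (rad_pos hinc y hP).ne'
  have : Continuous fun p : Y × V => √(q D.e p.2) :=
    Real.continuous_sqrt.comp (q_continuous.comp (continuous_const.prodMk continuous_snd))
  exact this.continuousAt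

/-- D3: convexity -/
theorem FR_convex (y : Y) {C : Set V} (hC : Convex ℝ C) (hq : ∀ P ∈ C, 0 < q D.e P) :
    ConvexOn ℝ C (FR D y) := by
  refine ⟨hC, fun P0 hP0 P1 hP1 a b ha hb hab => ?_⟩
  set L : ℝ → V := fun t => P0 + t • (P1 - P0) with hL
  have hLc : Continuous L := by fun_prop
  have hLmem : ∀ t ∈ Icc (0 : ℝ) 1, L t ∈ C := by
    intro t ht
    have : L t = (1 - t) • P0 + t • P1 := by
      simp only [hL, smul_sub, sub_smul, one_smul]
      abel
    rw [this]
    exact hC hP0 hP1 (by linarith [ht.2]) ht.1 (by ring)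
  have hcont : ContinuousOn (fun t => FR D y (L t)) (Icc 0 1) := by
    intro t ht
    have h1 := FR_continuousAt hinc y (hq _ (hLmem t ht))
    have h2 : ContinuousAt (fun t => ((y, L t) : Y × V)) t :=
      (continuous_const.prodMk hLc).continuousAt
    exact (ContinuousAt.comp (f := fun t => ((y, L t) : Y × V)) h1 h2).continuousWithinAt
  have hconv : ConvexOn ℝ (Icc (0 : ℝ) 1) (fun t => FR D y (L t)) := by
    refine convexOn_of_local_support hcont fun t ht => ?_
    have hqt := hq _ (hLmem t ⟨ht.1.le, ht.2.le⟩)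
    obtain ⟨b0, hb0⟩ := exists_contact hinc y hqt
    obtain ⟨hv, -, hFR⟩ := cn_norm hinc hqt hb0
    set n := cn D y (L t) b0 with hn
    refine ⟨fun s => √2 * ‖herm D.e (L s) n‖, ?_, hFR, ?_⟩
    · refine ⟨convex_Icc _ _, fun s _ s' _ α β hα hβ hαβ => ?_⟩
      have e1 : L (α • s + β • s') = α • L s + β • L s' := by
        simp only [hL, smul_eq_mul, smul_add, smul_sub, add_smul, mul_smul]
        have : P0 = α • P0 + β • P0 := by rw [← add_smul, hαβ, one_smul]
        nth_rw 1 [this]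
        abel
      simp only [smul_eq_mul] at e1 ⊢
      rw [e1, herm_add_left, herm_real_smul_left, herm_real_smul_left]
      have e2 := norm_add_le ((α : ℂ) * herm D.e (L s) n) ((β : ℂ) * herm D.e (L s') n)
      rw [norm_mul, norm_mul, Complex.norm_real, Complex.norm_real, Real.norm_of_nonneg hα,
        Real.norm_of_nonneg hβ] at e2
      have h2 : (0 : ℝ) ≤ √2 := Real.sqrt_nonneg _
      have := mul_le_mul_of_nonneg_left e2 h2
      linarith
    · have h1 := support hinc hqt hb0
      have h2 : Tendsto (fun s => ((y, L s) : Y × V)) (𝓝 t) (𝓝 (y, L t)) :=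
        (continuous_const.prodMk hLc).tendsto t
      filter_upwards [h2.eventually h1] with s hs
      rw [← hn, hv, norm_one, mul_one] at hs
      exact hs
  have h0 := hconv.2 (x := 0) (y := 1) ⟨le_rfl, zero_le_one⟩ ⟨zero_le_one, le_rfl⟩ ha hb hab
  simp only [smul_eq_mul, mul_zero, mul_one, zero_add] at h0
  have e0 : L 0 = P0 := by simp [hL]
  have e1 : L 1 = P1 := by simp [hL]
  have eb : L b = a • P0 + b • P1 := by
    have : a = 1 - b := by linarith
    simp only [hL, this, smul_sub, sub_smul, one_smul]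
    abel
  rw [e0, e1, eb] at h0
  simpa only [smul_eq_mul] using h0

/-- limits of contacts are contacts -/
theorem contact_closed {α : Type*} {l : Filter α} [NeBot l] {y : Y} {P : V} (hP : 0 < q D.e P)
    {Q B : α → V} {b : V} (hQ : Tendsto Q l (𝓝 P)) (hB : Tendsto B l (𝓝 b))
    (h : ∀ᶠ i in l, IsContact D y (Q i) (B i)) : IsContact D y P b := by
  have hcl : IsClosed (dom D.dev y)ᶜ := (isOpen_dom y).isClosed_compl
  refine ⟨hcl.mem_of_tendsto hB (h.mono fun i hi => hi.1), ?_⟩
  have h1 : Tendsto (fun i => pn D.e (Q i) (B i - D.dev y)) l (𝓝 (pn D.e P (b - D.dev y))) := by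
    have h3 : ContinuousAt (fun p : V × V => pn D.e p.1 p.2) (P, b - D.dev y) :=
      pn_continuousAt hP
    have h4 : Tendsto (fun i => ((Q i, B i - D.dev y) : V × V)) l (𝓝 (P, b - D.dev y)) :=
      hQ.prodMk_nhds (hB.sub_const _)
    have h5 := Tendsto.comp h3 h4
    exact h5
  have h2 : Tendsto (fun i => rad D y (Q i)) l (𝓝 (rad D y P)) := by
    have h3 : ContinuousAt (fun p : Y × V => rad D p.1 p.2) (y, P) := rad_continuousAt hinc y hP
    have h4 : Tendsto (fun i => ((y, Q i) : Y × V)) l (𝓝 (y, P)) :=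
      tendsto_const_nhds.prodMk_nhds hQ
    have h5 := Tendsto.comp h3 h4
    exact h5
  exact tendsto_nhds_unique_of_eventuallyEq h1 h2 (h.mono fun i hi => hi.2)

end

end Pool.Agent.Helper50.HL
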